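import Pool.Agent.Lib.MP_7bc51d_an_slice.Fn

set_option autoImplicit false

/-!
The case distinction with slice integrals of indicator functions.
-/

namespace Pool.Agent.Lib.BilU

open Complex MeasureTheory Set Filter AddCircle
open scoped ComplexConjugate Topology ENNReal NNReal
open Pool.Agent.Lib.Bil Pool.Agent.Lib.BilM Pool.Agent.Lib.BilS

variable {n : ℕ} {v : Fin n → ℂ}

/-- The slice integrals of `f` and `g` differ by a function of the direction. -/
def SlDiff (v : Fin n → ℂ) (f g : ℂ × ℂ → ℝ) (o j : Fin n) (φ : ℝ → ℝ) : Prop :=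
  ∀ᵐ w : ℂ, (∫ x in cut v o j, f (x, w)) - (∫ x in cut v o j, g (x, w)) = φ (Complex.arg w)

theorem int_ind {A : Set (ℂ × ℂ)} (hA : MeasurableSet A) (o j : Fin n) (w : ℂ) :
    ∫ x in cut v o j, A.indicator (1 : ℂ × ℂ → ℝ) (x, w) = arV v A o j w := by
  have hAw : MeasurableSet {x : ℂ | (x, w) ∈ A} := measurable_prodMk_right hA
  unfold arV
  have h1 : ∫ x in cut v o j, A.indicator (1 : ℂ × ℂ → ℝ) (x, w) =
      ∫ x in cut v o j, ({x : ℂ | (x, w) ∈ A}).indicator (1 : ℂ → ℝ) x := by
    congr 1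
  rw [h1, integral_indicator_one hAw, measureReal_restrict_apply hAw, measureReal_def]
  congr 2
  ext x
  simp only [mem_inter_iff, mem_setOf_eq]
  exact and_comm

theorem arDiff_of {A B : Set (ℂ × ℂ)} (hA : MeasurableSet A) (hB : MeasurableSet B)
    {o j : Fin n} {φ : ℝ → ℝ} (h : SlDiff v (A.indicator 1) (B.indicator 1) o j φ) :
    ArDiff v A B o j φ := by
  unfold ArDiff
  filter_upwards [h] with w hw
  rw [← hw, int_ind hA, int_ind hB]

end Pool.Agent.Lib.BilU
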