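import Pool.Agent.Lib.MP_7bc51d_an_slice.OrbDefs
import Pool.Agent.Lib.MP_7bc51d_an_slice.Fin2

set_option autoImplicit false

namespace Pool.Agent.Lib.BilU

open Complex MeasureTheory Set Filter AddCircle
open scoped ComplexConjugate Topology ENNReal NNReal
open Pool.Agent.Lib.Bil Pool.Agent.Lib.BilM Pool.Agent.Lib.BilS

variable {n : ℕ} {v : Fin n → ℂ}

/-- Uniqueness for invariant functions. -/
def StUniq : Prop := ∀ (n : ℕ) (v : Fin n → ℂ), 3 ≤ n → ConvexIndependent ℝ v →
  ∀ (o : Fin n) (f g : ℂ × ℂ → ℝ), Measurable f → Measurable g → (∀ p, |f p| ≤ 1) →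
    (∀ p, |g p| ≤ 1) → (∀ c : ℝ, IA v {p | c < f p}) → (∀ c : ℝ, IA v {p | c < g p}) →
    (∀ j, j ≠ o → ∀ᵐ w : ℂ, ∫ x in cut v o j, f (x, w) = ∫ x in cut v o j, g (x, w)) →
    volume ({p : ℂ × ℂ | f p ≠ g p} ∩ (PP v ×ˢ BV)) = 0

theorem IA_univ : IA v Set.univ :=
  ⟨MeasurableSet.univ, fun _ _ _ _ => by simp,
    fun _ _ => Eventually.of_forall (fun _ _ _ => by simp),
    Eventually.of_forall (fun _ => Eventually.of_forall (fun _ _ _ _ => by simp))⟩

theorem IA_empty : IA v (∅ : Set (ℂ × ℂ)) :=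
  ⟨MeasurableSet.empty, fun _ _ _ _ => by simp,
    fun _ _ => Eventually.of_forall (fun _ _ _ => by simp),
    Eventually.of_forall (fun _ => Eventually.of_forall (fun _ _ _ _ => by simp))⟩

theorem IA_const (a c : ℝ) : IA v {p : ℂ × ℂ | c < (fun _ : ℂ × ℂ => a) p} := by
  by_cases h : c < a
  · have : {p : ℂ × ℂ | c < (fun _ : ℂ × ℂ => a) p} = Set.univ := by
      ext p; simp [h]
    rw [this]; exact IA_univ
  · have : {p : ℂ × ℂ | c < (fun _ : ℂ × ℂ => a) p} = ∅ := by
      ext p; simp [h]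
    rw [this]; exact IA_empty

theorem IA_ind {A : Set (ℂ × ℂ)} (hA : IA v A) (c : ℝ) :
    IA v {p : ℂ × ℂ | c < A.indicator (1 : ℂ × ℂ → ℝ) p} := by
  by_cases h0 : c < 0
  · have : {p : ℂ × ℂ | c < A.indicator (1 : ℂ × ℂ → ℝ) p} = Set.univ := by
      ext p
      simp only [mem_setOf_eq, mem_univ, iff_true]
      exact lt_of_lt_of_le h0 (indicator_nonneg (fun _ _ => zero_le_one) p)
    rw [this]; exact IA_univ
  · by_cases h1 : c < 1
    · have : {p : ℂ × ℂ | c < A.indicator (1 : ℂ × ℂ → ℝ) p} = A := by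
        ext p
        simp only [mem_setOf_eq]
        by_cases hp : p ∈ A
        · rw [indicator_of_mem hp]
          simp [hp, h1]
        · rw [indicator_of_notMem hp]
          simp [hp, not_lt.1 h0]
      rw [this]; exact hA
    · have : {p : ℂ × ℂ | c < A.indicator (1 : ℂ × ℂ → ℝ) p} = ∅ := by
        ext p
        simp only [mem_setOf_eq, mem_empty_iff_false, iff_false, not_lt]
        refine le_trans ?_ (not_lt.1 h1)
        exact indicator_le_self' (fun _ _ => zero_le_one) p
      rw [this]; exact IA_empty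

/-- The observables. -/
noncomputable def ob (v : Fin n → ℂ) (o j : Fin n) (ψ : ℂ → ℝ) (p : ℂ × ℂ) : ℝ :=
  (if 0 < cr (v j - v o) (p.1 - v o) then 1 else 0) * ψ (p.2 / (‖p.2‖ : ℂ))

theorem ob_meas (o j : Fin n) {ψ : ℂ → ℝ} (hψ : Continuous ψ) : Measurable (ob v o j ψ) := by
  unfold ob
  have hcd : Measurable (fun p : ℂ × ℂ => cr (v j - v o) (p.1 - v o)) := by
    apply Continuous.measurable; unfold cr; fun_prop
  refine (Measurable.ite (measurableSet_lt measurable_const hcd) measurable_const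
    measurable_const).mul (hψ.measurable.comp ?_)
  exact measurable_snd.div (Complex.measurable_ofReal.comp measurable_snd.norm)

theorem ob_01 (o j : Fin n) {ψ : ℂ → ℝ} (h : ∀ z, 0 ≤ ψ z ∧ ψ z ≤ 1) (p : ℂ × ℂ) :
    0 ≤ ob v o j ψ p ∧ ob v o j ψ p ≤ 1 := by
  unfold ob
  have := h (p.2 / (‖p.2‖ : ℂ))
  split_ifs
  · rw [one_mul]; exact this
  · rw [zero_mul]; exact ⟨le_rfl, zero_le_one⟩

theorem ob_disc (o j : Fin n) (ψ : ℂ → ℝ) (x w : ℂ) :
    {t : ℝ | ¬ ContinuousAt (fun t : ℝ => ob v o j ψ (x + (t : ℂ) * w, w)) t}.Countable := by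
  set a := cr (v j - v o) (x - v o) with ha
  set b := cr (v j - v o) w with hb
  have he : ∀ t : ℝ, cr (v j - v o) (x + (t : ℂ) * w - v o) = a + t * b := by
    intro t
    rw [ha, hb]
    simp only [cr_sub_right, cr_add_right, cr_smul_right]
    ring
  have hfun : (fun t : ℝ => ob v o j ψ (x + (t : ℂ) * w, w)) =
      fun t : ℝ => (if 0 < a + t * b then 1 else 0) * ψ (w / (‖w‖ : ℂ)) := by
    funext t
    unfold ob
    simp only [he]
  rw [hfun]
  by_cases hb0 : b = 0
  · have : (fun t : ℝ => (if 0 < a + t * b then (1 : ℝ) else 0) * ψ (w / (‖w‖ : ℂ))) =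
        fun _ : ℝ => (if 0 < a then (1 : ℝ) else 0) * ψ (w / (‖w‖ : ℂ)) := by
      funext t
      rw [hb0, mul_zero, add_zero]
    rw [this]
    have h2 : {t : ℝ | ¬ ContinuousAt (fun _ : ℝ => (if 0 < a then (1 : ℝ) else 0) *
        ψ (w / (‖w‖ : ℂ))) t} = ∅ := by
      ext t
      simp only [mem_setOf_eq, mem_empty_iff_false, iff_false, not_not]
      exact continuousAt_const
    rw [h2]
    exact countable_empty
  · refine (countable_singleton (-a / b)).mono ?_
    intro t ht
    rw [mem_singleton_iff]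
    by_contra hne
    apply ht
    have hc : Continuous (fun t : ℝ => a + t * b) := by fun_prop
    have hne' : a + t * b ≠ 0 := by
      intro h
      apply hne
      field_simp
      linarith
    rcases lt_or_gt_of_ne hne' with h | h
    · refine (continuousAt_const (y := (0 : ℝ))).congr ?_
      filter_upwards [hc.continuousAt.eventually_lt continuousAt_const h] with s hs
      rw [if_neg (not_lt.2 hs.le), zero_mul]
    · refine (continuousAt_const (y := ψ (w / (‖w‖ : ℂ)))).congr ?_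
      filter_upwards [continuousAt_const.eventually_lt hc.continuousAt h] with s hs
      rw [if_pos hs, one_mul]

end Pool.Agent.Lib.BilU
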