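import Pool.Agent.Lib.MP_7bc51d_an_slice.Sym57

set_option autoImplicit false

/-!
Invariant functions in mirror symmetric polygons in which the mirror interchanges the ends of all
sides but two (isosceles triangles and isosceles trapezoids) are invariant under the mirror
symmetry composed with the time reversal.
-/

namespace Pool.Agent.Lib.BilU

open Complex MeasureTheory Set Filter AddCircle
open scoped ComplexConjugate Topology ENNReal NNReal
open Pool.Agent.Lib.Bil Pool.Agent.Lib.BilM Pool.Agent.Lib.BilS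

variable {n : ℕ} {v : Fin n → ℂ}

/-- The reflection in the line through `c` orthogonal to `b`. -/
noncomputable def Rm (b c x : ℂ) : ℂ := c - rl b (x - c)

theorem Rm_Rm {b : ℂ} (hb : b ≠ 0) (c x : ℂ) : Rm b c (Rm b c x) = x := by
  unfold Rm
  have e : c - rl b (x - c) - c = -rl b (x - c) := by ring
  rw [e, rl_neg, rl_rl hb]
  ring

/-- Line function of the mirror image (with time reversal). -/
noncomputable def Fm (b c : ℂ) (F : ℂ → ℝ → ℝ) (w : ℂ) (Q : ℝ) : ℝ :=
  F (rl b w) (cr (rl b w) c + Q - cr w c)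

theorem cr_Rm {b : ℂ} (hb : b ≠ 0) (c w y : ℂ) :
    cr (rl b w) c + cr w y - cr w c = cr (rl b w) (Rm b c y) := by
  unfold Rm
  rw [cr_sub_right, cr_rl hb, cr_sub_right]
  ring

/-- The odd part. -/
noncomputable def Fs (b c : ℂ) (F : ℂ → ℝ → ℝ) (w : ℂ) (Q : ℝ) : ℝ :=
  1 / 2 * (F w Q - Fm b c F w Q)

theorem Fs_odd {b : ℂ} (hb : b ≠ 0) (c : ℂ) (F : ℂ → ℝ → ℝ) (w : ℂ) (Q : ℝ) :
    Fs b c F (rl b w) (cr (rl b w) c + Q - cr w c) = - Fs b c F w Q := by
  unfold Fs Fm
  rw [rl_rl hb]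
  have e : cr w c + (cr (rl b w) c + Q - cr w c) - cr (rl b w) c = Q := by ring
  rw [e]
  ring

theorem Fs_LF (b c : ℂ) {F : ℂ → ℝ → ℝ} (hF : LF F) : LF (Fs b c F) := by
  constructor
  · have h0 : Continuous (fun p : ℂ × ℝ => rl b p.1) := (continuous_rl b).comp continuous_fst
    have h1 : Measurable (fun p : ℂ × ℝ => cr (rl b p.1) c + p.2 - cr p.1 c) := by
      apply Continuous.measurable
      have h2 : Continuous (fun p : ℂ × ℝ => cr (rl b p.1) c) :=
        continuous_cr.comp (h0.prodMk continuous_const)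
      have h3 : Continuous (fun p : ℂ × ℝ => cr p.1 c) :=
        continuous_cr.comp (continuous_fst.prodMk continuous_const)
      exact (h2.add continuous_snd).sub h3
    exact (hF.meas.sub (hF.meas.comp (h0.measurable.prodMk h1))).const_mul _
  · intro w Q
    unfold Fs Fm
    have k1 := hF.bd w Q
    have k2 := hF.bd (rl b w) (cr (rl b w) c + Q - cr w c)
    rw [abs_mul]
    have k3 := abs_sub (F w Q) (F (rl b w) (cr (rl b w) c + Q - cr w c))
    have k4 : |(1 / 2 : ℝ)| = 1 / 2 := abs_of_pos (by norm_num)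
    rw [k4]
    linarith

theorem Fs_hom (b c : ℂ) {F : ℂ → ℝ → ℝ} (hhom : HomF F) : HomF (Fs b c F) := by
  intro r hr w Q
  unfold Fs Fm
  have e : cr (rl b ((r : ℂ) * w)) c + r * Q - cr ((r : ℂ) * w) c =
      r * (cr (rl b w) c + Q - cr w c) := by
    rw [rl_smul, cr_smul_left, cr_smul_left]; ring
  rw [e, rl_smul, hhom r hr, hhom r hr]

/-- The mirror maps sides to reversed sides. -/
theorem side_mirror {b c : ℂ} (hb : b ≠ 0) {σ : Fin n → Fin n} (hσ : ∀ i, v (σ i) = Rm b c (v i))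
    (hv : ConvexIndependent ℝ v) {i j : Fin n} (h : IsSide v i j) : IsSide v (σ j) (σ i) := by
  have hss : ∀ a, σ (σ a) = a := by
    intro a
    apply hv.injective
    rw [hσ, hσ, Rm_Rm hb]
  have hinj : ∀ a b, σ a = σ b → a = b := by
    intro a b hab
    rw [← hss a, hab, hss]
  refine ⟨fun h1 => h.1 (hinj _ _ h1.symm), fun k hk1 hk2 => ?_⟩
  have k1 : σ k ≠ i := by
    intro h1
    apply hk2
    rw [← h1, hss]
  have k2 : σ k ≠ j := by
    intro h1
    apply hk1
    rw [← h1, hss]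
  have h2 := h.2 (σ k) k1 k2
  have e0 : ∀ x y : ℂ, Rm b c x - Rm b c y = - rl b (x - y) := by
    intro x y
    unfold Rm
    simp only [rl_sub]
    ring
  have e1 : v (σ i) - v (σ j) = rl b (v j - v i) := by
    rw [hσ, hσ, e0, ← rl_neg]
    congr 1
    ring
  have e2 : v k - v (σ j) = - rl b (v (σ k) - v j) := by
    have : v k = Rm b c (v (σ k)) := by rw [hσ, Rm_Rm hb]
    rw [this, hσ j, e0]
  rw [e1, e2, cr_neg_right, cr_rl hb, neg_neg]
  have e3 : cr (v j - v i) (v (σ k) - v j) = cr (v j - v i) (v (σ k) - v i) := by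
    have : v (σ k) - v j = (v (σ k) - v i) - (v j - v i) := by ring
    rw [this, cr_sub_right, cr_self, sub_zero]
  rw [e3]
  exact h2

theorem nxt_mirror (hn : 3 ≤ n) (hv : ConvexIndependent ℝ v) {b c : ℂ} (hb : b ≠ 0)
    {σ : Fin n → Fin n} (hσ : ∀ i, v (σ i) = Rm b c (v i)) (i : Fin n) :
    nxt hn hv (σ (nxt hn hv i)) = σ i :=
  next_unique (nxt_side hn hv _) (side_mirror hb hσ hv (nxt_side hn hv i))

theorem Fs_sym (hn : 3 ≤ n) (hv : ConvexIndependent ℝ v) {b c : ℂ} (hb : b ≠ 0)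
    {σ : Fin n → Fin n} (hσ : ∀ i, v (σ i) = Rm b c (v i)) {F : ℂ → ℝ → ℝ}
    (hs : ∀ i, SymAt F (v i) (v (nxt hn hv i) - v i)) (i : Fin n) :
    SymAt (Fs b c F) (v i) (v (nxt hn hv i) - v i) := by
  have h1 := hs i
  have h2 := hs (σ (nxt hn hv i))
  rw [nxt_mirror hn hv hb hσ] at h2
  set e : ℂ := v (nxt hn hv i) - v i with he
  have e1 : v (σ i) - v (σ (nxt hn hv i)) = rl b e := by
    rw [hσ, hσ, he]
    unfold Rm
    simp only [rl_sub]
    ring
  rw [e1] at h2
  unfold SymAt at h1 h2 ⊢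
  have h3 := (mp_rl hb).quasiMeasurePreserving.ae h2
  filter_upwards [h1, h3] with w k1 k2
  have hq : Measure.QuasiMeasurePreserving (fun τ : ℝ => 1 - τ) (volume : Measure ℝ) volume :=
    (Measure.measurePreserving_sub_left (volume : Measure ℝ) 1).quasiMeasurePreserving
  have k2' := hq.ae k2
  filter_upwards [k1, k2'] with τ k3 k4 hτ
  have hτ' : (1 - τ) ∈ Ioo (0 : ℝ) 1 := ⟨by linarith [hτ.2], by linarith [hτ.1]⟩
  have k5 := k4 hτ'
  -- the mirror image of the point of the side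
  have e2 : Rm b c (v i + (τ : ℂ) * e) =
      v (σ (nxt hn hv i)) + ((1 - τ : ℝ) : ℂ) * rl b e := by
    rw [hσ]
    unfold Rm
    have q1 : v i + (τ : ℂ) * e - c = (v (nxt hn hv i) - c) - ((1 - τ : ℝ) : ℂ) * e := by
      rw [he]; push_cast; ring
    rw [q1, rl_sub, rl_smul]
    ring
  have e3 : rl (rl b e) (rl b w) = rl b (rl e w) := by
    unfold rl
    simp only [map_mul, map_div₀, conj_conj]
    have hcb : conj b ≠ 0 := by simpa using hb
    by_cases hce : e = 0
    · rw [hce]; simp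
    · have hce' : conj e ≠ 0 := by simpa using hce
      field_simp
  rw [e3] at k5
  unfold Fs Fm
  rw [cr_Rm hb, cr_Rm hb, e2, k3 hτ, k5]

/-- On a side whose ends are interchanged by the mirror the flux of the odd part vanishes. -/
theorem flux_mirror (hn : 3 ≤ n) (hv : ConvexIndependent ℝ v) {b c : ℂ} (hb : b ≠ 0)
    {σ : Fin n → Fin n} (hσ : ∀ i, v (σ i) = Rm b c (v i)) {F : ℂ → ℝ → ℝ}
    (hs : ∀ i, SymAt F (v i) (v (nxt hn hv i) - v i)) {i : Fin n} (hi : σ i = nxt hn hv i) :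
    ∀ᵐ w : ℂ, Mf (Fs b c F) (v i) (v (nxt hn hv i) - v i) w = 0 := by
  have hsym := Fs_sym hn hv hb hσ hs i
  have hvi : v (nxt hn hv i) = Rm b c (v i) := by rw [← hi, hσ]
  set e : ℂ := v (nxt hn hv i) - v i with he
  have hene : e ≠ 0 := v_sub_ne hv (nxt_side hn hv i).ne
  have hcb : conj b ≠ 0 := by simpa using hb
  have hrl : ∀ w, rl e w = rl b w := by
    intro w
    have e1 : conj e * b = conj b * e := by
      rw [he, hvi]
      unfold Rm rl
      simp only [map_sub, map_mul, map_div₀, conj_conj]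
      field_simp
      ring
    unfold rl
    have hce : conj e ≠ 0 := by simpa using hene
    congr 1
    rw [div_eq_div_iff hce hcb]
    linear_combination -e1
  have hS : ∀ w, Sm (Fs b c F) (v i) e 1 (rl e w) = - Sm (Fs b c F) (v i) e 1 w := by
    intro w
    unfold Sm
    have h1 := intervalIntegral.integral_comp_sub_left (a := (0 : ℝ)) (b := 1)
      (fun τ : ℝ => Fs b c F (rl e w) (cr (rl e w) (v i + (τ : ℂ) * e))) 1
    rw [sub_zero, sub_self] at h1
    rw [← h1, ← intervalIntegral.integral_neg]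
    apply intervalIntegral.integral_congr
    intro τ _
    beta_reduce
    have e2 : v i + ((1 - τ : ℝ) : ℂ) * e = Rm b c (v i + (τ : ℂ) * e) := by
      have q1 : v i + (τ : ℂ) * e - c = (v i - c) + (τ : ℂ) * e := by ring
      have q2 : rl b e = e := by
        rw [← hrl]; exact rl_self hene
      unfold Rm
      rw [q1, rl_add, rl_smul, q2]
      have q3 : c - rl b (v i - c) = v (nxt hn hv i) := by rw [hvi]; rfl
      have q4 : v (nxt hn hv i) = v i + e := by rw [he]; ring
      calc v i + ((1 - τ : ℝ) : ℂ) * e = (v i + e) - (τ : ℂ) * e := by push_cast; ring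
        _ = (c - rl b (v i - c)) - (τ : ℂ) * e := by rw [q3, q4]
        _ = _ := by ring
    rw [e2, hrl, ← cr_Rm hb]
    exact Fs_odd hb c F w _
  filter_upwards [Sm_symm hsym] with w hw
  have h1 := hw 1 ⟨zero_le_one, le_rfl⟩
  rw [hS w] at h1
  have h2 : Sm (Fs b c F) (v i) e 1 w = 0 := by linarith
  unfold Mf
  rw [h2, zero_mul]

/-- The odd part vanishes. -/
theorem mir_cr0 (hn : 3 ≤ n) (hv : ConvexIndependent ℝ v) {b c : ℂ} (hb : b ≠ 0)
    {σ : Fin n → Fin n} (hσ : ∀ i, v (σ i) = Rm b c (v i)) {p q : Fin n} (hpq : p ≠ q)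
    (hex : ∀ i, i ≠ p → i ≠ q → σ i = nxt hn hv i) {F : ℂ → ℝ → ℝ} (hF : LF F) (hhom : HomF F)
    (hs : ∀ i, SymAt F (v i) (v (nxt hn hv i) - v i)) :
    Cr v (Fs b c F) ((0 : ℝ) : TT) ≤ 0 := by
  have hFs := Fs_LF b c hF
  have hhs := Fs_hom b c hhom
  obtain ⟨C, hC, hA⟩ := area_bound hn hv hpq
  have hz : Hom1 (fun _ : ℂ => (0 : ℝ)) :=
    ⟨measurable_const, fun r _ w => by simp, ⟨0, le_rfl, fun w => by simp⟩⟩
  have h := cr0_le hn hv hFs hhs (Fs_sym hn hv hb hσ hs)
    (c := 0) (fun S => by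
      apply le_of_eq
      apply Finset.sum_eq_zero
      intro k _
      set R := ∑ i, ‖cN (gam v (Fs b c F) (nxt hn hv i)) k - cN (gam v (Fs b c F) i) k‖ with hR
      have hR0 : 0 ≤ R := Finset.sum_nonneg (fun _ _ => norm_nonneg _)
      have h1 := hA (fun i => cN (gam v (Fs b c F) i) k) 0 R le_rfl hR0 (fun i hip hiq => by
          rw [← cN_Mf hn hv hFs hhs i k, cN_congr (Mf_hom1 hFs hhs _ _) hz
            (flux_mirror hn hv hb hσ hs (hex i hip hiq)) k]
          have h2 := cN_smul (fun _ => (0 : ℝ)) 0 k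
          have h3 : cN (fun _ : ℂ => (0 : ℝ)) k = 0 := by simpa using h2
          rw [h3, norm_zero])
        (fun i => Finset.single_le_sum (f := fun i =>
          ‖cN (gam v (Fs b c F) (nxt hn hv i)) k - cN (gam v (Fs b c F) i) k‖)
          (fun i _ => norm_nonneg _) (Finset.mem_univ i))
      rw [zero_mul, mul_zero] at h1
      have h4 := le_antisymm h1 (norm_nonneg _)
      rw [h4, mul_zero])
  rwa [mul_zero] at h

theorem Rm_mem_PP {b c : ℂ} (hb : b ≠ 0) {σ : Fin n → Fin n} (hσ : ∀ i, v (σ i) = Rm b c (v i))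
    (hv : ConvexIndependent ℝ v) {x : ℂ} (hx : x ∈ PP v) : Rm b c x ∈ PP v := by
  have hss : ∀ a, σ (σ a) = a := by
    intro a
    apply hv.injective
    rw [hσ, hσ, Rm_Rm hb]
  set L : ℂ ≃ₗᵢ[ℝ] ℂ := rlEquiv b hb with hL
  set T : ℂ ≃ₜ ℂ := ((Homeomorph.subRight c).trans L.toHomeomorph).trans (Homeomorph.subLeft c)
    with hT
  have hTe : ∀ x, T x = Rm b c x := fun x => rfl
  have hg : T '' (KK v) = KK v := by
    have hlin : (T : ℂ → ℂ) = fun x => (c - rl b (-c)) + (-(L.toLinearEquiv.toLinearMap)) x := by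
      funext x
      rw [hTe]
      unfold Rm
      have : x - c = x + -c := by ring
      rw [this, rl_add]
      change c - (rl b x + rl b (-c)) = c - rl b (-c) + - rl b x
      ring
    have hr : T '' (Set.range v) = Set.range v := by
      ext y
      constructor
      · rintro ⟨_, ⟨i, rfl⟩, rfl⟩
        exact ⟨σ i, by rw [hσ, hTe]⟩
      · rintro ⟨i, rfl⟩
        refine ⟨v (σ i), ⟨σ i, rfl⟩, ?_⟩
        rw [hTe, ← hσ, hss]
    have hco : T '' (convexHull ℝ (Set.range v)) = convexHull ℝ (T '' (Set.range v)) := by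
      set A : ℂ →ᵃ[ℝ] ℂ := (-(L.toLinearEquiv.toLinearMap)).toAffineMap +
        AffineMap.const ℝ ℂ (c - rl b (-c)) with hA
      have e : (T : ℂ → ℂ) = A := by
        rw [hlin]
        funext x
        rw [hA]
        simp only [AffineMap.coe_add, Pi.add_apply, LinearMap.coe_toAffineMap,
          AffineMap.const_apply]
        ring
      rw [e, AffineMap.image_convexHull]
    unfold KK
    rw [hco, hr]
  have h1 : T '' (interior (KK v)) = interior (KK v) := by
    have := T.image_interior (KK v)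
    rw [hg] at this
    exact this
  have h2 : T x ∈ T '' (interior (KK v)) := ⟨x, hx, rfl⟩
  rw [h1] at h2
  rw [← hTe]
  exact h2

/-- Invariant functions are invariant under the mirror symmetry with time reversal. -/
theorem mir_symmetric (hn : 3 ≤ n) (hv : ConvexIndependent ℝ v) {b c : ℂ} (hb : b ≠ 0)
    {σ : Fin n → Fin n} (hσ : ∀ i, v (σ i) = Rm b c (v i)) {p q : Fin n} (hpq : p ≠ q)
    (hex : ∀ i, i ≠ p → i ≠ q → σ i = nxt hn hv i) {f : ℂ × ℂ → ℝ} (hfm : Measurable f)
    (hfb : ∀ p, |f p| ≤ 1) (hf : ∀ c : ℝ, IA v {p | c < f p}) :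
    ∀ᵐ z : ℂ × ℂ, z ∈ PP v ×ˢ Metric.ball (0 : ℂ) 1 → f (Rm b c z.1, rl b z.2) = f z := by
  have hF := LF_Fl (v := v) hfm
  have hhom := Fl_hom hf
  have hs : ∀ i, SymAt (Fl v f) (v i) (v (nxt hn hv i) - v i) := fun i =>
    Fl_sym hn hv hf (nxt_side hn hv i)
  have h1 := F_zero_of_cr0 (v := v) (Fs_LF b c hF) (Fs_hom b c hhom)
    (mir_cr0 hn hv hb hσ hpq hex hF hhom hs)
  have h2 := Fl_ae_prod hfm hfb hf
  have hmR : MeasurePreserving (Rm b c) (volume : Measure ℂ) volume :=
    ((Measure.measurePreserving_sub_left (volume : Measure ℂ) c).comp (mp_rl hb)).comp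
      (measurePreserving_sub_right (volume : Measure ℂ) c)
  have hmp : MeasurePreserving (fun z : ℂ × ℂ => (Rm b c z.1, rl b z.2))
      (volume : Measure (ℂ × ℂ)) (volume : Measure (ℂ × ℂ)) := hmR.prod (mp_rl hb)
  have h3 := hmp.quasiMeasurePreserving.ae h2
  filter_upwards [h1, h2, h3] with z k1 k2 k3 hz
  have k4 := k1 hz
  have k5 := k2 hz.1
  have k6 := k3 (Rm_mem_PP hb hσ hv hz.1)
  unfold Fs Fm at k4
  rw [cr_Rm hb, k5] at k4
  rw [k6] at k4
  linarith

end Pool.Agent.Lib.BilU
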