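import Pool.Agent.Lib.MP_7bc51d_an_slice.StabFn

set_option autoImplicit false

/-!
Invariant functions in a parallelogram are centrally symmetric.
-/

namespace Pool.Agent.Lib.BilU

open Complex MeasureTheory Set Filter AddCircle
open scoped ComplexConjugate Topology ENNReal NNReal
open Pool.Agent.Lib.Bil Pool.Agent.Lib.BilM Pool.Agent.Lib.BilS

variable {n : ℕ} {v : Fin n → ℂ}

/-- The odd part of a line function under the central symmetry about `c`. -/
noncomputable def Fo (c : ℂ) (F : ℂ → ℝ → ℝ) (w : ℂ) (Q : ℝ) : ℝ :=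
  1 / 2 * (F w Q - F w (2 * cr w c - Q))

theorem Fo_odd (c : ℂ) (F : ℂ → ℝ → ℝ) (w : ℂ) (Q : ℝ) :
    Fo c F w (2 * cr w c - Q) = - Fo c F w Q := by
  unfold Fo
  rw [sub_sub_cancel]
  ring

theorem Fo_LF (c : ℂ) {F : ℂ → ℝ → ℝ} (hF : LF F) : LF (Fo c F) := by
  constructor
  · have h1 : Measurable (fun p : ℂ × ℝ => 2 * cr p.1 c - p.2) := by
      apply Continuous.measurable; unfold cr; fun_prop
    exact (hF.meas.sub (hF.meas.comp (measurable_fst.prodMk h1))).const_mul _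
  · intro w Q
    unfold Fo
    have k1 := hF.bd w Q
    have k2 := hF.bd w (2 * cr w c - Q)
    rw [abs_mul]
    have k3 := abs_sub (F w Q) (F w (2 * cr w c - Q))
    have k4 : |(1 / 2 : ℝ)| = 1 / 2 := abs_of_pos (by norm_num)
    rw [k4]
    linarith

theorem Fo_hom (c : ℂ) {F : ℂ → ℝ → ℝ} (hhom : HomF F) : HomF (Fo c F) := by
  intro r hr w Q
  unfold Fo
  have e : 2 * cr ((r : ℂ) * w) c - r * Q = r * (2 * cr w c - Q) := by
    rw [cr_smul_left]; ring
  rw [e, hhom r hr, hhom r hr]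

/-- The central symmetry of the polygon maps sides to sides. -/
theorem side_central {c : ℂ} {σ : Fin n → Fin n} (hσ : ∀ i, v (σ i) = 2 * c - v i)
    (hv : ConvexIndependent ℝ v) {i j : Fin n} (h : IsSide v i j) : IsSide v (σ i) (σ j) := by
  have hinj : ∀ a b, σ a = σ b → a = b := by
    intro a b hab
    apply hv.injective
    have h1 := hσ a
    rw [hab, hσ b] at h1
    linear_combination h1
  have hss : ∀ a, σ (σ a) = a := by
    intro a
    apply hv.injective
    rw [hσ, hσ]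
    ring
  refine ⟨fun h1 => h.1 (hinj _ _ h1), fun k hk1 hk2 => ?_⟩
  have k1 : σ k ≠ i := by
    intro h1
    apply hk1
    rw [← h1, hss]
  have k2 : σ k ≠ j := by
    intro h1
    apply hk2
    rw [← h1, hss]
  have h2 := h.2 (σ k) k1 k2
  have e1 : v (σ j) - v (σ i) = -(v j - v i) := by rw [hσ, hσ]; ring
  have e2 : v k - v (σ i) = -(v (σ k) - v i) := by rw [hσ, hσ]; ring
  rw [e1, e2, cr_neg_left, cr_neg_right, neg_neg]
  exact h2

theorem nxt_central (hn : 3 ≤ n) (hv : ConvexIndependent ℝ v) {c : ℂ} {σ : Fin n → Fin n}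
    (hσ : ∀ i, v (σ i) = 2 * c - v i) (i : Fin n) :
    nxt hn hv (σ i) = σ (nxt hn hv i) :=
  next_unique (nxt_side hn hv _) (side_central hσ hv (nxt_side hn hv i))

theorem Fo_sym (hn : 3 ≤ n) (hv : ConvexIndependent ℝ v) {c : ℂ} {σ : Fin n → Fin n}
    (hσ : ∀ i, v (σ i) = 2 * c - v i) {F : ℂ → ℝ → ℝ}
    (hs : ∀ i, SymAt F (v i) (v (nxt hn hv i) - v i)) (i : Fin n) :
    SymAt (Fo c F) (v i) (v (nxt hn hv i) - v i) := by
  have h1 := hs i
  have h2 := hs (σ i)
  rw [nxt_central hn hv hσ] at h2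
  have e1 : v (σ (nxt hn hv i)) - v (σ i) = -(v (nxt hn hv i) - v i) := by
    rw [hσ, hσ]; ring
  rw [e1] at h2
  unfold SymAt at h1 h2 ⊢
  set e : ℂ := v (nxt hn hv i) - v i with he
  filter_upwards [h1, h2] with w k1 k2
  filter_upwards [k1, k2] with τ k3 k4 hτ
  have e2 : ∀ z : ℂ, 2 * cr z c - cr z (v i + (τ : ℂ) * e) = cr z (v (σ i) + (τ : ℂ) * -e) := by
    intro z
    rw [hσ]
    have : (2 * c - v i + (τ : ℂ) * -e) = ((2 : ℝ) : ℂ) * c - (v i + (τ : ℂ) * e) := by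
      push_cast; ring
    rw [this, cr_sub_right, cr_smul_right]
  have k5 := k4 hτ
  have erl : rl (-e) w = rl e w := by
    unfold rl
    rw [map_neg, neg_div_neg_eq]
  rw [erl] at k5
  unfold Fo
  rw [e2, e2, k3 hτ, k5]

/-- The potential of the odd part is centrally symmetric. -/
theorem gam_central {c : ℂ} {σ : Fin n → Fin n} (hσ : ∀ i, v (σ i) = 2 * c - v i)
    {F : ℂ → ℝ → ℝ} (hF : LF F) (i : Fin n) (w : ℂ) :
    gam v (Fo c F) (σ i) w = gam v (Fo c F) i w := by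
  have hFo := Fo_LF c hF
  unfold gam
  have e : cr w (v (σ i)) = 2 * cr w c - cr w (v i) := by
    rw [hσ]
    have : (2 * c - v i) = ((2 : ℝ) : ℂ) * c - v i := by push_cast; ring
    rw [this, cr_sub_right, cr_smul_right]
  rw [e, ← sub_eq_zero, Gp_sub hFo]
  set q := cr w c with hq
  set Q := cr w (v i) with hQ
  have h1 : ∫ x in Q..(2 * q - Q), Fo c F w x = ∫ x in Q..(2 * q - Q), Fo c F w (2 * q - x) := by
    rw [intervalIntegral.integral_comp_sub_left (fun x => Fo c F w x), sub_sub_cancel]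
  have h2 : ∫ x in Q..(2 * q - Q), Fo c F w (2 * q - x) =
      - ∫ x in Q..(2 * q - Q), Fo c F w x := by
    rw [← intervalIntegral.integral_neg]
    apply intervalIntegral.integral_congr
    intro x _
    exact Fo_odd c F w x
  rw [h2] at h1
  linarith

/-- A potential invariant under two steps has area zero. -/
theorem Ar_two_step (hn : 3 ≤ n) (hv : ConvexIndependent ℝ v) {γ : Fin n → ℂ}
    (h : ∀ i, γ (nxt hn hv (nxt hn hv i)) = γ i) : Ar hn hv γ = 0 := by
  unfold Ar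
  have h1 := sum_nxt_C hn hv
    (fun i => conj (γ (nxt hn hv i) - γ i) * (γ i + γ (nxt hn hv i)))
  beta_reduce at h1
  simp_rw [h] at h1
  have h2 : ∑ i, conj (γ i - γ (nxt hn hv i)) * (γ (nxt hn hv i) + γ i) =
      - ∑ i, conj (γ (nxt hn hv i) - γ i) * (γ i + γ (nxt hn hv i)) := by
    rw [← Finset.sum_neg_distrib]
    refine Finset.sum_congr rfl (fun i _ => ?_)
    rw [map_sub, map_sub]
    ring
  rw [h2] at h1
  linear_combination (-1 / 2 : ℂ) * h1

/-- The combinatorics of a parallelogram. -/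
theorem par_comb (a b i : Fin 4) (h1 : a ≠ i) (h2 : a ≠ i + 2) (h3 : b ≠ a) (h4 : b ≠ a + 2)
    (h5 : b ≠ i) : b = i + 2 := by
  revert a b i
  decide

/-- The centre of a parallelogram. -/
noncomputable def cen (v : Fin 4 → ℂ) : ℂ := (v 0 + v 2) / 2

theorem par_sym {v : Fin 4 → ℂ} (hp : v 0 + v 2 = v 1 + v 3) (i : Fin 4) :
    v (i + 2) = 2 * cen v - v i := by
  unfold cen
  fin_cases i
  · change v 2 = 2 * ((v 0 + v 2) / 2) - v 0
    ring
  · change v 3 = 2 * ((v 0 + v 2) / 2) - v 1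
    linear_combination -hp
  · change v 0 = 2 * ((v 0 + v 2) / 2) - v 2
    ring
  · change v 1 = 2 * ((v 0 + v 2) / 2) - v 3
    linear_combination -hp

theorem par_nxt {v : Fin 4 → ℂ} (hn : 3 ≤ 4) (hv : ConvexIndependent ℝ v)
    (hp : v 0 + v 2 = v 1 + v 3) (i : Fin 4) :
    nxt hn hv (nxt hn hv i) = i + 2 := by
  have hσ := par_sym hp
  have hne : ∀ j : Fin 4, nxt hn hv j ≠ j := fun j => (nxt_side hn hv j).ne.symm
  have hne2 : ∀ j : Fin 4, nxt hn hv (nxt hn hv j) ≠ j := by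
    intro j h
    have h1 := nxt_side hn hv j
    have h2 := nxt_side hn hv (nxt hn hv j)
    rw [h] at h2
    exact not_both_sides hn h1 h2
  have hop : ∀ j : Fin 4, nxt hn hv j ≠ j + 2 := by
    intro j h
    have h1 := nxt_central hn hv (σ := fun i => i + 2) hσ j
    beta_reduce at h1
    rw [h] at h1
    have e : ∀ j : Fin 4, j + 2 + 2 = j := by decide
    rw [e] at h1
    apply hne2 j
    rw [h]
    exact h1
  exact par_comb (nxt hn hv i) _ i (hne i) (hop i) (hne _) (hop _) (hne2 i)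

/-- The odd part vanishes in a parallelogram. -/
theorem par_cr0 {v : Fin 4 → ℂ} (hn : 3 ≤ 4) (hv : ConvexIndependent ℝ v)
    (hp : v 0 + v 2 = v 1 + v 3) {F : ℂ → ℝ → ℝ} (hF : LF F) (hhom : HomF F)
    (hs : ∀ i, SymAt F (v i) (v (nxt hn hv i) - v i)) :
    Cr v (Fo (cen v) F) ((0 : ℝ) : TT) ≤ 0 := by
  have hσ : ∀ i, v ((fun i : Fin 4 => i + 2) i) = 2 * cen v - v i := par_sym hp
  have h := cr0_le hn hv (Fo_LF (cen v) hF) (Fo_hom (cen v) hhom) (Fo_sym hn hv hσ hs)
    (c := 0) (fun S => by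
      apply le_of_eq
      apply Finset.sum_eq_zero
      intro k _
      rw [Ar_two_step hn hv (fun i => ?_), norm_zero, mul_zero]
      have e : gam v (Fo (cen v) F) (nxt hn hv (nxt hn hv i)) = gam v (Fo (cen v) F) i := by
        funext w
        rw [par_nxt hn hv hp]
        exact gam_central hσ hF i w
      rw [e])
  rwa [mul_zero] at h

/-- Passing from a line function to the function. -/
theorem Fl_ae_prod {f : ℂ × ℂ → ℝ} (hfm : Measurable f) (hfb : ∀ p, |f p| ≤ 1)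
    (hf : ∀ c : ℝ, IA v {p | c < f p}) :
    ∀ᵐ p : ℂ × ℂ, p.1 ∈ PP v → Fl v f p.2 (cr p.2 p.1) = f p := by
  have hPm : MeasurableSet (PP v) := isOpen_PP.measurableSet
  have hsw : MeasurePreserving (Prod.swap : ℂ × ℂ → ℂ × ℂ)
      (volume : Measure (ℂ × ℂ)) (volume : Measure (ℂ × ℂ)) := Measure.measurePreserving_swap
  have g1 := Fl_ae hfb hf
  have m1 := meas_F_comp1 (LF_Fl (v := v) hfm)
  have m2 : Measurable (fun p : ℂ × ℂ => f (p.2, p.1)) :=
    hfm.comp (measurable_snd.prodMk measurable_fst)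
  have hPm2 : MeasurableSet {p : ℂ × ℂ | p.2 ∈ PP v} := hPm.preimage measurable_snd
  have hm : MeasurableSet {p : ℂ × ℂ | p.2 ∈ PP v → Fl v f p.1 (cr p.1 p.2) = f (p.2, p.1)} :=
    hPm2.imp (measurableSet_eq_fun m1 m2)
  have g2 : ∀ᵐ p ∂((volume : Measure ℂ).prod (volume : Measure ℂ)), p.2 ∈ PP v →
      Fl v f p.1 (cr p.1 p.2) = f (p.2, p.1) := by
    rw [Measure.ae_prod_iff_ae_ae hm]
    exact g1
  exact hsw.quasiMeasurePreserving.ae g2

/-- A line function with vanishing correlation at zero vanishes. -/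
theorem F_zero_of_cr0 {F : ℂ → ℝ → ℝ} (hF : LF F) (hhom : HomF F)
    (h : Cr v F ((0 : ℝ) : TT) ≤ 0) :
    ∀ᵐ p : ℂ × ℂ, p ∈ PP v ×ˢ Metric.ball (0 : ℂ) 1 → F p.2 (cr p.2 p.1) = 0 := by
  have h2 := sq_le_cr0 (v := v) hF hhom
  have hPm : MeasurableSet (PP v) := isOpen_PP.measurableSet
  have hms : MeasurableSet (PP v ×ˢ Metric.ball (0 : ℂ) 1) := hPm.prod measurableSet_ball
  have hfin : (volume : Measure (ℂ × ℂ)) (PP v ×ˢ Metric.ball (0 : ℂ) 1) ≠ ⊤ := by
    rw [Measure.volume_eq_prod, Measure.prod_prod]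
    exact ENNReal.mul_ne_top isBounded_PP.measure_lt_top.ne measure_ball_lt_top.ne
  have h3 : ∫ p in PP v ×ˢ Metric.ball (0 : ℂ) 1, F p.2 (cr p.2 p.1) ^ 2 = 0 := by
    refine le_antisymm (h2.trans ?_) (integral_nonneg (fun p => sq_nonneg _))
    linarith
  have hi : IntegrableOn (fun p : ℂ × ℂ => F p.2 (cr p.2 p.1) ^ 2)
      (PP v ×ˢ Metric.ball (0 : ℂ) 1) := by
    refine Integrable.mono' (integrableOn_const (C := (1 : ℝ)) hfin)
      ((meas_F_swap hF).pow_const 2).aestronglyMeasurable (Eventually.of_forall (fun p => ?_))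
    rw [Real.norm_eq_abs, abs_of_nonneg (sq_nonneg _), ← sq_abs]
    have k1 := hF.bd p.2 (cr p.2 p.1)
    have k2 := abs_nonneg (F p.2 (cr p.2 p.1))
    nlinarith
  rw [setIntegral_eq_zero_iff_of_nonneg_ae (Eventually.of_forall (fun p => sq_nonneg _)) hi,
    EventuallyEq, ae_restrict_iff' hms] at h3
  filter_upwards [h3] with p hp hpm
  have h4 := hp hpm
  simp only [Pi.zero_apply] at h4
  exact pow_eq_zero_iff two_ne_zero |>.1 h4

theorem refl_mem_PP {c : ℂ} {σ : Fin n → Fin n} (hσ : ∀ i, v (σ i) = 2 * c - v i)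
    (hv : ConvexIndependent ℝ v) {x : ℂ} (hx : x ∈ PP v) : 2 * c - x ∈ PP v := by
  have hss : ∀ a, σ (σ a) = a := by
    intro a
    apply hv.injective
    rw [hσ, hσ]
    ring
  have hg : (fun x : ℂ => 2 * c - x) '' (KK v) = KK v := by
    have e : (fun x : ℂ => 2 * c - x) = (AffineMap.homothety c (-1 : ℝ) : ℂ →ᵃ[ℝ] ℂ) := by
      funext x
      rw [AffineMap.homothety_apply]
      simp only [vsub_eq_sub, vadd_eq_add, neg_smul, one_smul]
      ring
    have hr : (fun x : ℂ => 2 * c - x) '' (Set.range v) = Set.range v := by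
      ext y
      constructor
      · rintro ⟨_, ⟨i, rfl⟩, rfl⟩
        exact ⟨σ i, hσ i⟩
      · rintro ⟨i, rfl⟩
        refine ⟨v (σ i), ⟨σ i, rfl⟩, ?_⟩
        beta_reduce
        rw [hσ]; ring
    unfold KK
    rw [e, AffineMap.image_convexHull, ← e, hr]
  have hH : IsHomeomorph (fun x : ℂ => 2 * c - x) :=
    (Homeomorph.subLeft (2 * c)).isHomeomorph
  have h1 : (fun x : ℂ => 2 * c - x) '' (interior (KK v)) = interior (KK v) := by
    have := (Homeomorph.subLeft (2 * c)).image_interior (KK v)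
    have e2 : ((Homeomorph.subLeft (2 * c)) : ℂ → ℂ) = fun x : ℂ => 2 * c - x := rfl
    rw [e2, hg] at this
    exact this
  have h2 : 2 * c - x ∈ (fun x : ℂ => 2 * c - x) '' (interior (KK v)) := ⟨x, hx, rfl⟩
  rw [h1] at h2
  exact h2

/-- Every bounded invariant function in a parallelogram is centrally symmetric in the position. -/
theorem par_symmetric {v : Fin 4 → ℂ} (hn : 3 ≤ 4) (hv : ConvexIndependent ℝ v)
    (hp : v 0 + v 2 = v 1 + v 3) {f : ℂ × ℂ → ℝ} (hfm : Measurable f) (hfb : ∀ p, |f p| ≤ 1)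
    (hf : ∀ c : ℝ, IA v {p | c < f p}) :
    ∀ᵐ p : ℂ × ℂ, p ∈ PP v ×ˢ Metric.ball (0 : ℂ) 1 → f (2 * cen v - p.1, p.2) = f p := by
  have hσ : ∀ i, v ((fun i : Fin 4 => i + 2) i) = 2 * cen v - v i := par_sym hp
  have hF := LF_Fl (v := v) hfm
  have hhom := Fl_hom hf
  have hs : ∀ i, SymAt (Fl v f) (v i) (v (nxt hn hv i) - v i) := fun i =>
    Fl_sym hn hv hf (nxt_side hn hv i)
  have h1 := F_zero_of_cr0 (v := v) (Fo_LF (cen v) hF) (Fo_hom (cen v) hhom)
    (par_cr0 hn hv hp hF hhom hs)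
  have h2 := Fl_ae_prod hfm hfb hf
  have hmp : MeasurePreserving (fun p : ℂ × ℂ => (2 * cen v - p.1, p.2))
      (volume : Measure (ℂ × ℂ)) (volume : Measure (ℂ × ℂ)) :=
    (Measure.measurePreserving_sub_left (volume : Measure ℂ) (2 * cen v)).prod
      (MeasurePreserving.id (volume : Measure ℂ))
  have h3 := hmp.quasiMeasurePreserving.ae h2
  filter_upwards [h1, h2, h3] with p k1 k2 k3 hpm
  have k4 := k1 hpm
  have k5 := k2 hpm.1
  have k6 := k3 (refl_mem_PP hσ hv hpm.1)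
  unfold Fo at k4
  have e : 2 * cr p.2 (cen v) - cr p.2 p.1 = cr p.2 (2 * cen v - p.1) := by
    have : (2 * cen v - p.1) = ((2 : ℝ) : ℂ) * cen v - p.1 := by push_cast; ring
    rw [this, cr_sub_right, cr_smul_right]
  rw [e, k5] at k4
  rw [k6] at k4
  linarith

end Pool.Agent.Lib.BilU
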