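import Pool.Agent.Lib.MP_7bc51d_an_slice.Defs

set_option autoImplicit false

/-!
Row AREA: the area of a closed polygon whose vertex functionals are small.
-/

namespace Pool.Agent.Lib.BilU

open Complex MeasureTheory Set Filter AddCircle
open scoped ComplexConjugate Topology ENNReal NNReal
open Pool.Agent.Lib.Bil Pool.Agent.Lib.BilM Pool.Agent.Lib.BilS

/-- The area is purely imaginary. -/
theorem Ar_re {n : ℕ} {v : Fin n → ℂ} (hn : 3 ≤ n) (hv : ConvexIndependent ℝ v)
    (γ : Fin n → ℂ) : (Ar hn hv γ).re = 0 := by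
  unfold Ar
  rw [Complex.re_sum]
  have h1 : ∀ i, (conj (γ (nxt hn hv i) - γ i) * (γ i + γ (nxt hn hv i))).re =
      Complex.normSq (γ (nxt hn hv i)) - Complex.normSq (γ i) := by
    intro i
    simp only [Complex.mul_re, Complex.conj_re, Complex.conj_im, Complex.sub_re, Complex.sub_im,
      Complex.add_re, Complex.add_im, Complex.normSq_apply]
    ring
  simp_rw [h1]
  rw [Finset.sum_sub_distrib]
  have h2 : ∑ i, Complex.normSq (γ (nxt hn hv i)) = ∑ i, Complex.normSq (γ i) :=
    (Equiv.ofBijective _ (nxt_bijective hn hv)).sum_comp (fun i => Complex.normSq (γ i))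
  rw [h2, sub_self]

/-- Row AREA. -/
theorem stArea : StArea := by
  intro n v hn hv
  obtain ⟨C, hC, hb⟩ := all_bound hn hv (⟨0, by omega⟩ : Fin n)
  refine ⟨n * (1 + 2 * C), by positivity, ?_⟩
  intro γ X μ R hμ hR h1 h2 h3
  set i0 : Fin n := ⟨0, by omega⟩ with hi0
  have hd : ∀ i, ‖(γ i - X i) - (γ i0 - X i0)‖ ≤ C * μ := by
    have := hb (fun i => γ i - X i) μ (fun i => ?_) hμ
    · exact this
    · have e : (γ (nxt hn hv i) - X (nxt hn hv i)) - (γ i - X i) =
          (γ (nxt hn hv i) - γ i) + X i - X (nxt hn hv i) := by ring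
      simp only [e]
      exact h2 i
  have hns : ‖Ar hn hv γ‖ = |(Ar hn hv γ).im| := by
    have : Ar hn hv γ = ((Ar hn hv γ).im : ℂ) * I := by
      apply Complex.ext
      · simp [Ar_re]
      · simp
    conv_lhs => rw [this]
    rw [norm_mul, Complex.norm_I, mul_one, Complex.norm_real, Real.norm_eq_abs]
  rw [hns, ← Ar_shift hn hv γ (γ i0 - X i0)]
  unfold Ar
  rw [Complex.im_sum]
  have key : ∀ i, |(conj ((γ (nxt hn hv i) - (γ i0 - X i0)) - (γ i - (γ i0 - X i0))) *
      ((γ i - (γ i0 - X i0)) + (γ (nxt hn hv i) - (γ i0 - X i0)))).im| ≤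
      (1 + 2 * C) * (μ * R) := by
    intro i
    set E := γ (nxt hn hv i) - γ i with hE
    set ν := E + X i - X (nxt hn hv i) with hν
    set e1 := (γ i - X i) - (γ i0 - X i0) with he1
    set e2 := (γ (nxt hn hv i) - X (nxt hn hv i)) - (γ i0 - X i0) with he2
    have hsum : conj ((γ (nxt hn hv i) - (γ i0 - X i0)) - (γ i - (γ i0 - X i0))) *
        ((γ i - (γ i0 - X i0)) + (γ (nxt hn hv i) - (γ i0 - X i0))) =
        conj E * ν - conj E * E + 2 * (conj E * X (nxt hn hv i)) + conj E * (e1 + e2) := by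
      have a1 : (γ (nxt hn hv i) - (γ i0 - X i0)) - (γ i - (γ i0 - X i0)) = E := by
        rw [hE]; ring
      rw [a1, hν, he1, he2]
      ring
    rw [hsum]
    have b1 : (conj E * E).im = 0 := by
      simp only [Complex.mul_im, Complex.conj_re, Complex.conj_im]; ring
    have b2 : (2 * (conj E * X (nxt hn hv i))).im = 0 := by
      have := h1 i
      rw [← hE] at this
      simp only [Complex.mul_im, Complex.re_ofNat, Complex.im_ofNat]
      simp only [Complex.mul_im] at this
      linear_combination 2 * this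
    have b3 : (conj E * ν - conj E * E + 2 * (conj E * X (nxt hn hv i)) + conj E * (e1 + e2)).im =
        (conj E * ν + conj E * (e1 + e2)).im := by
      rw [Complex.add_im, Complex.add_im, Complex.sub_im, b1, b2, Complex.add_im]; ring
    rw [b3]
    refine (Complex.abs_im_le_norm _).trans ((norm_add_le _ _).trans ?_)
    rw [norm_mul, norm_mul, RCLike.norm_conj]
    have c1 : ‖E‖ ≤ R := h3 i
    have c2 : ‖ν‖ ≤ μ := h2 i
    have c3 : ‖e1 + e2‖ ≤ C * μ + C * μ :=
      (norm_add_le _ _).trans (add_le_add (hd i) (hd (nxt hn hv i)))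
    calc ‖E‖ * ‖ν‖ + ‖E‖ * ‖e1 + e2‖ ≤ R * μ + R * (C * μ + C * μ) := by gcongr
      _ = _ := by ring
  refine (Finset.abs_sum_le_sum_abs _ _).trans ((Finset.sum_le_sum (fun i _ => key i)).trans ?_)
  rw [Finset.sum_const, Finset.card_univ, Fintype.card_fin, nsmul_eq_mul]
  exact le_of_eq (by ring)

end Pool.Agent.Lib.BilU
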