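import Pool.Agent.Lib.MP_7bc51d_an_slice.Coef

set_option autoImplicit false

/-!
Bessel's inequality for homogeneous functions in terms of the integral over the ball, and the
bound for the fluxes through the sides by the correlation at the angle zero.
-/

namespace Pool.Agent.Lib.BilU

open Complex MeasureTheory Set Filter AddCircle
open scoped ComplexConjugate Topology ENNReal NNReal
open Pool.Agent.Lib.Bil Pool.Agent.Lib.BilM Pool.Agent.Lib.BilS

variable {n : ℕ} {v : Fin n → ℂ}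

/-- Parseval's inequality for bounded measurable functions on the circle, with the integral. -/
theorem bessel_int {m : TT → ℝ} (hm : Measurable m) {B : ℝ} (hb : ∀ t, |m t| ≤ B)
    (S : Finset ℤ) :
    ∑ k ∈ S, ‖fourierCoeff (fun t : TT => ((m t : ℝ) : ℂ)) k‖ ^ 2 ≤
      ∫ t : TT, m t ^ 2 ∂haarAddCircle := by
  have hmem : MemLp (fun t : TT => ((m t : ℝ) : ℂ)) 2 (haarAddCircle : Measure TT) := by
    refine MemLp.of_bound (C := B) (Complex.measurable_ofReal.comp hm).aestronglyMeasurable ?_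
    refine Eventually.of_forall (fun t => ?_)
    rw [norm_real, Real.norm_eq_abs]
    exact hb t
  have h1 := hasSum_sq_fourierCoeff hmem.toLp
  have h2 : fourierCoeff (⇑hmem.toLp) = fourierCoeff (fun t : TT => ((m t : ℝ) : ℂ)) :=
    fourierCoeff_congr_ae hmem.coeFn_toLp
  rw [h2] at h1
  have h3 : ∑ k ∈ S, ‖fourierCoeff (fun t : TT => ((m t : ℝ) : ℂ)) k‖ ^ 2 ≤
      ∫ t : TT, ‖(⇑hmem.toLp : TT → ℂ) t‖ ^ 2 ∂haarAddCircle := by
    have := h1.summable.sum_le_tsum S (fun k _ => by positivity)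
    rwa [h1.tsum_eq] at this
  refine h3.trans (le_of_eq ?_)
  apply integral_congr_ae
  filter_upwards [hmem.coeFn_toLp] with t ht
  rw [ht, norm_real, Real.norm_eq_abs, sq_abs]

/-- The integral over the ball of the square of a homogeneous function. -/
theorem ball_sq {M : ℂ → ℝ} (hM : Hom1 M) :
    ∫ w in BV, M w ^ 2 = ‖kap‖ * ∫ t : TT, M (rho t) ^ 2 ∂haarAddCircle := by
  obtain ⟨C, hC, hb⟩ := hM.bd
  have hN : Hom1 (fun w => M w ^ 2 / ‖w‖) := by
    refine ⟨(hM.meas.pow_const 2).div measurable_norm, fun r hr w => ?_, ⟨C ^ 2, by positivity,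
      fun w => ?_⟩⟩
    · rw [hM.hom r hr, norm_mul, norm_real, Real.norm_eq_abs, abs_of_pos hr]
      by_cases hw : ‖w‖ = 0
      · rw [hw]; simp
      · field_simp
    · rw [abs_div, abs_norm, abs_of_nonneg (by positivity)]
      by_cases hw : ‖w‖ = 0
      · rw [hw]; simp
      · have hw' : 0 < ‖w‖ := lt_of_le_of_ne (norm_nonneg _) (Ne.symm hw)
        rw [div_le_iff₀ hw']
        have h1 := hb w
        calc M w ^ 2 = |M w| ^ 2 := (sq_abs _).symm
          _ ≤ (C * ‖w‖) ^ 2 := by gcongr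
          _ = C ^ 2 * ‖w‖ * ‖w‖ := by ring
  have h1 := ball_int hN 0
  have e1 : ∀ w : ℂ, (((M w ^ 2 / ‖w‖ : ℝ)) : ℂ) * ek 0 w = ((M w ^ 2 : ℝ) : ℂ) := by
    intro w
    unfold ek
    rw [fourier_zero, mul_one, ← ofReal_mul]
    congr 1
    by_cases hw : ‖w‖ = 0
    · have h2 := hb w
      rw [hw, mul_zero] at h2
      have h3 : M w = 0 := abs_eq_zero.1 (le_antisymm h2 (abs_nonneg _))
      rw [h3]; simp
    · field_simp
  simp_rw [e1] at h1
  rw [integral_complex_ofReal, neg_zero] at h1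
  have e2 : cN (fun w => M w ^ 2 / ‖w‖) 0 =
      ((∫ t : TT, M (rho t) ^ 2 ∂haarAddCircle : ℝ) : ℂ) := by
    unfold cN fourierCoeff
    rw [← integral_complex_ofReal]
    apply integral_congr_ae
    refine Eventually.of_forall (fun t => ?_)
    simp only [neg_zero, fourier_zero, one_smul, norm_rho, div_one]
  rw [e2] at h1
  have h2 := congrArg norm h1
  rw [norm_mul, norm_real, norm_real, Real.norm_eq_abs, Real.norm_eq_abs] at h2
  rw [abs_of_nonneg (integral_nonneg (fun w => sq_nonneg _)),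
    abs_of_nonneg (integral_nonneg (fun w => sq_nonneg _))] at h2
  exact h2

/-- (BESS) Bessel's inequality with the integral over the ball. -/
theorem bess {M : ℂ → ℝ} (hM : Hom1 M) (S : Finset ℤ) :
    ∑ k ∈ S, ‖cN M k‖ ^ 2 ≤ ‖kap‖⁻¹ * ∫ w in BV, M w ^ 2 := by
  obtain ⟨C, hC, hb⟩ := hM.bd
  have h1 := bessel_int (m := fun t => M (rho t)) (hM.meas.comp measurable_rho) (B := C)
    (fun t => by
      have := hb (rho t)
      rwa [norm_rho, mul_one] at this) S
  have hk : ‖kap‖ ≠ 0 := norm_ne_zero_iff.2 kap_ne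
  rw [ball_sq hM, ← mul_assoc, inv_mul_cancel₀ hk, one_mul]
  exact h1

/-- Cauchy-Schwarz for the flux through a side. -/
theorem Mf_sq_le {F : ℂ → ℝ → ℝ} (hF : LF F) (a e w : ℂ) :
    Mf F a e w ^ 2 ≤ (cr w e) ^ 2 * ∫ τ in (0 : ℝ)..1, (F w (cr w (a + (τ : ℂ) * e))) ^ 2 := by
  have hc : Measurable (fun τ : ℝ => F w (cr w (a + (τ : ℂ) * e))) := by
    have hc1 : Measurable (fun τ : ℝ => cr w (a + (τ : ℂ) * e)) := by
      apply Continuous.measurable; unfold cr; fun_prop
    exact hF.meas.comp (measurable_const.prodMk hc1)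
  have hi1 : IntervalIntegrable (fun τ : ℝ => F w (cr w (a + (τ : ℂ) * e))) volume 0 1 := by
    rw [intervalIntegrable_iff]
    refine Measure.integrableOn_of_bounded (M := 1) (by simp) hc.aestronglyMeasurable ?_
    exact Eventually.of_forall (fun τ => by rw [Real.norm_eq_abs]; exact hF.bd _ _)
  have hi2 : IntervalIntegrable (fun τ : ℝ => (F w (cr w (a + (τ : ℂ) * e))) ^ 2) volume 0 1 := by
    rw [intervalIntegrable_iff]
    refine Measure.integrableOn_of_bounded (M := 1) (by simp)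
      (hc.pow_const 2).aestronglyMeasurable ?_
    refine Eventually.of_forall (fun τ => ?_)
    rw [Real.norm_eq_abs, abs_pow]
    exact pow_le_one₀ (abs_nonneg _) (hF.bd _ _)
  have h0 : (∫ τ in (0 : ℝ)..1, F w (cr w (a + (τ : ℂ) * e))) ^ 2 ≤
      ∫ τ in (0 : ℝ)..1, (F w (cr w (a + (τ : ℂ) * e))) ^ 2 := by
    set c : ℝ := ∫ τ in (0 : ℝ)..1, F w (cr w (a + (τ : ℂ) * e)) with hcdef
    have h1 : 0 ≤ ∫ τ in (0 : ℝ)..1, (F w (cr w (a + (τ : ℂ) * e)) - c) ^ 2 :=
      intervalIntegral.integral_nonneg zero_le_one (fun τ _ => sq_nonneg _)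
    have e1 : ∀ τ : ℝ, (F w (cr w (a + (τ : ℂ) * e)) - c) ^ 2 =
        (F w (cr w (a + (τ : ℂ) * e))) ^ 2 - 2 * c * F w (cr w (a + (τ : ℂ) * e)) + c ^ 2 := by
      intro τ; ring
    simp_rw [e1] at h1
    rw [intervalIntegral.integral_add (hi2.sub (hi1.const_mul _)) intervalIntegrable_const,
      intervalIntegral.integral_sub hi2 (hi1.const_mul _), intervalIntegral.integral_const_mul,
      intervalIntegral.integral_const] at h1
    simp only [sub_zero, smul_eq_mul, one_mul] at h1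
    rw [← hcdef] at h1
    linarith [h1, sq c]
  unfold Mf Sm
  rw [mul_pow, mul_comm]
  exact mul_le_mul_of_nonneg_left h0 (sq_nonneg _)

/-- The fluxes are controlled by the correlation at the angle zero. -/
theorem stR (hn : 3 ≤ n) (hv : ConvexIndependent ℝ v)
    (hVir : ∀ F : ℂ → ℝ → ℝ, LF F → HomF F →
      (∀ i, SymAt F (v i) (v (nxt hn hv i) - v i)) → ∀ z ∈ PP v, ∀ i,
      ∫ w in BV, (cr w (ed hn hv i)) ^ 2 *
        (∫ τ in (0 : ℝ)..1, (F w (cr w (v i + (τ : ℂ) * ed hn hv i))) ^ 2) ≤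
      ‖ed hn hv i‖ ^ 2 / cr (ed hn hv i) (z - v i) * Cr v F ((0 : ℝ) : TT)) :
    ∃ C : ℝ, 0 ≤ C ∧ ∀ F : ℂ → ℝ → ℝ, LF F → HomF F →
      (∀ i, SymAt F (v i) (v (nxt hn hv i) - v i)) → ∀ (i : Fin n) (S : Finset ℤ),
      ∑ k ∈ S, ‖cN (Mf F (v i) (ed hn hv i)) k‖ ^ 2 ≤ C * Cr v F ((0 : ℝ) : TT) := by
  obtain ⟨z, hz⟩ := PP_nonempty hn hv
  have hpos : ∀ i, 0 < cr (ed hn hv i) (z - v i) := fun i => (nxt_side hn hv i).cr_pos hv hz
  refine ⟨∑ i, ‖kap‖⁻¹ * (‖ed hn hv i‖ ^ 2 / cr (ed hn hv i) (z - v i)), ?_,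
    fun F hF hhom hs i S => ?_⟩
  · exact Finset.sum_nonneg (fun i _ => mul_nonneg (inv_nonneg.2 (norm_nonneg _))
      (div_nonneg (sq_nonneg _) (hpos i).le))
  · have hC0 : 0 ≤ Cr v F ((0 : ℝ) : TT) := by
      rw [Cr_zero]
      exact integral_nonneg (fun p => mul_self_nonneg _)
    have hM := Mf_hom1 hF hhom (v i) (ed hn hv i)
    have h1 := bess hM S
    have h2 : ∫ w in BV, Mf F (v i) (ed hn hv i) w ^ 2 ≤
        ∫ w in BV, (cr w (ed hn hv i)) ^ 2 *
          (∫ τ in (0 : ℝ)..1, (F w (cr w (v i + (τ : ℂ) * ed hn hv i))) ^ 2) := by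
      apply integral_mono_of_nonneg
      · exact Eventually.of_forall (fun w => sq_nonneg _)
      · have hm : Measurable (fun w : ℂ => (cr w (ed hn hv i)) ^ 2 *
            (∫ τ in (0 : ℝ)..1, (F w (cr w (v i + (τ : ℂ) * ed hn hv i))) ^ 2)) := by
          have g0 : (fun w => ∫ τ in (0 : ℝ)..1, (F w (cr w (v i + (τ : ℂ) * ed hn hv i))) ^ 2) =
              fun w => ∫ τ in Ioc (0 : ℝ) 1, (F w (cr w (v i + (τ : ℂ) * ed hn hv i))) ^ 2 := by
            funext w
            rw [intervalIntegral.integral_of_le zero_le_one]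
          have g1 : StronglyMeasurable (Function.uncurry
              (fun (w : ℂ) (τ : ℝ) => (F w (cr w (v i + (τ : ℂ) * ed hn hv i))) ^ 2)) :=
            ((meas_F_pt1 hF (v i) (ed hn hv i)).pow_const 2).stronglyMeasurable
          have g2 : Measurable
              (fun w => ∫ τ in (0 : ℝ)..1, (F w (cr w (v i + (τ : ℂ) * ed hn hv i))) ^ 2) := by
            rw [g0]
            exact g1.integral_prod_right.measurable
          exact ((meas_crl _).pow_const 2).mul g2
        refine intOn_ball hm (C := ‖ed hn hv i‖ ^ 2 * 1) (fun w hw => ?_)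
        rw [abs_mul, abs_pow]
        have g3 := intervalIntegral.norm_integral_le_of_norm_le_const (a := 0) (b := 1)
          (f := fun τ : ℝ => (F w (cr w (v i + (τ : ℂ) * ed hn hv i))) ^ 2) (C := 1)
          (fun τ _ => by
            rw [Real.norm_eq_abs, abs_pow]
            exact pow_le_one₀ (abs_nonneg _) (hF.bd _ _))
        rw [sub_zero, abs_one, mul_one, Real.norm_eq_abs] at g3
        have g4 := abs_cr_BV hw (ed hn hv i)
        exact mul_le_mul (by gcongr) g3 (abs_nonneg _) (by positivity)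
      · exact Eventually.of_forall (fun w => Mf_sq_le hF _ _ w)
    have h3 := hVir F hF hhom hs z hz i
    have h4 : ∑ k ∈ S, ‖cN (Mf F (v i) (ed hn hv i)) k‖ ^ 2 ≤
        ‖kap‖⁻¹ * (‖ed hn hv i‖ ^ 2 / cr (ed hn hv i) (z - v i)) * Cr v F ((0 : ℝ) : TT) := by
      refine h1.trans ?_
      rw [mul_assoc]
      exact mul_le_mul_of_nonneg_left (h2.trans h3) (inv_nonneg.2 (norm_nonneg _))
    refine h4.trans (mul_le_mul_of_nonneg_right ?_ hC0)
    exact Finset.single_le_sum
      (f := fun i => ‖kap‖⁻¹ * (‖ed hn hv i‖ ^ 2 / cr (ed hn hv i) (z - v i)))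
      (fun i _ => mul_nonneg (inv_nonneg.2 (norm_nonneg _))
        (div_nonneg (sq_nonneg _) (hpos i).le)) (Finset.mem_univ i)

end Pool.Agent.Lib.BilU
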