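import Pool.Agent.Lib.MP_7bc51d_an_slice.Defs

set_option autoImplicit false

namespace Pool.Agent.Lib.BilU

open Complex MeasureTheory Set Filter AddCircle
open scoped ComplexConjugate Topology ENNReal NNReal
open Pool.Agent.Lib.Bil Pool.Agent.Lib.BilM Pool.Agent.Lib.BilS

variable {n : ℕ} {v : Fin n → ℂ}

theorem stMt : StMt := by
  intro F hF hhom a e he
  refine ⟨⟨?_, ?_, ?_⟩, ?_⟩
  · have h0 : (fun w => ∫ τ in (0 : ℝ)..1, F w (cr w (a + (τ : ℂ) * e)) * τ) =
        fun w => ∫ τ in Ioc (0 : ℝ) 1, F w (cr w (a + (τ : ℂ) * e)) * τ := by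
      funext w
      rw [intervalIntegral.integral_of_le zero_le_one]
    have h1 : Measurable (fun z : ℂ × ℝ => F z.1 (cr z.1 (a + (z.2 : ℂ) * e)) * z.2) := by
      have hc1 : Measurable (fun z : ℂ × ℝ => cr z.1 (a + (z.2 : ℂ) * e)) := by
        apply Continuous.measurable; unfold cr; fun_prop
      exact (hF.meas.comp (measurable_fst.prodMk hc1)).mul measurable_snd
    have h2 : StronglyMeasurable (Function.uncurry
        (fun (w : ℂ) (τ : ℝ) => F w (cr w (a + (τ : ℂ) * e)) * τ)) := h1.stronglyMeasurable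
    have h3 : Measurable (fun w => ∫ τ in (0 : ℝ)..1, F w (cr w (a + (τ : ℂ) * e)) * τ) := by
      rw [h0]
      exact h2.integral_prod_right.measurable
    exact h3.mul (meas_crl e)
  · intro r hr w
    unfold Mt
    have h1 : ∀ τ : ℝ, F ((r : ℂ) * w) (cr ((r : ℂ) * w) (a + (τ : ℂ) * e)) =
        F w (cr w (a + (τ : ℂ) * e)) := by
      intro τ
      rw [cr_smul_left, hhom r hr]
    simp_rw [h1]
    rw [cr_smul_left]
    ring
  · refine ⟨‖e‖, norm_nonneg _, fun w => ?_⟩
    unfold Mt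
    have h1 := intervalIntegral.norm_integral_le_of_norm_le_const (a := 0) (b := 1)
      (f := fun τ : ℝ => F w (cr w (a + (τ : ℂ) * e)) * τ) (C := 1) (fun q hq => by
        rw [uIoc_of_le zero_le_one] at hq
        rw [norm_mul, Real.norm_eq_abs, Real.norm_eq_abs, abs_of_pos hq.1]
        have := hF.bd w (cr w (a + (q : ℂ) * e))
        calc _ ≤ (1 : ℝ) * 1 := mul_le_mul this hq.2 hq.1.le zero_le_one
          _ = 1 := one_mul 1)
    rw [sub_zero, abs_one, mul_one, Real.norm_eq_abs] at h1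
    rw [abs_mul]
    have h2 := abs_cr_le w e
    calc _ ≤ 1 * (‖w‖ * ‖e‖) := by gcongr
      _ = _ := by ring
  · intro hs
    filter_upwards [hs] with w hw
    unfold Mt
    have h1 : ∫ τ in (0 : ℝ)..1, F (rl e w) (cr (rl e w) (a + (τ : ℂ) * e)) * τ =
        ∫ τ in (0 : ℝ)..1, F w (cr w (a + (τ : ℂ) * e)) * τ := by
      apply intervalIntegral.integral_congr_ae
      have h2 : ∀ᵐ τ : ℝ, τ ≠ 1 := by simp [ae_iff, measure_singleton]
      filter_upwards [hw, h2] with τ h3 h4 hτ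
      rw [uIoc_of_le zero_le_one] at hτ
      rw [h3 ⟨hτ.1, lt_of_le_of_ne hτ.2 h4⟩]
    rw [h1, cr_rl_left he]
    ring

end Pool.Agent.Lib.BilU
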