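import Pool.Agent.Lib.MP_7bc51d_an_slice.Green
import Pool.Agent.Lib.MP_7bc51d_an_slice.MT

set_option autoImplicit false

namespace Pool.Agent.Lib.BilU

open Complex MeasureTheory Set Filter AddCircle
open scoped ComplexConjugate Topology ENNReal NNReal
open Pool.Agent.Lib.Bil Pool.Agent.Lib.BilM Pool.Agent.Lib.BilS

variable {n : ℕ} {v : Fin n → ℂ}

theorem Nv_hom1 (hn : 3 ≤ n) (hv : ConvexIndependent ℝ v) {F : ℂ → ℝ → ℝ} (hF : LF F)
    (hhom : HomF F) (i : Fin n) : Hom1 (Nv hn hv F i) := by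
  have hne : ∀ i, ed hn hv i ≠ 0 := fun i => v_sub_ne hv (nxt_side hn hv i).ne
  have h1 := Mf_hom1 hF hhom (v i) (ed hn hv i)
  have h2 := (stMt F hF hhom (v i) (ed hn hv i) (hne i)).1
  have h3 := (stMt F hF hhom (v (prv hn hv i)) (ed hn hv (prv hn hv i)) (hne _)).1
  have h4 := (h1.add (h2.smul (-1))).add h3
  have e : Nv hn hv F i = fun w => Mf F (v i) (ed hn hv i) w +
      (-1) * Mt F (v i) (ed hn hv i) w +
      Mt F (v (prv hn hv i)) (ed hn hv (prv hn hv i)) w := by
    funext w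
    unfold Nv
    ring
  rw [e]
  exact h4

theorem cN_Nv (hn : 3 ≤ n) (hv : ConvexIndependent ℝ v) {F : ℂ → ℝ → ℝ} (hF : LF F)
    (hhom : HomF F) (i : Fin n) (k : ℤ) :
    cN (Nv hn hv F i) k = cN (Mf F (v i) (ed hn hv i)) k - cN (Mt F (v i) (ed hn hv i)) k +
      cN (Mt F (v (prv hn hv i)) (ed hn hv (prv hn hv i))) k := by
  have hne : ∀ i, ed hn hv i ≠ 0 := fun i => v_sub_ne hv (nxt_side hn hv i).ne
  have h1 := Mf_hom1 hF hhom (v i) (ed hn hv i)
  have h2 := (stMt F hF hhom (v i) (ed hn hv i) (hne i)).1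
  have h3 := (stMt F hF hhom (v (prv hn hv i)) (ed hn hv (prv hn hv i)) (hne _)).1
  have e : Nv hn hv F i = fun w => (Mf F (v i) (ed hn hv i) w +
      (-1) * Mt F (v i) (ed hn hv i) w) +
      Mt F (v (prv hn hv i)) (ed hn hv (prv hn hv i)) w := by
    funext w
    unfold Nv
    ring
  rw [e, cN_add (h1.add (h2.smul (-1))) h3, cN_add h1 (h2.smul (-1)), cN_smul]
  push_cast
  ring

theorem Hom1.sum {ι : Type} (s : Finset ι) {f : ι → ℂ → ℝ} (h : ∀ i, Hom1 (f i)) (c : ι → ℝ) :
    Hom1 (fun w => ∑ i ∈ s, c i * f i w) := by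
  classical
  induction s using Finset.induction_on with
  | empty =>
    simp only [Finset.sum_empty]
    exact ⟨measurable_const, fun r _ w => by simp, ⟨0, le_rfl, fun w => by simp⟩⟩
  | insert a s ha ih =>
    simp only [Finset.sum_insert ha]
    exact ((h a).smul (c a)).add ih

theorem cN_sum {ι : Type} (s : Finset ι) {f : ι → ℂ → ℝ} (h : ∀ i, Hom1 (f i)) (c : ι → ℝ)
    (k : ℤ) : cN (fun w => ∑ i ∈ s, c i * f i w) k = ∑ i ∈ s, (c i : ℂ) * cN (f i) k := by
  classical
  induction s using Finset.induction_on with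
  | empty =>
    simp only [Finset.sum_empty]
    have := cN_smul (fun _ => (0 : ℝ)) 0 k
    simpa using this
  | insert a s ha ih =>
    simp only [Finset.sum_insert ha]
    rw [cN_add ((h a).smul (c a)) (Hom1.sum s h c), cN_smul, ih]

/-- Almost every direction is generic. -/
theorem ae_generic (hn : 3 ≤ n) (hv : ConvexIndependent ℝ v) :
    ∀ᵐ w : ℂ, w ≠ 0 ∧ ∀ i, cr w (v (nxt hn hv i)) ≠ cr w (v i) := by
  have h0 : ∀ᵐ w : ℂ, w ≠ 0 := by simp [ae_iff, measure_singleton]
  have h1 : ∀ᵐ w : ℂ, ∀ i, w ∉ (Submodule.span ℝ {ed hn hv i} : Submodule ℝ ℂ) := by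
    rw [ae_all_iff]; intro i
    exact ae_not_mem_line _
  filter_upwards [h0, h1] with w hw0 hw
  refine ⟨hw0, fun i h => hw i ?_⟩
  have hne : ed hn hv i ≠ 0 := v_sub_ne hv (nxt_side hn hv i).ne
  have h2 : cr w (ed hn hv i) = 0 := by
    unfold ed
    rw [cr_sub_right, h, sub_self]
  rw [cr_swap, neg_eq_zero] at h2
  obtain ⟨t, ht⟩ := (cr_eq_zero_iff hne).1 h2
  rw [Submodule.mem_span_singleton]
  exact ⟨t, by rw [real_smul, ht]⟩

theorem cut_nxt (hn : 3 ≤ n) (hv : ConvexIndependent ℝ v) (o : Fin n) :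
    cut v o (nxt hn hv o) = PP v := by
  ext x
  constructor
  · exact fun h => h.1
  · exact fun h => ⟨h, (nxt_side hn hv o).cr_pos hv h⟩

/-- The Fourier coefficients of the vertex functionals are controlled by those of the slice
functionals. -/
theorem coef_bound (hInj : StInj) (hSep : StSep) (hn : 3 ≤ n) (hv : ConvexIndependent ℝ v)
    (o : Fin n) :
    ∃ C : ℝ, 0 ≤ C ∧ ∀ (F : ℂ → ℝ → ℝ), LF F → HomF F → ∀ G : Fin n → ℂ → ℝ,
      (∀ j, j ≠ o → ∀ d : ℂ, Hom1 (fun w => cr d w * G j w)) →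
      (∀ j, j ≠ o → ∀ᵐ w, sl v F o j w = G j w) →
      ∀ (k : ℤ) (i : Fin n), ‖cN (Nv hn hv F i) k‖ ≤
        C * (∑ j ∈ Finset.univ.erase o, ‖cN (fun w => cr (v j - v o) w * G j w) k‖ +
          (‖cN (fun w => cr 1 w * G (nxt hn hv o) w) k‖ +
            ‖cN (fun w => cr I w * G (nxt hn hv o) w) k‖)) := by
  obtain ⟨C, hC, h⟩ := hInj n v hn hv o
  refine ⟨C, hC, fun F hF hhom G hG hsl k i => ?_⟩
  have hno : nxt hn hv o ≠ o := (nxt_side hn hv o).ne.symm
  set B : ℝ := ∑ j ∈ Finset.univ.erase o, ‖cN (fun w => cr (v j - v o) w * G j w) k‖ +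
          (‖cN (fun w => cr 1 w * G (nxt hn hv o) w) k‖ +
            ‖cN (fun w => cr I w * G (nxt hn hv o) w) k‖) with hB
  have hB1 : 0 ≤ ∑ j ∈ Finset.univ.erase o, ‖cN (fun w => cr (v j - v o) w * G j w) k‖ :=
    Finset.sum_nonneg (fun _ _ => norm_nonneg _)
  have hNh := fun i => Nv_hom1 hn hv hF hhom i
  refine h (fun i => cN (Nv hn hv F i) k) B (by positivity) ?_ ?_ ?_ i
  · have h1 := cN_sum Finset.univ hNh (fun _ => 1) k
    simp only [ofReal_one, one_mul] at h1
    rw [← h1]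
    have h2 : cN (fun w => ∑ i, Nv hn hv F i w) k = cN (fun _ => (0 : ℝ)) k := by
      have g1 := Hom1.sum Finset.univ hNh (fun _ => 1)
      have g2 : Hom1 (fun _ : ℂ => (0 : ℝ)) :=
        ⟨measurable_const, fun r _ w => by simp, ⟨0, le_rfl, fun w => by simp⟩⟩
      simp only [one_mul] at g1
      apply cN_congr g1 g2
      filter_upwards [ae_generic hn hv] with w hw
      exact (stGreen n v hn hv F hF w hw.1 hw.2).1
    rw [h2]
    have := cN_smul (fun _ => (0 : ℝ)) 0 k
    simpa using this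
  · intro d hd
    have h1 := cN_sum Finset.univ hNh (fun i => cr d (v i - v o)) k
    rw [← h1]
    have h2 : cN (fun w => ∑ i, cr d (v i - v o) * Nv hn hv F i w) k =
        cN (fun w => cr d w * G (nxt hn hv o) w) k := by
      apply cN_congr (Hom1.sum Finset.univ hNh _) (hG _ hno d)
      filter_upwards [ae_generic hn hv, hsl _ hno] with w hw h3
      rw [← (stGreen n v hn hv F hF w hw.1 hw.2).2.1 d (v o), ← h3, sl, cut_nxt]
    rw [h2]
    rcases hd with rfl | hd
    · have := norm_nonneg (cN (fun w => cr I w * G (nxt hn hv o) w) k)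
      linarith
    · rw [mem_singleton_iff] at hd
      subst hd
      have := norm_nonneg (cN (fun w => cr 1 w * G (nxt hn hv o) w) k)
      linarith
  · intro j hj
    have h1 := cN_sum Finset.univ hNh (fun i => max 0 (cr (v j - v o) (v i - v o))) k
    rw [← h1]
    have h2 : cN (fun w => ∑ i, max 0 (cr (v j - v o) (v i - v o)) * Nv hn hv F i w) k =
        cN (fun w => cr (v j - v o) w * G j w) k := by
      apply cN_congr (Hom1.sum Finset.univ hNh _) (hG _ hj _)
      filter_upwards [ae_generic hn hv, hsl _ hj] with w hw h3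
      rw [← (stGreen n v hn hv F hF w hw.1 hw.2).2.2 (v j - v o) (v o)
        (fun i => hSep n v hn hv o j i hj), ← h3]
      rfl
    rw [h2]
    have h3 := Finset.single_le_sum (f := fun j => ‖cN (fun w => cr (v j - v o) w * G j w) k‖)
      (fun j _ => norm_nonneg _) (Finset.mem_erase.2 ⟨hj, Finset.mem_univ j⟩)
    have h4 := norm_nonneg (cN (fun w => cr 1 w * G (nxt hn hv o) w) k)
    have h5 := norm_nonneg (cN (fun w => cr I w * G (nxt hn hv o) w) k)
    linarith

end Pool.Agent.Lib.BilU
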