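import Pool.Agent.Lib.MP_7bc51d_an_smooth.Main

set_option autoImplicit false

/-!
The correlation at the angle zero is bounded by the weighted sum of the areas.
-/

namespace Pool.Agent.Lib.BilU

open Complex MeasureTheory Set Filter AddCircle
open scoped ComplexConjugate Topology ENNReal NNReal
open Pool.Agent.Lib.Bil Pool.Agent.Lib.BilM Pool.Agent.Lib.BilS

variable {n : ℕ} {v : Fin n → ℂ}

theorem abs_sin_nat_mul (m : ℕ) (x : ℝ) : |Real.sin ((m : ℝ) * x)| ≤ (m : ℝ) * |Real.sin x| := by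
  induction m with
  | zero => simp
  | succ m ih =>
    have e : ((m + 1 : ℕ) : ℝ) * x = (m : ℝ) * x + x := by push_cast; ring
    rw [e, Real.sin_add]
    refine (abs_add_le _ _).trans ?_
    rw [abs_mul, abs_mul]
    have h1 := Real.abs_cos_le_one x
    have h2 := Real.abs_cos_le_one ((m : ℝ) * x)
    have h3 := abs_nonneg (Real.sin ((m : ℝ) * x))
    have h4 := abs_nonneg (Real.sin x)
    push_cast
    nlinarith

theorem abs_sin_int_mul (k : ℤ) (x : ℝ) : |Real.sin ((k : ℝ) * x)| ≤ |(k : ℝ)| * |Real.sin x| := by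
  have h := abs_sin_nat_mul k.natAbs x
  have e : ((k.natAbs : ℕ) : ℝ) = |(k : ℝ)| := by
    rw [Nat.cast_natAbs]
    push_cast
    rfl
  rw [e] at h
  rcases le_total 0 (k : ℝ) with h0 | h0
  · rw [abs_of_nonneg h0] at h ⊢
    exact h
  · rw [abs_of_nonpos h0] at h ⊢
    have e2 : Real.sin ((k : ℝ) * x) = - Real.sin (-(k : ℝ) * x) := by
      rw [neg_mul, Real.sin_neg, neg_neg]
    rw [e2, abs_neg]
    exact h

/-- The correlation at zero is at most the weighted sum of the areas. -/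
theorem cr0_le (hn : 3 ≤ n) (hv : ConvexIndependent ℝ v) {F : ℂ → ℝ → ℝ} (hF : LF F)
    (hhom : HomF F) (hs : ∀ i, SymAt F (v i) (v (nxt hn hv i) - v i)) {c : ℝ}
    (hc : ∀ S : Finset ℤ, ∑ k ∈ S, |(k : ℝ)| * ‖Ar hn hv (fun i => cN (gam v F i) k)‖ ≤ c) :
    Cr v F ((0 : ℝ) : TT) ≤ ‖kap / 2‖ * c := by
  set B : C(TT, ℂ) := ⟨fun t => (((- (rho t).im * Cr v F t : ℝ)) : ℂ), by
    have h1 : Continuous (fun t : TT => - (rho t).im * Cr v F t) :=
      ((Complex.continuous_im.comp continuous_rho).neg).mul (Cr_cont hF)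
    exact Complex.continuous_ofReal.comp h1⟩ with hB
  set b : ℤ → ℂ := fourierCoeff B with hb
  have hbk : ∀ k, b k = (kap / 2) * Ar hn hv (fun i => cN (gam v F i) k) := fun k =>
    coeff_area hn hv hF hhom hs k
  have hfin : ∀ S : Finset ℤ, ∑ k ∈ S, |(k : ℝ)| * ‖b k‖ ≤ ‖kap / 2‖ * c := by
    intro S
    have h1 := mul_le_mul_of_nonneg_left (hc S) (norm_nonneg (kap / 2))
    rw [Finset.mul_sum] at h1
    refine le_trans (le_of_eq (Finset.sum_congr rfl (fun k _ => ?_))) h1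
    rw [hbk, norm_mul]
    ring
  have hs2 : Summable (fun k : ℤ => |(k : ℝ)| * ‖b k‖) :=
    summable_of_sum_le (fun k => by positivity) hfin
  have htot : ∑' k : ℤ, |(k : ℝ)| * ‖b k‖ ≤ ‖kap / 2‖ * c :=
    hs2.tsum_le_of_sum_le hfin
  have hs0 : Summable b := by
    rw [← summable_norm_iff]
    have h2 : Summable (fun k : ℤ => if k = 0 then ‖b 0‖ else (0 : ℝ)) :=
      summable_of_ne_finset_zero (s := {0}) (fun k hk => by
        simp only [Finset.mem_singleton] at hk
        simp [hk])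
    refine Summable.of_nonneg_of_le (fun k => norm_nonneg _) (fun k => ?_) (hs2.add h2)
    by_cases hk : k = 0
    · subst hk; simp
    · simp only [hk, if_false, add_zero]
      have h4 : (1 : ℤ) ≤ |k| := Int.one_le_abs hk
      have h5 : (1 : ℝ) ≤ |(k : ℝ)| := by exact_mod_cast h4
      have := norm_nonneg (b k)
      nlinarith
  have hpt : ∀ t : TT, HasSum (fun k : ℤ => b k * (fourier k t : ℂ)) (B t) := fun t =>
    has_pointwise_sum_fourier_series_of_summable hs0 t
  set g : ℝ → ℝ := fun x => - Real.sin x * Cr v F (x : TT) with hg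
  have hBg : ∀ x : ℝ, B (x : TT) = ((g x : ℝ) : ℂ) := by
    intro x
    change (((- (rho (x : TT)).im * Cr v F (x : TT) : ℝ)) : ℂ) = _
    rw [rho_coe_im]
  have hgneg : ∀ x, g (-x) = - g x := by
    intro x
    simp only [hg]
    rw [Real.sin_neg, AddCircle.coe_neg, Cr_neg]
    ring
  have hser : ∀ x : ℝ, HasSum (fun k : ℤ => -(b k).im * Real.sin (k * x)) (g x) := by
    intro x
    have h1 := hpt (x : TT)
    have h2 := hpt ((-x : ℝ) : TT)
    rw [hBg] at h1 h2
    rw [hgneg] at h2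
    have h3 := (h1.sub h2).div_const 2
    have h4 : ((g x : ℂ) - ((-g x : ℝ) : ℂ)) / 2 = ((g x : ℝ) : ℂ) := by push_cast; ring
    rw [h4] at h3
    have h5 := Complex.reCLM.hasSum h3
    simp only [Complex.reCLM_apply, ofReal_re] at h5
    refine h5.congr_fun ?_
    intro k
    have e1 : (fourier k (x : TT) : ℂ) = Complex.exp ((k : ℂ) * I * x) := fourier_real k x
    have e2 : (fourier k ((-x : ℝ) : TT) : ℂ) = Complex.exp ((k : ℂ) * I * ((-x : ℝ) : ℂ)) :=
      fourier_real k (-x)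
    rw [e1, e2]
    have e3 : (k : ℂ) * I * x = (((k : ℝ) * x : ℝ) : ℂ) * I := by push_cast; ring
    have e4 : (k : ℂ) * I * ((-x : ℝ) : ℂ) = ((-((k : ℝ) * x) : ℝ) : ℂ) * I := by push_cast; ring
    rw [e3, e4]
    have e5 : (b k * Complex.exp ((((k : ℝ) * x : ℝ) : ℂ) * I) -
        b k * Complex.exp (((-((k : ℝ) * x) : ℝ) : ℂ) * I)) / 2 =
        b k * ((Complex.exp ((((k : ℝ) * x : ℝ) : ℂ) * I) -
          Complex.exp (((-((k : ℝ) * x) : ℝ) : ℂ) * I)) * ((1 / 2 : ℝ) : ℂ)) := by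
      push_cast; ring
    rw [e5, mul_re, mul_re, mul_im]
    simp only [sub_re, sub_im, Complex.exp_ofReal_mul_I_re, Complex.exp_ofReal_mul_I_im,
      ofReal_re, ofReal_im, Real.cos_neg, Real.sin_neg]
    ring
  have hgb : ∀ x : ℝ, |g x| ≤ ‖kap / 2‖ * c * |Real.sin x| := by
    intro x
    have h1 : ∀ k : ℤ, ‖-(b k).im * Real.sin (k * x)‖ ≤ |(k : ℝ)| * ‖b k‖ * |Real.sin x| := by
      intro k
      rw [norm_mul, norm_neg, Real.norm_eq_abs, Real.norm_eq_abs]
      have h2 := Complex.abs_im_le_norm (b k)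
      have h3 := abs_sin_int_mul k x
      calc |(b k).im| * |Real.sin (k * x)| ≤ ‖b k‖ * (|(k : ℝ)| * |Real.sin x|) := by gcongr
        _ = _ := by ring
    have h4 := tsum_of_norm_bounded (hs2.hasSum.mul_right |Real.sin x|) h1
    rw [(hser x).tsum_eq, Real.norm_eq_abs] at h4
    exact h4.trans (mul_le_mul_of_nonneg_right htot (abs_nonneg _))
  have hCb : ∀ x : ℝ, 0 < x → x < Real.pi → Cr v F (x : TT) ≤ ‖kap / 2‖ * c := by
    intro x hx0 hx1
    have hsin := Real.sin_pos_of_pos_of_lt_pi hx0 hx1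
    have h1 := hgb x
    simp only [hg] at h1
    rw [abs_mul, abs_neg, abs_of_pos hsin, mul_comm] at h1
    exact (le_abs_self _).trans (le_of_mul_le_mul_right h1 hsin)
  have hlim : Tendsto (fun x : ℝ => Cr v F (x : TT)) (𝓝[>] 0) (𝓝 (Cr v F ((0 : ℝ) : TT))) :=
    (((Cr_cont hF).comp (AddCircle.continuous_mk' _)).tendsto 0).mono_left nhdsWithin_le_nhds
  refine le_of_tendsto hlim ?_
  have hpi : ∀ᶠ x : ℝ in 𝓝[>] (0 : ℝ), x < Real.pi := by
    have : Iio Real.pi ∈ 𝓝 (0 : ℝ) := Iio_mem_nhds Real.pi_pos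
    exact nhdsWithin_le_nhds this
  filter_upwards [self_mem_nhdsWithin, hpi] with x hx hxp
  exact hCb x hx hxp

end Pool.Agent.Lib.BilU
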