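import Pool.Agent.Lib.MP_7bc51d_an_smooth.Case3
import Pool.Agent.Lib.MP_7bc51d_an.Green

set_option autoImplicit false

/-!
Slice areas of invariant sets: definitions and the statements of the modules.
-/

namespace Pool.Agent.Lib.BilU

open Complex MeasureTheory Set Filter AddCircle
open scoped ComplexConjugate Topology ENNReal NNReal
open Pool.Agent.Lib.Bil Pool.Agent.Lib.BilM Pool.Agent.Lib.BilS

variable {n : ℕ} {v : Fin n → ℂ}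

/-- Flux through a side weighted by the position on the side. -/
noncomputable def Mt (F : ℂ → ℝ → ℝ) (a e w : ℂ) : ℝ :=
  (∫ τ in (0 : ℝ)..1, F w (cr w (a + (τ : ℂ) * e)) * τ) * cr w e

/-- The previous vertex. -/
noncomputable def prv (hn : 3 ≤ n) (hv : ConvexIndependent ℝ v) (i : Fin n) : Fin n :=
  (Equiv.ofBijective _ (nxt_bijective hn hv)).symm i

theorem nxt_prv (hn : 3 ≤ n) (hv : ConvexIndependent ℝ v) (i : Fin n) :
    nxt hn hv (prv hn hv i) = i :=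
  (Equiv.ofBijective _ (nxt_bijective hn hv)).apply_symm_apply i

theorem prv_nxt (hn : 3 ≤ n) (hv : ConvexIndependent ℝ v) (i : Fin n) :
    prv hn hv (nxt hn hv i) = i :=
  (Equiv.ofBijective _ (nxt_bijective hn hv)).symm_apply_apply i

/-- The functional of the vertex `i`. -/
noncomputable def Nv (hn : 3 ≤ n) (hv : ConvexIndependent ℝ v) (F : ℂ → ℝ → ℝ) (i : Fin n)
    (w : ℂ) : ℝ :=
  Mf F (v i) (ed hn hv i) w - Mt F (v i) (ed hn hv i) w +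
    Mt F (v (prv hn hv i)) (ed hn hv (prv hn hv i)) w

/-- The part of the polygon to the left of the line from `v o` to `v j`. -/
def cut (v : Fin n → ℂ) (o j : Fin n) : Set ℂ := {x | x ∈ PP v ∧ 0 < cr (v j - v o) (x - v o)}

/-- Slice integral of a line function over the cut part. -/
noncomputable def sl (v : Fin n → ℂ) (F : ℂ → ℝ → ℝ) (o j : Fin n) (w : ℂ) : ℝ :=
  ∫ x in cut v o j, F w (cr w x)

/-- (AREA) The area of the polygon `γ` in terms of the vertex functionals. -/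
def StArea : Prop := ∀ (n : ℕ) (v : Fin n → ℂ) (hn : 3 ≤ n) (hv : ConvexIndependent ℝ v),
  ∃ C : ℝ, 0 ≤ C ∧ ∀ (γ X : Fin n → ℂ) (μ R : ℝ), 0 ≤ μ → 0 ≤ R →
    (∀ i, (conj (γ (nxt hn hv i) - γ i) * X (nxt hn hv i)).im = 0) →
    (∀ i, ‖(γ (nxt hn hv i) - γ i) + X i - X (nxt hn hv i)‖ ≤ μ) →
    (∀ i, ‖γ (nxt hn hv i) - γ i‖ ≤ R) →
    ‖Ar hn hv γ‖ ≤ C * (μ * R)

/-- (SEP) The diagonals through `v o` do not cross the sides. -/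
def StSep : Prop := ∀ (n : ℕ) (v : Fin n → ℂ) (hn : 3 ≤ n) (hv : ConvexIndependent ℝ v)
  (o j i : Fin n), j ≠ o →
    (0 ≤ cr (v j - v o) (v i - v o) ∧ 0 ≤ cr (v j - v o) (v (nxt hn hv i) - v o)) ∨
    (cr (v j - v o) (v i - v o) ≤ 0 ∧ cr (v j - v o) (v (nxt hn hv i) - v o) ≤ 0)

/-- (INJ) The vertex functionals are controlled by the slice functionals. -/
def StInj : Prop := ∀ (n : ℕ) (v : Fin n → ℂ), 3 ≤ n → ConvexIndependent ℝ v → ∀ o : Fin n,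
  ∃ C : ℝ, 0 ≤ C ∧ ∀ (ν : Fin n → ℂ) (B : ℝ), 0 ≤ B →
    ∑ i, ν i = 0 →
    (∀ d ∈ ({1, I} : Set ℂ), ‖∑ i, (cr d (v i - v o) : ℂ) * ν i‖ ≤ B) →
    (∀ j, j ≠ o → ‖∑ i, (max 0 (cr (v j - v o) (v i - v o)) : ℝ) * ν i‖ ≤ B) →
    ∀ i, ‖ν i‖ ≤ C * B

/-- (GREEN) -/
def StGreen : Prop := ∀ (n : ℕ) (v : Fin n → ℂ) (hn : 3 ≤ n) (hv : ConvexIndependent ℝ v)
  (F : ℂ → ℝ → ℝ), LF F → ∀ (w : ℂ), w ≠ 0 → (∀ i, cr w (v (nxt hn hv i)) ≠ cr w (v i)) →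
  ∑ i, Nv hn hv F i w = 0 ∧
  (∀ d p : ℂ, cr d w * ∫ x in PP v, F w (cr w x) = ∑ i, cr d (v i - p) * Nv hn hv F i w) ∧
  (∀ d p : ℂ, (∀ i, (0 ≤ cr d (v i - p) ∧ 0 ≤ cr d (v (nxt hn hv i) - p)) ∨
      (cr d (v i - p) ≤ 0 ∧ cr d (v (nxt hn hv i) - p) ≤ 0)) →
    cr d w * ∫ x in {x | x ∈ PP v ∧ 0 < cr d (x - p)}, F w (cr w x) =
      ∑ i, max 0 (cr d (v i - p)) * Nv hn hv F i w)

/-- (FOUR) Fourier coefficients of the slice functionals. -/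
def StFour : Prop := ∀ (d : ℂ) (φ : ℝ → ℝ), Function.Periodic φ (2 * Real.pi) →
  Differentiable ℝ φ →
  ((∃ K : ℝ≥0, LipschitzWith K (deriv φ)) →
    Hom1 (fun w => cr d w * φ (Complex.arg w)) ∧
    Summable (fun k : ℤ => (k : ℝ) ^ 4 * ‖cN (fun w => cr d w * φ (Complex.arg w)) k‖ ^ 2)) ∧
  (∀ α C : ℝ, 0 < α → α ≤ 1 → (∀ x y : ℝ, |deriv φ x - deriv φ y| ≤ C * |x - y| ^ α) →
    Hom1 (fun w => cr d w * φ (Complex.arg w)) ∧
    ∃ C' : ℝ, 0 ≤ C' ∧ ∀ k : ℤ, k ≠ 0 →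
      ‖cN (fun w => cr d w * φ (Complex.arg w)) k‖ ≤ C' * |(k : ℝ)| ^ (-(1 + α)))

/-- (MT) Homogeneity, symmetry. -/
def StMt : Prop := ∀ (F : ℂ → ℝ → ℝ), LF F → HomF F → ∀ a e : ℂ, e ≠ 0 →
  Hom1 (Mt F a e) ∧ (SymAt F a e → ∀ᵐ w, Mt F a e (rl e w) = - Mt F a e w)

end Pool.Agent.Lib.BilU
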