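import Pool.Agent.Lib.MP_7bc51d_an_slice.Sum

set_option autoImplicit false

namespace Pool.Agent.Lib.BilU

open Complex MeasureTheory Set Filter AddCircle
open scoped ComplexConjugate Topology ENNReal NNReal
open Pool.Agent.Lib.Bil Pool.Agent.Lib.BilM Pool.Agent.Lib.BilS

variable {n : ℕ} {v : Fin n → ℂ}

/-- The slice area of `A` in the part of the polygon to the left of the line from `v o` to
`v j`. -/
noncomputable def arV (v : Fin n → ℂ) (A : Set (ℂ × ℂ)) (o j : Fin n) (w : ℂ) : ℝ :=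
  (volume {x : ℂ | x ∈ cut v o j ∧ (x, w) ∈ A}).toReal

theorem measurableSet_cut (v : Fin n → ℂ) (o j : Fin n) : MeasurableSet (cut v o j) := by
  have hcd : Measurable (fun x : ℂ => cr (v j - v o) (x - v o)) := by
    apply Continuous.measurable; unfold cr; fun_prop
  exact isOpen_PP.measurableSet.inter (measurableSet_lt measurable_const hcd)

theorem cut_fin (v : Fin n → ℂ) (o j : Fin n) : volume (cut v o j) < ⊤ :=
  lt_of_le_of_lt (measure_mono (fun _ h => h.1)) isBounded_PP.measure_lt_top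

theorem sl_FA {A : Set (ℂ × ℂ)} (hA : MeasurableSet A) (hch : ∀ᵐ w, ChordAt v A w)
    (o : Fin n) : ∀ᵐ w, ∀ j, sl v (FA v A) o j w = arV v A o j w := by
  filter_upwards [FA_ae hch] with w hw j
  have hm := measurableSet_cut v o j
  have hAw : MeasurableSet {x : ℂ | (x, w) ∈ A} := measurable_prodMk_right hA
  unfold sl arV
  have h1 : ∫ x in cut v o j, FA v A w (cr w x) =
      ∫ x in cut v o j, ({x : ℂ | (x, w) ∈ A}).indicator (1 : ℂ → ℝ) x := by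
    apply setIntegral_congr_ae hm
    filter_upwards [hw] with x hx hxc
    rw [hx hxc.1]
    by_cases h : (x, w) ∈ A
    · rw [indicator_of_mem h, indicator_of_mem (show x ∈ {x : ℂ | (x, w) ∈ A} from h)]
      rfl
    · rw [indicator_of_notMem h, indicator_of_notMem (show x ∉ {x : ℂ | (x, w) ∈ A} from h)]
  rw [h1, integral_indicator_one hAw, measureReal_restrict_apply hAw, measureReal_def]
  congr 2
  ext x
  simp only [mem_inter_iff, mem_setOf_eq]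
  exact and_comm

theorem sl_sub {F F' : ℂ → ℝ → ℝ} (hF : LF F) (hF' : LF F') (o j : Fin n) (w : ℂ) :
    sl v (fun w Q => F w Q - F' w Q) o j w = sl v F o j w - sl v F' o j w := by
  unfold sl
  have hi : ∀ {F : ℂ → ℝ → ℝ}, LF F → IntegrableOn (fun x => F w (cr w x)) (cut v o j) := by
    intro F hF
    have h1 : IntegrableOn (fun _ : ℂ => (1 : ℝ)) (cut v o j) :=
      integrableOn_const (cut_fin v o j).ne
    refine Integrable.mono' h1 ((hF.meas2 w).comp (meas_cr_right w)).aestronglyMeasurable ?_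
    exact Eventually.of_forall (fun x => by rw [Real.norm_eq_abs]; exact hF.bd w _)
  exact integral_sub (hi hF) (hi hF')

/-- From the line functions to the conclusion, with the slice areas. -/
theorem conclude2 (hn : 3 ≤ n) (hv : ConvexIndependent ℝ v) {A B : Set (ℂ × ℂ)}
    (hA : MeasurableSet A) (hB : MeasurableSet B)
    (hconeA : ∀ x w : ℂ, ∀ c : ℝ, 0 < c → ((x, w) ∈ A ↔ (x, (c : ℂ) * w) ∈ A))
    (hconeB : ∀ x w : ℂ, ∀ c : ℝ, 0 < c → ((x, w) ∈ B ↔ (x, (c : ℂ) * w) ∈ B))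
    (HA : ∀ᵐ p ∂(volume : Measure (ℂ × ℂ)), HypAt v A p)
    (HB : ∀ᵐ p ∂(volume : Measure (ℂ × ℂ)), HypAt v B p) (X : Set ℂ) (o : Fin n)
    (hsum : ∀ F : ℂ → ℝ → ℝ, LF F → HomF F →
      (∀ i, SymAt F (v i) (v (nxt hn hv i) - v i)) →
      (∀ᵐ w, ∀ j, sl v F o j w = arV v A o j w - arV v B o j w) →
      Summable (fun k : ℤ => (k : ℝ) ^ 2 * ‖Ar hn hv (fun i => cN (gam v F i) k)‖)) :
    volume ({p : ℂ × ℂ | ¬ (p ∈ A ↔ p ∈ B)} ∩ (PP v ×ˢ X)) = 0 ∨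
    (volume (A ∩ (PP v ×ˢ X)) = 0 ∧ volume ((PP v ×ˢ X) \ B) = 0) ∨
    (volume ((PP v ×ˢ X) \ A) = 0 ∧ volume (B ∩ (PP v ×ˢ X)) = 0) := by
  have hIA : Inv v A := inv_of_hyp hv HA
  have hIB : Inv v B := inv_of_hyp hv HB
  have hchA := chord_of_hyp (v := v) HA
  have hchB := chord_of_hyp (v := v) HB
  have hFA := LF_FA (v := v) hA
  have hFB := LF_FA (v := v) hB
  have hsA : ∀ i, SymAt (FA v A) (v i) (v (nxt hn hv i) - v i) := fun i =>
    symAt_FA hn hv hIA hchA (nxt_side hn hv i)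
  have hsB : ∀ i, SymAt (FA v B) (v i) (v (nxt hn hv i) - v i) := fun i =>
    symAt_FA hn hv hIB hchB (nxt_side hn hv i)
  set F : ℂ → ℝ → ℝ := fun w Q => FA v A w Q - FA v B w Q with hFdef
  have hF01 : ∀ (D : Set (ℂ × ℂ)) w Q, FA v D w Q = 0 ∨ FA v D w Q = 1 := by
    intro D w Q
    unfold FA
    by_cases h : (w, Q) ∈ Lset v D
    · rw [indicator_of_mem h]; right; rfl
    · rw [indicator_of_notMem h]; left; rfl
  have hint : ∀ w Q, F w Q = -1 ∨ F w Q = 0 ∨ F w Q = 1 := by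
    intro w Q
    rw [hFdef]
    simp only
    rcases hF01 A w Q with h | h <;> rcases hF01 B w Q with h' | h' <;> rw [h, h'] <;> norm_num
  have hF : LF F := by
    constructor
    · exact hFA.meas.sub hFB.meas
    · intro w Q
      rcases hint w Q with h | h | h <;> rw [h] <;> norm_num
  have hhom : HomF F := by
    intro r hr w Q
    rw [hFdef]
    simp only
    rw [FA_hom hconeA r hr, FA_hom hconeB r hr]
  have hs : ∀ i, SymAt F (v i) (v (nxt hn hv i) - v i) := by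
    intro i
    filter_upwards [hsA i, hsB i] with w k1 k2
    filter_upwards [k1, k2] with τ k3 k4 hτ
    rw [hFdef]
    simp only
    rw [k3 hτ, k4 hτ]
  have hsl : ∀ᵐ w, ∀ j, sl v F o j w = arV v A o j w - arV v B o j w := by
    filter_upwards [sl_FA hA hchA o, sl_FA hB hchB o] with w k1 k2 j
    rw [hFdef, sl_sub hFA hFB, k1 j, k2 j]
  have hrot := rot_of_summable hn hv hF hhom hs hint (hsum F hF hhom hs hsl)
  obtain ⟨c, hcc⟩ := const_of_rot hn hv hF hhom (fun ρ _ => hrot ρ)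
  exact ind_diff_cases (ind_of_F hA hB hchA hchB hF (fun _ _ => rfl) hcc) X

/-- The difference of the slice areas is a function of the direction. -/
def ArDiff (v : Fin n → ℂ) (A B : Set (ℂ × ℂ)) (o j : Fin n) (φ : ℝ → ℝ) : Prop :=
  ∀ᵐ w : ℂ, arV v A o j w - arV v B o j w = φ (Complex.arg w)

/-- Slice areas with Lipschitz derivatives. -/
theorem smooth_case (hArea : StArea) (hInj : StInj) (hSep : StSep) (hFour : StFour) (hn : 3 ≤ n)
    (hv : ConvexIndependent ℝ v) {A B : Set (ℂ × ℂ)}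
    (hA : MeasurableSet A) (hB : MeasurableSet B)
    (hconeA : ∀ x w : ℂ, ∀ c : ℝ, 0 < c → ((x, w) ∈ A ↔ (x, (c : ℂ) * w) ∈ A))
    (hconeB : ∀ x w : ℂ, ∀ c : ℝ, 0 < c → ((x, w) ∈ B ↔ (x, (c : ℂ) * w) ∈ B))
    (HA : ∀ᵐ p ∂(volume : Measure (ℂ × ℂ)), HypAt v A p)
    (HB : ∀ᵐ p ∂(volume : Measure (ℂ × ℂ)), HypAt v B p) (X : Set ℂ) (o : Fin n)
    (hc : ∀ j, j ≠ o → ∃ φ : ℝ → ℝ, Function.Periodic φ (2 * Real.pi) ∧ Differentiable ℝ φ ∧
      (∃ K : ℝ≥0, LipschitzWith K (deriv φ)) ∧ ArDiff v A B o j φ) :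
    volume ({p : ℂ × ℂ | ¬ (p ∈ A ↔ p ∈ B)} ∩ (PP v ×ˢ X)) = 0 ∨
    (volume (A ∩ (PP v ×ˢ X)) = 0 ∧ volume ((PP v ×ˢ X) \ B) = 0) ∨
    (volume ((PP v ×ˢ X) \ A) = 0 ∧ volume (B ∩ (PP v ×ˢ X)) = 0) := by
  choose! φ hper hd hK hφ using hc
  refine conclude2 hn hv hA hB hconeA hconeB HA HB X o (fun F hF hhom hs hsl => ?_)
  refine sum_smooth hArea hInj hSep hn hv o hF hhom hs (G := fun j w => φ j (Complex.arg w))
    (fun j hj d => ((hFour d (φ j) (hper j hj) (hd j hj)).1 (hK j hj)).1)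
    (fun j hj => ?_)
    (fun j hj d => ((hFour d (φ j) (hper j hj) (hd j hj)).1 (hK j hj)).2)
  filter_upwards [hsl, hφ j hj] with w k1 k2
  rw [k1 j, k2]

/-- Slice areas with Hölder derivatives, polygons with Diophantine angles. -/
theorem holder_case2 (hArea : StArea) (hInj : StInj) (hSep : StSep) (hFour : StFour) (hn : 3 ≤ n)
    (hv : ConvexIndependent ℝ v) {A B : Set (ℂ × ℂ)}
    (hA : MeasurableSet A) (hB : MeasurableSet B)
    (hconeA : ∀ x w : ℂ, ∀ c : ℝ, 0 < c → ((x, w) ∈ A ↔ (x, (c : ℂ) * w) ∈ A))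
    (hconeB : ∀ x w : ℂ, ∀ c : ℝ, 0 < c → ((x, w) ∈ B ↔ (x, (c : ℂ) * w) ∈ B))
    (HA : ∀ᵐ p ∂(volume : Measure (ℂ × ℂ)), HypAt v A p)
    (HB : ∀ᵐ p ∂(volume : Measure (ℂ × ℂ)), HypAt v B p) (X : Set ℂ) (o : Fin n)
    (hirr : ∀ i, ∀ m : ℕ, 0 < m →
      ((ed hn hv i / ed hn hv (prv hn hv i)) ^ m).im ≠ 0)
    (hSD : ∀ i, sarg (ed hn hv i) - sarg (ed hn hv (prv hn hv i)) ∈ SD)
    (hc : ∀ j, j ≠ o → ∃ (φ : ℝ → ℝ) (α C : ℝ), Function.Periodic φ (2 * Real.pi) ∧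
      Differentiable ℝ φ ∧ 1 / 2 < α ∧ α ≤ 1 ∧
      (∀ x y : ℝ, |deriv φ x - deriv φ y| ≤ C * |x - y| ^ α) ∧ ArDiff v A B o j φ) :
    volume ({p : ℂ × ℂ | ¬ (p ∈ A ↔ p ∈ B)} ∩ (PP v ×ˢ X)) = 0 ∨
    (volume (A ∩ (PP v ×ˢ X)) = 0 ∧ volume ((PP v ×ˢ X) \ B) = 0) ∨
    (volume ((PP v ×ˢ X) \ A) = 0 ∧ volume (B ∩ (PP v ×ˢ X)) = 0) := by
  choose! φ α C hper hd hα hα1 hC hφ using hc
  have hne : ∀ i, ed hn hv i ≠ 0 := fun i => v_sub_ne hv (nxt_side hn hv i).ne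
  have hF2 : ∀ j, j ≠ o → ∀ d : ℂ, Hom1 (fun w => cr d w * φ j (Complex.arg w)) ∧
      ∃ C' : ℝ, 0 ≤ C' ∧ ∀ k : ℤ, k ≠ 0 →
        ‖cN (fun w => cr d w * φ j (Complex.arg w)) k‖ ≤ C' * |(k : ℝ)| ^ (-(1 + α j)) :=
    fun j hj d => (hFour d (φ j) (hper j hj) (hd j hj)).2 (α j) (C j)
      (by have := hα j hj; linarith) (hα1 j hj) (hC j hj)
  refine conclude2 hn hv hA hB hconeA hconeB HA HB X o (fun F hF hhom hs hsl => ?_)
  refine sum_holder hArea hInj hSep hn hv o hF hhom hs (G := fun j w => φ j (Complex.arg w))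
    (fun j hj d => (hF2 j hj d).1) (fun j hj => ?_) (fun k hk i => ?_) (fun j hj d i => ?_)
  · filter_upwards [hsl, hφ j hj] with w k1 k2
    rw [k1 j, k2]
  · exact im_ne_of_irr (hne i) (hne _) (hirr i) k hk
  · obtain ⟨C', hC', hdec⟩ := (hF2 j hj d).2
    exact summable_sd (hSD i) (hα j hj) hdec

theorem ae_slices {D : Set (ℂ × ℂ)} (h : volume D = 0) :
    ∀ᵐ w : ℂ, ∀ᵐ x : ℂ, (x, w) ∉ D := by
  have h1 : ∀ᵐ p ∂((volume : Measure ℂ).prod (volume : Measure ℂ)), p ∉ D :=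
    measure_eq_zero_iff_ae_notMem.1 h
  have h0 : MeasurePreserving (Prod.swap : ℂ × ℂ → ℂ × ℂ)
    ((volume : Measure ℂ).prod volume) ((volume : Measure ℂ).prod volume) :=
    Measure.measurePreserving_swap
  exact Measure.ae_ae_of_ae_prod (h0.quasiMeasurePreserving.ae h1)

/-- Null sets have null slices. -/
theorem arV_zero {A : Set (ℂ × ℂ)} {X : Set ℂ} (h : volume (A ∩ (PP v ×ˢ X)) = 0)
    (o j : Fin n) : ∀ᵐ w : ℂ, w ∈ X → arV v A o j w = 0 := by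
  filter_upwards [ae_slices h] with w hw hX
  unfold arV
  have h1 : volume {x : ℂ | x ∈ cut v o j ∧ (x, w) ∈ A} = 0 := by
    rw [measure_eq_zero_iff_ae_notMem]
    filter_upwards [hw] with x hx hxA
    exact hx ⟨hxA.2, hxA.1.1, hX⟩
  rw [h1]
  rfl

/-- Conull sets have full slices. -/
theorem arV_full {A : Set (ℂ × ℂ)} {X : Set ℂ} (h : volume ((PP v ×ˢ X) \ A) = 0)
    (o j : Fin n) : ∀ᵐ w : ℂ, w ∈ X → arV v A o j w = (volume (cut v o j)).toReal := by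
  filter_upwards [ae_slices h] with w hw hX
  unfold arV
  congr 1
  apply measure_congr
  filter_upwards [hw] with x hx
  apply propext
  constructor
  · exact fun h => h.1
  · intro hxc
    refine ⟨hxc, ?_⟩
    by_contra hcon
    exact hx ⟨⟨hxc.1, hX⟩, hcon⟩

theorem vol_PP_pos (hn : 3 ≤ n) (hv : ConvexIndependent ℝ v) : 0 < (volume (PP v)).toReal :=
  ENNReal.toReal_pos (isOpen_PP.measure_pos _ (PP_nonempty hn hv)).ne'
    isBounded_PP.measure_lt_top.ne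

theorem exists_BV {p : ℂ → Prop} (h : ∀ᵐ w : ℂ, w ∈ BV → p w) : ∃ w ∈ BV, p w := by
  have h1 : (volume BV : ENNReal) ≠ 0 :=
    (Metric.isOpen_ball.measure_pos _ ⟨0, by simp [BV]⟩).ne'
  have h2 : ∃ᵐ w : ℂ, w ∈ BV := frequently_ae_mem_iff.2 h1
  obtain ⟨w, hw, hw'⟩ := (h2.and_eventually h).exists
  exact ⟨w, hw, hw' hw⟩

/-- Equal slice areas. -/
theorem uniq_case (hArea : StArea) (hInj : StInj) (hSep : StSep) (hFour : StFour) (hn : 3 ≤ n)
    (hv : ConvexIndependent ℝ v) {A B : Set (ℂ × ℂ)}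
    (hA : MeasurableSet A) (hB : MeasurableSet B)
    (hconeA : ∀ x w : ℂ, ∀ c : ℝ, 0 < c → ((x, w) ∈ A ↔ (x, (c : ℂ) * w) ∈ A))
    (hconeB : ∀ x w : ℂ, ∀ c : ℝ, 0 < c → ((x, w) ∈ B ↔ (x, (c : ℂ) * w) ∈ B))
    (HA : ∀ᵐ p ∂(volume : Measure (ℂ × ℂ)), HypAt v A p)
    (HB : ∀ᵐ p ∂(volume : Measure (ℂ × ℂ)), HypAt v B p) (o : Fin n)
    (hc : ∀ j, j ≠ o → ∀ᵐ w : ℂ, arV v A o j w = arV v B o j w) :
    volume ({p : ℂ × ℂ | ¬ (p ∈ A ↔ p ∈ B)} ∩ (PP v ×ˢ BV)) = 0 := by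
  have hno : nxt hn hv o ≠ o := (nxt_side hn hv o).ne.symm
  have h1 := smooth_case hArea hInj hSep hFour hn hv hA hB hconeA hconeB HA HB BV o
    (fun j hj => ⟨fun _ => 0, fun _ => rfl, differentiable_const _,
      ⟨0, by simpa using LipschitzWith.const (0 : ℝ)⟩, by
        filter_upwards [hc j hj] with w hw
        rw [hw, sub_self]⟩)
  have hpos := vol_PP_pos hn hv
  rw [← cut_nxt hn hv o] at hpos
  rcases h1 with h1 | ⟨h1, h2⟩ | ⟨h1, h2⟩
  · exact h1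
  · exfalso
    obtain ⟨w, hw, k1, k2, k3⟩ := exists_BV (p := fun w => arV v A o (nxt hn hv o) w = 0 ∧
      arV v B o (nxt hn hv o) w = (volume (cut v o (nxt hn hv o))).toReal ∧
      arV v A o (nxt hn hv o) w = arV v B o (nxt hn hv o) w) (by
        filter_upwards [arV_zero h1 o (nxt hn hv o), arV_full h2 o (nxt hn hv o),
          hc _ hno] with w k1 k2 k3 hw
        exact ⟨k1 hw, k2 hw, k3⟩)
    rw [k1, k2] at k3
    exact hpos.ne k3
  · exfalso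
    obtain ⟨w, hw, k1, k2, k3⟩ := exists_BV (p := fun w => arV v B o (nxt hn hv o) w = 0 ∧
      arV v A o (nxt hn hv o) w = (volume (cut v o (nxt hn hv o))).toReal ∧
      arV v A o (nxt hn hv o) w = arV v B o (nxt hn hv o) w) (by
        filter_upwards [arV_zero h2 o (nxt hn hv o), arV_full h1 o (nxt hn hv o),
          hc _ hno] with w k1 k2 k3 hw
        exact ⟨k1 hw, k2 hw, k3⟩)
    rw [k1, k2] at k3
    exact hpos.ne k3.symm

end Pool.Agent.Lib.BilU
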