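import Pool.Agent.Lib.MP_7bc51d_an_slice.Fin

set_option autoImplicit false

/-!
Line functions of bounded invariant functions.
-/

namespace Pool.Agent.Lib.BilU

open Complex MeasureTheory Set Filter AddCircle
open scoped ComplexConjugate Topology ENNReal NNReal
open Pool.Agent.Lib.Bil Pool.Agent.Lib.BilM Pool.Agent.Lib.BilS

variable {n : ℕ} {v : Fin n → ℂ}

/-- The invariance properties of a set that are used. -/
structure IA (v : Fin n → ℂ) (A : Set (ℂ × ℂ)) : Prop where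
  meas : MeasurableSet A
  cone : ∀ x w : ℂ, ∀ c : ℝ, 0 < c → ((x, w) ∈ A ↔ (x, (c : ℂ) * w) ∈ A)
  inv : Inv v A
  ch : ∀ᵐ w, ChordAt v A w

/-- Level sum. -/
noncomputable def lev (N : ℕ) (g : ℝ → ℝ) : ℝ :=
  -1 + (2 / (N + 1 : ℝ)) * ∑ i ∈ Finset.range (N + 1), g (-1 + 2 * (i : ℝ) / (N + 1 : ℝ))

theorem lev_abs (N : ℕ) {g : ℝ → ℝ} (hg : ∀ c, g c = 0 ∨ g c = 1) : |lev N g| ≤ 1 := by
  have hN : (0 : ℝ) < N + 1 := by positivity
  have h0 : 0 ≤ ∑ i ∈ Finset.range (N + 1), g (-1 + 2 * (i : ℝ) / (N + 1 : ℝ)) :=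
    Finset.sum_nonneg (fun i _ => by rcases hg (-1 + 2 * (i : ℝ) / (N + 1 : ℝ)) with h | h <;>
      rw [h] <;> norm_num)
  have h1 : ∑ i ∈ Finset.range (N + 1), g (-1 + 2 * (i : ℝ) / (N + 1 : ℝ)) ≤ N + 1 := by
    have : ∀ i ∈ Finset.range (N + 1), g (-1 + 2 * (i : ℝ) / (N + 1 : ℝ)) ≤ 1 := fun i _ => by
      rcases hg (-1 + 2 * (i : ℝ) / (N + 1 : ℝ)) with h | h <;> rw [h] <;> norm_num
    refine (Finset.sum_le_sum this).trans ?_
    simp
  set S := ∑ i ∈ Finset.range (N + 1), g (-1 + 2 * (i : ℝ) / (N + 1 : ℝ)) with hS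
  have h2 : 2 / (N + 1 : ℝ) * S ≤ 2 / (N + 1 : ℝ) * (N + 1) := by gcongr
  have h3 : 2 / (N + 1 : ℝ) * (N + 1) = 2 := by field_simp
  have h4 : 0 ≤ 2 / (N + 1 : ℝ) * S := by positivity
  unfold lev
  rw [abs_le]
  constructor <;> linarith

theorem lev_near (N : ℕ) {y : ℝ} (hy : |y| ≤ 1) {g : ℝ → ℝ}
    (hg : ∀ c, g c = if c < y then 1 else 0) : |lev N g - y| ≤ 2 / (N + 1 : ℝ) := by
  have hN : (0 : ℝ) < N + 1 := by positivity
  rw [abs_le] at hy
  -- the number of levels below `y`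
  set z : ℝ := (y + 1) * (N + 1) / 2 with hz
  have hz0 : 0 ≤ z := by
    have : 0 ≤ y + 1 := by linarith
    positivity
  have hz1 : z ≤ N + 1 := by
    rw [hz]; nlinarith
  set m : ℕ := ⌈z⌉₊ with hm
  have hm1 : m ≤ N + 1 := by
    rw [hm]
    exact Nat.ceil_le.2 (by push_cast; exact hz1)
  have hlt : ∀ i : ℕ, (-1 + 2 * (i : ℝ) / (N + 1 : ℝ) < y ↔ i < m) := by
    intro i
    rw [hm, Nat.lt_ceil, hz, lt_div_iff₀ (by norm_num : (0 : ℝ) < 2)]
    constructor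
    · intro h
      have h1 : 2 * (i : ℝ) / (N + 1 : ℝ) < y + 1 := by linarith
      rw [div_lt_iff₀ hN] at h1
      linarith
    · intro h
      have h1 : 2 * (i : ℝ) / (N + 1 : ℝ) < y + 1 := by
        rw [div_lt_iff₀ hN]
        linarith
      linarith
  have hsum : ∑ i ∈ Finset.range (N + 1), g (-1 + 2 * (i : ℝ) / (N + 1 : ℝ)) = m := by
    simp_rw [hg, hlt]
    rw [Finset.sum_ite, Finset.sum_const_zero, add_zero, Finset.sum_const, nsmul_eq_mul, mul_one]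
    congr 1
    have : Finset.filter (fun i => i < m) (Finset.range (N + 1)) = Finset.range m := by
      ext i
      simp only [Finset.mem_filter, Finset.mem_range]
      omega
    rw [this, Finset.card_range]
  unfold lev
  rw [hsum]
  have h1 : z ≤ m := Nat.le_ceil z
  have h2 : (m : ℝ) < z + 1 := Nat.ceil_lt_add_one hz0
  have h3 : 2 / (N + 1 : ℝ) * z = y + 1 := by rw [hz]; field_simp
  have h4 : 2 / (N + 1 : ℝ) * z ≤ 2 / (N + 1 : ℝ) * m := by gcongr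
  have h5 : 2 / (N + 1 : ℝ) * m ≤ 2 / (N + 1 : ℝ) * (z + 1) := by gcongr
  have h6 : 0 < 2 / (N + 1 : ℝ) := by positivity
  rw [abs_le]
  constructor
  · nlinarith
  · rw [mul_add, h3] at h5
    linarith

/-- The line function of a bounded function. -/
noncomputable def Fl (v : Fin n → ℂ) (f : ℂ × ℂ → ℝ) (w : ℂ) (Q : ℝ) : ℝ :=
  limsup (fun N : ℕ => lev N (fun c => FA v {p | c < f p} w Q)) atTop

theorem FA_01 (v : Fin n → ℂ) (D : Set (ℂ × ℂ)) (w : ℂ) (Q : ℝ) :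
    FA v D w Q = 0 ∨ FA v D w Q = 1 := by
  unfold FA
  by_cases h : (w, Q) ∈ Lset v D
  · rw [indicator_of_mem h]; right; rfl
  · rw [indicator_of_notMem h]; left; rfl

theorem limsup_bdd {u : ℕ → ℝ} (hu : ∀ N, |u N| ≤ 1) : |limsup u atTop| ≤ 1 := by
  have h1 : ∀ N, -1 ≤ u N ∧ u N ≤ 1 := fun N => abs_le.1 (hu N)
  rw [abs_le]
  constructor
  · exact le_limsup_of_le (isBoundedUnder_of ⟨1, fun N => (h1 N).2⟩)
      (fun b hb => by
        obtain ⟨N, hN⟩ := hb.exists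
        exact (h1 N).1.trans hN)
  · exact limsup_le_of_le (isCoboundedUnder_le_of_le atTop (x := -1) (fun N => (h1 N).1))
      (Eventually.of_forall (fun N => (h1 N).2))

theorem LF_Fl {f : ℂ × ℂ → ℝ} (hf : Measurable f) : LF (Fl v f) := by
  constructor
  · have h1 : ∀ N : ℕ, Measurable (fun p : ℂ × ℝ =>
        lev N (fun c => FA v {p | c < f p} p.1 p.2)) := by
      intro N
      unfold lev
      refine measurable_const.add (measurable_const.mul ?_)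
      apply Finset.measurable_sum
      intro i _
      exact (LF_FA (v := v) (measurableSet_lt measurable_const hf)).meas
    exact Measurable.limsup h1
  · intro w Q
    exact limsup_bdd (fun N => lev_abs N (fun c => FA_01 v _ w Q))

theorem Fl_hom {f : ℂ × ℂ → ℝ} (hf : ∀ c : ℝ, IA v {p | c < f p}) : HomF (Fl v f) := by
  intro r hr w Q
  unfold Fl lev
  congr 1
  funext N
  congr 2
  apply Finset.sum_congr rfl
  intro i _
  exact FA_hom (hf _).cone r hr w Q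

theorem Fl_sym (hn : 3 ≤ n) (hv : ConvexIndependent ℝ v) {f : ℂ × ℂ → ℝ}
    (hf : ∀ c : ℝ, IA v {p | c < f p}) {i j : Fin n} (hij : IsSide v i j) :
    SymAt (Fl v f) (v i) (v j - v i) := by
  have h1 : ∀ᵐ w : ℂ, ∀ N i' : ℕ, ∀ᵐ τ : ℝ, τ ∈ Ioo (0 : ℝ) 1 →
      FA v {p | -1 + 2 * (i' : ℝ) / (N + 1 : ℝ) < f p} (rl (v j - v i) w)
        (cr (rl (v j - v i) w) (v i + (τ : ℂ) * (v j - v i))) =
      FA v {p | -1 + 2 * (i' : ℝ) / (N + 1 : ℝ) < f p} w
        (cr w (v i + (τ : ℂ) * (v j - v i))) := by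
    rw [ae_all_iff]; intro N
    rw [ae_all_iff]; intro i'
    exact symAt_FA hn hv (hf _).inv (hf _).ch hij
  unfold SymAt
  filter_upwards [h1] with w hw
  have h2 : ∀ᵐ τ : ℝ, ∀ N i' : ℕ, τ ∈ Ioo (0 : ℝ) 1 →
      FA v {p | -1 + 2 * (i' : ℝ) / (N + 1 : ℝ) < f p} (rl (v j - v i) w)
        (cr (rl (v j - v i) w) (v i + (τ : ℂ) * (v j - v i))) =
      FA v {p | -1 + 2 * (i' : ℝ) / (N + 1 : ℝ) < f p} w
        (cr w (v i + (τ : ℂ) * (v j - v i))) := by
    rw [ae_all_iff]; intro N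
    rw [ae_all_iff]; intro i'
    exact hw N i'
  filter_upwards [h2] with τ hτ hτI
  unfold Fl lev
  congr 1
  funext N
  congr 2
  apply Finset.sum_congr rfl
  intro i' _
  exact hτ N i' hτI

theorem Fl_ae {f : ℂ × ℂ → ℝ} (hb : ∀ p, |f p| ≤ 1)
    (hf : ∀ c : ℝ, IA v {p | c < f p}) :
    ∀ᵐ w : ℂ, ∀ᵐ x : ℂ, x ∈ PP v → Fl v f w (cr w x) = f (x, w) := by
  have h1 : ∀ᵐ w : ℂ, ∀ N i' : ℕ, ∀ᵐ x : ℂ, x ∈ PP v →
      FA v {p | -1 + 2 * (i' : ℝ) / (N + 1 : ℝ) < f p} w (cr w x) =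
      ({p | -1 + 2 * (i' : ℝ) / (N + 1 : ℝ) < f p} : Set (ℂ × ℂ)).indicator 1 (x, w) := by
    rw [ae_all_iff]; intro N
    rw [ae_all_iff]; intro i'
    exact FA_ae (hf _).ch
  filter_upwards [h1] with w hw
  have h2 : ∀ᵐ x : ℂ, ∀ N i' : ℕ, x ∈ PP v →
      FA v {p | -1 + 2 * (i' : ℝ) / (N + 1 : ℝ) < f p} w (cr w x) =
      ({p | -1 + 2 * (i' : ℝ) / (N + 1 : ℝ) < f p} : Set (ℂ × ℂ)).indicator 1 (x, w) := by
    rw [ae_all_iff]; intro N
    rw [ae_all_iff]; intro i'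
    exact hw N i'
  filter_upwards [h2] with x hx hxP
  set y := f (x, w) with hy
  have h3 : ∀ N : ℕ, lev N (fun c => FA v {p | c < f p} w (cr w x)) =
      lev N (fun c => if c < y then 1 else 0) := by
    intro N
    unfold lev
    congr 2
    apply Finset.sum_congr rfl
    intro i' _
    beta_reduce
    rw [hx N i' hxP]
    by_cases h : -1 + 2 * (i' : ℝ) / (N + 1 : ℝ) < y
    · rw [if_pos h, indicator_of_mem (show (x, w) ∈ {p | -1 + 2 * (i' : ℝ) / (N + 1 : ℝ) < f p}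
        from h)]
      rfl
    · rw [if_neg h, indicator_of_notMem (show (x, w) ∉
        {p | -1 + 2 * (i' : ℝ) / (N + 1 : ℝ) < f p} from h)]
  have h4 : Tendsto (fun N : ℕ => lev N (fun c => FA v {p | c < f p} w (cr w x))) atTop
      (𝓝 y) := by
    rw [tendsto_iff_norm_sub_tendsto_zero]
    have h5 : Tendsto (fun N : ℕ => 2 * (1 / ((N : ℝ) + 1))) atTop (𝓝 (2 * 0)) :=
      tendsto_one_div_add_atTop_nhds_zero_nat.const_mul 2
    rw [mul_zero] at h5
    refine squeeze_zero (fun N => norm_nonneg _) (fun N => ?_) h5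
    rw [Real.norm_eq_abs, h3]
    have := lev_near N (hb (x, w)) (g := fun c => if c < y then 1 else 0) (fun c => rfl)
    rw [← hy] at this
    calc _ ≤ 2 / ((N : ℝ) + 1) := this
      _ = _ := by ring
  exact h4.limsup_eq

end Pool.Agent.Lib.BilU
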