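import Pool.Agent.Lib.MP_7bc51d_an_slice.Defs
import Pool.Agent.Lib.MP_7bc51d_an_smooth.Holder

set_option autoImplicit false

/-!
Fourier coefficients of the slice functionals.
-/

namespace Pool.Agent.Lib.BilU

open Complex MeasureTheory Set Filter AddCircle
open scoped ComplexConjugate Topology ENNReal NNReal
open Pool.Agent.Lib.Bil Pool.Agent.Lib.BilM Pool.Agent.Lib.BilS

/-- The function on the circle given by a periodic function. -/
noncomputable def pl (g : ℝ → ℝ) (t : TT) : ℝ := g (Complex.arg (rho t))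

theorem arg_rho (t : TT) : ((Complex.arg (rho t) : ℝ) : TT) = t := by
  apply rho_inj
  have h := rho_sarg (rho t)
  rw [norm_rho, ofReal_one, one_mul] at h
  exact h

theorem pl_coe {g : ℝ → ℝ} (hg : Function.Periodic g (2 * Real.pi)) (x : ℝ) :
    pl g (x : TT) = g x := by
  unfold pl
  have h := arg_rho (x : TT)
  have h2 : (Complex.arg (rho (x : TT))) - x ∈ AddSubgroup.zmultiples (2 * Real.pi) :=
    (QuotientAddGroup.eq_iff_sub_mem).1 h
  obtain ⟨n, hn⟩ := AddSubgroup.mem_zmultiples_iff.1 h2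
  have h3 : Complex.arg (rho (x : TT)) = x + n • (2 * Real.pi) := by
    rw [hn]; ring
  rw [h3]
  exact hg.zsmul n x

theorem BL_const (c : ℝ) : BL (fun _ : TT => c) :=
  ⟨measurable_const, ⟨|c|, abs_nonneg _, fun _ => le_rfl⟩,
    ⟨0, le_rfl, fun t h => by simp⟩⟩

theorem BL_pl {g : ℝ → ℝ} (hg : Function.Periodic g (2 * Real.pi)) (hc : Continuous g) {K : ℝ}
    (hK : 0 ≤ K) (hk : ∀ x y, |g x - g y| ≤ K * |x - y|) : BL (pl g) := by
  refine ⟨hc.measurable.comp (Complex.measurable_arg.comp measurable_rho),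
    ⟨|g 0| + K * Real.pi, by positivity, fun t => ?_⟩, ⟨K, hK, fun t h => ?_⟩⟩
  · unfold pl
    have h1 := hk (Complex.arg (rho t)) 0
    have h2 := Complex.abs_arg_le_pi (rho t)
    rw [sub_zero] at h1
    have h3 : |g (Complex.arg (rho t))| ≤ |g (Complex.arg (rho t)) - g 0| + |g 0| := by
      have := abs_add_le (g (Complex.arg (rho t)) - g 0) (g 0)
      rwa [sub_add_cancel] at this
    have h4 : K * |Complex.arg (rho t)| ≤ K * Real.pi := by gcongr
    linarith
  · induction t using QuotientAddGroup.induction_on with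
    | H x =>
      have e : ((x : TT) + (h : TT)) = ((x + h : ℝ) : TT) := (AddCircle.coe_add _ _ _).symm
      have h1 := hk (x + h) x
      rw [add_sub_cancel_left] at h1
      have h2 := pl_coe hg (x + h)
      have h3 := pl_coe hg x
      calc |pl g ((x : TT) + (h : TT)) - pl g (x : TT)| = |g (x + h) - g x| := by
            rw [e, h2, h3]
        _ ≤ _ := h1

theorem HL_pl {g : ℝ → ℝ} (hg : Function.Periodic g (2 * Real.pi)) (hc : Continuous g)
    {α C : ℝ} (hα : 0 < α) (hC0 : 0 ≤ C) (hC : ∀ x y, |g x - g y| ≤ C * |x - y| ^ α) :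
    HL α (pl g) := by
  refine ⟨hc.measurable.comp (Complex.measurable_arg.comp measurable_rho),
    ⟨|g 0| + C * Real.pi ^ α, by positivity, fun t => ?_⟩, ⟨C, hC0, fun t h _ => ?_⟩⟩
  · unfold pl
    have h1 := hC (Complex.arg (rho t)) 0
    have h2 := Complex.abs_arg_le_pi (rho t)
    rw [sub_zero] at h1
    have h3 : |g (Complex.arg (rho t))| ≤ |g (Complex.arg (rho t)) - g 0| + |g 0| := by
      have := abs_add_le (g (Complex.arg (rho t)) - g 0) (g 0)
      rwa [sub_add_cancel] at this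
    have h4 : C * |Complex.arg (rho t)| ^ α ≤ C * Real.pi ^ α := by
      gcongr
    linarith
  · induction t using QuotientAddGroup.induction_on with
    | H x =>
      have e : ((x : TT) + (h : TT)) = ((x + h : ℝ) : TT) := (AddCircle.coe_add _ _ _).symm
      have h1 := hC (x + h) x
      rw [add_sub_cancel_left] at h1
      have h2 := pl_coe hg (x + h)
      have h3 := pl_coe hg x
      calc |pl g ((x : TT) + (h : TT)) - pl g (x : TT)| = |g (x + h) - g x| := by
            rw [e, h2, h3]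
        _ ≤ _ := h1

/-- Integration by parts on the circle. -/
theorem cm_pl_deriv {g g' : ℝ → ℝ} (hg : Function.Periodic g (2 * Real.pi))
    (hg' : Function.Periodic g' (2 * Real.pi)) (hd : ∀ x, HasDerivAt g (g' x) x)
    (hc : Continuous g') (k : ℤ) : |(k : ℝ)| * ‖cm (pl g) k‖ ≤ ‖cm (pl g') k‖ := by
  by_cases hk : k = 0
  · subst hk; simp
  have key := fourierCoeffOn_of_hasDerivAt Real.two_pi_pos hk
    (f := fun x : ℝ => ((pl g (x : TT) : ℝ) : ℂ)) (f' := fun x : ℝ => ((pl g' (x : TT) : ℝ) : ℂ))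
    (fun x _ => by
      have e1 : (fun x : ℝ => ((pl g (x : TT) : ℝ) : ℂ)) = fun x : ℝ => ((g x : ℝ) : ℂ) := by
        funext y; rw [pl_coe hg]
      rw [e1, pl_coe hg']
      exact (hd x).ofReal_comp)
    (by
      have e1 : (fun x : ℝ => ((pl g' (x : TT) : ℝ) : ℂ)) = fun x : ℝ => ((g' x : ℝ) : ℂ) := by
        funext y; rw [pl_coe hg']
      rw [e1]
      exact (Complex.continuous_ofReal.comp hc).intervalIntegrable _ _)
  rw [← cm_eq, ← cm_eq] at key
  have e1 : pl g ((2 * Real.pi : ℝ) : TT) = pl g ((0 : ℝ) : TT) := by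
    rw [pl_coe hg, pl_coe hg]
    have := hg 0
    rwa [zero_add] at this
  rw [e1] at key
  rw [key]
  simp only [sub_self, mul_zero, zero_sub, ofReal_zero, sub_zero]
  rw [norm_mul, norm_neg, norm_mul, norm_div, norm_one]
  rw [norm_mul, norm_mul, norm_mul, norm_neg, norm_I]
  have e3 : ‖(k : ℂ)‖ = |(k : ℝ)| := by
    have : ((k : ℤ) : ℂ) = ((k : ℝ) : ℂ) := by push_cast; rfl
    rw [this, norm_real, Real.norm_eq_abs]
  have e4 : ‖((2 * Real.pi : ℝ) : ℂ)‖ = 2 * Real.pi := by
    rw [norm_real, Real.norm_eq_abs, abs_of_pos Real.two_pi_pos]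
  have e5 : ‖(Real.pi : ℂ)‖ = Real.pi := by
    rw [norm_real, Real.norm_eq_abs, abs_of_pos Real.pi_pos]
  have e6 : ‖(2 : ℂ)‖ = 2 := by simp
  rw [e3, e4, e5, e6]
  have hk' : 0 < |(k : ℝ)| := abs_pos.2 (by exact_mod_cast hk)
  have hpi := Real.pi_pos
  apply le_of_eq
  field_simp

theorem cr_rho (d : ℂ) (t : TT) : cr d (rho t) = d.re * (rho t).im + (-d.im) * (rho t).re := by
  unfold cr; ring

theorem BL_cr (d : ℂ) : BL (fun t => cr d (rho t)) := by
  have h := ((BL_const d.re).mul BL_im).add ((BL_const (-d.im)).mul BL_re)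
  have e : (fun t => cr d (rho t)) = fun t : TT => d.re * (rho t).im + (-d.im) * (rho t).re := by
    funext t; exact cr_rho d t
  rw [e]; exact h

theorem BL_cr' (d : ℂ) : BL (fun t => cr d (I * rho t)) := by
  have h := ((BL_const d.re).mul BL_re).add ((BL_const d.im).mul BL_im)
  have e : (fun t => cr d (I * rho t)) =
      fun t : TT => d.re * (rho t).re + d.im * (rho t).im := by
    funext t; unfold cr; simp
  rw [e]; exact h

/-- The slice functional as a periodic function. -/
noncomputable def sg (d : ℂ) (φ : ℝ → ℝ) (x : ℝ) : ℝ := cr d (rho (x : TT)) * φ x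

/-- Its derivative. -/
noncomputable def sg' (d : ℂ) (φ ψ : ℝ → ℝ) (x : ℝ) : ℝ :=
  cr d (I * rho (x : TT)) * φ x + cr d (rho (x : TT)) * ψ x

theorem coe_per (x : ℝ) : ((x + 2 * Real.pi : ℝ) : TT) = (x : TT) := by
  rw [AddCircle.coe_add, AddCircle.coe_period, add_zero]

theorem sg_per {d : ℂ} {φ : ℝ → ℝ} (h : Function.Periodic φ (2 * Real.pi)) :
    Function.Periodic (sg d φ) (2 * Real.pi) := by
  intro x
  unfold sg
  rw [coe_per, h x]

theorem sg'_per {d : ℂ} {φ ψ : ℝ → ℝ} (h : Function.Periodic φ (2 * Real.pi))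
    (h' : Function.Periodic ψ (2 * Real.pi)) :
    Function.Periodic (sg' d φ ψ) (2 * Real.pi) := by
  intro x
  unfold sg'
  rw [coe_per, h x, h' x]

theorem pl_sg (d : ℂ) (φ : ℝ → ℝ) : pl (sg d φ) = fun t => cr d (rho t) * pl φ t := by
  funext t
  unfold pl sg
  rw [arg_rho]

theorem pl_sg' (d : ℂ) (φ ψ : ℝ → ℝ) :
    pl (sg' d φ ψ) = fun t => cr d (I * rho t) * pl φ t + cr d (rho t) * pl ψ t := by
  funext t
  unfold pl sg'
  rw [arg_rho]

theorem sg_deriv (d : ℂ) {φ : ℝ → ℝ} (hd : Differentiable ℝ φ) (x : ℝ) :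
    HasDerivAt (sg d φ) (sg' d φ (deriv φ) x) x := by
  have e1 : ∀ y : ℝ, cr d (rho (y : TT)) = d.re * Real.sin y - d.im * Real.cos y := by
    intro y; unfold cr; rw [rho_coe_im, rho_coe_re]
  have e2 : cr d (I * rho (x : TT)) = d.re * Real.cos x - d.im * (-Real.sin x) := by
    unfold cr
    have h1 := rho_coe_im x
    have h2 := rho_coe_re x
    simp only [mul_im, mul_re, I_re, I_im, h1, h2]
    ring
  have h1 : HasDerivAt (fun y : ℝ => d.re * Real.sin y - d.im * Real.cos y)
      (d.re * Real.cos x - d.im * (-Real.sin x)) x :=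
    ((Real.hasDerivAt_sin x).const_mul d.re).sub ((Real.hasDerivAt_cos x).const_mul d.im)
  have h2 := h1.mul (hd x).hasDerivAt
  have e3 : sg d φ = fun y : ℝ => (d.re * Real.sin y - d.im * Real.cos y) * φ y := by
    funext y; unfold sg; rw [e1]
  rw [e3]
  unfold sg'
  rw [e2, e1]
  exact h2

theorem sg'_cont (d : ℂ) {φ ψ : ℝ → ℝ} (hφ : Continuous φ) (hψ : Continuous ψ) :
    Continuous (sg' d φ ψ) := by
  have hc : Continuous (fun x : ℝ => (x : TT)) := AddCircle.continuous_mk' _
  have hr : Continuous (fun x : ℝ => rho (x : TT)) := continuous_rho.comp hc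
  have hcr : ∀ {f : ℝ → ℂ}, Continuous f → Continuous (fun x => cr d (f x)) := by
    intro f hf
    unfold cr
    exact (continuous_const.mul (Complex.continuous_im.comp hf)).sub
      (continuous_const.mul (Complex.continuous_re.comp hf))
  unfold sg'
  exact ((hcr (continuous_const.mul hr)).mul hφ).add ((hcr hr).mul hψ)

theorem per_deriv {φ : ℝ → ℝ} (h : Function.Periodic φ (2 * Real.pi)) :
    Function.Periodic (deriv φ) (2 * Real.pi) := by
  intro x
  have e : (fun y => φ (y + 2 * Real.pi)) = φ := by funext y; exact h y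
  rw [← deriv_comp_add_const, e]

theorem hom1_sl {d : ℂ} {φ : ℝ → ℝ} (hc : Continuous φ) (hb : BL (pl φ)) :
    Hom1 (fun w => cr d w * φ (Complex.arg w)) := by
  obtain ⟨B, hB, hb⟩ := hb.bd
  have hb' : ∀ w : ℂ, |φ (Complex.arg w)| ≤ max B |φ 0| := by
    intro w
    by_cases hw : w = 0
    · subst hw
      rw [Complex.arg_zero]
      exact le_max_right _ _
    · have h1 := hb (sarg w)
      unfold pl at h1
      have h2 : Complex.arg (rho (sarg w)) = Complex.arg w := by
        have h3 := rho_sarg w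
        have h4 := Complex.arg_real_mul (rho (sarg w)) (norm_pos_iff.2 hw)
        rw [h3] at h4
        exact h4.symm
      rw [h2] at h1
      exact h1.trans (le_max_left _ _)
  refine ⟨?_, ?_, ?_⟩
  · refine (meas_cr_right d).mul (hc.measurable.comp Complex.measurable_arg)
  · intro r hr w
    rw [cr_smul_right, Complex.arg_real_mul _ hr]
    ring
  · refine ⟨‖d‖ * max B |φ 0|, by positivity, fun w => ?_⟩
    rw [abs_mul]
    have h1 := abs_cr_le d w
    have h2 := hb' w
    calc |cr d w| * |φ (Complex.arg w)| ≤ (‖d‖ * ‖w‖) * max B |φ 0| := by gcongr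
      _ = _ := by ring

theorem cN_sl (d : ℂ) (φ : ℝ → ℝ) (k : ℤ) :
    cN (fun w => cr d w * φ (Complex.arg w)) k = cm (pl (sg d φ)) k := by
  rw [pl_sg]
  rfl

theorem lip_of_deriv {φ : ℝ → ℝ} (hd : Differentiable ℝ φ) {B : ℝ}
    (hb : ∀ x, |deriv φ x| ≤ B) (x y : ℝ) : |φ x - φ y| ≤ B * |x - y| := by
  have h4 := (convex_univ (𝕜 := ℝ) (E := ℝ)).norm_image_sub_le_of_norm_deriv_le
    (fun x _ => hd x) (fun x _ => (by rw [Real.norm_eq_abs]; exact hb x : ‖deriv φ x‖ ≤ B))
    (mem_univ y) (mem_univ x)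
  rwa [Real.norm_eq_abs, Real.norm_eq_abs] at h4

theorem bd_of_pl {g : ℝ → ℝ} (hg : Function.Periodic g (2 * Real.pi)) {B : ℝ}
    (hb : ∀ t, |pl g t| ≤ B) (x : ℝ) : |g x| ≤ B := by
  have := hb (x : TT)
  rwa [pl_coe hg] at this

/-- Row FOUR. -/
theorem stFour : StFour := by
  intro d φ hper hd
  have hper' := per_deriv hper
  refine ⟨?_, ?_⟩
  · rintro ⟨K, hK⟩
    have hl : ∀ x y : ℝ, |deriv φ x - deriv φ y| ≤ (K : ℝ) * |x - y| := by
      intro x y
      have := hK.dist_le_mul x y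
      rwa [Real.dist_eq, Real.dist_eq] at this
    have b1 : BL (pl (deriv φ)) := BL_pl hper' hK.continuous K.2 hl
    obtain ⟨B, hB, hb⟩ := b1.bd
    have b0 : BL (pl φ) := BL_pl hper hd.continuous hB (lip_of_deriv hd (bd_of_pl hper' hb))
    refine ⟨hom1_sl hd.continuous b0, ?_⟩
    have b2 : BL (pl (sg' d φ (deriv φ))) := by
      rw [pl_sg']
      exact ((BL_cr' d).mul b0).add ((BL_cr d).mul b1)
    refine Summable.of_nonneg_of_le (fun k => by positivity) (fun k => ?_) b2.summable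
    rw [cN_sl]
    have h := cm_pl_deriv (sg_per (d := d) hper) (sg'_per (d := d) hper hper') (sg_deriv d hd)
      (sg'_cont d hd.continuous hK.continuous) k
    have h2 : (|(k : ℝ)| * ‖cm (pl (sg d φ)) k‖) ^ 2 ≤
        ‖cm (pl (sg' d φ (deriv φ))) k‖ ^ 2 := by
      gcongr
    rw [mul_pow, sq_abs] at h2
    calc (k : ℝ) ^ 4 * ‖cm (pl (sg d φ)) k‖ ^ 2 =
        (k : ℝ) ^ 2 * ((k : ℝ) ^ 2 * ‖cm (pl (sg d φ)) k‖ ^ 2) := by ring
      _ ≤ _ := by gcongr
  · intro α C hα hα1 hC
    have hC0 : 0 ≤ C := by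
      have h := hC 1 0
      rw [sub_zero, abs_one, Real.one_rpow, mul_one] at h
      exact (abs_nonneg _).trans h
    have hcont : Continuous (deriv φ) := by
      rw [continuous_iff_continuousAt]
      intro y
      rw [ContinuousAt, tendsto_iff_norm_sub_tendsto_zero]
      have h1 : Tendsto (fun x : ℝ => C * |x - y| ^ α) (𝓝 y) (𝓝 0) := by
        have h2 : Continuous (fun x : ℝ => C * |x - y| ^ α) :=
          continuous_const.mul (((continuous_id.sub continuous_const).abs).rpow_const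
            (fun x => Or.inr hα.le))
        have h3 := h2.tendsto y
        rw [sub_self, abs_zero, Real.zero_rpow hα.ne', mul_zero] at h3
        exact h3
      refine squeeze_zero (fun x => norm_nonneg _) (fun x => ?_) h1
      rw [Real.norm_eq_abs]
      exact hC x y
    have b1 : HL α (pl (deriv φ)) := HL_pl hper' hcont hα hC0 hC
    obtain ⟨B, hB, hb⟩ := b1.bd
    have b0 : BL (pl φ) := BL_pl hper hd.continuous hB (lip_of_deriv hd (bd_of_pl hper' hb))
    refine ⟨hom1_sl hd.continuous b0, ?_⟩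
    have b2 : HL α (pl (sg' d φ (deriv φ))) := by
      rw [pl_sg']
      exact (((BL_cr' d).mul b0).toHL hα1).add (((BL_cr d).toHL hα1).mul b1)
    obtain ⟨C', hC', hdec⟩ := b2.decay
    refine ⟨C', hC', fun k hk0 => ?_⟩
    rw [cN_sl]
    have h1 := cm_pl_deriv (sg_per (d := d) hper) (sg'_per (d := d) hper hper') (sg_deriv d hd)
      (sg'_cont d hd.continuous hcont) k
    have h2 := hdec k hk0
    have hka : 0 < |(k : ℝ)| := abs_pos.2 (by exact_mod_cast hk0)
    have h3 : |(k : ℝ)| ^ (-(1 + α)) = |(k : ℝ)|⁻¹ * |(k : ℝ)| ^ (-α) := by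
      rw [← Real.rpow_neg_one, ← Real.rpow_add hka]
      congr 1
      ring
    rw [h3]
    calc ‖cm (pl (sg d φ)) k‖ = |(k : ℝ)|⁻¹ * (|(k : ℝ)| * ‖cm (pl (sg d φ)) k‖) := by
          field_simp
      _ ≤ |(k : ℝ)|⁻¹ * (C' * |(k : ℝ)| ^ (-α)) := by
          have := h1.trans h2
          gcongr
      _ = _ := by ring

end Pool.Agent.Lib.BilU
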