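import Pool.Agent.Lib.MP_7bc51d_an_slice.Defs

set_option autoImplicit false

namespace Pool.Agent.Lib.BilU

open Complex MeasureTheory Set Filter AddCircle
open scoped ComplexConjugate Topology ENNReal NNReal
open Pool.Agent.Lib.Bil Pool.Agent.Lib.BilM Pool.Agent.Lib.BilS

variable {n : ℕ} {v : Fin n → ℂ}

theorem side_lin {F : ℂ → ℝ → ℝ} (hF : LF F) (a e w : ℂ) (c c' : ℝ) :
    ∫ τ in (0 : ℝ)..1, F w (cr w (a + (τ : ℂ) * e)) * ((1 - τ) * c + τ * c') * cr w e =
      c * (Mf F a e w - Mt F a e w) + c' * Mt F a e w := by
  have i0 := ii_mul hF a e w (d := fun _ => 1) continuous_const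
  have i1 := ii_mul hF a e w (d := fun τ => τ) continuous_id
  have h : ∀ τ : ℝ, F w (cr w (a + (τ : ℂ) * e)) * ((1 - τ) * c + τ * c') * cr w e =
      (c * cr w e) * (F w (cr w (a + (τ : ℂ) * e)) * 1) +
        ((c' - c) * cr w e) * (F w (cr w (a + (τ : ℂ) * e)) * τ) := by
    intro τ; ring
  simp_rw [h]
  rw [intervalIntegral.integral_add (i0.const_mul _) (i1.const_mul _),
    intervalIntegral.integral_const_mul, intervalIntegral.integral_const_mul]
  unfold Mf Mt Sm
  simp only [mul_one]
  ring

theorem green_lin (hn : 3 ≤ n) (hv : ConvexIndependent ℝ v) {F : ℂ → ℝ → ℝ} (hF : LF F) {w : ℂ}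
    (hw : w ≠ 0) (hgen : ∀ i, cr w (v (nxt hn hv i)) ≠ cr w (v i))
    {K k : ℂ → ℝ} (hKc : Continuous K) (hk : Measurable k) {C : ℝ}
    (hkb : ∀ y ∈ PP v, |k y| ≤ C)
    (hK : ∀ (y : ℂ) (s : ℝ), K (y + (s : ℂ) * w) - K y = ∫ s' in (0 : ℝ)..s, k (y + (s' : ℂ) * w))
    (hlin : ∀ i, ∀ τ ∈ Icc (0 : ℝ) 1, K (v i + (τ : ℂ) * (v (nxt hn hv i) - v i)) =
      (1 - τ) * K (v i) + τ * K (v (nxt hn hv i))) :
    ∫ x in PP v, F w (cr w x) * k x = ∑ i, K (v i) * Nv hn hv F i w := by
  rw [green hn hv hw hgen (hF.meas2 w) (fun Q => hF.bd w Q) hKc hk hkb hK]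
  have h1 : ∀ i, ∫ τ in (0 : ℝ)..1, F w (cr w (v i + (τ : ℂ) * (v (nxt hn hv i) - v i))) *
        K (v i + (τ : ℂ) * (v (nxt hn hv i) - v i)) * cr w (v (nxt hn hv i) - v i) =
      K (v i) * (Mf F (v i) (ed hn hv i) w - Mt F (v i) (ed hn hv i) w) +
        K (v (nxt hn hv i)) * Mt F (v i) (ed hn hv i) w := by
    intro i
    rw [← side_lin hF]
    apply intervalIntegral.integral_congr
    intro τ hτ
    rw [uIcc_of_le zero_le_one] at hτ
    simp only
    rw [hlin i τ hτ]
  simp_rw [h1]
  rw [Finset.sum_add_distrib]
  have h2 : ∑ i, K (v (nxt hn hv i)) * Mt F (v i) (ed hn hv i) w =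
      ∑ i, K (v i) * Mt F (v (prv hn hv i)) (ed hn hv (prv hn hv i)) w := by
    have h3 := (Equiv.ofBijective _ (nxt_bijective hn hv)).sum_comp
      (fun i => K (v i) * Mt F (v (prv hn hv i)) (ed hn hv (prv hn hv i)) w)
    rw [← h3]
    apply Finset.sum_congr rfl
    intro i _
    change _ = K (v (nxt hn hv i)) *
      Mt F (v (prv hn hv (nxt hn hv i))) (ed hn hv (prv hn hv (nxt hn hv i))) w
    rw [prv_nxt]
  rw [h2, ← Finset.sum_add_distrib]
  apply Finset.sum_congr rfl
  intro i _
  unfold Nv
  ring

theorem trunc_integral (a b s : ℝ) :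
    max 0 (a + s * b) - max 0 a = ∫ t in (0 : ℝ)..s, if 0 < a + t * b then b else 0 := by
  by_cases hb : b = 0
  · subst hb; simp
  have key := MeasureTheory.integral_eq_of_hasDerivAt_off_countable
    (f := fun t : ℝ => max 0 (a + t * b)) (f' := fun t => if 0 < a + t * b then b else 0)
    (a := 0) (b := s) (s := {t | a + t * b = 0}) ?_ ?_ ?_ ?_
  · rw [key]
    simp
  · have : {t : ℝ | a + t * b = 0} ⊆ {-a / b} := by
      intro t ht
      have ht' : a + t * b = 0 := ht
      rw [mem_singleton_iff]
      field_simp
      linarith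
    exact (countable_singleton _).mono this
  · exact (continuous_const.max (by fun_prop)).continuousOn
  · rintro t ⟨_, ht⟩
    have ht' : a + t * b ≠ 0 := ht
    have hd : HasDerivAt (fun t : ℝ => a + t * b) b t := by
      simpa using ((hasDerivAt_id t).mul_const b).const_add a
    have hc : Continuous (fun t : ℝ => a + t * b) := by fun_prop
    rcases lt_or_gt_of_ne ht' with h | h
    · rw [if_neg (not_lt.2 h.le)]
      refine (hasDerivAt_const t (0 : ℝ)).congr_of_eventuallyEq ?_
      filter_upwards [hc.continuousAt.eventually_lt continuousAt_const h] with y hy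
      exact max_eq_left hy.le
    · rw [if_pos h]
      refine hd.congr_of_eventuallyEq ?_
      filter_upwards [continuousAt_const.eventually_lt hc.continuousAt h] with y hy
      exact max_eq_right hy.le
  · have hm : Measurable (fun t : ℝ => if 0 < a + t * b then b else 0) := by
      apply Measurable.ite
      · exact measurableSet_lt measurable_const (by fun_prop)
      · exact measurable_const
      · exact measurable_const
    refine (intervalIntegrable_const (c := |b|)).mono_fun hm.aestronglyMeasurable ?_
    refine Eventually.of_forall (fun t => ?_)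
    simp only [Real.norm_eq_abs, abs_abs]
    split_ifs
    · exact le_rfl
    · simp

theorem stGreen : StGreen := by
  intro n v hn hv F hF w hw hgen
  refine ⟨?_, ?_, ?_⟩
  · have h := green_lin hn hv hF hw hgen (K := fun _ => 1) (k := fun _ => 0) continuous_const
      measurable_const (C := 0) (fun y _ => by simp) (fun y s => by simp)
      (fun i τ _ => by ring)
    simpa using h.symm
  · intro d p
    have h := green_lin hn hv hF hw hgen (K := fun x => cr d (x - p)) (k := fun _ => cr d w)
      (by unfold cr; fun_prop) measurable_const (C := |cr d w|) (fun y _ => le_rfl)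
      (fun y s => by
        rw [intervalIntegral.integral_const]
        simp only [cr_sub_right, cr_add_right, cr_smul_right, smul_eq_mul]
        ring)
      (fun i τ _ => by
        simp only [cr_sub_right, cr_add_right, cr_smul_right]
        ring)
    rw [← h, integral_mul_const]
    ring
  · intro d p hside
    have hcd : Measurable (fun x : ℂ => cr d (x - p)) := by
      apply Continuous.measurable; unfold cr; fun_prop
    have hms : MeasurableSet {x : ℂ | 0 < cr d (x - p)} := measurableSet_lt measurable_const hcd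
    have h := green_lin hn hv hF hw hgen (K := fun x => max 0 (cr d (x - p)))
      (k := fun x => if 0 < cr d (x - p) then cr d w else 0)
      (continuous_const.max (by unfold cr; fun_prop))
      (Measurable.ite hms measurable_const measurable_const) (C := |cr d w|) (fun y _ => by
        split_ifs
        · exact le_rfl
        · simp)
      (fun y s => by
        have h1 : ∀ t : ℝ, cr d (y + (t : ℂ) * w - p) = cr d (y - p) + t * cr d w := by
          intro t
          simp only [cr_sub_right, cr_add_right, cr_smul_right]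
          ring
        simp only [h1]
        exact trunc_integral _ _ _)
      (fun i τ hτ => by
        have h1 : cr d (v i + (τ : ℂ) * (v (nxt hn hv i) - v i) - p) =
            (1 - τ) * cr d (v i - p) + τ * cr d (v (nxt hn hv i) - p) := by
          simp only [cr_sub_right, cr_add_right, cr_smul_right]
          ring
        simp only [h1]
        have t0 : 0 ≤ τ := hτ.1
        have t1 : 0 ≤ 1 - τ := by linarith [hτ.2]
        rcases hside i with ⟨h2, h3⟩ | ⟨h2, h3⟩
        · rw [max_eq_right h2, max_eq_right h3, max_eq_right (by positivity)]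
        · rw [max_eq_left h2, max_eq_left h3, max_eq_left]
          · ring
          · nlinarith [mul_nonneg t1 (neg_nonneg.2 h2), mul_nonneg t0 (neg_nonneg.2 h3)])
    rw [← h]
    have h4 : {x | x ∈ PP v ∧ 0 < cr d (x - p)} = PP v ∩ {x : ℂ | 0 < cr d (x - p)} := rfl
    rw [h4, ← integral_const_mul, ← setIntegral_indicator hms]
    apply integral_congr_ae
    refine Eventually.of_forall (fun x => ?_)
    simp only
    by_cases hx : 0 < cr d (x - p)
    · rw [indicator_of_mem (show x ∈ {x : ℂ | 0 < cr d (x - p)} from hx), if_pos hx]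
      ring
    · rw [indicator_of_notMem (show x ∉ {x : ℂ | 0 < cr d (x - p)} from hx), if_neg hx, mul_zero]

end Pool.Agent.Lib.BilU
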