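import Pool.Agent.Lib.MP_7bc51d_an_slice.OrbGlue

set_option autoImplicit false

namespace Pool.Agent.Lib.BilU

open Complex MeasureTheory Set Filter AddCircle
open scoped ComplexConjugate Topology ENNReal NNReal
open Pool.Agent.Lib.Bil Pool.Agent.Lib.BilM Pool.Agent.Lib.BilS

variable {n : ℕ} {v : Fin n → ℂ}

theorem intOn_DD {g : ℂ × ℂ → ℝ} (hg : Measurable g) (h01 : ∀ p, 0 ≤ g p ∧ g p ≤ 1)
    {S : Set (ℂ × ℂ)} (hS : S ⊆ DD v) : IntegrableOn g S := by
  have hfin : volume S < ⊤ := lt_of_le_of_lt (measure_mono hS) volume_DD_lt_top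
  have h1 : IntegrableOn (fun _ : ℂ × ℂ => (1 : ℝ)) S := integrableOn_const hfin.ne
  refine Integrable.mono' h1 hg.aestronglyMeasurable ?_
  refine Eventually.of_forall (fun p => ?_)
  rw [Real.norm_eq_abs, abs_of_nonneg (h01 p).1]
  exact (h01 p).2

theorem Trj.ii {p : ℂ × ℂ} (Tr : Trj v p) {g : ℂ × ℂ → ℝ} (hg : Measurable g)
    (h01 : ∀ p, 0 ≤ g p ∧ g p ≤ 1) (k : ℕ) (a b : ℝ) :
    IntervalIntegrable (fun t => g (Tr.st k t)) volume a b := by
  have hm : Measurable (fun t => g (Tr.st k t)) := by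
    apply hg.comp
    unfold Trj.st
    exact ((measurable_const.add ((Complex.measurable_ofReal.comp
      (measurable_id.sub_const _)).mul_const _))).prodMk measurable_const
  refine (intervalIntegrable_const (c := (1 : ℝ))).mono_fun hm.aestronglyMeasurable ?_
  refine Eventually.of_forall (fun t => ?_)
  simp only [Real.norm_eq_abs]
  rw [abs_one, abs_of_nonneg (h01 _).1]
  exact (h01 _).2

theorem Trj.avg_compl {p : ℂ × ℂ} (Tr : Trj v p) {g : ℂ × ℂ → ℝ} (hg : Measurable g)
    (h01 : ∀ p, 0 ≤ g p ∧ g p ≤ 1) {N : ℕ} (hN : 0 < N) :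
    Tr.avg (fun q => 1 - g q) N = 1 - Tr.avg g N := by
  have hT : Tr.T N ≠ 0 := by
    have := Tr.mono hN
    rw [Tr.T_zero] at this
    exact this.ne'
  unfold Trj.avg
  have h1 : ∀ k, ∫ t in (Tr.T k)..(Tr.T (k + 1)), (1 - g (Tr.st k t)) =
      (Tr.T (k + 1) - Tr.T k) - ∫ t in (Tr.T k)..(Tr.T (k + 1)), g (Tr.st k t) := by
    intro k
    rw [intervalIntegral.integral_sub intervalIntegrable_const (Tr.ii hg h01 k _ _)]
    simp
  simp_rw [h1]
  rw [Finset.sum_sub_distrib, Finset.sum_range_sub, Tr.T_zero, sub_zero]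
  field_simp

/-- Equality in ORB3. -/
theorem orb_eq (hOrb : StOrb3) (hn : 3 ≤ n) (hv : ConvexIndependent ℝ v) {A : Set (ℂ × ℂ)}
    (hA : IA v A) {g : ℂ × ℂ → ℝ} (hg : Measurable g) (h01 : ∀ p, 0 ≤ g p ∧ g p ≤ 1)
    (hd : ∀ x w : ℂ,
      {t : ℝ | ¬ ContinuousAt (fun t : ℝ => g (x + (t : ℂ) * w, w)) t}.Countable)
    {c : ℝ} (h : ∀ᵐ p : ℂ × ℂ, p ∈ DD v → ∃ Tr : Trj v p, Tendsto (Tr.avg g) atTop (𝓝 c)) :
    ∫ p in A ∩ DD v, g p = c * (volume (A ∩ DD v)).toReal := by
  by_cases hvol : volume (A ∩ DD v) = 0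
  · rw [Measure.restrict_eq_zero.2 hvol, integral_zero_measure, hvol]
    simp
  -- the constant lies in the unit interval
  have hc : 0 ≤ c ∧ c ≤ 1 := by
    have h1 : ∃ᵐ p : ℂ × ℂ, p ∈ A ∩ DD v := frequently_ae_mem_iff.2 hvol
    obtain ⟨p, hp, hp2⟩ := (h1.and_eventually h).exists
    obtain ⟨Tr, hTr⟩ := hp2 hp.2
    have hb : ∀ N, 0 < N → 0 ≤ Tr.avg g N ∧ Tr.avg g N ≤ 1 := by
      intro N hN
      have hT : 0 < Tr.T N := by
        have := Tr.mono hN
        rwa [Tr.T_zero] at this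
      have g1 : 0 ≤ ∑ k ∈ Finset.range N, ∫ t in (Tr.T k)..(Tr.T (k + 1)), g (Tr.st k t) := by
        apply Finset.sum_nonneg
        intro k _
        exact intervalIntegral.integral_nonneg (Tr.mono (Nat.lt_succ_self k)).le
          (fun t _ => (h01 _).1)
      have g2 : ∑ k ∈ Finset.range N, ∫ t in (Tr.T k)..(Tr.T (k + 1)), g (Tr.st k t) ≤
          Tr.T N := by
        have g3 : ∀ k ∈ Finset.range N, ∫ t in (Tr.T k)..(Tr.T (k + 1)), g (Tr.st k t) ≤
            Tr.T (k + 1) - Tr.T k := by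
          intro k _
          have g4 := intervalIntegral.integral_mono_on (Tr.mono (Nat.lt_succ_self k)).le
            (Tr.ii hg h01 k (Tr.T k) (Tr.T (k + 1)))
            (intervalIntegrable_const (c := (1 : ℝ))) (fun t _ => (h01 (Tr.st k t)).2)
          simpa using g4
        refine (Finset.sum_le_sum g3).trans ?_
        rw [Finset.sum_range_sub, Tr.T_zero, sub_zero]
      unfold Trj.avg
      exact ⟨div_nonneg g1 hT.le, div_le_one_of_le₀ g2 hT.le⟩
    constructor
    · refine ge_of_tendsto hTr ?_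
      filter_upwards [eventually_gt_atTop 0] with N hN
      exact (hb N hN).1
    · refine le_of_tendsto hTr ?_
      filter_upwards [eventually_gt_atTop 0] with N hN
      exact (hb N hN).2
  have k1 := hOrb n v hn hv A hA g hg h01 hd c hc.1 h
  have k2 := hOrb n v hn hv A hA (fun q => 1 - g q) (measurable_const.sub hg)
    (fun p => ⟨by linarith [(h01 p).2], by linarith [(h01 p).1]⟩) (fun x w => by
      refine (hd x w).mono ?_
      intro t ht hcont
      exact ht (continuousAt_const.sub hcont)) (1 - c) (by linarith [hc.2]) (by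
      filter_upwards [h] with p hp hpD
      obtain ⟨Tr, hTr⟩ := hp hpD
      refine ⟨Tr, ?_⟩
      refine (tendsto_const_nhds.sub hTr).congr' ?_
      filter_upwards [eventually_gt_atTop 0] with N hN
      exact (Tr.avg_compl hg h01 hN).symm)
  have hsub : A ∩ DD v ⊆ DD v := inter_subset_right
  have hfin : volume (A ∩ DD v) < ⊤ := lt_of_le_of_lt (measure_mono hsub) volume_DD_lt_top
  have hi1 : IntegrableOn (fun _ : ℂ × ℂ => (1 : ℝ)) (A ∩ DD v) := integrableOn_const hfin.ne
  rw [integral_sub hi1 (intOn_DD hg h01 hsub)] at k2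
  have k3 : ∫ _ in A ∩ DD v, (1 : ℝ) = (volume (A ∩ DD v)).toReal := by
    simp [Measure.real]
  rw [k3] at k2
  linarith

theorem int_slice {A : Set (ℂ × ℂ)} (hA : MeasurableSet A) (o j : Fin n) {ψ : ℂ → ℝ}
    (hψ : Continuous ψ) (h01 : ∀ z, 0 ≤ ψ z ∧ ψ z ≤ 1) :
    ∫ p in A ∩ DD v, ob v o j ψ p = ∫ w in BV, ψ (w / (‖w‖ : ℂ)) * arV v A o j w := by
  have hob := ob_meas (v := v) o j hψ
  have h1 : ∫ p in A ∩ DD v, ob v o j ψ p = ∫ p in DD v, A.indicator (ob v o j ψ) p := by
    rw [inter_comm, setIntegral_indicator hA]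
  have hi : IntegrableOn (A.indicator (ob v o j ψ)) (DD v) := by
    refine intOn_DD (hob.indicator hA) (fun p => ?_) (le_refl _)
    by_cases hp : p ∈ A
    · rw [indicator_of_mem hp]; exact ob_01 o j h01 p
    · rw [indicator_of_notMem hp]; exact ⟨le_rfl, zero_le_one⟩
  have hprod : (volume : Measure (ℂ × ℂ)).restrict (DD v) =
      ((volume : Measure ℂ).restrict (PP v)).prod ((volume : Measure ℂ).restrict BV) := by
    rw [Measure.prod_restrict]
    rfl
  rw [h1]
  unfold IntegrableOn at hi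
  rw [hprod] at hi ⊢
  rw [integral_prod_symm _ hi]
  apply integral_congr_ae
  refine Eventually.of_forall (fun w => ?_)
  simp only
  have hAw : MeasurableSet {x : ℂ | (x, w) ∈ A} := measurable_prodMk_right hA
  have hcd : Measurable (fun x : ℂ => cr (v j - v o) (x - v o)) := by
    apply Continuous.measurable; unfold cr; fun_prop
  have hm : MeasurableSet {x : ℂ | 0 < cr (v j - v o) (x - v o) ∧ (x, w) ∈ A} :=
    (measurableSet_lt measurable_const hcd).inter hAw
  have h2 : (fun x : ℂ => A.indicator (ob v o j ψ) (x, w)) = fun x =>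
      ψ (w / (‖w‖ : ℂ)) *
        ({x : ℂ | 0 < cr (v j - v o) (x - v o) ∧ (x, w) ∈ A}).indicator (1 : ℂ → ℝ) x := by
    funext x
    by_cases hp : (x, w) ∈ A
    · rw [indicator_of_mem hp]
      unfold ob
      by_cases hx : 0 < cr (v j - v o) (x - v o)
      · rw [indicator_of_mem (show x ∈ {x : ℂ | 0 < cr (v j - v o) (x - v o) ∧ (x, w) ∈ A} from
          ⟨hx, hp⟩), if_pos hx]
        simp
      · rw [indicator_of_notMem (show x ∉ {x : ℂ | 0 < cr (v j - v o) (x - v o) ∧ (x, w) ∈ A}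
          from fun h => hx h.1), if_neg hx]
        simp
    · rw [indicator_of_notMem hp, indicator_of_notMem (show x ∉
        {x : ℂ | 0 < cr (v j - v o) (x - v o) ∧ (x, w) ∈ A} from fun h => hp h.2), mul_zero]
  rw [h2, integral_const_mul, integral_indicator_one hm, measureReal_restrict_apply hm,
    measureReal_def]
  congr 2
  unfold cut
  congr 1
  ext x
  simp only [mem_inter_iff, mem_setOf_eq]
  tauto

theorem arV_meas {A : Set (ℂ × ℂ)} (hA : MeasurableSet A) (o j : Fin n) :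
    Measurable (arV v A o j) := by
  have h1 : MeasurableSet {p : ℂ × ℂ | p.2 ∈ cut v o j ∧ (p.2, p.1) ∈ A} :=
    ((measurableSet_cut v o j).preimage measurable_snd).inter (measurable_swap hA)
  exact (measurable_measure_prodMk_left h1).ennreal_toReal

theorem arV_le (A : Set (ℂ × ℂ)) (o j : Fin n) (w : ℂ) :
    0 ≤ arV v A o j w ∧ arV v A o j w ≤ (volume (cut v o j)).toReal := by
  unfold arV
  refine ⟨ENNReal.toReal_nonneg, ENNReal.toReal_mono (cut_fin v o j).ne
    (measure_mono (fun x h => h.1))⟩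

theorem arV_hom {A : Set (ℂ × ℂ)}
    (hcone : ∀ x w : ℂ, ∀ c : ℝ, 0 < c → ((x, w) ∈ A ↔ (x, (c : ℂ) * w) ∈ A)) (o j : Fin n)
    {r : ℝ} (hr : 0 < r) (w : ℂ) : arV v A o j ((r : ℂ) * w) = arV v A o j w := by
  unfold arV
  congr 2
  ext x
  simp only [mem_setOf_eq]
  rw [← hcone x w r hr]

theorem intOn_slice {A : Set (ℂ × ℂ)} (hA : MeasurableSet A) (o j : Fin n) {ψ : ℂ → ℝ}
    (hψ : Continuous ψ) (h01 : ∀ z, 0 ≤ ψ z ∧ ψ z ≤ 1) :
    IntegrableOn (fun w => ψ (w / (‖w‖ : ℂ)) * arV v A o j w) BV := by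
  refine intOn_ball ?_ (C := (volume (cut v o j)).toReal) (fun w _ => ?_)
  · refine (hψ.measurable.comp ?_).mul (arV_meas hA o j)
    exact measurable_id.div (Complex.measurable_ofReal.comp measurable_id.norm)
  · have h1 := h01 (w / (‖w‖ : ℂ))
    have h2 := arV_le (v := v) A o j w
    rw [abs_mul, abs_of_nonneg h1.1, abs_of_nonneg h2.1]
    calc _ ≤ 1 * (volume (cut v o j)).toReal := mul_le_mul h1.2 h2.2 h2.1 zero_le_one
      _ = _ := one_mul _

/-- The orbit form. -/
theorem orb_case (hOrb : StOrb3) (hOrb4 : StOrb4) (hU : StUniq) (hn : 3 ≤ n)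
    (hv : ConvexIndependent ℝ v) {A : Set (ℂ × ℂ)} (hA : IA v A) (o : Fin n)
    (h : ∀ j, j ≠ o → ∀ ψ : ℂ → ℝ, Continuous ψ → (∀ z, 0 ≤ ψ z ∧ ψ z ≤ 1) → ∃ c : ℝ,
      ∀ᵐ p : ℂ × ℂ, p ∈ DD v → ∃ Tr : Trj v p, Tendsto (Tr.avg (ob v o j ψ)) atTop (𝓝 c)) :
    volume (A ∩ DD v) = 0 ∨ volume (DD v \ A) = 0 := by
  have hDfin : volume (DD v) < ⊤ := volume_DD_lt_top
  have hDpos : 0 < (volume (DD v)).toReal := by
    refine ENNReal.toReal_pos ?_ hDfin.ne
    rw [DD, Measure.volume_eq_prod, Measure.prod_prod]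
    refine mul_ne_zero (isOpen_PP.measure_pos _ (PP_nonempty hn hv)).ne' ?_
    exact (Metric.isOpen_ball.measure_pos _ ⟨0, by simp⟩).ne'
  set κ : ℝ := (volume (A ∩ DD v)).toReal / (volume (DD v)).toReal with hκ
  have hκ0 : 0 ≤ κ := div_nonneg ENNReal.toReal_nonneg ENNReal.toReal_nonneg
  have hκ1 : κ ≤ 1 := div_le_one_of_le₀
    (ENNReal.toReal_mono hDfin.ne (measure_mono inter_subset_right)) ENNReal.toReal_nonneg
  -- slices
  have hsl : ∀ j, j ≠ o → ∀ᵐ w : ℂ, arV v A o j w - κ * arV v Set.univ o j w = 0 := by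
    intro j hj
    refine hOrb4 (fun w => arV v A o j w - κ * arV v Set.univ o j w)
      ((arV_meas hA.meas o j).sub ((arV_meas MeasurableSet.univ o j).const_mul κ))
      ⟨2 * (volume (cut v o j)).toReal, fun w => ?_⟩ (fun r hr w => ?_) (fun ψ hψ h01 => ?_)
    · have h1 := arV_le (v := v) A o j w
      have h2 := arV_le (v := v) Set.univ o j w
      rw [abs_le]
      constructor <;> nlinarith
    · rw [arV_hom hA.cone o j hr, arV_hom (fun _ _ _ _ => by simp) o j hr]
    · obtain ⟨c, hc⟩ := h j hj ψ hψ h01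
      have e1 := orb_eq hOrb hn hv hA (ob_meas o j hψ) (ob_01 o j h01) (ob_disc o j ψ) hc
      have e2 := orb_eq hOrb hn hv (IA_univ (v := v)) (ob_meas o j hψ) (ob_01 o j h01)
        (ob_disc o j ψ) hc
      rw [int_slice hA.meas o j hψ h01] at e1
      rw [int_slice MeasurableSet.univ o j hψ h01, univ_inter] at e2
      have i1 := intOn_slice (v := v) hA.meas o j hψ h01
      have i2 := intOn_slice (v := v) MeasurableSet.univ o j hψ h01
      have e3 : ∫ w in BV, ψ (w / (‖w‖ : ℂ)) * (arV v A o j w - κ * arV v Set.univ o j w) =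
          (∫ w in BV, ψ (w / (‖w‖ : ℂ)) * arV v A o j w) -
            κ * ∫ w in BV, ψ (w / (‖w‖ : ℂ)) * arV v Set.univ o j w := by
        rw [← integral_const_mul, ← integral_sub i1 (i2.const_mul κ)]
        congr 1
        funext w
        ring
      rw [e3, e1, e2, hκ]
      field_simp
      ring
  have hfun := hU n v hn hv o (A.indicator 1) (fun _ => κ) (measurable_one.indicator hA.meas)
    measurable_const (fun p => by
      by_cases hp : p ∈ A
      · rw [indicator_of_mem hp]; simp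
      · rw [indicator_of_notMem hp]; simp) (fun p => by rw [abs_of_nonneg hκ0]; exact hκ1)
    (IA_ind hA) (IA_const κ) (fun j hj => by
      filter_upwards [hsl j hj] with w hw
      rw [int_ind hA.meas, setIntegral_const, smul_eq_mul]
      have e : arV v Set.univ o j w = (volume (cut v o j)).toReal := by
        unfold arV
        congr 2
        ext x
        simp
      rw [e] at hw
      rw [measureReal_def]
      linarith)
  have hae : ∀ᵐ p : ℂ × ℂ, p ∈ DD v → A.indicator (1 : ℂ × ℂ → ℝ) p = κ := by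
    have h1 : ∀ᵐ p : ℂ × ℂ, p ∉ {p : ℂ × ℂ | A.indicator (1 : ℂ × ℂ → ℝ) p ≠ κ} ∩
        (PP v ×ˢ BV) := measure_eq_zero_iff_ae_notMem.1 hfun
    filter_upwards [h1] with p hp hpD
    by_contra hcon
    exact hp ⟨hcon, hpD⟩
  by_cases hκ' : κ = 0
  · left
    rw [measure_eq_zero_iff_ae_notMem]
    filter_upwards [hae] with p hp hpm
    have := hp hpm.2
    rw [indicator_of_mem hpm.1, hκ'] at this
    exact one_ne_zero this
  · right
    rw [measure_eq_zero_iff_ae_notMem]
    filter_upwards [hae] with p hp hpm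
    have := hp hpm.1
    rw [indicator_of_notMem hpm.2] at this
    exact hκ' this.symm

end Pool.Agent.Lib.BilU
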