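import Pool.Agent.Lib.MP_7bc51d_an_slice.Par57
import Pool.Agent.Lib.MP_7bc51d_an_slice.OrbFin

set_option autoImplicit false

/-!
Polygons in which one slice function is enough (triangles and parallelograms): the smooth case for
sets and the orbit form.
-/

namespace Pool.Agent.Lib.BilU

open Complex MeasureTheory Set Filter AddCircle
open scoped ComplexConjugate Topology ENNReal NNReal
open Pool.Agent.Lib.Bil Pool.Agent.Lib.BilM Pool.Agent.Lib.BilS

variable {n : ℕ} {v : Fin n → ℂ}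

/-- The slice area. -/
noncomputable def arT (v : Fin n → ℂ) (A : Set (ℂ × ℂ)) (w : ℂ) : ℝ :=
  (volume {x : ℂ | x ∈ PP v ∧ (x, w) ∈ A}).toReal

theorem arV_nxt (hn : 3 ≤ n) (hv : ConvexIndependent ℝ v) (A : Set (ℂ × ℂ)) (o : Fin n) (w : ℂ) :
    arV v A o (nxt hn hv o) w = arT v A w := by
  unfold arV arT
  rw [cut_nxt]

theorem ind_abs (A : Set (ℂ × ℂ)) (p : ℂ × ℂ) : |A.indicator (1 : ℂ × ℂ → ℝ) p| ≤ 1 := by
  by_cases hp : p ∈ A
  · rw [indicator_of_mem hp]; simp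
  · rw [indicator_of_notMem hp]; simp

theorem one_arV (hn : 3 ≤ n) (hv : ConvexIndependent ℝ v) (h1 : OneArea v) {A : Set (ℂ × ℂ)}
    (hA : IA v A) (o : Fin n) :
    ∀ᵐ w : ℂ, ∀ j, j ≠ o → arV v A o j w = kp hn hv o j * arT v A w := by
  have hno : nxt hn hv o ≠ o := (nxt_side hn hv o).ne.symm
  filter_upwards [h1 hn hv (A.indicator 1) (measurable_one.indicator hA.meas) (ind_abs A)
    (IA_ind hA) o] with w hw j hj
  have k1 := hw j hj
  have k2 := hw _ hno
  rw [int_ind hA.meas] at k1 k2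
  have k3 : kp hn hv o (nxt hn hv o) = 1 := by rw [kp, if_pos rfl]
  rw [k3, one_mul, arV_nxt] at k2
  rw [k1, ← k2]

theorem one_arDiff (hn : 3 ≤ n) (hv : ConvexIndependent ℝ v) (h1 : OneArea v)
    {A B : Set (ℂ × ℂ)} (hA : IA v A) (hB : IA v B) (o : Fin n) {φ : ℝ → ℝ}
    (h : ∀ᵐ w : ℂ, arT v A w - arT v B w = φ (Complex.arg w)) (j : Fin n) (hj : j ≠ o) :
    ArDiff v A B o j (fun x => kp hn hv o j * φ x) := by
  unfold ArDiff
  filter_upwards [h, one_arV hn hv h1 hA o, one_arV hn hv h1 hB o] with w k1 k2 k3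
  rw [k2 j hj, k3 j hj, ← mul_sub, k1]

theorem IA_of_hyp (hv : ConvexIndependent ℝ v) {A : Set (ℂ × ℂ)} (hA : MeasurableSet A)
    (hcone : ∀ x w : ℂ, ∀ c : ℝ, 0 < c → ((x, w) ∈ A ↔ (x, (c : ℂ) * w) ∈ A))
    (HA : ∀ᵐ p ∂(volume : Measure (ℂ × ℂ)), HypAt v A p) : IA v A :=
  ⟨hA, hcone, inv_of_hyp hv HA, chord_of_hyp HA⟩

/-- Smooth slice areas in triangles and parallelograms. -/
theorem one_smooth (hArea : StArea) (hInj : StInj) (hSep : StSep) (hFour : StFour) (hn : 3 ≤ n)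
    (hv : ConvexIndependent ℝ v) (h1 : OneArea v) {A B : Set (ℂ × ℂ)}
    (hA : MeasurableSet A) (hB : MeasurableSet B)
    (hconeA : ∀ x w : ℂ, ∀ c : ℝ, 0 < c → ((x, w) ∈ A ↔ (x, (c : ℂ) * w) ∈ A))
    (hconeB : ∀ x w : ℂ, ∀ c : ℝ, 0 < c → ((x, w) ∈ B ↔ (x, (c : ℂ) * w) ∈ B))
    (HA : ∀ᵐ p ∂(volume : Measure (ℂ × ℂ)), HypAt v A p)
    (HB : ∀ᵐ p ∂(volume : Measure (ℂ × ℂ)), HypAt v B p) (X : Set ℂ) {φ : ℝ → ℝ}
    (hper : Function.Periodic φ (2 * Real.pi)) (hd : Differentiable ℝ φ)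
    (hL : ∃ K : ℝ≥0, LipschitzWith K (deriv φ))
    (h : ∀ᵐ w : ℂ, arT v A w - arT v B w = φ (Complex.arg w)) :
    volume ({p : ℂ × ℂ | ¬ (p ∈ A ↔ p ∈ B)} ∩ (PP v ×ˢ X)) = 0 ∨
    (volume (A ∩ (PP v ×ˢ X)) = 0 ∧ volume ((PP v ×ˢ X) \ B) = 0) ∨
    (volume ((PP v ×ˢ X) \ A) = 0 ∧ volume (B ∩ (PP v ×ˢ X)) = 0) := by
  have o : Fin n := ⟨0, by omega⟩
  obtain ⟨K, hK⟩ := hL
  refine smooth_case hArea hInj hSep hFour hn hv hA hB hconeA hconeB HA HB X o (fun j hj => ?_)
  refine ⟨fun x => kp hn hv o j * φ x, fun x => by beta_reduce; rw [hper x],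
    hd.const_mul _, ⟨K, ?_⟩, one_arDiff hn hv h1 (IA_of_hyp hv hA hconeA HA)
      (IA_of_hyp hv hB hconeB HB) o h j hj⟩
  have e : deriv (fun x => kp hn hv o j * φ x) = fun x => kp hn hv o j * deriv φ x := by
    funext x
    exact deriv_const_mul _ (hd x)
  rw [e]
  apply LipschitzWith.of_dist_le_mul
  intro x y
  rw [Real.dist_eq, ← mul_sub, abs_mul]
  have h2 := hK.dist_le_mul x y
  rw [Real.dist_eq] at h2
  calc _ ≤ 1 * |deriv φ x - deriv φ y| :=
        mul_le_mul_of_nonneg_right (kp_abs hn hv o j) (abs_nonneg _)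
    _ ≤ _ := by rw [one_mul]; exact h2

/-- Averages only depend on the observable inside the polygon. -/
theorem Trj.avg_congr' {p : ℂ × ℂ} (Tr : Trj v p) {g g' : ℂ × ℂ → ℝ}
    (h : ∀ q : ℂ × ℂ, q.1 ∈ PP v → g q = g' q) (N : ℕ) : Tr.avg g N = Tr.avg g' N := by
  unfold Trj.avg
  congr 1
  apply Finset.sum_congr rfl
  intro k _
  apply intervalIntegral.integral_congr_ae
  have h1 : ∀ᵐ t : ℝ, t ≠ Tr.T (k + 1) := by simp [ae_iff, measure_singleton]
  filter_upwards [h1] with t ht hmem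
  rw [uIoc_of_le (Tr.mono (Nat.lt_succ_self k)).le] at hmem
  exact h _ (Tr.inside k t hmem.1 (lt_of_le_of_ne hmem.2 ht))

/-- The orbit form in triangles and parallelograms: if the directions of almost every orbit are
distributed in the same way, then the flow is ergodic. -/
theorem orb_one (hOrb : StOrb3) (hOrb4 : StOrb4) (hArea : StArea) (hInj : StInj) (hSep : StSep)
    (hn : 3 ≤ n) (hv : ConvexIndependent ℝ v) (h1 : OneArea v) {A : Set (ℂ × ℂ)} (hA : IA v A)
    (h : ∀ ψ : ℂ → ℝ, Continuous ψ → (∀ z, 0 ≤ ψ z ∧ ψ z ≤ 1) → ∃ c : ℝ,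
      ∀ᵐ p : ℂ × ℂ, p ∈ DD v → ∃ Tr : Trj v p,
        Tendsto (Tr.avg (fun q => ψ (q.2 / (‖q.2‖ : ℂ)))) atTop (𝓝 c)) :
    volume (A ∩ DD v) = 0 ∨ volume (DD v \ A) = 0 := by
  have o : Fin n := ⟨0, by omega⟩
  have hDfin : volume (DD v) < ⊤ := volume_DD_lt_top
  have hDpos : 0 < (volume (DD v)).toReal := by
    refine ENNReal.toReal_pos ?_ hDfin.ne
    rw [DD, Measure.volume_eq_prod, Measure.prod_prod]
    refine mul_ne_zero (isOpen_PP.measure_pos _ (PP_nonempty hn hv)).ne' ?_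
    exact (Metric.isOpen_ball.measure_pos _ ⟨0, by simp⟩).ne'
  set κ : ℝ := (volume (A ∩ DD v)).toReal / (volume (DD v)).toReal with hκ
  have hκ0 : 0 ≤ κ := div_nonneg ENNReal.toReal_nonneg ENNReal.toReal_nonneg
  have hκ1 : κ ≤ 1 := div_le_one_of_le₀
    (ENNReal.toReal_mono hDfin.ne (measure_mono inter_subset_right)) ENNReal.toReal_nonneg
  set j := nxt hn hv o with hj
  -- the slices
  have hsl : ∀ᵐ w : ℂ, arV v A o j w - κ * arV v Set.univ o j w = 0 := by
    refine hOrb4 (fun w => arV v A o j w - κ * arV v Set.univ o j w)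
      ((arV_meas hA.meas o j).sub ((arV_meas MeasurableSet.univ o j).const_mul κ))
      ⟨2 * (volume (cut v o j)).toReal, fun w => ?_⟩ (fun r hr w => ?_) (fun ψ hψ h01 => ?_)
    · have h1 := arV_le (v := v) A o j w
      have h2 := arV_le (v := v) Set.univ o j w
      rw [abs_le]
      constructor <;> nlinarith
    · rw [arV_hom hA.cone o j hr, arV_hom (fun _ _ _ _ => by simp) o j hr]
    · obtain ⟨c, hc0⟩ := h ψ hψ h01
      have hc : ∀ᵐ p : ℂ × ℂ, p ∈ DD v →
          ∃ Tr : Trj v p, Tendsto (Tr.avg (ob v o j ψ)) atTop (𝓝 c) := by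
        filter_upwards [hc0] with p hp hpD
        obtain ⟨Tr, hTr⟩ := hp hpD
        refine ⟨Tr, hTr.congr (fun N => Tr.avg_congr' (fun q hq => ?_) N)⟩
        unfold ob
        rw [if_pos ((nxt_side hn hv o).cr_pos hv hq), one_mul]
      have e1 := orb_eq hOrb hn hv hA (ob_meas o j hψ) (ob_01 o j h01) (ob_disc o j ψ) hc
      have e2 := orb_eq hOrb hn hv (IA_univ (v := v)) (ob_meas o j hψ) (ob_01 o j h01)
        (ob_disc o j ψ) hc
      rw [int_slice hA.meas o j hψ h01] at e1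
      rw [int_slice MeasurableSet.univ o j hψ h01, univ_inter] at e2
      have i1 := intOn_slice (v := v) hA.meas o j hψ h01
      have i2 := intOn_slice (v := v) MeasurableSet.univ o j hψ h01
      have e3 : ∫ w in BV, ψ (w / (‖w‖ : ℂ)) * (arV v A o j w - κ * arV v Set.univ o j w) =
          (∫ w in BV, ψ (w / (‖w‖ : ℂ)) * arV v A o j w) -
            κ * ∫ w in BV, ψ (w / (‖w‖ : ℂ)) * arV v Set.univ o j w := by
        rw [← integral_const_mul, ← integral_sub i1 (i2.const_mul κ)]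
        congr 1
        funext w
        ring
      rw [e3, e1, e2, hκ]
      field_simp
      ring
  have hfun := one_uniq hArea hInj hSep hn hv h1 (f := A.indicator 1) (g := fun _ => κ)
    (measurable_one.indicator hA.meas) measurable_const (ind_abs A)
    (fun p => by rw [abs_of_nonneg hκ0]; exact hκ1) (IA_ind hA) (IA_const κ) (by
      filter_upwards [hsl] with w hw
      rw [← cut_nxt hn hv o, int_ind hA.meas, setIntegral_const, smul_eq_mul]
      have e : arV v Set.univ o j w = (volume (cut v o j)).toReal := by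
        unfold arV
        congr 2
        ext x
        simp
      rw [e] at hw
      rw [measureReal_def]
      linarith)
  have hae : ∀ᵐ p : ℂ × ℂ, p ∈ DD v → A.indicator (1 : ℂ × ℂ → ℝ) p = κ := hfun
  by_cases hκ' : κ = 0
  · left
    rw [measure_eq_zero_iff_ae_notMem]
    filter_upwards [hae] with p hp hpm
    have := hp hpm.2
    rw [indicator_of_mem hpm.1, hκ'] at this
    exact one_ne_zero this
  · right
    rw [measure_eq_zero_iff_ae_notMem]
    filter_upwards [hae] with p hp hpm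
    have := hp hpm.1
    rw [indicator_of_notMem hpm.2] at this
    exact hκ' this.symm

end Pool.Agent.Lib.BilU
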