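import Pool.Agent.Lib.MP_7bc51d_an_slice.OrbDefs

set_option autoImplicit false

/-!
States of a trajectory at dyadic times in terms of words.
-/

namespace Pool.Agent.Lib.BilU

open Complex MeasureTheory Set Filter AddCircle
open scoped ComplexConjugate Topology ENNReal NNReal
open Pool.Agent.Lib.Bil Pool.Agent.Lib.BilM Pool.Agent.Lib.BilS

variable {n : ℕ} {v : Fin n → ℂ}

theorem eM_snoc (h : ℝ) (u : List (Option (Fin n × Fin n))) (c : Option (Fin n × Fin n)) :
    ∀ p : ℂ × ℂ, eM v h (u ++ [c]) p = stepMap v h c (eM v h u p) := by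
  induction u with
  | nil => intro p; rfl
  | cons d u ih => intro p; exact ih _

theorem OO_snoc (h : ℝ) (u : List (Option (Fin n × Fin n))) (c : Option (Fin n × Fin n)) :
    ∀ p : ℂ × ℂ, p ∈ OO v h u → eM v h u p ∈ stepSet v h c → p ∈ OO v h (u ++ [c]) := by
  induction u with
  | nil => exact fun p _ hc => ⟨hc, fst_stepMap_mem hc⟩
  | cons d u ih => exact fun p hp hc => ⟨hp.1, ih _ hp.2 hc⟩

/-- A step which crosses a side. -/
theorem step_cross (hv : ConvexIndependent ℝ v) {i j : Fin n} (hij : IsSide v i j) {x w y : ℂ}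
    {τ h : ℝ} (hτ : 0 < τ) (hx : x ∈ PP v) (hy : y = x + (τ : ℂ) * w)
    (hseg : y ∈ openSegment ℝ (v i) (v j))
    (hin : y + ((h - τ : ℝ) : ℂ) * rl (v j - v i) w ∈ PP v) :
    (x, w) ∈ stepSet v h (some (i, j)) ∧
      stepMap v h (some (i, j)) (x, w) =
        (y + ((h - τ : ℝ) : ℂ) * rl (v j - v i) w, rl (v j - v i) w) := by
  have he : v j - v i ≠ 0 := v_sub_ne hv hij.1
  obtain ⟨a, b, ha, hb, hab, hyab⟩ := hseg
  have hy2 : y = v i + (b : ℂ) * (v j - v i) := by
    rw [← hyab]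
    simp only [real_smul]
    have : (a : ℂ) = 1 - (b : ℂ) := by
      have h1 : a = 1 - b := by linarith
      rw [h1]; push_cast; ring
    rw [this]; ring
  have hpos := hij.cr_pos hv hx
  have hxe : x - v i = (b : ℂ) * (v j - v i) - (τ : ℂ) * w := by
    have h1 : x = y - (τ : ℂ) * w := by rw [hy]; ring
    rw [h1, hy2]; ring
  rw [hxe, cr_sub_right, cr_smul_right, cr_smul_right, cr_self, cr_swap (v j - v i) w] at hpos
  have hwe : 0 < cr w (v j - v i) := by
    have : 0 < τ * cr w (v j - v i) := by linarith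
    exact (mul_pos_iff_of_pos_left hτ).1 this
  have hR : RR v i j (x + (h : ℂ) * w) = y + ((h - τ : ℝ) : ℂ) * rl (v j - v i) w := by
    unfold RR
    have h1 : x + (h : ℂ) * w - v i = (b : ℂ) * (v j - v i) + ((h - τ : ℝ) : ℂ) * w := by
      have h2 : x + (h : ℂ) * w - v i = (x - v i) + (h : ℂ) * w := by ring
      rw [h2, hxe]; push_cast; ring
    rw [h1, rl_add, rl_smul, rl_smul, rl_self he, hy2]
    ring
  refine ⟨⟨hij, hx, ?_, ?_, ?_⟩, ?_⟩
  · have h1 : v i - x = (τ : ℂ) * w - (b : ℂ) * (v j - v i) := by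
      have : v i - x = -(x - v i) := by ring
      rw [this, hxe]; ring
    change cr w (v i - x) < 0
    rw [h1, cr_sub_right, cr_smul_right, cr_smul_right, cr_self]
    have := mul_pos hb hwe
    linarith
  · have h1 : v j - x = (τ : ℂ) * w + (a : ℂ) * (v j - v i) := by
      have h2 : v j - x = (v j - v i) - (x - v i) := by ring
      have h3 : (a : ℂ) = 1 - (b : ℂ) := by
        have h1 : a = 1 - b := by linarith
        rw [h1]; push_cast; ring
      rw [h2, hxe, h3]; ring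
    change 0 < cr w (v j - x)
    rw [h1, cr_add_right, cr_smul_right, cr_smul_right, cr_self]
    have := mul_pos ha hwe
    linarith
  · change RR v i j (x + (h : ℂ) * w) ∈ PP v
    rw [hR]
    exact hin
  · change (RR v i j (x + (h : ℂ) * w), rl (v j - v i) w) = _
    rw [hR]

theorem orb_step (hv : ConvexIndependent ℝ v) {p : ℂ × ℂ} (Tr : Trj v p) (hp : p.1 ∈ PP v)
    {h : ℝ} (hh : 0 < h) {N : ℕ} (hgap : ∀ k, k < N → h < Tr.T (k + 1) - Tr.T k)
    (hne : ∀ k m : ℕ, Tr.T (k + 1) ≠ (m : ℝ) * h) :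
    ∀ m k : ℕ, k < N → Tr.T k ≤ (m : ℝ) * h → (m : ℝ) * h < Tr.T (k + 1) →
      ∃ u : List (Option (Fin n × Fin n)), u.length = m ∧ p ∈ OO v h u ∧
        eM v h u p = Tr.st k ((m : ℝ) * h) := by
  intro m
  induction m with
  | zero =>
    intro k _ h1 _
    have hk : k = 0 := by
      by_contra hk
      have h2 := Tr.mono (Nat.pos_of_ne_zero hk)
      rw [Tr.T_zero] at h2
      simp only [Nat.cast_zero, zero_mul] at h1
      linarith
    subst hk
    refine ⟨[], rfl, hp, ?_⟩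
    change p = _
    unfold Trj.st
    rw [Tr.T_zero, Tr.y_zero, Tr.u_zero]
    simp
  | succ m ih =>
    intro k hk h1 h2
    have hm : ((m + 1 : ℕ) : ℝ) * h = (m : ℝ) * h + h := by push_cast; ring
    rcases le_or_gt (Tr.T k) ((m : ℝ) * h) with h3 | h3
    · obtain ⟨u, hu1, hu2, hu3⟩ := ih k hk h3 (by linarith)
      have hmem : (eM v h u p).1 ∈ PP v := (eM_spec hv h u p hu2).1
      have hin := Tr.inside k ((m : ℝ) * h + h) (by linarith) (by linarith)
      have hst : (Tr.st k ((m : ℝ) * h)).1 + (h : ℂ) * (Tr.st k ((m : ℝ) * h)).2 =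
          Tr.y k + (((m : ℝ) * h + h - Tr.T k : ℝ) : ℂ) * Tr.u k := by
        unfold Trj.st
        push_cast
        ring
      have hc : eM v h u p ∈ stepSet v h none := by
        refine ⟨hmem, ?_⟩
        rw [hu3, hst]
        exact hin
      refine ⟨u ++ [none], by simp [hu1], OO_snoc h u none p hu2 hc, ?_⟩
      rw [eM_snoc, hu3, hm]
      change ((Tr.st k ((m : ℝ) * h)).1 + (h : ℂ) * (Tr.st k ((m : ℝ) * h)).2,
        (Tr.st k ((m : ℝ) * h)).2) = _
      rw [hst]
      rfl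
    · obtain ⟨k', rfl⟩ : ∃ k', k = k' + 1 := by
        rcases k with _ | k'
        · exfalso
          rw [Tr.T_zero] at h3
          have : 0 ≤ (m : ℝ) * h := by positivity
          linarith
        · exact ⟨k', rfl⟩
      have hk' : k' < N := by omega
      have hg := hgap k' hk'
      have h4 : Tr.T k' ≤ (m : ℝ) * h := by linarith
      obtain ⟨u, hu1, hu2, hu3⟩ := ih k' hk' h4 h3
      have hmem : (eM v h u p).1 ∈ PP v := (eM_spec hv h u p hu2).1
      rw [hu3] at hmem
      obtain ⟨i, j, hij, hseg, hrl⟩ := Tr.refl k'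
      have h5 : Tr.T (k' + 1) ≠ (m : ℝ) * h + h := by
        have := hne k' (m + 1)
        rwa [hm] at this
      have h6 : Tr.T (k' + 1) < (m : ℝ) * h + h := lt_of_le_of_ne (by linarith) h5
      set τ : ℝ := Tr.T (k' + 1) - (m : ℝ) * h with hτd
      have hτ : 0 < τ := by linarith
      have hin := Tr.inside (k' + 1) ((m : ℝ) * h + h) h6 (by linarith)
      have e1 : ((m : ℝ) * h + h - Tr.T (k' + 1) : ℝ) = h - τ := by rw [hτd]; ring
      rw [e1, hrl] at hin
      have hy : Tr.y (k' + 1) = (Tr.st k' ((m : ℝ) * h)).1 +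
          (τ : ℂ) * (Tr.st k' ((m : ℝ) * h)).2 := by
        rw [Tr.hit k', hτd]
        unfold Trj.st
        push_cast
        ring
      obtain ⟨hs1, hs2⟩ := step_cross hv hij (h := h) hτ hmem hy hseg hin
      have hc : eM v h u p ∈ stepSet v h (some (i, j)) := by
        rw [hu3]
        exact hs1
      refine ⟨u ++ [some (i, j)], by simp [hu1], OO_snoc h u _ p hu2 hc, ?_⟩
      rw [eM_snoc, hu3, hm]
      have e2 : Tr.st k' ((m : ℝ) * h) =
        ((Tr.st k' ((m : ℝ) * h)).1, (Tr.st k' ((m : ℝ) * h)).2) := rfl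
      rw [e2, hs2]
      unfold Trj.st
      rw [e1, hrl]

theorem stOrb1 : StOrb1 := by
  intro n v hn hv p Tr hp hne N
  -- a lower bound for the gaps
  obtain ⟨δ, hδ, hgap⟩ : ∃ δ : ℝ, 0 < δ ∧ ∀ k, k < N → δ < Tr.T (k + 1) - Tr.T k := by
    induction N with
    | zero => exact ⟨1, one_pos, fun k hk => absurd hk (Nat.not_lt_zero k)⟩
    | succ N ih =>
      obtain ⟨δ, hδ, h1⟩ := ih
      have h2 : 0 < Tr.T (N + 1) - Tr.T N := sub_pos.2 (Tr.mono (Nat.lt_succ_self N))
      refine ⟨min δ ((Tr.T (N + 1) - Tr.T N) / 2), lt_min hδ (by linarith), fun k hk => ?_⟩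
      rcases Nat.lt_succ_iff_lt_or_eq.1 hk with h3 | h3
      · exact (min_le_left _ _).trans_lt (h1 k h3)
      · subst h3
        exact (min_le_right _ _).trans_lt (by linarith)
  obtain ⟨r₀, hr₀⟩ : ∃ r₀ : ℕ, (1 / 2 : ℝ) ^ r₀ < δ :=
    exists_pow_lt_of_lt_one hδ (by norm_num)
  refine ⟨r₀, fun r hr m k hk h1 h2 => ?_⟩
  have hh : (0 : ℝ) < 1 / 2 ^ r := by positivity
  have hlt : (1 : ℝ) / 2 ^ r < δ := by
    have h3 : (1 / 2 : ℝ) ^ r ≤ (1 / 2 : ℝ) ^ r₀ :=
      pow_le_pow_of_le_one (by norm_num) (by norm_num) hr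
    have h4 : (1 : ℝ) / 2 ^ r = (1 / 2) ^ r := by rw [one_div_pow]
    rw [h4]
    exact h3.trans_lt hr₀
  have e : ∀ m : ℕ, (m : ℝ) / 2 ^ r = (m : ℝ) * (1 / 2 ^ r) := fun m => by ring
  rw [e] at h1 h2 ⊢
  exact orb_step hv Tr hp hh (N := N) (fun k hk => hlt.trans (hgap k hk))
    (fun k m => by rw [← e]; exact hne k r m) m k hk h1.le h2

end Pool.Agent.Lib.BilU
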