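import Pool.Agent.Lib.MP_7bc51d_an_slice.OrbDefs
import Pool.Agent.Lib.MP_7bc51d_an.Final

set_option autoImplicit false

/-!
Almost no phase point has a trajectory with a dyadic collision time.
-/

namespace Pool.Agent.Lib.BilU

open Complex MeasureTheory Set Filter AddCircle
open scoped ComplexConjugate Topology ENNReal NNReal
open Pool.Agent.Lib.Bil Pool.Agent.Lib.BilM Pool.Agent.Lib.BilS

variable {n : ℕ} {v : Fin n → ℂ}

theorem mp_Fo5 (hv : ConvexIndependent ℝ v) :
    ∀ g : List (Fin n × Fin n), Val v g → MeasurePreserving (Fo v g) volume volume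
  | [], _ => MeasurePreserving.id volume
  | _ :: g, hg => (mp_RR (v_sub_ne hv hg.head.1)).comp (mp_Fo5 hv g hg.tail)

theorem continuous_Fo5 (g : List (Fin n × Fin n)) : Continuous (Fo v g) := by
  induction g with
  | nil => exact continuous_id
  | cons s g ih =>
    change Continuous fun x => RR v s.1 s.2 (Fo v g x)
    exact (continuous_RR (v := v) s.1 s.2).comp ih

theorem line_null5 {e : ℂ} (he : e ≠ 0) (z : ℂ) : volume {x : ℂ | cr e (x - z) = 0} = 0 := by
  have h1 : {x : ℂ | cr e (x - z) = 0} ⊆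
      (fun x : ℂ => x - z) ⁻¹' ((Submodule.span ℝ {e} : Submodule ℝ ℂ) : Set ℂ) := by
    intro x hx
    obtain ⟨t, ht⟩ := (cr_eq_zero_iff he).1 hx
    change x - z ∈ Submodule.span ℝ {e}
    rw [Submodule.mem_span_singleton]
    exact ⟨t, by rw [real_smul]; exact ht.symm⟩
  have h2 : volume ((Submodule.span ℝ {e} : Submodule ℝ ℂ) : Set ℂ) = 0 :=
    measure_eq_zero_iff_ae_notMem.2 (ae_not_mem_line e)
  refine measure_mono_null h1 ?_
  exact (measurePreserving_sub_right volume z).quasiMeasurePreserving.preimage_null h2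

theorem side_pt5 {a b z : ℂ} (h : z ∈ openSegment ℝ a b) :
    ∃ s : ℝ, z = a + (s : ℂ) * (b - a) := by
  obtain ⟨r, s, _, _, hrs, rfl⟩ := h
  refine ⟨s, ?_⟩
  have h1 : r = 1 - s := by linarith
  simp only [real_smul]
  rw [h1]; push_cast; ring

/-- The exceptional set of one word, one side and one time. -/
def EX5 (v : Fin n → ℂ) (g : List (Fin n × Fin n)) (i j : Fin n) (s : ℝ) : Set (ℂ × ℂ) :=
  {p | cr (v j - v i) (Fo v g (p.1 + (s : ℂ) * p.2) - v i) = 0}

theorem EX5_null (hv : ConvexIndependent ℝ v) {g : List (Fin n × Fin n)} (hg : Val v g)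
    {i j : Fin n} (hij : IsSide v i j) (s : ℝ) : volume (EX5 v g i j s) = 0 := by
  have hcr : Continuous (fun z : ℂ => cr (v j - v i) z) := by
    unfold cr; fun_prop
  have hc : Continuous (fun p : ℂ × ℂ =>
      cr (v j - v i) (Fo v g (p.1 + (s : ℂ) * p.2) - v i)) := by
    refine hcr.comp (((continuous_Fo5 g).comp ?_).sub continuous_const)
    fun_prop
  have hS : MeasurableSet (EX5 v g i j s) :=
    (isClosed_singleton.preimage hc).measurableSet
  refine Pool.Agent.Lib.Bil.null_of_slices hS (Eventually.of_forall fun w => ?_)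
  have h1 : MeasurePreserving (fun x : ℂ => Fo v g (x + (s : ℂ) * w)) volume volume :=
    (mp_Fo5 hv g hg).comp (measurePreserving_add_right volume ((s : ℂ) * w))
  exact h1.quasiMeasurePreserving.preimage_null (line_null5 (v_sub_ne hv hij.1) (v i))

/-- Unfolding of a trajectory. -/
theorem Trj.unfold5 (hv : ConvexIndependent ℝ v) {p : ℂ × ℂ} (Tr : Trj v p) : ∀ k : ℕ,
    ∃ g : List (Fin n × Fin n), Val v g ∧ Tr.u k = Lo v g p.2 ∧
      ∀ t : ℝ, Tr.y k + ((t - Tr.T k : ℝ) : ℂ) * Tr.u k = Fo v g (p.1 + (t : ℂ) * p.2) := by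
  intro k
  induction k with
  | zero =>
    refine ⟨[], fun s hs => by simp at hs, Tr.u_zero, fun t => ?_⟩
    rw [Tr.T_zero, Tr.y_zero, Tr.u_zero, sub_zero]
    rfl
  | succ k ih =>
    obtain ⟨g, hg, hu, hy⟩ := ih
    obtain ⟨i, j, hij, hseg, hrl⟩ := Tr.refl k
    have hyk : Tr.y (k + 1) = Fo v g (p.1 + (Tr.T (k + 1) : ℂ) * p.2) := by
      rw [Tr.hit k, hy]
    have hRR : RR v i j (Tr.y (k + 1)) = Tr.y (k + 1) := by
      obtain ⟨s, hs⟩ := side_pt5 hseg
      rw [hs]
      exact RR_line (v_sub_ne hv hij.1) s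
    refine ⟨(i, j) :: g, hg.cons hij, by rw [hrl, hu]; rfl, fun t => ?_⟩
    have h1 := Fo_line (v := v) ((i, j) :: g) p.1 p.2 (Tr.T (k + 1)) (t - Tr.T (k + 1))
    have h2 : Tr.T (k + 1) + (t - Tr.T (k + 1)) = t := by ring
    rw [h2] at h1
    rw [← h1, hrl, hu]
    change _ = RR v i j (Fo v g (p.1 + (Tr.T (k + 1) : ℂ) * p.2)) + _
    rw [← hyk, hRR]
    rfl

theorem stOrb2 : StOrb2 := by
  intro n v hn hv
  have h1 : ∀ᵐ p : ℂ × ℂ, ∀ (g : List (Fin n × Fin n)) (i j : Fin n) (r m : ℕ),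
      Val v g → IsSide v i j → p ∉ EX5 v g i j ((m : ℝ) / 2 ^ r) := by
    rw [ae_all_iff]; intro g
    rw [ae_all_iff]; intro i
    rw [ae_all_iff]; intro j
    rw [ae_all_iff]; intro r
    rw [ae_all_iff]; intro m
    by_cases hg : Val v g
    · by_cases hij : IsSide v i j
      · filter_upwards [measure_eq_zero_iff_ae_notMem.1 (EX5_null hv hg hij ((m : ℝ) / 2 ^ r))]
          with p hp _ _ using hp
      · exact Eventually.of_forall fun p _ h => absurd h hij
    · exact Eventually.of_forall fun p h => absurd h hg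
  filter_upwards [h1] with p hp _ Tr k r m hT
  obtain ⟨g, hg, hu, hy⟩ := Tr.unfold5 hv k
  obtain ⟨i, j, hij, hseg, hrl⟩ := Tr.refl k
  apply hp g i j r m hg hij
  change cr (v j - v i) (Fo v g (p.1 + (((m : ℝ) / 2 ^ r : ℝ) : ℂ) * p.2) - v i) = 0
  rw [← hT, ← hy, ← Tr.hit k]
  obtain ⟨s, hs⟩ := side_pt5 hseg
  rw [hs, add_sub_cancel_left, cr_smul_right, cr_self, mul_zero]

end Pool.Agent.Lib.BilU
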