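import Pool.Agent.Lib.MP_7bc51d_an_slice.OrbDefs

set_option autoImplicit false

/-!
Integral inequality for invariant sets from time averages along trajectories.
-/

namespace Pool.Agent.Lib.BilU

open Complex MeasureTheory Set Filter AddCircle
open scoped ComplexConjugate Topology ENNReal NNReal
open Pool.Agent.Lib.Bil Pool.Agent.Lib.BilM Pool.Agent.Lib.BilS

variable {n : ℕ} {v : Fin n → ℂ}

/-- Dyadic Riemann sums of a bounded function with countably many discontinuities. -/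
theorem riem {φ : ℝ → ℝ} (hm : Measurable φ) (hb : ∀ t, 0 ≤ φ t ∧ φ t ≤ 1)
    (hc : {t : ℝ | ¬ ContinuousAt φ t}.Countable) (L : ℕ) :
    Tendsto (fun r : ℕ => (1 / 2 ^ r : ℝ) *
        ∑ m ∈ Finset.range (L * 2 ^ r), φ ((m : ℝ) / 2 ^ r))
      atTop (𝓝 (∫ t in (0 : ℝ)..L, φ t)) := by
  set ψ : ℕ → ℝ → ℝ := fun r t => φ ((⌊t * 2 ^ r⌋₊ : ℝ) / 2 ^ r) with hψ
  have hψm : ∀ r, Measurable (ψ r) := by
    intro r
    apply hm.comp
    have h1 : Measurable (fun t : ℝ => ⌊t * 2 ^ r⌋₊) :=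
      Nat.measurable_floor.comp (measurable_id.mul_const _)
    have h2 : Measurable (fun k : ℕ => (k : ℝ)) := measurable_from_nat
    exact (h2.comp h1).div_const _
  have hψb : ∀ r t, ‖ψ r t‖ ≤ 1 := by
    intro r t
    simp only [hψ]
    rw [Real.norm_eq_abs, abs_of_nonneg (hb _).1]
    exact (hb _).2
  have hint : ∀ (r : ℕ) (a b : ℝ), IntervalIntegrable (ψ r) volume a b := by
    intro r a b
    rw [intervalIntegrable_iff]
    exact Measure.integrableOn_of_bounded (M := 1) (by simp) (hψm r).aestronglyMeasurable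
      (Eventually.of_forall (hψb r))
  have h1 : ∀ r : ℕ, ∫ t in (0 : ℝ)..L, ψ r t =
      (1 / 2 ^ r : ℝ) * ∑ m ∈ Finset.range (L * 2 ^ r), φ ((m : ℝ) / 2 ^ r) := by
    intro r
    have hp : (0 : ℝ) < 2 ^ r := by positivity
    have h2 := intervalIntegral.sum_integral_adjacent_intervals (f := ψ r) (μ := volume)
      (a := fun m : ℕ => (m : ℝ) / 2 ^ r) (n := L * 2 ^ r) (fun k _ => hint r _ _)
    have e0 : ((0 : ℕ) : ℝ) / 2 ^ r = 0 := by simp
    have eL : ((L * 2 ^ r : ℕ) : ℝ) / 2 ^ r = L := by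
      push_cast
      field_simp
    rw [e0, eL] at h2
    rw [← h2, Finset.mul_sum]
    apply Finset.sum_congr rfl
    intro m _
    have hlt : (m : ℝ) / 2 ^ r ≤ ((m + 1 : ℕ) : ℝ) / 2 ^ r := by
      gcongr
      exact Nat.le_succ m
    rw [intervalIntegral.integral_of_le hlt, integral_Ioc_eq_integral_Ioo]
    have h3 : ∫ t in Ioo ((m : ℝ) / 2 ^ r) (((m + 1 : ℕ) : ℝ) / 2 ^ r), ψ r t =
        ∫ t in Ioo ((m : ℝ) / 2 ^ r) (((m + 1 : ℕ) : ℝ) / 2 ^ r), φ ((m : ℝ) / 2 ^ r) := by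
      apply setIntegral_congr_fun measurableSet_Ioo
      intro t ht
      simp only [hψ]
      have g1 : (m : ℝ) < t * 2 ^ r := by
        have := ht.1
        rwa [div_lt_iff₀ hp] at this
      have g2 : t * 2 ^ r < ((m + 1 : ℕ) : ℝ) := by
        have := ht.2
        rwa [lt_div_iff₀ hp] at this
      have g3 : ⌊t * 2 ^ r⌋₊ = m := by
        rw [Nat.floor_eq_iff ((Nat.cast_nonneg m).trans g1.le)]
        refine ⟨g1.le, ?_⟩
        push_cast at g2
        exact g2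
      rw [g3]
    rw [h3, setIntegral_const, smul_eq_mul, Real.volume_real_Ioo_of_le hlt]
    congr 1
    push_cast
    ring
  have h2 : Tendsto (fun r : ℕ => ∫ t in (0 : ℝ)..L, ψ r t) atTop
      (𝓝 (∫ t in (0 : ℝ)..L, φ t)) := by
    apply intervalIntegral.tendsto_integral_filter_of_dominated_convergence (fun _ => (1 : ℝ))
    · exact Eventually.of_forall (fun r => (hψm r).aestronglyMeasurable)
    · exact Eventually.of_forall (fun r => Eventually.of_forall (fun t _ => hψb r t))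
    · exact intervalIntegrable_const
    · have h3 : ∀ᵐ t : ℝ, t ∉ {t : ℝ | ¬ ContinuousAt φ t} := hc.ae_notMem volume
      filter_upwards [h3] with t ht ht2
      have h4 : ContinuousAt φ t := by
        by_contra hcon
        exact ht hcon
      have h0 : (0 : ℝ) ≤ L := Nat.cast_nonneg L
      rw [uIoc_of_le h0] at ht2
      have h5 : Tendsto (fun r : ℕ => (⌊t * 2 ^ r⌋₊ : ℝ) / 2 ^ r) atTop (𝓝 t) := by
        have h6 : Tendsto (fun r : ℕ => (2 : ℝ) ^ r) atTop atTop :=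
          tendsto_pow_atTop_atTop_of_one_lt one_lt_two
        exact (tendsto_nat_floor_mul_div_atTop ht2.1.le).comp h6
      exact h4.tendsto.comp h5
  exact h2.congr h1

/-- The observable along the first `N` segments of the trajectory. -/
noncomputable def Trj.ph {p : ℂ × ℂ} (Tr : Trj v p) (g : ℂ × ℂ → ℝ) (N : ℕ) (t : ℝ) : ℝ :=
  ∑ k ∈ Finset.range N, (Ioo (Tr.T k) (Tr.T (k + 1))).indicator (fun t => g (Tr.st k t)) t

theorem Trj.ph_eq {p : ℂ × ℂ} (Tr : Trj v p) (g : ℂ × ℂ → ℝ) {N k : ℕ} (hk : k < N) {t : ℝ}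
    (ht : t ∈ Ioo (Tr.T k) (Tr.T (k + 1))) : Tr.ph g N t = g (Tr.st k t) := by
  unfold Trj.ph
  rw [Finset.sum_eq_single k]
  · rw [indicator_of_mem ht]
  · intro j _ hj
    apply indicator_of_notMem
    intro h
    rcases lt_or_gt_of_ne hj with h1 | h1
    · have := Tr.mono.monotone (show j + 1 ≤ k from h1)
      linarith [h.2, ht.1]
    · have := Tr.mono.monotone (show k + 1 ≤ j from h1)
      linarith [h.1, ht.2]
  · intro h
    exact absurd (Finset.mem_range.2 hk) h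

theorem Trj.ph_out {p : ℂ × ℂ} (Tr : Trj v p) (g : ℂ × ℂ → ℝ) {N : ℕ} {t : ℝ}
    (h : ∀ k < N, t ∉ Ioo (Tr.T k) (Tr.T (k + 1))) : Tr.ph g N t = 0 :=
  Finset.sum_eq_zero (fun k hk => indicator_of_notMem (h k (Finset.mem_range.1 hk)) _)

theorem Trj.ph_01 {p : ℂ × ℂ} (Tr : Trj v p) {g : ℂ × ℂ → ℝ} (hg : ∀ p, 0 ≤ g p ∧ g p ≤ 1)
    (N : ℕ) (t : ℝ) : 0 ≤ Tr.ph g N t ∧ Tr.ph g N t ≤ 1 := by
  by_cases h : ∃ k < N, t ∈ Ioo (Tr.T k) (Tr.T (k + 1))
  · obtain ⟨k, hk, ht⟩ := h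
    rw [Tr.ph_eq g hk ht]
    exact hg _
  · push Not at h
    rw [Tr.ph_out g h]
    exact ⟨le_rfl, zero_le_one⟩

theorem Trj.st_meas {p : ℂ × ℂ} (Tr : Trj v p) (k : ℕ) : Measurable (Tr.st k) := by
  apply Continuous.measurable
  unfold Trj.st
  fun_prop

theorem Trj.ph_meas {p : ℂ × ℂ} (Tr : Trj v p) {g : ℂ × ℂ → ℝ} (hg : Measurable g) (N : ℕ) :
    Measurable (Tr.ph g N) := by
  unfold Trj.ph
  apply Finset.measurable_sum
  intro k _
  exact (hg.comp (Tr.st_meas k)).indicator measurableSet_Ioo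

theorem Trj.ph_disc {p : ℂ × ℂ} (Tr : Trj v p) {g : ℂ × ℂ → ℝ}
    (hd : ∀ x w : ℂ, {t : ℝ | ¬ ContinuousAt (fun t : ℝ => g (x + (t : ℂ) * w, w)) t}.Countable)
    (N : ℕ) : {t : ℝ | ¬ ContinuousAt (Tr.ph g N) t}.Countable := by
  have h1 : ∀ k : ℕ, {t : ℝ | ¬ ContinuousAt
      ((Ioo (Tr.T k) (Tr.T (k + 1))).indicator (fun t => g (Tr.st k t))) t}.Countable := by
    intro k
    have h2 := hd (Tr.y k - (Tr.T k : ℂ) * Tr.u k) (Tr.u k)
    have e1 : (fun t : ℝ => g (Tr.y k - (Tr.T k : ℂ) * Tr.u k + (t : ℂ) * Tr.u k, Tr.u k)) =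
        fun t => g (Tr.st k t) := by
      funext t
      unfold Trj.st
      congr 2
      push_cast
      ring
    rw [e1] at h2
    refine (h2.union (Set.toFinite {Tr.T k, Tr.T (k + 1)}).countable).mono ?_
    intro t ht
    by_contra hcon
    simp only [mem_union, mem_insert_iff, mem_singleton_iff, not_or, mem_ofPred_eq,
      not_not] at hcon
    obtain ⟨h3, h4, h5⟩ := hcon
    apply ht
    by_cases h6 : t ∈ Ioo (Tr.T k) (Tr.T (k + 1))
    · refine h3.congr ?_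
      filter_upwards [isOpen_Ioo.mem_nhds h6] with s hs
      rw [indicator_of_mem hs]
    · have h7 : t ∈ (Icc (Tr.T k) (Tr.T (k + 1)))ᶜ := by
        intro h8
        exact h6 ⟨lt_of_le_of_ne h8.1 (Ne.symm h4), lt_of_le_of_ne h8.2 h5⟩
      have h8 : ContinuousAt (fun _ : ℝ => (0 : ℝ)) t := continuousAt_const
      refine h8.congr ?_
      filter_upwards [isClosed_Icc.isOpen_compl.mem_nhds h7] with s hs
      rw [indicator_of_notMem (fun h => hs (Ioo_subset_Icc_self h))]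
  refine (Set.countable_iUnion h1).mono ?_
  intro t ht
  by_contra hcon
  rw [mem_iUnion] at hcon
  push Not at hcon
  apply ht
  unfold Trj.ph ContinuousAt
  apply tendsto_finsetSum
  intro k _
  have := hcon k
  simp only [mem_ofPred_eq, not_not] at this
  exact this

theorem Trj.ph_int {p : ℂ × ℂ} (Tr : Trj v p) {g : ℂ × ℂ → ℝ} (hg : Measurable g)
    (hg01 : ∀ p, 0 ≤ g p ∧ g p ≤ 1) (N L : ℕ) (hL : Tr.T N ≤ L) :
    ∫ t in (0 : ℝ)..L, Tr.ph g N t = Tr.avg g N * Tr.T N := by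
  have h0 : (0 : ℝ) ≤ L := Nat.cast_nonneg L
  have hT0 : ∀ k, 0 ≤ Tr.T k := by
    intro k
    rw [← Tr.T_zero]
    exact Tr.mono.monotone (Nat.zero_le k)
  have hi : ∀ k ∈ Finset.range N, IntervalIntegrable
      ((Ioo (Tr.T k) (Tr.T (k + 1))).indicator (fun t => g (Tr.st k t))) volume 0 L := by
    intro k _
    rw [intervalIntegrable_iff]
    refine Measure.integrableOn_of_bounded (M := 1) (by simp)
      ((hg.comp (Tr.st_meas k)).indicator measurableSet_Ioo).aestronglyMeasurable ?_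
    refine Eventually.of_forall (fun t => ?_)
    by_cases ht : t ∈ Ioo (Tr.T k) (Tr.T (k + 1))
    · rw [indicator_of_mem ht, Real.norm_eq_abs]
      rw [abs_of_nonneg (hg01 _).1]
      exact (hg01 _).2
    · rw [indicator_of_notMem ht]
      simp
  have e1 : ∫ t in (0 : ℝ)..L, Tr.ph g N t =
      ∑ k ∈ Finset.range N, ∫ t in (Tr.T k)..(Tr.T (k + 1)), g (Tr.st k t) := by
    unfold Trj.ph
    rw [intervalIntegral.integral_finsetSum hi]
    apply Finset.sum_congr rfl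
    intro k hk
    have hk' := Finset.mem_range.1 hk
    have hle : Tr.T k ≤ Tr.T (k + 1) := Tr.mono.monotone (Nat.le_succ k)
    have hle2 : Tr.T (k + 1) ≤ L := (Tr.mono.monotone hk').trans hL
    rw [intervalIntegral.integral_of_le h0, setIntegral_indicator measurableSet_Ioo,
      intervalIntegral.integral_of_le hle, integral_Ioc_eq_integral_Ioo]
    have e2 : Ioc (0 : ℝ) L ∩ Ioo (Tr.T k) (Tr.T (k + 1)) = Ioo (Tr.T k) (Tr.T (k + 1)) := by
      apply inter_eq_right.2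
      intro t ht
      exact ⟨lt_of_le_of_lt (hT0 k) ht.1, (ht.2.trans_le hle2).le⟩
    rw [e2]
  rw [e1]
  unfold Trj.avg
  rcases Nat.eq_zero_or_pos N with hN | hN
  · subst hN
    simp
  · have : 0 < Tr.T N := by
      rw [← Tr.T_zero]
      exact Tr.mono hN
    field_simp

theorem Trj.norm_u (hv : ConvexIndependent ℝ v) {p : ℂ × ℂ} (Tr : Trj v p) (k : ℕ) :
    ‖Tr.u k‖ = ‖p.2‖ := by
  induction k with
  | zero => rw [Tr.u_zero]
  | succ k ih =>
    obtain ⟨i, j, h1, _, h3⟩ := Tr.refl k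
    rw [h3, norm_rl (v_sub_ne hv h1.1), ih]

theorem Trj.y_mem {p : ℂ × ℂ} (Tr : Trj v p) (hp : p.1 ∈ PP v) (k : ℕ) : Tr.y k ∈ KK v := by
  rcases Nat.eq_zero_or_pos k with hk | hk
  · subst hk
    rw [Tr.y_zero]
    exact PP_sub_KK hp
  · obtain ⟨m, rfl⟩ := Nat.exists_eq_succ_of_ne_zero hk.ne'
    obtain ⟨i, j, _, h2, _⟩ := Tr.refl m
    exact convex_KK.openSegment_subset (vert_mem_KK i) (vert_mem_KK j) h2

/-- The gaps between consecutive collisions are bounded. -/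
theorem Trj.gap (hv : ConvexIndependent ℝ v) {p : ℂ × ℂ} (Tr : Trj v p) (hp : p.1 ∈ PP v)
    (hp2 : p.2 ≠ 0) : ∃ B : ℝ, 0 ≤ B ∧ ∀ k, Tr.T (k + 1) ≤ Tr.T k + B := by
  obtain ⟨D, hD⟩ := Metric.isBounded_iff.1 (isCompact_KK (v := v)).isBounded
  have hpn : 0 < ‖p.2‖ := norm_pos_iff.2 hp2
  have hD0 : 0 ≤ D := dist_nonneg.trans (hD (Tr.y_mem hp 0) (Tr.y_mem hp 0))
  refine ⟨D / ‖p.2‖, by positivity, fun k => ?_⟩
  have h1 := hD (Tr.y_mem hp (k + 1)) (Tr.y_mem hp k)
  have hle : Tr.T k ≤ Tr.T (k + 1) := Tr.mono.monotone (Nat.le_succ k)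
  rw [dist_eq_norm, Tr.hit k, add_sub_cancel_left, norm_mul, norm_real, Real.norm_eq_abs,
    abs_of_nonneg (sub_nonneg.2 hle), Tr.norm_u hv] at h1
  have h2 : Tr.T (k + 1) - Tr.T k ≤ D / ‖p.2‖ := by
    rw [le_div_iff₀ hpn]
    exact h1
  linarith

/-- Pointwise lower bound of the transfer operator. -/
theorem pt_bound (hv : ConvexIndependent ℝ v) {A : Set (ℂ × ℂ)} {p : ℂ × ℂ} (Tr : Trj v p)
    (hpD : p ∈ DD v) (hpA : p ∈ A) (g : ℂ × ℂ → ℝ) (N r : ℕ)
    (hw : ∀ u, p ∈ OO v (1 / 2 ^ r) u → (p ∈ A ↔ eM v (1 / 2 ^ r) u p ∈ A))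
    (h1 : ∀ m k : ℕ, k < N → Tr.T k < (m : ℝ) / 2 ^ r → (m : ℝ) / 2 ^ r < Tr.T (k + 1) →
      ∃ u : List (Option (Fin n × Fin n)), u.length = m ∧ p ∈ OO v (1 / 2 ^ r) u ∧
        eM v (1 / 2 ^ r) u p = Tr.st k ((m : ℝ) / 2 ^ r)) (m : ℕ) :
    ENNReal.ofReal (Tr.ph g N ((m : ℝ) / 2 ^ r)) ≤
      EE v (1 / 2 ^ r) ((A ∩ DD v).indicator (fun p => ENNReal.ofReal (g p))) m p := by
  by_cases h : ∃ k < N, ((m : ℝ) / 2 ^ r) ∈ Ioo (Tr.T k) (Tr.T (k + 1))
  · obtain ⟨k, hk, ht⟩ := h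
    rw [Tr.ph_eq g hk ht]
    obtain ⟨u, hu1, hu2, hu3⟩ := h1 m k hk ht.1 ht.2
    have h2 := le_EE (1 / 2 ^ r) ((A ∩ DD v).indicator (fun p => ENNReal.ofReal (g p))) u p hu2
    rw [hu1] at h2
    refine le_trans ?_ h2
    have hmem : eM v (1 / 2 ^ r) u p ∈ A ∩ DD v := by
      refine ⟨(hw u hu2).1 hpA, ?_⟩
      obtain ⟨s1, s2⟩ := eM_spec hv _ u p hu2
      rw [mem_DD]
      exact ⟨s1, by rw [s2]; exact (mem_DD.1 hpD).2⟩
    rw [indicator_of_mem hmem, hu3]
  · push Not at h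
    rw [Tr.ph_out g h]
    simp

theorem stOrb3 (h1 : StOrb1) (h2 : StOrb2) : StOrb3 := by
  intro n v hn hv A hA g hg hg01 hgd c hc hconv
  set G : ℂ × ℂ → ℝ≥0∞ := (A ∩ DD v).indicator (fun p => ENNReal.ofReal (g p)) with hG
  have hAD : MeasurableSet (A ∩ DD v) := hA.meas.inter measurableSet_DD
  have hGm : Measurable G := (ENNReal.measurable_ofReal.comp hg).indicator hAD
  -- the averages of the transfer operators
  obtain ⟨S, hS⟩ : ∃ S : ℕ → ℕ → ℂ × ℂ → ℝ≥0∞, ∀ L r p, S L r p =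
      ENNReal.ofReal (1 / 2 ^ r) *
        ∑ m ∈ Finset.range (L * 2 ^ r), EE v (1 / 2 ^ r) G m p := ⟨_, fun _ _ _ => rfl⟩
  have hSm : ∀ L r, Measurable (S L r) := by
    intro L r
    have : S L r = fun p => ENNReal.ofReal (1 / 2 ^ r) *
        ∑ m ∈ Finset.range (L * 2 ^ r), EE v (1 / 2 ^ r) G m p := funext (hS L r)
    rw [this]
    exact (Finset.measurable_sum _ (fun m _ => measurable_EE _ hGm m)).const_mul _
  set J : ℝ≥0∞ := ∫⁻ p in DD v, G p with hJ
  have hSi : ∀ L r, ∫⁻ p in DD v, S L r p ≤ L * J := by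
    intro L r
    simp_rw [hS]
    rw [lintegral_const_mul _ (Finset.measurable_sum _ (fun m _ => measurable_EE _ hGm m)),
      lintegral_finsetSum _ (fun m _ => measurable_EE _ hGm m)]
    have g1 : ∑ m ∈ Finset.range (L * 2 ^ r), ∫⁻ p in DD v, EE v (1 / 2 ^ r) G m p ≤
        ∑ _m ∈ Finset.range (L * 2 ^ r), J :=
      Finset.sum_le_sum (fun m _ => EE_contraction hv _ hGm m)
    refine (mul_le_mul_right g1 _).trans (le_of_eq ?_)
    rw [Finset.sum_const, Finset.card_range, nsmul_eq_mul, ← mul_assoc]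
    congr 1
    have g2 : ((L * 2 ^ r : ℕ) : ℝ≥0∞) = ENNReal.ofReal ((L : ℝ) * 2 ^ r) := by
      rw [← ENNReal.ofReal_natCast]
      push_cast
      rfl
    rw [g2, ← ENNReal.ofReal_mul (by positivity), ← ENNReal.ofReal_natCast]
    congr 1
    field_simp
  obtain ⟨H, hH⟩ : ∃ H : ℕ → ℂ × ℂ → ℝ≥0∞, ∀ L p, H L p = liminf (fun r => S L r p) atTop :=
    ⟨_, fun _ _ => rfl⟩
  have hHm : ∀ L, Measurable (H L) := by
    intro L
    have : H L = fun p => liminf (fun r => S L r p) atTop := funext (hH L)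
    rw [this]
    exact Measurable.liminf (hSm L)
  have hHi : ∀ L, ∫⁻ p in DD v, H L p ≤ L * J := by
    intro L
    simp_rw [hH]
    refine (lintegral_liminf_le (hSm L)).trans ?_
    exact liminf_le_of_frequently_le' (Eventually.of_forall (hSi L)).frequently
  obtain ⟨K, hK⟩ : ∃ K : ℂ × ℂ → ℝ≥0∞, ∀ p, K p =
      liminf (fun L : ℕ => ENNReal.ofReal (1 / ((L : ℝ) + 1)) * H (L + 1) p) atTop :=
    ⟨_, fun _ => rfl⟩
  have hKi : ∫⁻ p in DD v, K p ≤ J := by
    simp_rw [hK]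
    refine (lintegral_liminf_le (fun L => (hHm (L + 1)).const_mul _)).trans ?_
    refine liminf_le_of_frequently_le' (Eventually.of_forall (fun L => ?_)).frequently
    rw [lintegral_const_mul _ (hHm (L + 1))]
    refine (mul_le_mul_right (hHi (L + 1)) _).trans (le_of_eq ?_)
    rw [← mul_assoc]
    have g1 : ENNReal.ofReal (1 / ((L : ℝ) + 1)) * ((L + 1 : ℕ) : ℝ≥0∞) = 1 := by
      rw [← ENNReal.ofReal_natCast, ← ENNReal.ofReal_mul (by positivity)]
      push_cast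
      rw [one_div, inv_mul_cancel₀ (by positivity), ENNReal.ofReal_one]
    rw [g1, one_mul]
  -- the pointwise lower bound
  have key : ∀ᵐ p : ℂ × ℂ, p ∈ A ∩ DD v → ENNReal.ofReal c ≤ K p := by
    have w1 : ∀ᵐ p : ℂ × ℂ, ∀ r : ℕ, ∀ u, p ∈ OO v (1 / 2 ^ r) u →
        (p ∈ A ↔ eM v (1 / 2 ^ r) u p ∈ A) := by
      rw [ae_all_iff]
      intro r
      exact inv_word hv hA.inv (by positivity)
    have w2 : ∀ᵐ p : ℂ × ℂ, p.2 ≠ 0 := by
      have : ∀ᵐ w : ℂ, w ≠ 0 := by rw [ae_iff]; simp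
      exact Measure.quasiMeasurePreserving_snd.ae this
    filter_upwards [w1, w2, hconv, h2 n v hn hv] with p k1 k2 k3 k4 hp
    obtain ⟨Tr, hTr⟩ := k3 hp.2
    have hpP : p.1 ∈ PP v := (mem_DD.1 hp.2).1
    have hdy := k4 hpP Tr
    obtain ⟨B, hB0, hB⟩ := Tr.gap hv hpP k2
    -- lower bound of `H`
    have hlow : ∀ L N : ℕ, Tr.T N ≤ L → ENNReal.ofReal (Tr.avg g N * Tr.T N) ≤ H L p := by
      intro L N hL
      rw [hH]
      have t1 := riem (Tr.ph_meas hg N) (Tr.ph_01 hg01 N) (Tr.ph_disc hgd N) L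
      rw [Tr.ph_int hg hg01 N L hL] at t1
      have t2 := ENNReal.tendsto_ofReal t1
      rw [← t2.liminf_eq]
      refine liminf_le_liminf ?_
      obtain ⟨r₀, hr₀⟩ := h1 n v hn hv p Tr hpP hdy N
      filter_upwards [eventually_ge_atTop r₀] with r hr
      rw [hS, ENNReal.ofReal_mul (by positivity),
        ENNReal.ofReal_sum_of_nonneg (fun m _ => (Tr.ph_01 hg01 N _).1)]
      refine mul_le_mul_right (Finset.sum_le_sum (fun m _ => ?_)) _
      exact pt_bound hv Tr hp.2 hp.1 g N r (k1 r) (fun m k => hr₀ r hr m k) m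
    -- the number of collisions before the time `L + 1`
    have hex : ∀ L : ℕ, ∃ N : ℕ, Tr.T N ≤ (L : ℝ) + 1 ∧ (L : ℝ) + 1 < Tr.T (N + 1) := by
      intro L
      have hne : ∃ N : ℕ, (L : ℝ) + 1 < Tr.T (N + 1) := by
        have h3 := (Tr.top.comp (tendsto_add_atTop_nat 1)).eventually_gt_atTop ((L : ℝ) + 1)
        exact h3.exists
      classical
      refine ⟨Nat.find hne, ?_, Nat.find_spec hne⟩
      rcases Nat.eq_zero_or_pos (Nat.find hne) with h3 | h3
      · rw [h3, Tr.T_zero]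
        positivity
      · obtain ⟨M, hM⟩ := Nat.exists_eq_succ_of_ne_zero h3.ne'
        have h4 := Nat.find_min hne (m := M) (by rw [hM]; exact Nat.lt_succ_self M)
        rw [hM]
        exact not_lt.1 h4
    choose Nf hN1 hN2 using hex
    have hNf : Tendsto Nf atTop atTop := by
      rw [tendsto_atTop]
      intro N0
      obtain ⟨L0, hL0⟩ := exists_nat_ge (Tr.T N0)
      filter_upwards [eventually_ge_atTop L0] with L hL
      have h3 : Tr.T N0 < Tr.T (Nf L + 1) := by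
        have h4 : (L0 : ℝ) ≤ L := by exact_mod_cast hL
        linarith [hN2 L]
      have h5 := Tr.mono.lt_iff_lt.1 h3
      omega
    have h6 : Tendsto (fun L : ℕ => Tr.T (Nf L) / ((L : ℝ) + 1)) atTop (𝓝 1) := by
      have t0 : Tendsto (fun L : ℕ => 1 - B * (1 / ((L : ℝ) + 1))) atTop (𝓝 (1 - B * 0)) :=
        (tendsto_one_div_add_atTop_nhds_zero_nat.const_mul B).const_sub 1
      rw [mul_zero, sub_zero] at t0
      refine tendsto_of_tendsto_of_tendsto_of_le_of_le t0 tendsto_const_nhds (fun L => ?_)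
        (fun L => ?_)
      · have hL : (0 : ℝ) < (L : ℝ) + 1 := by positivity
        simp only
        rw [le_div_iff₀ hL]
        have := hB (Nf L)
        have h7 := hN2 L
        have e : (1 - B * (1 / ((L : ℝ) + 1))) * ((L : ℝ) + 1) = ((L : ℝ) + 1) - B := by
          field_simp
        rw [e]
        linarith
      · have hL : (0 : ℝ) < (L : ℝ) + 1 := by positivity
        simp only
        rw [div_le_one hL]
        exact hN1 L
    have h7 : Tendsto (fun L : ℕ => Tr.avg g (Nf L) * (Tr.T (Nf L) / ((L : ℝ) + 1))) atTop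
        (𝓝 (c * 1)) := (hTr.comp hNf).mul h6
    rw [mul_one] at h7
    have h8 := ENNReal.tendsto_ofReal h7
    rw [hK, ← h8.liminf_eq]
    refine liminf_le_liminf (Eventually.of_forall (fun L => ?_))
    have e : Tr.avg g (Nf L) * (Tr.T (Nf L) / ((L : ℝ) + 1)) =
        (1 / ((L : ℝ) + 1)) * (Tr.avg g (Nf L) * Tr.T (Nf L)) := by ring
    rw [e, ENNReal.ofReal_mul (by positivity)]
    refine mul_le_mul_right (hlow (L + 1) (Nf L) ?_) _
    push_cast
    exact hN1 L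
  -- conclusion
  have hJ2 : J = ∫⁻ p in A ∩ DD v, ENNReal.ofReal (g p) := by
    rw [hJ, hG, lintegral_indicator hAD, Measure.restrict_restrict hAD, inter_assoc,
      inter_self]
  have hfin : volume (A ∩ DD v) < ⊤ := (measure_mono inter_subset_right).trans_lt volume_DD_lt_top
  have hgi : IntegrableOn g (A ∩ DD v) := by
    refine Measure.integrableOn_of_bounded (M := 1) hfin.ne hg.aestronglyMeasurable ?_
    refine Eventually.of_forall (fun p => ?_)
    rw [Real.norm_eq_abs, abs_of_nonneg (hg01 p).1]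
    exact (hg01 p).2
  have hJ3 : J = ENNReal.ofReal (∫ p in A ∩ DD v, g p) := by
    rw [hJ2]
    exact (ofReal_integral_eq_lintegral_ofReal hgi
      (Eventually.of_forall (fun p => (hg01 p).1))).symm
  have h3 : ENNReal.ofReal c * volume (A ∩ DD v) ≤ J := by
    calc ENNReal.ofReal c * volume (A ∩ DD v) = ∫⁻ _p in A ∩ DD v, ENNReal.ofReal c := by
          rw [setLIntegral_const]
      _ ≤ ∫⁻ p in A ∩ DD v, K p := by
          apply lintegral_mono_ae
          rw [ae_restrict_iff' hAD]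
          exact key
      _ ≤ ∫⁻ p in DD v, K p := lintegral_mono_set inter_subset_right
      _ ≤ J := hKi
  rw [hJ3] at h3
  have h4 := ENNReal.toReal_mono ENNReal.ofReal_ne_top h3
  rw [ENNReal.toReal_mul, ENNReal.toReal_ofReal hc,
    ENNReal.toReal_ofReal (integral_nonneg (fun p => (hg01 p).1))] at h4
  exact h4

end Pool.Agent.Lib.BilU
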