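import Pool.Agent.Lib.MP_7bc51d_an_slice.OrbDefs
import Pool.Agent.Lib.MP_7bc51d_an_slice.Bess85
import Pool.Agent.Lib.MP_7bc51d_an_smooth.SmallDiv

set_option autoImplicit false

/-!
A bounded homogeneous function orthogonal to all continuous functions of the direction vanishes
almost everywhere.
-/

namespace Pool.Agent.Lib.BilU

open Complex MeasureTheory Set Filter AddCircle
open scoped ComplexConjugate Topology ENNReal NNReal
open Pool.Agent.Lib.Bil Pool.Agent.Lib.BilM Pool.Agent.Lib.BilS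

/-- The direction of a complex number. -/
noncomputable def dr (w : ℂ) : ℂ := w / (‖w‖ : ℂ)

theorem norm_dr_le (w : ℂ) : ‖dr w‖ ≤ 1 := by
  unfold dr
  rw [norm_div, norm_real, norm_norm]
  exact div_self_le_one _

theorem meas_dr : Measurable dr := by
  unfold dr
  exact measurable_id.div (Complex.measurable_ofReal.comp measurable_norm)

theorem dr_smul {r : ℝ} (hr : 0 < r) (w : ℂ) : dr ((r : ℂ) * w) = dr w := by
  unfold dr
  rw [norm_mul, norm_real, Real.norm_eq_abs, abs_of_pos hr, ofReal_mul]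
  have : (r : ℂ) ≠ 0 := by exact_mod_cast hr.ne'
  rw [mul_div_mul_left _ _ this]

theorem fourier_sarg (k : ℕ) {w : ℂ} (hw : w ≠ 0) : (fourier (k : ℤ) (sarg w) : ℂ) = dr w ^ k := by
  have hn : (‖w‖ : ℂ) ≠ 0 := by exact_mod_cast norm_ne_zero_iff.2 hw
  have h1 : rho (sarg w) = dr w := by
    unfold dr
    rw [eq_div_iff hn, mul_comm]
    exact rho_sarg w
  rw [fourier_apply, ← h1]
  unfold rho
  rw [natCast_zsmul, toCircle_nsmul, Circle.coe_pow]

theorem key4 {a : ℂ → ℝ} (ha : Measurable a) {M : ℝ} (hM : ∀ w, |a w| ≤ M)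
    (hhom : ∀ r : ℝ, 0 < r → ∀ w : ℂ, a ((r : ℂ) * w) = a w)
    (horth : ∀ ψ : ℂ → ℝ, Continuous ψ → (∀ z, 0 ≤ ψ z ∧ ψ z ≤ 1) →
      ∫ w in BV, ψ (w / (‖w‖ : ℂ)) * a w = 0) (k : ℕ) {c : ℂ} (hc : ‖c‖ ≤ 1) :
    ∫ w in BV, ‖w‖ ^ 2 * ((c * dr w ^ k).re * a w) = 0 := by
  have hre : ∀ w : ℂ, |(c * dr w ^ k).re| ≤ 1 := by
    intro w
    refine (Complex.abs_re_le_norm _).trans ?_
    rw [norm_mul, norm_pow]
    calc _ ≤ (1 : ℝ) * 1 := mul_le_mul hc (pow_le_one₀ (norm_nonneg _) (norm_dr_le w))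
          (pow_nonneg (norm_nonneg _) _) zero_le_one
      _ = 1 := one_mul 1
  have hM0 : 0 ≤ M := (abs_nonneg _).trans (hM 0)
  have m1 : Measurable (fun w : ℂ => (c * dr w ^ k).re * a w) :=
    (Complex.measurable_re.comp ((meas_dr.pow_const k).const_mul c)).mul ha
  have i0 : IntegrableOn a BV := intOn_ball ha (C := M) (fun w _ => hM w)
  have i1 : IntegrableOn (fun w : ℂ => (c * dr w ^ k).re * a w) BV :=
    intOn_ball m1 (C := 1 * M) (fun w _ => by
      rw [abs_mul]
      exact mul_le_mul (hre w) (hM w) (abs_nonneg _) zero_le_one)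
  have h0 := horth (fun _ => 1) continuous_const (fun _ => ⟨zero_le_one, le_rfl⟩)
  simp only [one_mul] at h0
  have h1 := horth (fun z => max 0 (min 1 ((1 + (c * z ^ k).re) / 2))) (by fun_prop)
    (fun z => ⟨le_max_left _ _, max_le zero_le_one (min_le_left _ _)⟩)
  have e1 : ∀ w : ℂ, max 0 (min 1 ((1 + (c * (w / (‖w‖ : ℂ)) ^ k).re) / 2)) * a w =
      (1 / 2) * a w + (1 / 2) * ((c * dr w ^ k).re * a w) := by
    intro w
    have h2 := abs_le.1 (hre w)
    have h3 : min 1 ((1 + (c * (w / (‖w‖ : ℂ)) ^ k).re) / 2) = (1 + (c * dr w ^ k).re) / 2 := by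
      apply min_eq_right
      change (1 + (c * dr w ^ k).re) / 2 ≤ 1
      linarith [h2.2]
    rw [h3, max_eq_right (by linarith [h2.1])]
    ring
  simp_rw [e1] at h1
  rw [integral_add (i0.const_mul _) (i1.const_mul _), integral_const_mul, integral_const_mul, h0,
    mul_zero, zero_add] at h1
  have h2 : ∫ w in BV, (c * dr w ^ k).re * a w = 0 := by linarith
  have h3 := polar_hom 0 (g := fun w => (c * dr w ^ k).re * a w) (fun r hr w => by
    simp only [dr_smul hr, hhom r hr, pow_zero, one_mul])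
  have h4 := polar_hom 2 (g := fun w => ‖w‖ ^ 2 * ((c * dr w ^ k).re * a w)) (fun r hr w => by
    simp only [dr_smul hr, hhom r hr]
    rw [norm_mul, norm_real, Real.norm_eq_abs, abs_of_pos hr]
    ring)
  rw [h2] at h3
  have h5 : ∫ θ in Ioo (-Real.pi) Real.pi, (c * dr (ut θ) ^ k).re * a (ut θ) = 0 := by
    have : (1 / (((0 : ℕ) : ℝ) + 2)) ≠ 0 := by norm_num
    rcases mul_eq_zero.1 h3.symm with h6 | h6
    · exact absurd h6 this
    · exact h6
  have h6 : ∀ θ : ℝ, ‖ut θ‖ = 1 := by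
    intro θ
    have : ut θ = Complex.exp ((θ : ℂ) * I) := by
      rw [Complex.exp_mul_I]
      unfold ut
      push_cast
      rfl
    rw [this, Complex.norm_exp_ofReal_mul_I]
  simp_rw [h6, one_pow, one_mul] at h4
  rw [h4, h5, mul_zero]

theorem stOrb4 : StOrb4 := by
  intro a ha hbd hhom horth
  obtain ⟨M0, hM0⟩ := hbd
  have hM00 : 0 ≤ M0 := (abs_nonneg _).trans (hM0 0)
  set M : ℂ → ℝ := fun w => ‖w‖ * a w with hMdef
  have hM : Hom1 M := by
    refine ⟨measurable_norm.mul ha, fun r hr w => ?_, ⟨M0, hM00, fun w => ?_⟩⟩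
    · simp only [hMdef]
      rw [norm_mul, norm_real, Real.norm_eq_abs, abs_of_pos hr, hhom r hr]
      ring
    · simp only [hMdef]
      rw [abs_mul, abs_norm, mul_comm]
      exact mul_le_mul_of_nonneg_right (hM0 w) (norm_nonneg _)
  -- the integrals against the harmonics
  have e1 : ∀ (k : ℕ) (w : ℂ), ((M w : ℝ) : ℂ) * ek (k : ℤ) w =
      ((‖w‖ ^ 2 * a w : ℝ) : ℂ) * dr w ^ k := by
    intro k w
    by_cases hw : w = 0
    · subst hw
      simp [hMdef]
    · unfold ek
      rw [fourier_sarg k hw]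
      simp only [hMdef]
      push_cast
      ring
  have h1 : ∀ k : ℕ, ∫ w in BV, ((M w : ℝ) : ℂ) * ek (k : ℤ) w = 0 := by
    intro k
    simp_rw [e1]
    have hm : Measurable (fun w : ℂ => ((‖w‖ ^ 2 * a w : ℝ) : ℂ) * dr w ^ k) :=
      (Complex.measurable_ofReal.comp ((measurable_norm.pow_const 2).mul ha)).mul
        (meas_dr.pow_const k)
    have hi : IntegrableOn (fun w : ℂ => ((‖w‖ ^ 2 * a w : ℝ) : ℂ) * dr w ^ k) BV := by
      refine Measure.integrableOn_of_bounded (M := M0) measure_ball_lt_top.ne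
        hm.aestronglyMeasurable ?_
      rw [ae_restrict_iff' measurableSet_ball]
      refine Eventually.of_forall (fun w hw => ?_)
      have h2 := (norm_lt_of_BV hw).le
      rw [norm_mul, norm_real, norm_mul, norm_pow, norm_pow, norm_norm, Real.norm_eq_abs]
      have h3 : ‖w‖ ^ 2 ≤ 1 := pow_le_one₀ (norm_nonneg _) h2
      have h4 : ‖dr w‖ ^ k ≤ 1 := pow_le_one₀ (norm_nonneg _) (norm_dr_le w)
      calc ‖w‖ ^ 2 * |a w| * ‖dr w‖ ^ k ≤ 1 * M0 * 1 :=
            mul_le_mul (mul_le_mul h3 (hM0 w) (abs_nonneg _) zero_le_one) h4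
              (pow_nonneg (norm_nonneg _) _) (by positivity)
        _ = M0 := by ring
    have hr := integral_re_add_im hi
    rw [← hr]
    have g1 : ∀ w : ℂ, RCLike.re (((‖w‖ ^ 2 * a w : ℝ) : ℂ) * dr w ^ k) =
        ‖w‖ ^ 2 * ((1 * dr w ^ k).re * a w) := by
      intro w
      change (((‖w‖ ^ 2 * a w : ℝ) : ℂ) * dr w ^ k).re = _
      rw [re_ofReal_mul, one_mul]
      ring
    have g2 : ∀ w : ℂ, RCLike.im (((‖w‖ ^ 2 * a w : ℝ) : ℂ) * dr w ^ k) =
        ‖w‖ ^ 2 * ((-I * dr w ^ k).re * a w) := by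
      intro w
      change (((‖w‖ ^ 2 * a w : ℝ) : ℂ) * dr w ^ k).im = _
      rw [im_ofReal_mul]
      have : (-I * dr w ^ k).re = (dr w ^ k).im := by simp
      rw [this]
      ring
    simp_rw [g1, g2]
    rw [key4 ha hM0 hhom horth k (c := 1) (by simp),
      key4 ha hM0 hhom horth k (c := -I) (by simp)]
    simp
  have h2 : ∀ k : ℕ, cN M (-(k : ℤ)) = 0 := by
    intro k
    have := ball_int hM (k : ℤ)
    rw [h1 k] at this
    rcases mul_eq_zero.1 this.symm with h | h
    · exact absurd h kap_ne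
    · exact h
  have h3 : ∀ k : ℤ, cN M k = 0 := by
    intro k
    rcases Int.eq_nat_or_neg k with ⟨m, rfl | rfl⟩
    · have := h2 m
      rw [cN_neg] at this
      exact (map_eq_zero _).1 this
    · exact h2 m
  -- uniqueness
  have hb : ∀ t : TT, |M (rho t)| ≤ M0 := by
    intro t
    simp only [hMdef]
    rw [norm_rho, one_mul]
    exact hM0 _
  have hmm : Measurable (fun t : TT => M (rho t)) := hM.meas.comp measurable_rho
  have hmem : MemLp (fun t : TT => ((M (rho t) : ℝ) : ℂ)) 2 (haarAddCircle : Measure TT) := by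
    refine MemLp.of_bound (C := M0) (Complex.measurable_ofReal.comp hmm).aestronglyMeasurable ?_
    refine Eventually.of_forall (fun t => ?_)
    rw [norm_real, Real.norm_eq_abs]
    exact hb t
  have h4 := hasSum_sq_fourierCoeff hmem.toLp
  have h5 : fourierCoeff (⇑hmem.toLp) = fourierCoeff (fun t : TT => ((M (rho t) : ℝ) : ℂ)) :=
    fourierCoeff_congr_ae hmem.coeFn_toLp
  rw [h5] at h4
  have h6 : ∀ k : ℤ, fourierCoeff (fun t : TT => ((M (rho t) : ℝ) : ℂ)) k = 0 := h3
  simp_rw [h6] at h4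
  have h7 : ∫ t : TT, ‖(⇑hmem.toLp : TT → ℂ) t‖ ^ 2 ∂haarAddCircle = 0 := by
    have h40 : HasSum (fun _ : ℤ => (0 : ℝ))
        (∫ t : TT, ‖(⇑hmem.toLp : TT → ℂ) t‖ ^ 2 ∂haarAddCircle) := by simpa using h4
    exact h40.unique hasSum_zero
  have h8 : ∫ t : TT, (M (rho t)) ^ 2 ∂haarAddCircle = 0 := by
    rw [← h7]
    apply integral_congr_ae
    filter_upwards [hmem.coeFn_toLp] with t ht
    rw [ht, norm_real, Real.norm_eq_abs, sq_abs]
  have hint : Integrable (fun t : TT => (M (rho t)) ^ 2) (haarAddCircle : Measure TT) := by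
    refine Integrable.mono' (integrable_const (M0 ^ 2)) (hmm.pow_const 2).aestronglyMeasurable ?_
    refine Eventually.of_forall (fun t => ?_)
    rw [Real.norm_eq_abs, abs_pow]
    exact pow_le_pow_left₀ (abs_nonneg _) (hb t) 2
  rw [integral_eq_zero_iff_of_nonneg (fun t => sq_nonneg _) hint] at h8
  have h9 : ∀ᵐ t : TT, t ∈ {t : TT | a (rho t) = 0} := by
    have h10 : ∀ᵐ t ∂(haarAddCircle : Measure TT), a (rho t) = 0 := by
      filter_upwards [h8] with t ht
      have h11 : M (rho t) ^ 2 = 0 := ht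
      have h12 : M (rho t) = 0 := pow_eq_zero_iff two_ne_zero |>.1 h11
      simp only [hMdef] at h12
      rwa [norm_rho, one_mul] at h12
    rw [AddCircle.volume_eq_smul_haarAddCircle]
    exact Measure.ae_smul_measure h10 _
  have hS : MeasurableSet {t : TT | a (rho t) = 0} :=
    (ha.comp measurable_rho) (measurableSet_singleton 0)
  have h10 := ae_sarg hS h9
  have h11 : ∀ᵐ w : ℂ, w ≠ 0 := by rw [ae_iff]; simp
  filter_upwards [h10, h11] with w hw hw0
  have h12 : a (rho (sarg w)) = 0 := hw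
  have h13 := hhom ‖w‖ (norm_pos_iff.2 hw0) (rho (sarg w))
  rw [rho_sarg] at h13
  rw [h13, h12]

end Pool.Agent.Lib.BilU
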