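import Pool.Agent.Lib.MP_7bc51d_an_slice.Fn

set_option autoImplicit false

/-!
Time averages along billiard trajectories: definitions and statements of the rows.
-/

namespace Pool.Agent.Lib.BilU

open Complex MeasureTheory Set Filter AddCircle
open scoped ComplexConjugate Topology ENNReal NNReal
open Pool.Agent.Lib.Bil Pool.Agent.Lib.BilM Pool.Agent.Lib.BilS

variable {n : ℕ} {v : Fin n → ℂ}

/-- An infinite forward billiard trajectory in the polygon starting at the phase point `p`: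
`T k` are the collision times (`T 0 = 0` is the starting time), `y k` and `u k` are position and
velocity immediately after the time `T k`. -/
structure Trj (v : Fin n → ℂ) (p : ℂ × ℂ) where
  T : ℕ → ℝ
  y : ℕ → ℂ
  u : ℕ → ℂ
  T_zero : T 0 = 0
  y_zero : y 0 = p.1
  u_zero : u 0 = p.2
  mono : StrictMono T
  top : Tendsto T atTop atTop
  inside : ∀ k t, T k < t → t < T (k + 1) → y k + ((t - T k : ℝ) : ℂ) * u k ∈ PP v
  hit : ∀ k, y (k + 1) = y k + ((T (k + 1) - T k : ℝ) : ℂ) * u k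
  refl : ∀ k, ∃ i j, IsSide v i j ∧ y (k + 1) ∈ openSegment ℝ (v i) (v j) ∧
    u (k + 1) = rl (v j - v i) (u k)

/-- The phase point at time `t`, if the last collision before `t` is the `k`-th one. -/
noncomputable def Trj.st {p : ℂ × ℂ} (Tr : Trj v p) (k : ℕ) (t : ℝ) : ℂ × ℂ :=
  (Tr.y k + ((t - Tr.T k : ℝ) : ℂ) * Tr.u k, Tr.u k)

/-- Time average of `g` up to the `N`-th collision. -/
noncomputable def Trj.avg {p : ℂ × ℂ} (Tr : Trj v p) (g : ℂ × ℂ → ℝ) (N : ℕ) : ℝ :=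
  (∑ k ∈ Finset.range N, ∫ t in (Tr.T k)..(Tr.T (k + 1)), g (Tr.st k t)) / Tr.T N

/-- (ORB1) Along a trajectory without dyadic collision times the state at dyadic times is given
by the words of the library. -/
def StOrb1 : Prop := ∀ (n : ℕ) (v : Fin n → ℂ), 3 ≤ n → ConvexIndependent ℝ v →
  ∀ (p : ℂ × ℂ) (Tr : Trj v p), p.1 ∈ PP v →
    (∀ k r m : ℕ, Tr.T (k + 1) ≠ (m : ℝ) / 2 ^ r) →
    ∀ N : ℕ, ∃ r₀ : ℕ, ∀ r : ℕ, r₀ ≤ r → ∀ m k : ℕ, k < N → Tr.T k < (m : ℝ) / 2 ^ r →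
      (m : ℝ) / 2 ^ r < Tr.T (k + 1) →
      ∃ u : List (Option (Fin n × Fin n)), u.length = m ∧ p ∈ OO v (1 / 2 ^ r) u ∧
        eM v (1 / 2 ^ r) u p = Tr.st k ((m : ℝ) / 2 ^ r)

/-- (ORB2) Almost no phase point has a trajectory with a dyadic collision time. -/
def StOrb2 : Prop := ∀ (n : ℕ) (v : Fin n → ℂ), 3 ≤ n → ConvexIndependent ℝ v →
  ∀ᵐ p : ℂ × ℂ, p.1 ∈ PP v → ∀ Tr : Trj v p, ∀ k r m : ℕ, Tr.T (k + 1) ≠ (m : ℝ) / 2 ^ r

/-- (ORB3) Integral inequality for invariant sets. -/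
def StOrb3 : Prop := ∀ (n : ℕ) (v : Fin n → ℂ), 3 ≤ n → ConvexIndependent ℝ v →
  ∀ A : Set (ℂ × ℂ), IA v A → ∀ g : ℂ × ℂ → ℝ, Measurable g → (∀ p, 0 ≤ g p ∧ g p ≤ 1) →
    (∀ x w : ℂ, {t : ℝ | ¬ ContinuousAt (fun t : ℝ => g (x + (t : ℂ) * w, w)) t}.Countable) →
    ∀ c : ℝ, 0 ≤ c →
      (∀ᵐ p : ℂ × ℂ, p ∈ DD v → ∃ Tr : Trj v p, Tendsto (Tr.avg g) atTop (𝓝 c)) →
      c * (volume (A ∩ DD v)).toReal ≤ ∫ p in A ∩ DD v, g p

/-- (ORB4) A bounded homogeneous function orthogonal to all continuous functions of the direction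
vanishes almost everywhere. -/
def StOrb4 : Prop := ∀ a : ℂ → ℝ, Measurable a → (∃ M : ℝ, ∀ w, |a w| ≤ M) →
  (∀ r : ℝ, 0 < r → ∀ w : ℂ, a ((r : ℂ) * w) = a w) →
  (∀ ψ : ℂ → ℝ, Continuous ψ → (∀ z, 0 ≤ ψ z ∧ ψ z ≤ 1) →
    ∫ w in BV, ψ (w / (‖w‖ : ℂ)) * a w = 0) →
  ∀ᵐ w : ℂ, a w = 0

end Pool.Agent.Lib.BilU
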