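import Pool.Agent.Lib.MP_7bc51d_an_slice.Defs

set_option autoImplicit false

/-!
The cuts of a triangle.
-/

namespace Pool.Agent.Lib.BilU

open Complex MeasureTheory Set Filter AddCircle
open scoped ComplexConjugate Topology ENNReal NNReal
open Pool.Agent.Lib.Bil Pool.Agent.Lib.BilM Pool.Agent.Lib.BilS

variable {n : ℕ} {v : Fin n → ℂ}

/-- The cut towards the previous vertex is empty. -/
theorem cut_prv (hn : 3 ≤ n) (hv : ConvexIndependent ℝ v) (o : Fin n) :
    cut v o (prv hn hv o) = ∅ := by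
  ext x
  simp only [mem_empty_iff_false, iff_false]
  rintro ⟨h1, h2⟩
  have h3 := (nxt_side hn hv (prv hn hv o)).cr_pos hv h1
  rw [nxt_prv] at h3
  have h4 : cr (v (prv hn hv o) - v o) (x - v o) =
      - cr (v o - v (prv hn hv o)) (x - v (prv hn hv o)) := by
    simp only [cr, sub_re, sub_im]
    ring
  rw [h4] at h2
  linarith

theorem sl_prv (hn : 3 ≤ n) (hv : ConvexIndependent ℝ v) (F : ℂ → ℝ → ℝ) (o : Fin n) (w : ℂ) :
    sl v F o (prv hn hv o) w = 0 := by
  unfold sl
  rw [cut_prv, Measure.restrict_empty, integral_zero_measure]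

theorem prv_ne (hn : 3 ≤ n) (hv : ConvexIndependent ℝ v) (o : Fin n) : prv hn hv o ≠ o := by
  intro h
  have h1 := (nxt_side hn hv (prv hn hv o)).ne
  rw [nxt_prv] at h1
  exact h1 h

/-- A vertex of a triangle is the base vertex, the next one or the previous one. -/
theorem fin3 {v : Fin 3 → ℂ} (hn : 3 ≤ 3) (hv : ConvexIndependent ℝ v) {o j : Fin 3}
    (hj : j ≠ o) : j = nxt hn hv o ∨ j = prv hn hv o := by
  have h1 : o ≠ nxt hn hv o := (nxt_side hn hv o).ne
  have h2 := prv_ne hn hv o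
  have h3 : nxt hn hv o ≠ prv hn hv o := by
    intro h
    have e1 : ∀ a b : Fin 3, a ≠ b → ∃ c, c ≠ a ∧ c ≠ b := by decide
    obtain ⟨l, hl1, hl2⟩ := e1 o (nxt hn hv o) h1
    have s1 := (nxt_side hn hv o).2 l hl1 hl2
    have s2 := (nxt_side hn hv (prv hn hv o)).2 l (by rw [← h]; exact hl2)
      (by rw [nxt_prv]; exact hl1)
    rw [nxt_prv, ← h] at s2
    have e2 : cr (v o - v (nxt hn hv o)) (v l - v (nxt hn hv o)) =
        - cr (v (nxt hn hv o) - v o) (v l - v o) := by
      simp only [cr, sub_re, sub_im]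
      ring
    rw [e2] at s2
    linarith
  have e3 : ∀ a b c d : Fin 3, a ≠ b → a ≠ c → b ≠ c → d ≠ a → d = b ∨ d = c := by decide
  exact e3 o _ _ j h1 h2.symm h3 hj

end Pool.Agent.Lib.BilU
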