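import Pool.Agent.Lib.MP_7bc51d_an_slice.Sym57
import Pool.Agent.Lib.MP_7bc51d_an_slice.Tri2

set_option autoImplicit false

/-!
In a parallelogram one slice function is enough.
-/

namespace Pool.Agent.Lib.BilU

open Complex MeasureTheory Set Filter AddCircle
open scoped ComplexConjugate Topology ENNReal NNReal
open Pool.Agent.Lib.Bil Pool.Agent.Lib.BilM Pool.Agent.Lib.BilS

variable {n : ℕ} {v : Fin n → ℂ}

/-- A line function with vanishing correlation at zero vanishes in all directions. -/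
theorem F_zero_all {F : ℂ → ℝ → ℝ} (hF : LF F) (hhom : HomF F)
    (h : Cr v F ((0 : ℝ) : TT) ≤ 0) :
    ∀ᵐ w : ℂ, ∀ᵐ x : ℂ, x ∈ PP v → F w (cr w x) = 0 := by
  have h1 := F_zero_of_cr0 (v := v) hF hhom h
  have hsw : MeasurePreserving (Prod.swap : ℂ × ℂ → ℂ × ℂ)
      (volume : Measure (ℂ × ℂ)) (volume : Measure (ℂ × ℂ)) := Measure.measurePreserving_swap
  have h2 := hsw.quasiMeasurePreserving.ae h1
  have h3 : ∀ᵐ w : ℂ, ∀ᵐ x : ℂ, (Prod.swap (w, x)) ∈ PP v ×ˢ Metric.ball (0 : ℂ) 1 →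
      F (Prod.swap (w, x)).2 (cr (Prod.swap (w, x)).2 (Prod.swap (w, x)).1) = 0 :=
    Measure.ae_ae_of_ae_prod h2
  have h4 : ∀ᵐ w : ℂ, ∀ N : ℕ, ∀ᵐ x : ℂ, x ∈ PP v →
      (((N : ℝ) + 1)⁻¹ • w) ∈ Metric.ball (0 : ℂ) 1 →
      F (((N : ℝ) + 1)⁻¹ • w) (cr (((N : ℝ) + 1)⁻¹ • w) x) = 0 := by
    rw [ae_all_iff]
    intro N
    have hN : ((N : ℝ) + 1)⁻¹ ≠ 0 := by positivity
    have h5 := (Measure.quasiMeasurePreserving_smul (μ := (volume : Measure ℂ)) hN).ae h3
    filter_upwards [h5] with w hw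
    filter_upwards [hw] with x hx hxP hwb
    exact hx ⟨hxP, hwb⟩
  filter_upwards [h4] with w hw
  obtain ⟨N, hN⟩ := exists_nat_gt ‖w‖
  have hN1 : (0 : ℝ) < (N : ℝ) + 1 := by positivity
  filter_upwards [hw N] with x hx hxP
  have hb : (((N : ℝ) + 1)⁻¹ • w) ∈ Metric.ball (0 : ℂ) 1 := by
    rw [Metric.mem_ball, dist_zero_right, norm_smul, norm_inv, Real.norm_eq_abs, abs_of_pos hN1,
      inv_mul_lt_iff₀ hN1, mul_one]
    linarith
  have h6 := hx hxP hb
  have e : ((N : ℝ) + 1)⁻¹ • w = ((((N : ℝ) + 1)⁻¹ : ℝ) : ℂ) * w := real_smul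
  rw [e, cr_smul_left, hhom _ (inv_pos.2 hN1)] at h6
  exact h6

/-- The reflection about the centre. -/
noncomputable def rc (c : ℂ) (x : ℂ) : ℂ := 2 * c - x

theorem rc_mp (c : ℂ) : MeasurePreserving (rc c) (volume : Measure ℂ) volume :=
  Measure.measurePreserving_sub_left (volume : Measure ℂ) (2 * c)

theorem rc_emb (c : ℂ) : MeasurableEmbedding (rc c) :=
  (Homeomorph.subLeft (2 * c)).measurableEmbedding

/-- Central symmetry of the slices. -/
theorem par_slice {v : Fin 4 → ℂ} (hn : 3 ≤ 4) (hv : ConvexIndependent ℝ v)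
    (hp : v 0 + v 2 = v 1 + v 3) {f : ℂ × ℂ → ℝ} (hfm : Measurable f) (hfb : ∀ p, |f p| ≤ 1)
    (hf : ∀ c : ℝ, IA v {p | c < f p}) :
    ∀ᵐ w : ℂ, ∀ᵐ x : ℂ, x ∈ PP v → f (rc (cen v) x, w) = f (x, w) := by
  have hσ : ∀ i, v ((fun i : Fin 4 => i + 2) i) = 2 * cen v - v i := par_sym hp
  have hF := LF_Fl (v := v) hfm
  have hhom := Fl_hom hf
  have hs : ∀ i, SymAt (Fl v f) (v i) (v (nxt hn hv i) - v i) := fun i =>
    Fl_sym hn hv hf (nxt_side hn hv i)
  have h1 := F_zero_all (v := v) (Fo_LF (cen v) hF) (Fo_hom (cen v) hhom)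
    (par_cr0 hn hv hp hF hhom hs)
  filter_upwards [h1, Fl_ae hfb hf] with w k1 k2
  have k3 := (rc_mp (cen v)).quasiMeasurePreserving.ae k2
  filter_upwards [k1, k2, k3] with x k4 k5 k6 hx
  have k7 := k4 hx
  unfold Fo at k7
  have e : 2 * cr w (cen v) - cr w x = cr w (rc (cen v) x) := by
    unfold rc
    have : (2 * cen v - x) = ((2 : ℝ) : ℂ) * cen v - x := by push_cast; ring
    rw [this, cr_sub_right, cr_smul_right]
  rw [e, k5 hx, k6 (refl_mem_PP hσ hv hx)] at k7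
  linarith

/-- Almost every point is not on a given line. -/
theorem ae_cr_ne {d : ℂ} (hd : d ≠ 0) (a : ℂ) : ∀ᵐ x : ℂ, cr d (x - a) ≠ 0 := by
  have h1 : ∀ᵐ x : ℂ, cr d x ≠ 0 := by
    filter_upwards [ae_not_mem_line d] with x hx h
    apply hx
    obtain ⟨t, ht⟩ := (cr_eq_zero_iff hd).1 h
    rw [Submodule.mem_span_singleton]
    exact ⟨t, by rw [real_smul, ht]⟩
  have hq : Measure.QuasiMeasurePreserving (fun x : ℂ => x - a) (volume : Measure ℂ) volume :=
    (measurePreserving_sub_right (volume : Measure ℂ) a).quasiMeasurePreserving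
  exact hq.ae h1

/-- The diagonal halves the slice integrals. -/
theorem par_half {v : Fin 4 → ℂ} (hn : 3 ≤ 4) (hv : ConvexIndependent ℝ v)
    (hp : v 0 + v 2 = v 1 + v 3) {f : ℂ × ℂ → ℝ} (hfm : Measurable f) (hfb : ∀ p, |f p| ≤ 1)
    (hf : ∀ c : ℝ, IA v {p | c < f p}) (o : Fin 4) :
    ∀ᵐ w : ℂ, ∫ x in cut v o (o + 2), f (x, w) = 1 / 2 * ∫ x in PP v, f (x, w) := by
  have hσ : ∀ i, v ((fun i : Fin 4 => i + 2) i) = 2 * cen v - v i := par_sym hp
  filter_upwards [par_slice hn hv hp hfm hfb hf] with w hw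
  set c := cen v with hc
  have ho : o ≠ o + 2 := by
    have e : ∀ o : Fin 4, o ≠ o + 2 := by decide
    exact e o
  set d : ℂ := v (o + 2) - v o with hd
  have hdne : d ≠ 0 := v_sub_ne hv ho
  have hd2 : d = 2 * (c - v o) := by
    have := hσ o
    beta_reduce at this
    rw [hd, this]
    ring
  set S := cut v o (o + 2) with hS
  have hSm : MeasurableSet S := measurableSet_cut v o (o + 2)
  have hPm : MeasurableSet (PP v) := isOpen_PP.measurableSet
  have hsub : S ⊆ PP v := fun x hx => hx.1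
  have hfw : Measurable (fun x : ℂ => f (x, w)) := hfm.comp measurable_prodMk_right
  have hi : IntegrableOn (fun x : ℂ => f (x, w)) (PP v) := by
    refine Integrable.mono' (integrableOn_const (C := (1 : ℝ)) isBounded_PP.measure_lt_top.ne)
      hfw.aestronglyMeasurable (Eventually.of_forall (fun x => ?_))
    rw [Real.norm_eq_abs]
    exact hfb _
  have hcr : ∀ x : ℂ, cr d (rc c x - v o) = - cr d (x - v o) := by
    intro x
    have e : rc c x - v o = d - (x - v o) := by rw [hd2]; unfold rc; ring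
    rw [e, cr_sub_right, cr_self, zero_sub]
  have hpre : (PP v \ S : Set ℂ) =ᵐ[volume] (rc c) ⁻¹' S := by
    filter_upwards [ae_cr_ne hdne (v o)] with x hx
    apply propext
    constructor
    · rintro ⟨h1, h2⟩
      refine ⟨refl_mem_PP hσ hv h1, ?_⟩
      change 0 < cr d (rc c x - v o)
      rw [hcr]
      have h3 : ¬ 0 < cr d (x - v o) := fun h => h2 ⟨h1, h⟩
      have h4 := lt_of_le_of_ne (not_lt.1 h3) hx
      linarith
    · rintro ⟨h1, h2⟩
      change 0 < cr d (rc c x - v o) at h2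
      rw [hcr] at h2
      have h3 : x ∈ PP v := by
        have := refl_mem_PP hσ hv h1
        have e : 2 * c - rc c x = x := by unfold rc; ring
        rwa [e] at this
      exact ⟨h3, fun h => by have := h.2; linarith⟩
  have h1 : ∫ x in PP v, f (x, w) = (∫ x in S, f (x, w)) + ∫ x in PP v \ S, f (x, w) := by
    rw [add_comm, setIntegral_sdiff hSm hi hsub, sub_add_cancel]
  have h2 : ∫ x in PP v \ S, f (x, w) = ∫ x in S, f (x, w) := by
    rw [setIntegral_congr_set hpre]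
    have h3 : ∫ x in (rc c) ⁻¹' S, f (x, w) = ∫ x in (rc c) ⁻¹' S, f (rc c x, w) := by
      apply setIntegral_congr_ae ((rc_mp c).measurable hSm)
      filter_upwards [hw] with x hx hxS
      have h4 : x ∈ PP v := by
        have := refl_mem_PP hσ hv hxS.1
        have e : 2 * c - rc c x = x := by unfold rc; ring
        rwa [e] at this
      exact (hx h4).symm
    rw [h3]
    exact (rc_mp c).setIntegral_preimage_emb (rc_emb c) (fun x => f (x, w)) S
  rw [h1, h2]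
  ring

/-- The share of the cut in the total slice integral. -/
noncomputable def kp (hn : 3 ≤ n) (hv : ConvexIndependent ℝ v) (o j : Fin n) : ℝ :=
  if j = nxt hn hv o then 1 else if j = prv hn hv o then 0 else 1 / 2

theorem kp_abs (hn : 3 ≤ n) (hv : ConvexIndependent ℝ v) (o j : Fin n) :
    |kp hn hv o j| ≤ 1 := by
  unfold kp
  split_ifs
  · rw [abs_one]
  · rw [abs_zero]; exact zero_le_one
  · rw [abs_of_pos] <;> norm_num

theorem par_cases (a b i j : Fin 4) (h1 : a ≠ i) (h2 : b ≠ i) (h3 : a ≠ b) (h4 : a ≠ i + 2)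
    (h5 : b ≠ i + 2) (hj : j ≠ i) : j = a ∨ j = b ∨ j = i + 2 := by
  revert a b i j
  decide

theorem par_prv {v : Fin 4 → ℂ} (hn : 3 ≤ 4) (hv : ConvexIndependent ℝ v)
    (hp : v 0 + v 2 = v 1 + v 3) (o : Fin 4) :
    nxt hn hv o ≠ prv hn hv o ∧ nxt hn hv o ≠ o + 2 ∧ prv hn hv o ≠ o + 2 := by
  have h1 := par_nxt hn hv hp
  have h0 : o ≠ o + 2 := by
    have e : ∀ o : Fin 4, o ≠ o + 2 := by decide
    exact e o
  refine ⟨fun h => ?_, fun h => ?_, fun h => ?_⟩
  · have h2 := h1 o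
    rw [h, nxt_prv] at h2
    exact h0 h2
  · have h2 := h1 o
    rw [← h] at h2
    exact (nxt_side hn hv (nxt hn hv o)).ne h2.symm
  · have h2 := h1 (prv hn hv o)
    rw [nxt_prv, h] at h2
    have e : ∀ o : Fin 4, o + 2 + 2 = o := by decide
    rw [e] at h2
    exact (nxt_side hn hv o).ne h2.symm

/-- In a parallelogram the slice integrals over the parts are multiples of the total one. -/
theorem par_cut {v : Fin 4 → ℂ} (hn : 3 ≤ 4) (hv : ConvexIndependent ℝ v)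
    (hp : v 0 + v 2 = v 1 + v 3) {f : ℂ × ℂ → ℝ} (hfm : Measurable f) (hfb : ∀ p, |f p| ≤ 1)
    (hf : ∀ c : ℝ, IA v {p | c < f p}) (o : Fin 4) :
    ∀ᵐ w : ℂ, ∀ j, j ≠ o →
      ∫ x in cut v o j, f (x, w) = kp hn hv o j * ∫ x in PP v, f (x, w) := by
  obtain ⟨a1, a2, a3⟩ := par_prv hn hv hp o
  filter_upwards [par_half hn hv hp hfm hfb hf o] with w hw j hj
  rcases par_cases (nxt hn hv o) (prv hn hv o) o j (nxt_side hn hv o).ne.symm
    (prv_ne hn hv o) a1 a2 a3 hj with h | h | h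
  · rw [h, cut_nxt, kp, if_pos rfl, one_mul]
  · rw [h, cut_prv, Measure.restrict_empty, integral_zero_measure, kp, if_neg a1.symm, if_pos rfl,
      zero_mul]
  · rw [h, hw, kp, if_neg a2.symm, if_neg a3.symm]

/-- In a triangle the slice integrals over the parts are multiples of the total one. -/
theorem tri_cut {v : Fin 3 → ℂ} (hn : 3 ≤ 3) (hv : ConvexIndependent ℝ v) (f : ℂ × ℂ → ℝ)
    (o : Fin 3) (w : ℂ) (j : Fin 3) (hj : j ≠ o) :
      ∫ x in cut v o j, f (x, w) = kp hn hv o j * ∫ x in PP v, f (x, w) := by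
  have h3 : nxt hn hv o ≠ prv hn hv o := by
    intro h
    have h4 := nxt_side hn hv o
    have h5 := nxt_side hn hv (prv hn hv o)
    rw [nxt_prv, ← h] at h5
    exact not_both_sides hn h4 h5
  rcases fin3 hn hv hj with h | h
  · rw [h, cut_nxt, kp, if_pos rfl, one_mul]
  · rw [h, cut_prv, Measure.restrict_empty, integral_zero_measure, kp, if_neg h3.symm, if_pos rfl,
      zero_mul]

/-- One slice function determines the slice integrals over all parts. -/
def OneArea {n : ℕ} (v : Fin n → ℂ) : Prop :=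
  ∀ (hn : 3 ≤ n) (hv : ConvexIndependent ℝ v) (f : ℂ × ℂ → ℝ), Measurable f →
    (∀ p, |f p| ≤ 1) → (∀ c : ℝ, IA v {p | c < f p}) → ∀ o : Fin n,
    ∀ᵐ w : ℂ, ∀ j, j ≠ o →
      ∫ x in cut v o j, f (x, w) = kp hn hv o j * ∫ x in PP v, f (x, w)

theorem oneArea_tri (v : Fin 3 → ℂ) : OneArea v := fun hn hv f _ _ _ o =>
  Eventually.of_forall (fun w j hj => tri_cut hn hv f o w j hj)

theorem oneArea_par {v : Fin 4 → ℂ} (hp : v 0 + v 2 = v 1 + v 3) : OneArea v :=
  fun hn hv _ hfm hfb hf o => par_cut hn hv hp hfm hfb hf o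

/-- Uniqueness from one slice function. -/
theorem one_uniq (hArea : StArea) (hInj : StInj) (hSep : StSep) (hn : 3 ≤ n)
    (hv : ConvexIndependent ℝ v) (h1 : OneArea v) {f g : ℂ × ℂ → ℝ} (hfm : Measurable f)
    (hgm : Measurable g) (hfb : ∀ p, |f p| ≤ 1) (hgb : ∀ p, |g p| ≤ 1)
    (hf : ∀ c : ℝ, IA v {p | c < f p}) (hg : ∀ c : ℝ, IA v {p | c < g p})
    (h : ∀ᵐ w : ℂ, ∫ x in PP v, f (x, w) = ∫ x in PP v, g (x, w)) :
    ∀ᵐ p : ℂ × ℂ, p ∈ PP v ×ˢ Metric.ball (0 : ℂ) 1 → f p = g p := by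
  have o : Fin n := ⟨0, by omega⟩
  refine uniq_fn hArea hInj hSep hn hv o hfm hgm hfb hgb hf hg (fun j hj => ?_)
  filter_upwards [h, h1 hn hv f hfm hfb hf o, h1 hn hv g hgm hgb hg o] with w k1 k2 k3
  rw [k2 j hj, k3 j hj, k1]

/-- Linear stability from one slice function. -/
theorem one_stab (hArea : StArea) (hInj : StInj) (hSep : StSep) (hR : StR) (hn : 3 ≤ n)
    (hv : ConvexIndependent ℝ v) (h1 : OneArea v) :
    ∃ C : ℝ, 0 ≤ C ∧ ∀ f g : ℂ × ℂ → ℝ, Measurable f → Measurable g →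
      (∀ p, |f p| ≤ 1) → (∀ p, |g p| ≤ 1) → (∀ c : ℝ, IA v {p | c < f p}) →
      (∀ c : ℝ, IA v {p | c < g p}) → ∀ (φ : ℝ → ℝ) (K : ℝ),
      Function.Periodic φ (2 * Real.pi) → (∀ x, |φ x| ≤ K) →
      (∀ x y, |φ x - φ y| ≤ K * |x - y|) →
      (∀ᵐ w : ℂ, (∫ x in PP v, f (x, w)) - ∫ x in PP v, g (x, w) = φ (Complex.arg w)) →
      ∫ p in PP v ×ˢ Metric.ball (0 : ℂ) 1, (f p - g p) ^ 2 ≤ C * K ^ 2 := by
  have o : Fin n := ⟨0, by omega⟩
  obtain ⟨C, hC, h⟩ := stab_fn2 hArea hInj hSep hR hn hv o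
  refine ⟨C, hC, fun f g hfm hgm hfb hgb hf hg φ K hper hb hl hφ => ?_⟩
  refine h f g hfm hgm hfb hgb hf hg (fun j x => kp hn hv o j * φ x) K (fun j hj => ?_)
  have hk := kp_abs hn hv o j
  refine ⟨fun x => by beta_reduce; rw [hper x], fun x => ?_, fun x y => ?_, ?_⟩
  · rw [abs_mul]
    calc _ ≤ 1 * |φ x| := mul_le_mul_of_nonneg_right hk (abs_nonneg _)
      _ ≤ K := by rw [one_mul]; exact hb x
  · rw [← mul_sub, abs_mul]
    calc _ ≤ 1 * |φ x - φ y| := mul_le_mul_of_nonneg_right hk (abs_nonneg _)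
      _ ≤ _ := by rw [one_mul]; exact hl x y
  · filter_upwards [hφ, h1 hn hv f hfm hfb hf o, h1 hn hv g hgm hgb hg o] with w k1 k2 k3
    rw [k2 j hj, k3 j hj, ← mul_sub, k1]

end Pool.Agent.Lib.BilU
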