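import Pool.Agent.Lib.MP_7bc51d_an_slice.Defs

set_option autoImplicit false

namespace Pool.Agent.Lib.BilU

open Complex MeasureTheory Set Filter AddCircle
open scoped ComplexConjugate Topology ENNReal NNReal
open Pool.Agent.Lib.Bil Pool.Agent.Lib.BilM Pool.Agent.Lib.BilS

variable {n : ℕ} {v : Fin n → ℂ}

/-- (SEP) -/
theorem stSep : StSep := by
  intro n v hn hv o j i hj
  by_contra hcon
  rw [not_or, not_and_or, not_and_or, not_le, not_le, not_le, not_le] at hcon
  set i' := nxt hn hv i with hi'
  have hs : IsSide v i i' := nxt_side hn hv i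
  set D := v j - v o with hD
  set y := v i - v o with hy
  set z := v i' - v o with hz
  have ho0 : v o - v o = 0 := sub_self _
  -- opposite strict signs
  have hop : (cr D y < 0 ∧ 0 < cr D z) ∨ (0 < cr D y ∧ cr D z < 0) := by
    rcases hcon with ⟨h1 | h1, h2 | h2⟩
    · exact absurd h1 (not_lt.2 h2.le)
    · exact Or.inl ⟨h1, h2⟩
    · exact Or.inr ⟨h2, h1⟩
    · exact absurd h1 (not_lt.2 h2.le)
  have hyne : cr D y ≠ 0 := by rcases hop with h | h <;> [exact h.1.ne; exact h.1.ne']
  have hzne : cr D z ≠ 0 := by rcases hop with h | h <;> [exact h.2.ne'; exact h.2.ne]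
  have hio : i ≠ o := by
    rintro rfl
    apply hyne
    rw [hy, sub_self, cr_zero_right]
  have hio' : i' ≠ o := by
    intro h
    apply hzne
    rw [hz, h, sub_self, cr_zero_right]
  have hij : i ≠ j := by
    rintro rfl
    apply hyne
    rw [hy, hD, cr_self]
  have hij' : i' ≠ j := by
    intro h
    apply hzne
    rw [hz, hD, h, cr_self]
  have s1 := hs.2 o hio.symm hio'.symm
  have s2 := hs.2 j hij.symm hij'.symm
  have e1 : v i' - v i = z - y := by rw [hz, hy]; ring
  have e2 : v o - v i = -y := by rw [hy]; ring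
  have e3 : v j - v i = D - y := by rw [hD, hy]; ring
  rw [e1, e2] at s1
  rw [e1, e3] at s2
  have p1 : 0 < cr y z := by
    rw [cr_neg_right, cr_sub_left, cr_self] at s1
    rw [cr_swap]; linarith
  have p2 : 0 < cr y z - cr D z + cr D y := by
    rw [cr_sub_left z y (D - y), cr_sub_right z D y, cr_sub_right y D y, cr_self y,
      cr_swap z D, cr_swap y D, cr_swap z y] at s2
    linarith
  have hid : ∀ d : ℂ, cr y z * cr d D = cr D z * cr d y - cr D y * cr d z := by
    intro d
    simp only [cr]
    ring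
  rcases hop with ⟨h1, h2⟩ | ⟨h1, h2⟩
  · obtain ⟨d, hd⟩ := exists_strict_sep hv j
    have d1 := hd o hj.symm
    have d2 := hd i hij
    have d3 := hd i' hij'
    have f1 : v o - v j = -D := by rw [hD]; ring
    have f2 : v i - v j = y - D := by rw [hD, hy]; ring
    have f3 : v i' - v j = z - D := by rw [hD, hz]; ring
    rw [f1, cr_neg_right] at d1
    rw [f2, cr_sub_right] at d2
    rw [f3, cr_sub_right] at d3
    have := hid d
    have g1 := mul_pos h2 d2
    have g2 := mul_pos (neg_pos.2 h1) d3
    have g3 := mul_pos (show 0 < cr y z - cr D z + cr D y from p2) d1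
    nlinarith [g1, g2, g3, this]
  · obtain ⟨d, hd⟩ := exists_strict_sep hv o
    have d1 := hd j hj
    have d2 := hd i hio
    have d3 := hd i' hio'
    have := hid d
    have g1 := mul_pos p1 d1
    have g2 := mul_pos (neg_pos.2 h2) d2
    have g3 := mul_pos h1 d3
    rw [← hD] at g1
    nlinarith [g1, g2, g3, this]

/-- Injectivity of the system of slice functionals. -/
theorem slice_inj (hn : 3 ≤ n) (hv : ConvexIndependent ℝ v) (o : Fin n) (ν : Fin n → ℂ)
    (h0 : ∑ i, ν i = 0)
    (h1 : ∑ i, (cr 1 (v i - v o) : ℂ) * ν i = 0) (hI : ∑ i, (cr I (v i - v o) : ℂ) * ν i = 0)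
    (hj : ∀ j, j ≠ o → ∑ i, ((max 0 (cr (v j - v o) (v i - v o)) : ℝ) : ℂ) * ν i = 0) :
    ν = 0 := by
  classical
  by_contra hν
  obtain ⟨d, hd⟩ := exists_strict_sep hv o
  have hd0 : d ≠ 0 := by
    rintro rfl
    obtain ⟨k, hk⟩ : ∃ k : Fin n, k ≠ o := by
      have : Nontrivial (Fin n) := Fin.nontrivial_iff_two_le.2 (by omega)
      exact exists_ne o
    have := hd k hk
    rw [cr_zero_left] at this
    exact lt_irrefl _ this
  have hD : 0 < d.re ^ 2 + d.im ^ 2 := by
    have : d.re ≠ 0 ∨ d.im ≠ 0 := by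
      by_contra hcon
      push Not at hcon
      exact hd0 (Complex.ext hcon.1 hcon.2)
    rcases this with h1 | h1
    · positivity
    · positivity
  set t : Fin n → ℝ := fun k => (d.re * (v k - v o).re + d.im * (v k - v o).im) /
    cr d (v k - v o) with ht
  have hid : ∀ j k, j ≠ o → k ≠ o → (d.re ^ 2 + d.im ^ 2) * cr (v j - v o) (v k - v o) =
      cr d (v j - v o) * cr d (v k - v o) * (t j - t k) := by
    intro j k hjo hko
    have hcj := hd j hjo
    have hck := hd k hko
    rw [ht]
    simp only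
    field_simp
    unfold cr
    ring
  have hdlin : ∑ i, (cr d (v i - v o) : ℂ) * ν i = 0 := by
    have : ∀ i, (cr d (v i - v o) : ℂ) * ν i =
        (d.re : ℂ) * ((cr 1 (v i - v o) : ℂ) * ν i) + (d.im : ℂ) * ((cr I (v i - v o) : ℂ) * ν i) := by
      intro i
      have : cr d (v i - v o) = d.re * cr 1 (v i - v o) + d.im * cr I (v i - v o) := by
        simp only [cr, one_re, one_im, I_re, I_im]; ring
      rw [this]
      push_cast
      ring
    simp_rw [this]
    rw [Finset.sum_add_distrib, ← Finset.mul_sum, ← Finset.mul_sum, h1, hI]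
    simp
  set S : Finset (Fin n) := Finset.univ.filter (fun k => k ≠ o ∧ ν k ≠ 0) with hS
  have hSne : S.Nonempty := by
    by_contra hemp
    rw [Finset.not_nonempty_iff_eq_empty] at hemp
    apply hν
    have hz : ∀ k, k ≠ o → ν k = 0 := by
      intro k hk
      by_contra hkν
      have : k ∈ S := by simp [hS, hk, hkν]
      rw [hemp] at this
      simp at this
    have ho : ν o = 0 := by
      rw [Finset.sum_eq_single o (fun k _ hk => hz k hk) (by simp)] at h0
      exact h0
    funext k
    rcases eq_or_ne k o with rfl | hk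
    · exact ho
    · exact hz k hk
  obtain ⟨m, hmS, hmin⟩ := Finset.exists_min_image S t hSne
  have hm : m ≠ o ∧ ν m ≠ 0 := by simpa [hS] using hmS
  -- other elements of S are strictly before m
  have hlt : ∀ i, i ≠ o → ν i ≠ 0 → i ≠ m → t m < t i := by
    intro i hio hiν him
    have h2 := hmin i (by simp [hS, hio, hiν])
    refine lt_of_le_of_ne h2 (fun heq => ?_)
    have h3 := hid m i hm.1 hio
    rw [heq, sub_self, mul_zero] at h3
    have h4 : cr (v m - v o) (v i - v o) ≠ 0 := noncol hv hm.1.symm hio him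
    rcases mul_eq_zero.1 h3 with h5 | h5
    · exact hD.ne' h5
    · exact h4 h5
  set P : Finset (Fin n) := Finset.univ.filter (fun k => k ≠ o ∧ t m < t k) with hP
  rcases P.eq_empty_or_nonempty with hPe | hPne
  · -- only m
    have hz : ∀ i, i ≠ m → (cr d (v i - v o) : ℂ) * ν i = 0 := by
      intro i him
      rcases eq_or_ne i o with rfl | hio
      · rw [sub_self, cr_zero_right]; simp
      · rcases eq_or_ne (ν i) 0 with h | h
        · rw [h, mul_zero]
        · exfalso
          have : i ∈ P := by simp [hP, hio, hlt i hio h him]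
          rw [hPe] at this
          simp at this
    rw [Finset.sum_eq_single m (fun k _ hk => hz k hk) (by simp)] at hdlin
    rcases mul_eq_zero.1 hdlin with h | h
    · exact (hd m hm.1).ne' (by exact_mod_cast h)
    · exact hm.2 h
  · obtain ⟨j, hjP, hjmin⟩ := Finset.exists_min_image P t hPne
    have hjj : j ≠ o ∧ t m < t j := by simpa [hP] using hjP
    have hsum := hj j hjj.1
    have hz : ∀ i, i ≠ m → ((max 0 (cr (v j - v o) (v i - v o)) : ℝ) : ℂ) * ν i = 0 := by
      intro i him
      rcases eq_or_ne i o with rfl | hio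
      · rw [sub_self, cr_zero_right]; simp
      · rcases eq_or_ne (ν i) 0 with h | h
        · rw [h, mul_zero]
        · have hiP : i ∈ P := by simp [hP, hio, hlt i hio h him]
          have h2 := hjmin i hiP
          have h3 := hid j i hjj.1 hio
          have h4 : cr (v j - v o) (v i - v o) ≤ 0 := by
            by_contra hc
            push Not at hc
            have h5 := mul_pos hD hc
            have h6 : cr d (v j - v o) * cr d (v i - v o) * (t j - t i) ≤ 0 :=
              mul_nonpos_of_nonneg_of_nonpos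
                (mul_pos (hd j hjj.1) (hd i hio)).le (sub_nonpos.2 h2)
            linarith
          rw [max_eq_left h4]
          simp
    rw [Finset.sum_eq_single m (fun k _ hk => hz k hk) (by simp)] at hsum
    have h3 := hid j m hjj.1 hm.1
    have h4 : 0 < cr (v j - v o) (v m - v o) := by
      by_contra hc
      push Not at hc
      have h6 : 0 < cr d (v j - v o) * cr d (v m - v o) * (t j - t m) :=
        mul_pos (mul_pos (hd j hjj.1) (hd m hm.1)) (sub_pos.2 hjj.2)
      have h7 := mul_nonpos_of_nonneg_of_nonpos hD.le hc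
      linarith
    rcases mul_eq_zero.1 hsum with h | h
    · rw [max_eq_right h4.le] at h
      exact h4.ne' (by exact_mod_cast h)
    · exact hm.2 h

/-- The linear map of the slice functionals. -/
noncomputable def sliceMap (v : Fin n → ℂ) (o : Fin n) :
    (Fin n → ℂ) →ₗ[ℝ] ℂ × ℂ × ℂ × (Fin n → ℂ) where
  toFun ν := (∑ i, ν i, ∑ i, (cr 1 (v i - v o) : ℂ) * ν i, ∑ i, (cr I (v i - v o) : ℂ) * ν i,
    fun j => ∑ i, ((max 0 (cr (v j - v o) (v i - v o)) : ℝ) : ℂ) * ν i)
  map_add' ν ν' := by
    simp only [Pi.add_apply, mul_add, Finset.sum_add_distrib, Prod.mk_add_mk, Prod.mk.injEq,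
      true_and]
    funext j
    simp
  map_smul' c ν := by
    simp only [Pi.smul_apply, real_smul, RingHom.id_apply, Prod.smul_mk, Prod.mk.injEq,
      Finset.mul_sum]
    refine ⟨trivial, ?_, ?_, ?_⟩
    · exact Finset.sum_congr rfl fun i _ => by ring
    · exact Finset.sum_congr rfl fun i _ => by ring
    · funext j
      simp only [Pi.smul_apply, real_smul, Finset.mul_sum]
      exact Finset.sum_congr rfl fun i _ => by ring

theorem sliceMap_apply (v : Fin n → ℂ) (o : Fin n) (ν : Fin n → ℂ) : sliceMap v o ν =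
    (∑ i, ν i, ∑ i, (cr 1 (v i - v o) : ℂ) * ν i, ∑ i, (cr I (v i - v o) : ℂ) * ν i,
    fun j => ∑ i, ((max 0 (cr (v j - v o) (v i - v o)) : ℝ) : ℂ) * ν i) := rfl

theorem ker_sliceMap (hn : 3 ≤ n) (hv : ConvexIndependent ℝ v) (o : Fin n) :
    LinearMap.ker (sliceMap v o) = ⊥ := by
  rw [LinearMap.ker_eq_bot']
  intro ν hν
  rw [sliceMap_apply] at hν
  simp only [Prod.mk_eq_zero] at hν
  obtain ⟨a1, a2, a3, a4⟩ := hν
  exact slice_inj hn hv o ν a1 a2 a3 (fun j _ => congrFun a4 j)

/-- (INJ) -/
theorem stInj : StInj := by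
  intro n v hn hv o
  obtain ⟨K, hK, hanti⟩ := (sliceMap v o).exists_antilipschitzWith (ker_sliceMap hn hv o)
  refine ⟨K, K.2, fun ν B hB h0 hd hj i => ?_⟩
  have h1 := hanti.le_mul_dist ν 0
  rw [map_zero, dist_zero_right, dist_zero_right] at h1
  have h2 : ‖sliceMap v o ν‖ ≤ B := by
    rw [sliceMap_apply]
    refine norm_prod_le_iff.2 ⟨by rw [h0, norm_zero]; exact hB, ?_⟩
    refine norm_prod_le_iff.2 ⟨hd 1 (by simp), ?_⟩
    refine norm_prod_le_iff.2 ⟨hd I (by simp), ?_⟩
    refine (pi_norm_le_iff_of_nonneg hB).2 (fun j => ?_)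
    rcases eq_or_ne j o with rfl | hjo
    · have : ∑ i, ((max 0 (cr (v j - v j) (v i - v j)) : ℝ) : ℂ) * ν i = 0 := by
        refine Finset.sum_eq_zero fun i _ => ?_
        rw [sub_self, cr_zero_left]
        simp
      simp only
      rw [this, norm_zero]
      exact hB
    · exact hj j hjo
  calc ‖ν i‖ ≤ ‖ν‖ := norm_le_pi_norm ν i
    _ ≤ K * ‖sliceMap v o ν‖ := h1
    _ ≤ K * B := mul_le_mul_of_nonneg_left h2 K.2

end Pool.Agent.Lib.BilU
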