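import Pool.Agent.Lib.MP_7bc51d_an_slice.Coef

set_option autoImplicit false

namespace Pool.Agent.Lib.BilU

open Complex MeasureTheory Set Filter AddCircle
open scoped ComplexConjugate Topology ENNReal NNReal
open Pool.Agent.Lib.Bil Pool.Agent.Lib.BilM Pool.Agent.Lib.BilS

variable {n : ℕ} {v : Fin n → ℂ}

theorem ar_bound (hArea : StArea) (hn : 3 ≤ n) (hv : ConvexIndependent ℝ v) :
    ∃ C : ℝ, 0 ≤ C ∧ ∀ F : ℂ → ℝ → ℝ, LF F → HomF F →
      (∀ i, SymAt F (v i) (v (nxt hn hv i) - v i)) → ∀ (k : ℤ) (μ R : ℝ), 0 ≤ μ → 0 ≤ R →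
      (∀ i, ‖cN (Nv hn hv F i) k‖ ≤ μ) → (∀ i, ‖cN (Mf F (v i) (ed hn hv i)) k‖ ≤ R) →
      ‖Ar hn hv (fun i => cN (gam v F i) k)‖ ≤ C * (μ * R) := by
  obtain ⟨C, hC, h⟩ := hArea n v hn hv
  refine ⟨C, hC, fun F hF hhom hs k μ R hμ hR hN hM => ?_⟩
  have hne : ∀ i, ed hn hv i ≠ 0 := fun i => v_sub_ne hv (nxt_side hn hv i).ne
  refine h (fun i => cN (gam v F i) k)
    (fun i => cN (Mt F (v (prv hn hv i)) (ed hn hv (prv hn hv i))) k) μ R hμ hR ?_ ?_ ?_
  · intro i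
    rw [← cN_Mf hn hv hF hhom i k, prv_nxt]
    obtain ⟨r, hr⟩ := phase (Mf_hom1 hF hhom (v i) (ed hn hv i)) (hne i)
      (cr_neg_rl (hne i) (hs i)) k
    obtain ⟨r', hr'⟩ := phase (stMt F hF hhom (v i) (ed hn hv i) (hne i)).1 (hne i)
      ((stMt F hF hhom (v i) (ed hn hv i) (hne i)).2 (hs i)) k
    rw [hr, hr']
    have h1 : conj (fourier (-k) (sarg (ed hn hv i)) : ℂ) * fourier (-k) (sarg (ed hn hv i)) =
        1 := by
      rw [← Complex.normSq_eq_conj_mul_self, Complex.normSq_eq_norm_sq, norm_fourier_pt]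
      simp
    have h2 : conj (I * (r : ℂ) * fourier (-k) (sarg (ed hn hv i))) *
        (I * (r' : ℂ) * fourier (-k) (sarg (ed hn hv i))) = ((r * r' : ℝ) : ℂ) := by
      rw [map_mul, map_mul, conj_I, conj_ofReal]
      calc _ = (-(I * I)) * r * r' * (conj (fourier (-k) (sarg (ed hn hv i)) : ℂ) *
            fourier (-k) (sarg (ed hn hv i))) := by ring
        _ = _ := by rw [h1, I_mul_I]; push_cast; ring
    rw [h2, ofReal_im]
  · intro i
    rw [← cN_Mf hn hv hF hhom i k, prv_nxt]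
    have h1 := cN_Nv hn hv hF hhom i k
    have h2 : cN (Mf F (v i) (v (nxt hn hv i) - v i)) k +
        cN (Mt F (v (prv hn hv i)) (ed hn hv (prv hn hv i))) k -
        cN (Mt F (v i) (ed hn hv i)) k = cN (Nv hn hv F i) k := by
      rw [h1]; ring
    rw [h2]
    exact hN i
  · intro i
    rw [← cN_Mf hn hv hF hhom i k]
    exact hM i

/-- Control of the fluxes by the vertex functionals, with small divisors. -/
theorem flux_bound (hn : 3 ≤ n) (hv : ConvexIndependent ℝ v) {F : ℂ → ℝ → ℝ} (hF : LF F)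
    (hhom : HomF F) (hs : ∀ i, SymAt F (v i) (v (nxt hn hv i) - v i)) {k : ℤ}
    (hnz : ∀ i, (rho (k • (sarg (ed hn hv i) - sarg (ed hn hv (prv hn hv i))))).im ≠ 0)
    {μ : ℝ} (hN : ∀ i, ‖cN (Nv hn hv F i) k‖ ≤ μ) (i : Fin n) :
    ‖cN (Mf F (v i) (ed hn hv i)) k‖ ≤
      μ * (|(rho (k • (sarg (ed hn hv i) - sarg (ed hn hv (prv hn hv i))))).im|⁻¹ +
        |(rho (k • (sarg (ed hn hv (nxt hn hv i)) - sarg (ed hn hv i)))).im|⁻¹) := by
  have hne : ∀ i, ed hn hv i ≠ 0 := fun i => v_sub_ne hv (nxt_side hn hv i).ne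
  set t : Fin n → TT := fun i => sarg (ed hn hv i) - sarg (ed hn hv (prv hn hv i)) with ht
  set U : Fin n → ℂ := fun i => fourier (-k) (sarg (ed hn hv i)) with hU
  have hUn : ∀ i, ‖U i‖ = 1 := fun i => norm_fourier_pt _ _
  have h1 : ∀ i, ∃ r : ℝ, cN (Mf F (v i) (ed hn hv i)) k = I * r * U i := fun i =>
    phase (Mf_hom1 hF hhom (v i) (ed hn hv i)) (hne i) (cr_neg_rl (hne i) (hs i)) k
  have h2 : ∀ i, ∃ r : ℝ, cN (Mt F (v i) (ed hn hv i)) k = I * r * U i := fun i =>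
    phase (stMt F hF hhom (v i) (ed hn hv i) (hne i)).1 (hne i)
      ((stMt F hF hhom (v i) (ed hn hv i) (hne i)).2 (hs i)) k
  choose r hr using h1
  choose q hq using h2
  have hfk : ∀ x : TT, (fourier k x : ℂ) = rho (k • x) := fun x => by rw [fourier_apply]; rfl
  have hconj : ∀ x : TT, conj (fourier (-k) x : ℂ) = fourier k x := by
    intro x
    rw [fourier_neg, conj_conj]
  have hprod : ∀ a b : Fin n, |(U a * conj (U b)).im| =
      |(rho (k • (sarg (ed hn hv a) - sarg (ed hn hv b)))).im| := by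
    intro a b
    have hfab : U a * conj (U b) = conj (rho (k • (sarg (ed hn hv a) - sarg (ed hn hv b)))) := by
      simp only [hU]
      rw [hconj, ← rho_neg, ← smul_neg, ← hfk, neg_sub, sub_eq_add_neg, fourier_add_pt]
      have e1 : (fourier k (-sarg (ed hn hv a)) : ℂ) = fourier (-k) (sarg (ed hn hv a)) := by
        rw [fourier_apply, fourier_apply, smul_neg, neg_smul]
      rw [e1]
      ring
    rw [hfab, conj_im, abs_neg]
  have hrel : ∀ i, I * ((r i - q i : ℝ) : ℂ) * U i + I * (q (prv hn hv i) : ℂ) * U (prv hn hv i) =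
      -(-cN (Nv hn hv F i) k) := by
    intro i
    rw [neg_neg, cN_Nv hn hv hF hhom i k, hr, hq, hq]
    push_cast
    ring
  have hrel' : ∀ i, I * (q (prv hn hv i) : ℂ) * U (prv hn hv i) + I * ((r i - q i : ℝ) : ℂ) * U i =
      -(-cN (Nv hn hv F i) k) := by
    intro i
    rw [← hrel i]; ring
  have b1 : ∀ i, |r i - q i| * |(rho (k • t i)).im| ≤ μ := by
    intro i
    have := bad_bound (hUn (prv hn hv i)) (hrel i)
    rw [hprod, norm_neg] at this
    exact this.trans (hN i)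
  have b2 : ∀ i, |q (prv hn hv i)| * |(rho (k • t i)).im| ≤ μ := by
    intro i
    have := bad_bound (hUn i) (hrel' i)
    have e : |(U (prv hn hv i) * conj (U i)).im| = |(U i * conj (U (prv hn hv i))).im| := by
      have e1 : U (prv hn hv i) * conj (U i) = conj (U i * conj (U (prv hn hv i))) := by
        rw [map_mul, conj_conj]; ring
      rw [e1, conj_im, abs_neg]
    rw [e, hprod, norm_neg] at this
    exact this.trans (hN i)
  have hd : ∀ i, 0 < |(rho (k • t i)).im| := fun i => abs_pos.2 (hnz i)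
  have c1 := b1 i
  have c2 := b2 (nxt hn hv i)
  rw [prv_nxt] at c2
  have et : t (nxt hn hv i) = sarg (ed hn hv (nxt hn hv i)) - sarg (ed hn hv i) := by
    simp only [ht]
    rw [prv_nxt]
  have c3 : |r i - q i| ≤ μ * |(rho (k • t i)).im|⁻¹ := by
    rw [← div_eq_mul_inv, le_div_iff₀ (hd i)]
    exact c1
  have c4 : |q i| ≤ μ * |(rho (k • t (nxt hn hv i))).im|⁻¹ := by
    rw [← div_eq_mul_inv, le_div_iff₀ (hd _)]
    exact c2
  have e3 : ‖cN (Mf F (v i) (ed hn hv i)) k‖ = |r i| := by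
    rw [hr, norm_mul, norm_mul, norm_I, hUn, one_mul, mul_one, norm_real, Real.norm_eq_abs]
  rw [e3, mul_add, ← et]
  calc |r i| = |(r i - q i) + q i| := by rw [sub_add_cancel]
    _ ≤ |r i - q i| + |q i| := abs_add_le _ _
    _ ≤ _ := add_le_add c3 c4

/-- The size of the slice functionals. -/
noncomputable def SS (hn : 3 ≤ n) (hv : ConvexIndependent ℝ v) (o : Fin n) (G : Fin n → ℂ → ℝ)
    (k : ℤ) : ℝ :=
  ∑ j ∈ Finset.univ.erase o, ‖cN (fun w => cr (v j - v o) w * G j w) k‖ +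
          (‖cN (fun w => cr 1 w * G (nxt hn hv o) w) k‖ +
            ‖cN (fun w => cr I w * G (nxt hn hv o) w) k‖)

theorem SS_nonneg (hn : 3 ≤ n) (hv : ConvexIndependent ℝ v) (o : Fin n) (G : Fin n → ℂ → ℝ)
    (k : ℤ) : 0 ≤ SS hn hv o G k := by
  have hB1 : 0 ≤ ∑ j ∈ Finset.univ.erase o, ‖cN (fun w => cr (v j - v o) w * G j w) k‖ :=
    Finset.sum_nonneg (fun _ _ => norm_nonneg _)
  unfold SS
  positivity

theorem SS_summable (hn : 3 ≤ n) (hv : ConvexIndependent ℝ v) (o : Fin n) (G : Fin n → ℂ → ℝ)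
    {c : ℤ → ℝ} (hc : ∀ k, 0 ≤ c k)
    (h : ∀ j, j ≠ o → ∀ d : ℂ, Summable (fun k => c k * ‖cN (fun w => cr d w * G j w) k‖ ^ 2)) :
    Summable (fun k => c k * SS hn hv o G k ^ 2) := by
  have hno : nxt hn hv o ≠ o := (nxt_side hn hv o).ne.symm
  have h1 : Summable (fun k : ℤ => c k *
      (∑ j ∈ Finset.univ.erase o, ‖cN (fun w => cr (v j - v o) w * G j w) k‖) ^ 2) :=
    summable_sq_sum _ hc (fun j hj => h j (Finset.mem_erase.1 hj).1 _)
  have h2 := h _ hno 1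
  have h3 := h _ hno I
  refine Summable.of_nonneg_of_le (fun k => mul_nonneg (hc k) (sq_nonneg _)) (fun k => ?_)
    (((h1.add h2).add h3).mul_left 3)
  unfold SS
  set x := ∑ j ∈ Finset.univ.erase o, ‖cN (fun w => cr (v j - v o) w * G j w) k‖
  set y := ‖cN (fun w => cr 1 w * G (nxt hn hv o) w) k‖
  set z := ‖cN (fun w => cr I w * G (nxt hn hv o) w) k‖
  have h4 : (x + (y + z)) ^ 2 ≤ 3 * (x ^ 2 + y ^ 2 + z ^ 2) := by
    nlinarith [sq_nonneg (x - y), sq_nonneg (x - z), sq_nonneg (y - z)]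
  calc c k * (x + (y + z)) ^ 2 ≤ c k * (3 * (x ^ 2 + y ^ 2 + z ^ 2)) :=
        mul_le_mul_of_nonneg_left h4 (hc k)
    _ = _ := by ring

/-- Summability of the areas when the slice functions have Lipschitz derivatives. -/
theorem sum_smooth (hArea : StArea) (hInj : StInj) (hSep : StSep) (hn : 3 ≤ n)
    (hv : ConvexIndependent ℝ v) (o : Fin n) {F : ℂ → ℝ → ℝ} (hF : LF F) (hhom : HomF F)
    (hs : ∀ i, SymAt F (v i) (v (nxt hn hv i) - v i)) {G : Fin n → ℂ → ℝ}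
    (hG : ∀ j, j ≠ o → ∀ d : ℂ, Hom1 (fun w => cr d w * G j w))
    (hsl : ∀ j, j ≠ o → ∀ᵐ w, sl v F o j w = G j w)
    (hsum : ∀ j, j ≠ o → ∀ d : ℂ,
      Summable (fun k : ℤ => (k : ℝ) ^ 4 * ‖cN (fun w => cr d w * G j w) k‖ ^ 2)) :
    Summable (fun k : ℤ => (k : ℝ) ^ 2 * ‖Ar hn hv (fun i => cN (gam v F i) k)‖) := by
  obtain ⟨C, hC, hA⟩ := ar_bound hArea hn hv
  obtain ⟨C', hC', hB⟩ := coef_bound hInj hSep hn hv o
  have s1 : Summable (fun k : ℤ => (k : ℝ) ^ 4 * SS hn hv o G k ^ 2) :=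
    SS_summable hn hv o G (fun k => by positivity) hsum
  have s2 : Summable (fun k : ℤ => (1 : ℝ) * (∑ i, ‖cN (Mf F (v i) (ed hn hv i)) k‖) ^ 2) := by
    apply summable_sq_sum Finset.univ (fun k => zero_le_one)
    intro i _
    have := (Mf_hom1 hF hhom (v i) (ed hn hv i)).summable
    simpa using this
  have s3 := (s1.add s2).mul_left (C * C' / 2)
  refine Summable.of_nonneg_of_le (fun k => by positivity) (fun k => ?_) s3
  set R := ∑ i, ‖cN (Mf F (v i) (ed hn hv i)) k‖ with hR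
  have hR0 : 0 ≤ R := Finset.sum_nonneg (fun _ _ => norm_nonneg _)
  have hS0 := SS_nonneg hn hv o G k
  have h1 := hA F hF hhom hs k (C' * SS hn hv o G k) R (by positivity) hR0
    (fun i => hB F hF hhom G hG hsl k i)
    (fun i => Finset.single_le_sum (f := fun i => ‖cN (Mf F (v i) (ed hn hv i)) k‖)
      (fun i _ => norm_nonneg _) (Finset.mem_univ i))
  set S := SS hn hv o G k with hS
  have h3 : 2 * ((k : ℝ) ^ 2 * S) * R ≤ ((k : ℝ) ^ 2 * S) ^ 2 + R ^ 2 := two_mul_le_add_sq _ _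
  calc (k : ℝ) ^ 2 * ‖Ar hn hv (fun i => cN (gam v F i) k)‖
      ≤ (k : ℝ) ^ 2 * (C * (C' * S * R)) := by gcongr
    _ = C * C' / 2 * (2 * ((k : ℝ) ^ 2 * S) * R) := by ring
    _ ≤ C * C' / 2 * (((k : ℝ) ^ 2 * S) ^ 2 + R ^ 2) := by gcongr
    _ = _ := by ring

/-- Summability of the areas when the slice functions have Hölder derivatives and the angles of
the polygon are Diophantine. -/
theorem sum_holder (hArea : StArea) (hInj : StInj) (hSep : StSep) (hn : 3 ≤ n)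
    (hv : ConvexIndependent ℝ v) (o : Fin n) {F : ℂ → ℝ → ℝ} (hF : LF F) (hhom : HomF F)
    (hs : ∀ i, SymAt F (v i) (v (nxt hn hv i) - v i)) {G : Fin n → ℂ → ℝ}
    (hG : ∀ j, j ≠ o → ∀ d : ℂ, Hom1 (fun w => cr d w * G j w))
    (hsl : ∀ j, j ≠ o → ∀ᵐ w, sl v F o j w = G j w)
    (hnz : ∀ k : ℤ, k ≠ 0 → ∀ i,
      (rho (k • (sarg (ed hn hv i) - sarg (ed hn hv (prv hn hv i))))).im ≠ 0)
    (hsum : ∀ j, j ≠ o → ∀ d : ℂ, ∀ i,
      Summable (fun k : ℤ => ((k : ℝ) ^ 2 *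
        |(rho (k • (sarg (ed hn hv i) - sarg (ed hn hv (prv hn hv i))))).im|⁻¹) *
        ‖cN (fun w => cr d w * G j w) k‖ ^ 2)) :
    Summable (fun k : ℤ => (k : ℝ) ^ 2 * ‖Ar hn hv (fun i => cN (gam v F i) k)‖) := by
  obtain ⟨C, hC, hA⟩ := ar_bound hArea hn hv
  obtain ⟨C', hC', hB⟩ := coef_bound hInj hSep hn hv o
  set t : Fin n → TT := fun i => sarg (ed hn hv i) - sarg (ed hn hv (prv hn hv i)) with ht
  have s1 : ∀ i, Summable (fun k : ℤ => ((k : ℝ) ^ 2 * |(rho (k • t i)).im|⁻¹) *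
      SS hn hv o G k ^ 2) := fun i =>
    SS_summable hn hv o G (fun k => by positivity) (fun j hj d => hsum j hj d i)
  have s2 : Summable (fun k : ℤ => ∑ i, ((k : ℝ) ^ 2 * |(rho (k • t i)).im|⁻¹) *
      SS hn hv o G k ^ 2) := summable_sum (fun i _ => s1 i)
  refine Summable.of_nonneg_of_le (fun k => by positivity) (fun k => ?_)
    (s2.mul_left (2 * C * C' ^ 2))
  by_cases hk0 : k = 0
  · subst hk0
    simp
  set S := SS hn hv o G k with hS
  have hS0 : 0 ≤ S := SS_nonneg hn hv o G k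
  set D : ℝ := ∑ i, |(rho (k • t i)).im|⁻¹ with hD
  have hD0 : 0 ≤ D := Finset.sum_nonneg (fun _ _ => by positivity)
  have hDi : ∀ i, |(rho (k • t i)).im|⁻¹ ≤ D := fun i =>
    Finset.single_le_sum (f := fun i => |(rho (k • t i)).im|⁻¹) (fun i _ => by positivity)
      (Finset.mem_univ i)
  have hN : ∀ i, ‖cN (Nv hn hv F i) k‖ ≤ C' * S := fun i => hB F hF hhom G hG hsl k i
  have hMf : ∀ i, ‖cN (Mf F (v i) (ed hn hv i)) k‖ ≤ C' * S * (2 * D) := by
    intro i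
    refine (flux_bound hn hv hF hhom hs (hnz k hk0) hN i).trans ?_
    have e : sarg (ed hn hv (nxt hn hv i)) - sarg (ed hn hv i) = t (nxt hn hv i) := by
      simp only [ht]
      rw [prv_nxt]
    rw [e]
    have h1 := hDi i
    have h2 := hDi (nxt hn hv i)
    have h3 : 0 ≤ C' * S := by positivity
    apply mul_le_mul_of_nonneg_left _ h3
    linarith
  have h1 := hA F hF hhom hs k (C' * S) (C' * S * (2 * D)) (by positivity) (by positivity) hN hMf
  have h2 : ∑ i, ((k : ℝ) ^ 2 * |(rho (k • t i)).im|⁻¹) * S ^ 2 = (k : ℝ) ^ 2 * S ^ 2 * D := by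
    rw [hD, Finset.mul_sum]
    apply Finset.sum_congr rfl
    intro i _
    ring
  rw [h2]
  calc (k : ℝ) ^ 2 * ‖Ar hn hv (fun i => cN (gam v F i) k)‖
      ≤ (k : ℝ) ^ 2 * (C * (C' * S * (C' * S * (2 * D)))) := by gcongr
    _ = _ := by ring

end Pool.Agent.Lib.BilU
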