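import Pool.Agent.Lib.MP_7bc51d_an_slice.Cr0
import Pool.Agent.Lib.MP_7bc51d_an_slice.Sum
import Pool.Agent.Lib.MP_7bc51d_an_slice.Four

set_option autoImplicit false

/-!
Stability: small Lipschitz slice functions force a small line function.
-/

namespace Pool.Agent.Lib.BilU

open Complex MeasureTheory Set Filter AddCircle
open scoped ComplexConjugate Topology ENNReal NNReal
open Pool.Agent.Lib.Bil Pool.Agent.Lib.BilM Pool.Agent.Lib.BilS

variable {n : ℕ} {v : Fin n → ℂ}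

/-- Lipschitz functions on the circle: the explicit bound for the derivative coefficients. -/
theorem lip_bessel {m : TT → ℝ} (hm : Measurable m) {B K : ℝ} (hb : ∀ t, |m t| ≤ B)
    (hK : ∀ (t : TT) (h : ℝ), |m (t + (h : TT)) - m t| ≤ K * |h|) (S : Finset ℤ) :
    ∑ k ∈ S, (k : ℝ) ^ 2 *
      ‖fourierCoeff (fun t : TT => ((m t : ℝ) : ℂ)) k‖ ^ 2 ≤ K ^ 2 := by
  set c : ℤ → ℂ := fourierCoeff (fun t : TT => ((m t : ℝ) : ℂ)) with hc
  -- the inequality for finite differences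
  have h1 : ∀ h : ℝ, 0 < h →
      ∑ k ∈ S, (‖(Complex.exp ((k : ℂ) * I * h) - 1)‖ / h) ^ 2 * ‖c k‖ ^ 2 ≤ K ^ 2 := by
    intro h hh
    have hd : Measurable (fun t : TT => m (t + (h : TT)) - m t) :=
      (hm.comp (measurable_add_const _)).sub hm
    have h2 := bessel hd (B := K * h) (fun t => by
      have := hK t h
      rwa [abs_of_pos hh] at this) S
    have h3 : ∀ k, fourierCoeff (fun t : TT => (((m (t + (h : TT)) - m t : ℝ)) : ℂ)) k =
        (Complex.exp ((k : ℂ) * I * h) - 1) * c k := by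
      intro k
      have e1 : (fun t : TT => (((m (t + (h : TT)) - m t : ℝ)) : ℂ)) =
          (fun t : TT => ((m (t + (h : TT)) : ℝ) : ℂ)) +
            (fun t : TT => ((-1 : ℂ) * ((m t : ℝ) : ℂ))) := by
        funext t
        simp only [Pi.add_apply]
        push_cast
        ring
      have i1 : Integrable (fun t : TT => ((m (t + (h : TT)) : ℝ) : ℂ)) haarAddCircle :=
        integrable_bdd (m := fun t => m (t + (h : TT))) (hm.comp (measurable_add_const (h : TT)))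
        (B := B) (fun t => hb _)
      have i2 := (integrable_bdd hm hb).const_mul (-1 : ℂ)
      rw [e1, fourierCoeff.add i1 i2, Pi.add_apply, fourierCoeff.const_mul]
      have e3 : fourierCoeff (fun t : TT => ((m (t + (h : TT)) : ℝ) : ℂ)) k =
          fourier k (h : TT) * c k := coeff_shift m (h : TT) k
      rw [e3, fourier_real]
      ring
    simp_rw [h3] at h2
    have h4 : ∀ k : ℤ, (‖(Complex.exp ((k : ℂ) * I * h) - 1)‖ / h) ^ 2 * ‖c k‖ ^ 2 =
        (1 / h ^ 2) * ‖(Complex.exp ((k : ℂ) * I * h) - 1) * c k‖ ^ 2 := by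
      intro k
      rw [norm_mul]
      field_simp
    simp_rw [h4]
    rw [← Finset.mul_sum]
    calc (1 / h ^ 2) * ∑ k ∈ S, ‖(Complex.exp ((k : ℂ) * I * h) - 1) * c k‖ ^ 2
        ≤ (1 / h ^ 2) * (K * h) ^ 2 := by gcongr
      _ = K ^ 2 := by field_simp
  -- the limit
  have h5 : ∀ k : ℤ, Tendsto (fun h : ℝ => ‖(Complex.exp ((k : ℂ) * I * h) - 1)‖ / h) (𝓝[>] 0)
      (𝓝 |(k : ℝ)|) := by
    intro k
    have hd : HasDerivAt (fun h : ℝ => Complex.exp ((k : ℂ) * I * h)) ((k : ℂ) * I) 0 := by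
      have h6 : HasDerivAt (fun h : ℝ => (k : ℂ) * I * (h : ℂ)) ((k : ℂ) * I) 0 := by
        have := (Complex.ofRealCLM.hasDerivAt (x := (0 : ℝ))).const_mul ((k : ℂ) * I)
        simpa using this
      have := h6.cexp
      simpa using this
    have h7 := hd.tendsto_slope_zero_right
    have h8 := h7.norm
    have e5 : ‖(k : ℂ) * I‖ = |(k : ℝ)| := by
      rw [norm_mul, norm_I, mul_one]
      have : ((k : ℤ) : ℂ) = ((k : ℝ) : ℂ) := by push_cast; rfl
      rw [this, norm_real, Real.norm_eq_abs]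
    rw [e5] at h8
    refine h8.congr' ?_
    filter_upwards [self_mem_nhdsWithin] with h hh
    have hh' : 0 < h := hh
    simp only [zero_add, ofReal_zero, mul_zero, Complex.exp_zero]
    rw [norm_smul, norm_inv, Real.norm_eq_abs, abs_of_pos hh']
    field_simp
  have h9 : Tendsto (fun h : ℝ => ∑ k ∈ S,
      (‖(Complex.exp ((k : ℂ) * I * h) - 1)‖ / h) ^ 2 * ‖c k‖ ^ 2) (𝓝[>] 0)
      (𝓝 (∑ k ∈ S, |(k : ℝ)| ^ 2 * ‖c k‖ ^ 2)) := by
    apply tendsto_finsetSum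
    intro k _
    exact ((h5 k).pow 2).mul_const _
  have h10 := le_of_tendsto h9 (by
    filter_upwards [self_mem_nhdsWithin] with h hh
    exact h1 h hh)
  simpa [sq_abs] using h10

/-- Cauchy-Schwarz for the weighted coefficients. -/
theorem cs_bound {f g : ℤ → ℝ} {a b : ℝ} (ha : 0 ≤ a) (hb : 0 ≤ b) (S : Finset ℤ)
    (h1 : ∑ k ∈ S, (k : ℝ) ^ 2 * f k ^ 2 ≤ a ^ 2) (h2 : ∑ k ∈ S, g k ^ 2 ≤ b ^ 2) :
    ∑ k ∈ S, |(k : ℝ)| * (f k * g k) ≤ a * b := by
  have h3 := Finset.sum_mul_sq_le_sq_mul_sq S (fun k : ℤ => |(k : ℝ)| * f k) g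
  have h4 : ∀ k : ℤ, (|(k : ℝ)| * f k) ^ 2 = (k : ℝ) ^ 2 * f k ^ 2 := by
    intro k
    rw [mul_pow, sq_abs]
  simp_rw [h4] at h3
  have h5 : (∑ k ∈ S, |(k : ℝ)| * f k * g k) ^ 2 ≤ (a * b) ^ 2 := by
    refine h3.trans ?_
    rw [mul_pow]
    exact mul_le_mul h1 h2 (Finset.sum_nonneg (fun k _ => sq_nonneg _)) (sq_nonneg _)
  have h6 := abs_le_of_sq_le_sq' h5 (mul_nonneg ha hb)
  calc ∑ k ∈ S, |(k : ℝ)| * (f k * g k) = ∑ k ∈ S, |(k : ℝ)| * f k * g k :=
        Finset.sum_congr rfl (fun k _ => by ring)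
    _ ≤ a * b := h6.2

/-- The fluxes are square summable with an explicit bound. -/
theorem flux_bessel (a e : ℂ) {F : ℂ → ℝ → ℝ} (hF : LF F) (hhom : HomF F) (S : Finset ℤ) :
    ∑ k ∈ S, ‖cN (Mf F a e) k‖ ^ 2 ≤ ‖e‖ ^ 2 := by
  have hM := Mf_hom1 hF hhom a e
  refine bessel (m := fun t => Mf F a e (rho t)) (hM.meas.comp measurable_rho) (fun t => ?_) S
  unfold Mf
  rw [abs_mul]
  have h1 := Sm_abs hF a e (rho t) (t := 1) ⟨zero_le_one, le_rfl⟩
  have h2 := abs_cr_le (rho t) e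
  rw [norm_rho, one_mul] at h2
  calc _ ≤ 1 * ‖e‖ := by gcongr
    _ = _ := one_mul _

/-- The slice functionals of a small Lipschitz function. -/
theorem slice_bessel {φ : ℝ → ℝ} (hper : Function.Periodic φ (2 * Real.pi)) {K : ℝ}
    (hb : ∀ x, |φ x| ≤ K) (hK : ∀ x y, |φ x - φ y| ≤ K * |x - y|) (d : ℂ) (S : Finset ℤ) :
    ∑ k ∈ S, (k : ℝ) ^ 2 * ‖cN (fun w => cr d w * φ (Complex.arg w)) k‖ ^ 2 ≤
      (2 * ‖d‖ * K) ^ 2 := by
  have hK0 : 0 ≤ K := (abs_nonneg _).trans (hb 0)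
  have hcont : Continuous φ := by
    have h : LipschitzWith ⟨K, hK0⟩ φ := by
      apply LipschitzWith.of_dist_le_mul
      intro x y
      rw [Real.dist_eq, Real.dist_eq]
      exact hK x y
    exact h.continuous
  have hcr : ∀ t : TT, |cr d (rho t)| ≤ ‖d‖ := by
    intro t
    have := abs_cr_le d (rho t)
    rwa [norm_rho, mul_one] at this
  have hcr2 : ∀ (t : TT) (h : ℝ), |cr d (rho (t + (h : TT))) - cr d (rho t)| ≤ ‖d‖ * |h| := by
    intro t h
    rw [← cr_sub_right]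
    refine (abs_cr_le _ _).trans ?_
    exact mul_le_mul_of_nonneg_left (norm_rho_sub t h) (norm_nonneg _)
  have hpl : ∀ (t : TT) (h : ℝ), |pl φ (t + (h : TT)) - pl φ t| ≤ K * |h| := by
    intro t h
    induction t using QuotientAddGroup.induction_on with
    | H x =>
      have e : ((x : TT) + (h : TT)) = ((x + h : ℝ) : TT) := (AddCircle.coe_add _ _ _).symm
      have h1 := hK (x + h) x
      rw [add_sub_cancel_left] at h1
      have h2 := pl_coe hper (x + h)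
      have h3 := pl_coe hper x
      calc |pl φ ((x : TT) + (h : TT)) - pl φ (x : TT)| = |φ (x + h) - φ x| := by
            rw [e, h2, h3]
        _ ≤ _ := h1
  have hpb : ∀ t : TT, |pl φ t| ≤ K := fun t => hb _
  have hmeas : Measurable (fun t : TT => cr d (rho t) * pl φ t) :=
    (BL_cr d).meas.mul (hcont.measurable.comp (Complex.measurable_arg.comp measurable_rho))
  simp_rw [cN_sl]
  have e0 : ∀ k, cm (pl (sg d φ)) k =
      fourierCoeff (fun t : TT => (((cr d (rho t) * pl φ t : ℝ)) : ℂ)) k := by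
    intro k
    rw [pl_sg]
    rfl
  simp_rw [e0]
  refine lip_bessel (m := fun t => cr d (rho t) * pl φ t) hmeas (B := ‖d‖ * K) (fun t => ?_)
    (fun t h => ?_) S
  · rw [abs_mul]
    exact mul_le_mul (hcr t) (hpb t) (abs_nonneg _) (norm_nonneg _)
  · have e : cr d (rho (t + (h : TT))) * pl φ (t + (h : TT)) - cr d (rho t) * pl φ t =
        (cr d (rho (t + (h : TT))) - cr d (rho t)) * pl φ (t + (h : TT)) +
          cr d (rho t) * (pl φ (t + (h : TT)) - pl φ t) := by ring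
    rw [e]
    refine (abs_add_le _ _).trans ?_
    rw [abs_mul, abs_mul]
    have h1 := mul_le_mul (hcr2 t h) (hpb (t + (h : TT))) (abs_nonneg _)
      (mul_nonneg (norm_nonneg d) (abs_nonneg h))
    have h2 := mul_le_mul (hcr t) (hpl t h) (abs_nonneg _) (norm_nonneg d)
    calc _ ≤ ‖d‖ * |h| * K + ‖d‖ * (K * |h|) := add_le_add h1 h2
      _ = _ := by ring

/-- The correlation at zero is bounded by the product of the slice size and the flux size. -/
theorem sum_F (hArea : StArea) (hInj : StInj) (hSep : StSep) (hn : 3 ≤ n)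
    (hv : ConvexIndependent ℝ v) (o : Fin n) :
    ∃ C : ℝ, 0 ≤ C ∧ ∀ F : ℂ → ℝ → ℝ, LF F → HomF F →
      (∀ i, SymAt F (v i) (v (nxt hn hv i) - v i)) → ∀ (φ : Fin n → ℝ → ℝ) (K : ℝ),
      (∀ j, j ≠ o → Function.Periodic (φ j) (2 * Real.pi) ∧ (∀ x, |φ j x| ≤ K) ∧
        (∀ x y, |φ j x - φ j y| ≤ K * |x - y|) ∧
        ∀ᵐ w : ℂ, sl v F o j w = φ j (Complex.arg w)) →
      ∀ E : ℝ, 0 ≤ E →
      (∀ i, ∀ S : Finset ℤ, ∑ k ∈ S, ‖cN (Mf F (v i) (ed hn hv i)) k‖ ^ 2 ≤ E ^ 2) →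
      Cr v F ((0 : ℝ) : TT) ≤ C * (K * E) := by
  classical
  obtain ⟨C, hC, hA⟩ := ar_bound hArea hn hv
  obtain ⟨C', hC', hB⟩ := coef_bound hInj hSep hn hv o
  have hno : nxt hn hv o ≠ o := (nxt_side hn hv o).ne.symm
  obtain ⟨D, hD⟩ : ∃ D : ℝ, D = ∑ j ∈ Finset.univ.erase o, ‖v j - v o‖ + (‖(1 : ℂ)‖ + ‖I‖) :=
    ⟨_, rfl⟩
  have hD0 : 0 ≤ D := by
    rw [hD]
    have : 0 ≤ ∑ j ∈ Finset.univ.erase o, ‖v j - v o‖ :=
      Finset.sum_nonneg (fun _ _ => norm_nonneg _)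
    positivity
  refine ⟨‖kap / 2‖ * (C * (C' * (2 * D * n))), by positivity,
    fun F hF hhom hs φ K hφ E hE hR => ?_⟩
  have hK0 : 0 ≤ K := (abs_nonneg _).trans ((hφ _ hno).2.1 0)
  set G : Fin n → ℂ → ℝ := fun j w => φ j (Complex.arg w) with hG
  have hGh : ∀ j, j ≠ o → ∀ d : ℂ, Hom1 (fun w => cr d w * G j w) := by
    intro j hj d
    obtain ⟨k1, k2, k3, k4⟩ := hφ j hj
    have hcont : Continuous (φ j) := by
      have h : LipschitzWith ⟨K, hK0⟩ (φ j) := by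
        apply LipschitzWith.of_dist_le_mul
        intro x y
        rw [Real.dist_eq, Real.dist_eq]
        exact k3 x y
      exact h.continuous
    exact hom1_sl hcont (BL_pl k1 hcont hK0 k3)
  have hGs : ∀ j, j ≠ o → ∀ᵐ w, sl v F o j w = G j w := fun j hj => (hφ j hj).2.2.2
  have key : ∀ S : Finset ℤ, ∑ k ∈ S, |(k : ℝ)| * ‖Ar hn hv (fun i => cN (gam v F i) k)‖ ≤
      C * (C' * (2 * D * n)) * (K * E) := by
    intro S
    have h1 : ∀ k ∈ S, |(k : ℝ)| * ‖Ar hn hv (fun i => cN (gam v F i) k)‖ ≤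
        C * (C' * (|(k : ℝ)| * (SS hn hv o G k * ∑ i, ‖cN (Mf F (v i) (ed hn hv i)) k‖))) := by
      intro k _
      set R := ∑ i, ‖cN (Mf F (v i) (ed hn hv i)) k‖ with hR
      have hR0 : 0 ≤ R := Finset.sum_nonneg (fun _ _ => norm_nonneg _)
      have hS0 := SS_nonneg hn hv o G k
      have h2 := hA F hF hhom hs k (C' * SS hn hv o G k) R (by positivity) hR0
        (fun i => hB F hF hhom G hGh hGs k i)
        (fun i => Finset.single_le_sum (f := fun i => ‖cN (Mf F (v i) (ed hn hv i)) k‖)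
          (fun i _ => norm_nonneg _) (Finset.mem_univ i))
      calc _ ≤ |(k : ℝ)| * (C * (C' * SS hn hv o G k * R)) :=
            mul_le_mul_of_nonneg_left h2 (abs_nonneg _)
        _ = _ := by ring
    refine (Finset.sum_le_sum h1).trans ?_
    rw [← Finset.mul_sum, ← Finset.mul_sum]
    have h3 : ∀ (d : ℂ) (j : Fin n), j ≠ o → ∀ i,
        ∑ k ∈ S, |(k : ℝ)| * (‖cN (fun w => cr d w * G j w) k‖ *
          ‖cN (Mf F (v i) (ed hn hv i)) k‖) ≤ 2 * ‖d‖ * K * E := by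
      intro d j hj i
      obtain ⟨k1, k2, k3, k4⟩ := hφ j hj
      exact cs_bound (f := fun k => ‖cN (fun w => cr d w * G j w) k‖)
        (g := fun k => ‖cN (Mf F (v i) (ed hn hv i)) k‖) (by positivity) hE S
        (slice_bessel k1 k2 k3 d S) (hR i S)
    have h4 : ∀ (d : ℂ) (j : Fin n), j ≠ o →
        ∑ k ∈ S, |(k : ℝ)| * (‖cN (fun w => cr d w * G j w) k‖ *
          ∑ i, ‖cN (Mf F (v i) (ed hn hv i)) k‖) ≤ n * (2 * ‖d‖ * K * E) := by
      intro d j hj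
      simp_rw [Finset.mul_sum]
      rw [Finset.sum_comm]
      refine (Finset.sum_le_sum (fun i _ => h3 d j hj i)).trans (le_of_eq ?_)
      rw [Finset.sum_const, nsmul_eq_mul, Finset.card_univ, Fintype.card_fin]
    have h5 : ∑ k ∈ S, |(k : ℝ)| * (SS hn hv o G k *
        ∑ i, ‖cN (Mf F (v i) (ed hn hv i)) k‖) ≤ 2 * D * n * (K * E) := by
      have e1 : ∀ k : ℤ, |(k : ℝ)| * (SS hn hv o G k *
          ∑ i, ‖cN (Mf F (v i) (ed hn hv i)) k‖) =
          ∑ j ∈ Finset.univ.erase o, |(k : ℝ)| * (‖cN (fun w => cr (v j - v o) w * G j w) k‖ *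
            ∑ i, ‖cN (Mf F (v i) (ed hn hv i)) k‖) +
          (|(k : ℝ)| * (‖cN (fun w => cr 1 w * G (nxt hn hv o) w) k‖ *
            ∑ i, ‖cN (Mf F (v i) (ed hn hv i)) k‖) +
          |(k : ℝ)| * (‖cN (fun w => cr I w * G (nxt hn hv o) w) k‖ *
            ∑ i, ‖cN (Mf F (v i) (ed hn hv i)) k‖)) := by
        intro k
        unfold SS
        rw [← Finset.mul_sum, ← Finset.sum_mul]
        ring
      simp_rw [e1]
      rw [Finset.sum_add_distrib, Finset.sum_add_distrib, Finset.sum_comm]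
      have g1 : ∑ j ∈ Finset.univ.erase o, ∑ k ∈ S,
          |(k : ℝ)| * (‖cN (fun w => cr (v j - v o) w * G j w) k‖ *
            ∑ i, ‖cN (Mf F (v i) (ed hn hv i)) k‖) ≤
          ∑ j ∈ Finset.univ.erase o, n * (2 * ‖v j - v o‖ * K * E) :=
        Finset.sum_le_sum (fun j hj => h4 _ j (Finset.mem_erase.1 hj).1)
      have g2 := h4 1 _ hno
      have g3 := h4 I _ hno
      refine (add_le_add g1 (add_le_add g2 g3)).trans (le_of_eq ?_)
      rw [hD]
      have g4 : ∑ j ∈ Finset.univ.erase o, n * (2 * ‖v j - v o‖ * K * E) =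
          n * (2 * (∑ j ∈ Finset.univ.erase o, ‖v j - v o‖) * K * E) := by
        rw [Finset.mul_sum, Finset.sum_mul, Finset.sum_mul, Finset.mul_sum]
      rw [g4]
      ring
    calc C * (C' * ∑ k ∈ S, |(k : ℝ)| * (SS hn hv o G k *
          ∑ i, ‖cN (Mf F (v i) (ed hn hv i)) k‖)) ≤ C * (C' * (2 * D * n * (K * E))) := by gcongr
      _ = _ := by ring
  have h := cr0_le hn hv hF hhom hs key
  calc _ ≤ _ := h
    _ = _ := by ring

/-- Small Lipschitz slice functions force a small line function. -/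
theorem stab_F (hArea : StArea) (hInj : StInj) (hSep : StSep) (hn : 3 ≤ n)
    (hv : ConvexIndependent ℝ v) (o : Fin n) :
    ∃ C : ℝ, 0 ≤ C ∧ ∀ F : ℂ → ℝ → ℝ, LF F → HomF F →
      (∀ i, SymAt F (v i) (v (nxt hn hv i) - v i)) → ∀ (φ : Fin n → ℝ → ℝ) (K : ℝ),
      (∀ j, j ≠ o → Function.Periodic (φ j) (2 * Real.pi) ∧ (∀ x, |φ j x| ≤ K) ∧
        (∀ x y, |φ j x - φ j y| ≤ K * |x - y|) ∧
        ∀ᵐ w : ℂ, sl v F o j w = φ j (Complex.arg w)) →
      Cr v F ((0 : ℝ) : TT) ≤ C * K := by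
  classical
  obtain ⟨C, hC, h⟩ := sum_F hArea hInj hSep hn hv o
  have hL0 : 0 ≤ ∑ i, ‖ed hn hv i‖ := Finset.sum_nonneg (fun _ _ => norm_nonneg _)
  refine ⟨C * ∑ i, ‖ed hn hv i‖, by positivity, fun F hF hhom hs φ K hφ => ?_⟩
  refine (h F hF hhom hs φ K hφ _ hL0 (fun i S => ?_)).trans (le_of_eq (by ring))
  refine (flux_bessel _ _ hF hhom S).trans ?_
  have h1 : ‖ed hn hv i‖ ≤ ∑ i, ‖ed hn hv i‖ :=
    Finset.single_le_sum (f := fun i => ‖ed hn hv i‖) (fun i _ => norm_nonneg _)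
      (Finset.mem_univ i)
  exact pow_le_pow_left₀ (norm_nonneg _) h1 2

/-- (R) The fluxes are square summable, with the square norm of the line function as a bound. -/
def StR : Prop := ∀ (n : ℕ) (v : Fin n → ℂ) (hn : 3 ≤ n) (hv : ConvexIndependent ℝ v),
  ∃ C : ℝ, 0 ≤ C ∧ ∀ F : ℂ → ℝ → ℝ, LF F → HomF F →
    (∀ i, SymAt F (v i) (v (nxt hn hv i) - v i)) → ∀ (i : Fin n) (S : Finset ℤ),
    ∑ k ∈ S, ‖cN (Mf F (v i) (ed hn hv i)) k‖ ^ 2 ≤ C * Cr v F ((0 : ℝ) : TT)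

theorem Cr0_nonneg (F : ℂ → ℝ → ℝ) : 0 ≤ Cr v F ((0 : ℝ) : TT) := by
  rw [Cr_zero]
  exact integral_nonneg (fun p => mul_self_nonneg _)

/-- Linear stability: the square norm of the line function is at most quadratic in the size of the
slice functions. -/
theorem stab_F2 (hArea : StArea) (hInj : StInj) (hSep : StSep) (hR : StR) (hn : 3 ≤ n)
    (hv : ConvexIndependent ℝ v) (o : Fin n) :
    ∃ C : ℝ, 0 ≤ C ∧ ∀ F : ℂ → ℝ → ℝ, LF F → HomF F →
      (∀ i, SymAt F (v i) (v (nxt hn hv i) - v i)) → ∀ (φ : Fin n → ℝ → ℝ) (K : ℝ),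
      (∀ j, j ≠ o → Function.Periodic (φ j) (2 * Real.pi) ∧ (∀ x, |φ j x| ≤ K) ∧
        (∀ x y, |φ j x - φ j y| ≤ K * |x - y|) ∧
        ∀ᵐ w : ℂ, sl v F o j w = φ j (Complex.arg w)) →
      Cr v F ((0 : ℝ) : TT) ≤ C * K ^ 2 := by
  obtain ⟨C, hC, h⟩ := sum_F hArea hInj hSep hn hv o
  obtain ⟨C', hC', h'⟩ := hR n v hn hv
  refine ⟨C ^ 2 * C', by positivity, fun F hF hhom hs φ K hφ => ?_⟩
  have hno : nxt hn hv o ≠ o := (nxt_side hn hv o).ne.symm
  have hK0 : 0 ≤ K := (abs_nonneg _).trans ((hφ _ hno).2.1 0)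
  set X := Cr v F ((0 : ℝ) : TT) with hX
  have hX0 : 0 ≤ X := Cr0_nonneg F
  have hE : Real.sqrt (C' * X) ^ 2 = C' * X := Real.sq_sqrt (by positivity)
  have h1 := h F hF hhom hs φ K hφ (Real.sqrt (C' * X)) (Real.sqrt_nonneg _) (fun i S => by
    rw [hE]
    exact h' F hF hhom hs i S)
  rw [← hX] at h1
  rcases hX0.eq_or_lt with h0 | h0
  · rw [← h0]
    positivity
  · have h2 : X ^ 2 ≤ (C * (K * Real.sqrt (C' * X))) ^ 2 := pow_le_pow_left₀ hX0 h1 2
    have h3 : (C * (K * Real.sqrt (C' * X))) ^ 2 = C ^ 2 * C' * K ^ 2 * X := by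
      rw [mul_pow, mul_pow, hE]
      ring
    rw [h3, sq] at h2
    exact le_of_mul_le_mul_right h2 h0

end Pool.Agent.Lib.BilU
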