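import Pool.Agent.Lib.MP_7bc51d_an_slice.StabF
import Pool.Agent.Lib.MP_7bc51d_an_slice.Fn

set_option autoImplicit false

/-!
Stability for bounded invariant functions.
-/

namespace Pool.Agent.Lib.BilU

open Complex MeasureTheory Set Filter AddCircle
open scoped ComplexConjugate Topology ENNReal NNReal Pointwise
open Pool.Agent.Lib.Bil Pool.Agent.Lib.BilM Pool.Agent.Lib.BilS

variable {n : ℕ} {v : Fin n → ℂ}

theorem intOn_bdd {s : Set ℂ} (hs : volume s ≠ ⊤) {h : ℂ → ℝ} (hm : Measurable h) {C : ℝ}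
    (hb : ∀ w ∈ s, |h w| ≤ C) (hsm : MeasurableSet s) : IntegrableOn h s := by
  refine Integrable.mono' (integrableOn_const (C := C) hs) hm.aestronglyMeasurable ?_
  rw [ae_restrict_iff' hsm]
  exact Eventually.of_forall (fun w hw => by rw [Real.norm_eq_abs]; exact hb w hw)

/-- A bounded nonnegative function invariant under doubling: the weight `‖w‖ ^ 2` costs at most a
constant. -/
theorem weight_bound {h : ℂ → ℝ} (hm : Measurable h) (h0 : ∀ w, 0 ≤ h w) (h1 : ∀ w, h w ≤ 1)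
    (h2 : ∀ w, h ((2 : ℝ) • w) = h w) :
    ∫ w in Metric.ball (0 : ℂ) 1, h w ≤
      16 / 3 * ∫ w in Metric.ball (0 : ℂ) 1, ‖w‖ ^ 2 * h w := by
  set b1 : Set ℂ := Metric.ball (0 : ℂ) 1 with hb1
  set b2 : Set ℂ := Metric.ball (0 : ℂ) (1 / 2) with hb2
  have hsub : b2 ⊆ b1 := Metric.ball_subset_ball (by norm_num)
  have hf1 : volume b1 ≠ ⊤ := measure_ball_lt_top.ne
  have hm1 : MeasurableSet b1 := measurableSet_ball
  have hm2 : MeasurableSet b2 := measurableSet_ball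
  have habs : ∀ w, |h w| ≤ 1 := fun w => by rw [abs_of_nonneg (h0 w)]; exact h1 w
  have i1 : IntegrableOn h b1 := intOn_bdd hf1 hm (fun w _ => habs w) hm1
  have hmw : Measurable (fun w : ℂ => ‖w‖ ^ 2 * h w) := (measurable_norm.pow_const 2).mul hm
  have hn1 : ∀ w ∈ b1, ‖w‖ < 1 := fun w hw => by
    rw [hb1, Metric.mem_ball, dist_zero_right] at hw
    exact hw
  have i2 : IntegrableOn (fun w : ℂ => ‖w‖ ^ 2 * h w) b1 := by
    refine intOn_bdd (C := 1) hf1 hmw (fun w hw => ?_) hm1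
    have h3 := hn1 w hw
    have h4 := norm_nonneg w
    rw [abs_mul, abs_of_nonneg (by positivity : 0 ≤ ‖w‖ ^ 2)]
    have h5 : ‖w‖ ^ 2 ≤ 1 := by nlinarith
    calc _ ≤ (1 : ℝ) * 1 := mul_le_mul h5 (habs w) (abs_nonneg _) zero_le_one
      _ = 1 := one_mul 1
  have hhalf : ∫ w in b2, h w = 1 / 4 * ∫ w in b1, h w := by
    have e1 : ∫ w in b2, h w = ∫ w in b2, h ((2 : ℝ) • w) := by simp_rw [h2]
    rw [e1, Measure.setIntegral_comp_smul_of_pos volume h b2 (by norm_num : (0 : ℝ) < 2)]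
    have e2 : (2 : ℝ) • b2 = b1 := by
      rw [hb2, smul_ball (by norm_num : (2 : ℝ) ≠ 0), hb1, smul_zero]
      norm_num
    rw [e2, Complex.finrank_real_complex, smul_eq_mul]
    norm_num
  have hdiff : ∫ w in b1 \ b2, h w = 3 / 4 * ∫ w in b1, h w := by
    rw [setIntegral_sdiff hm2 i1 hsub, hhalf]
    ring
  have h6 : 1 / 4 * ∫ w in b1 \ b2, h w ≤ ∫ w in b1 \ b2, ‖w‖ ^ 2 * h w := by
    rw [← integral_const_mul]
    apply setIntegral_mono_on ((i1.mono_set sdiff_subset).const_mul _)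
      (i2.mono_set sdiff_subset) (hm1.diff hm2)
    intro w hw
    have h7 : 1 / 2 ≤ ‖w‖ := by
      by_contra hcon
      push Not at hcon
      apply hw.2
      rw [hb2, Metric.mem_ball, dist_zero_right]
      exact hcon
    have h8 : (1 / 4 : ℝ) ≤ ‖w‖ ^ 2 := by nlinarith
    exact mul_le_mul_of_nonneg_right h8 (h0 w)
  have h9 : ∫ w in b1 \ b2, ‖w‖ ^ 2 * h w ≤ ∫ w in b1, ‖w‖ ^ 2 * h w := by
    apply setIntegral_mono_set i2
    · exact Eventually.of_forall (fun w => mul_nonneg (by positivity) (h0 w))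
    · exact (sdiff_subset (s := b1) (t := b2)).eventuallyLE
  rw [hdiff] at h6
  linarith

/-- The square integral of a line function is at most a multiple of the correlation at zero. -/
theorem sq_le_cr0 {F : ℂ → ℝ → ℝ} (hF : LF F) (hhom : HomF F) :
    ∫ p in PP v ×ˢ Metric.ball (0 : ℂ) 1, F p.2 (cr p.2 p.1) ^ 2 ≤
      16 / 3 * Cr v F ((0 : ℝ) : TT) := by
  have hPm : MeasurableSet (PP v) := isOpen_PP.measurableSet
  have hfin : ((volume : Measure ℂ).prod (volume : Measure ℂ))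
      (PP v ×ˢ Metric.ball (0 : ℂ) 1) ≠ ⊤ := by
    rw [Measure.prod_prod]
    exact ENNReal.mul_ne_top isBounded_PP.measure_lt_top.ne measure_ball_lt_top.ne
  have hms : MeasurableSet (PP v ×ˢ Metric.ball (0 : ℂ) 1) := hPm.prod measurableSet_ball
  have hmF : Measurable (fun p : ℂ × ℂ => F p.2 (cr p.2 p.1) ^ 2) :=
    (meas_F_swap hF).pow_const 2
  have hb : ∀ w Q, F w Q ^ 2 ≤ 1 := fun w Q => by
    have := hF.bd w Q
    rw [← sq_abs]
    have h0 := abs_nonneg (F w Q)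
    nlinarith
  have i1 : IntegrableOn (fun p : ℂ × ℂ => F p.2 (cr p.2 p.1) ^ 2)
      (PP v ×ˢ Metric.ball (0 : ℂ) 1) ((volume : Measure ℂ).prod (volume : Measure ℂ)) := by
    refine Integrable.mono' (integrableOn_const (C := (1 : ℝ)) hfin) hmF.aestronglyMeasurable ?_
    refine Eventually.of_forall (fun p => ?_)
    rw [Real.norm_eq_abs, abs_of_nonneg (sq_nonneg _)]
    exact hb _ _
  have hmW : Measurable (fun p : ℂ × ℂ => ‖p.2‖ ^ 2 * F p.2 (cr p.2 p.1) ^ 2) :=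
    (measurable_snd.norm.pow_const 2).mul hmF
  have i2 : IntegrableOn (fun p : ℂ × ℂ => ‖p.2‖ ^ 2 * F p.2 (cr p.2 p.1) ^ 2)
      (PP v ×ˢ Metric.ball (0 : ℂ) 1) ((volume : Measure ℂ).prod (volume : Measure ℂ)) := by
    refine Integrable.mono' (integrableOn_const (C := (1 : ℝ)) hfin) hmW.aestronglyMeasurable ?_
    rw [ae_restrict_iff' hms]
    refine Eventually.of_forall (fun p hp => ?_)
    have h1 : ‖p.2‖ < 1 := by
      have := hp.2
      rwa [Metric.mem_ball, dist_zero_right] at this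
    have h2 := norm_nonneg p.2
    rw [Real.norm_eq_abs, abs_of_nonneg (by positivity)]
    have h3 : ‖p.2‖ ^ 2 ≤ 1 := by nlinarith
    calc _ ≤ (1 : ℝ) * 1 := mul_le_mul h3 (hb _ _) (sq_nonneg _) zero_le_one
      _ = 1 := one_mul 1
  have hCr : Cr v F ((0 : ℝ) : TT) =
      ∫ p in PP v ×ˢ Metric.ball (0 : ℂ) 1, ‖p.2‖ ^ 2 * F p.2 (cr p.2 p.1) ^ 2 := by
    rw [Cr_zero]
    have h1 : ∀ p : ℂ × ℂ, Gw v F p * Gw v F p =
        (BV ×ˢ PP v).indicator (fun p => ‖p.1‖ ^ 2 * F p.1 (cr p.1 p.2) ^ 2) p := by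
      intro p
      unfold Gw
      by_cases hp : p ∈ BV ×ˢ PP v
      · rw [indicator_of_mem hp, indicator_of_mem hp]
        ring
      · rw [indicator_of_notMem hp, indicator_of_notMem hp, zero_mul]
    simp_rw [h1]
    rw [integral_indicator (measurableSet_ball.prod hPm), Measure.volume_eq_prod]
    exact (setIntegral_prod_swap (μ := (volume : Measure ℂ)) (ν := (volume : Measure ℂ))
      (PP v) (Metric.ball (0 : ℂ) 1)
      (fun p : ℂ × ℂ => ‖p.2‖ ^ 2 * F p.2 (cr p.2 p.1) ^ 2))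
  rw [hCr, Measure.volume_eq_prod, setIntegral_prod _ i1, setIntegral_prod _ i2,
    ← integral_const_mul]
  have j1 : Integrable (fun x : ℂ => ∫ y in Metric.ball (0 : ℂ) 1, F y (cr y x) ^ 2)
      (volume.restrict (PP v)) := by
    rw [IntegrableOn, ← Measure.prod_restrict] at i1
    exact i1.integral_prod_left
  have j2 : Integrable (fun x : ℂ => ∫ y in Metric.ball (0 : ℂ) 1, ‖y‖ ^ 2 * F y (cr y x) ^ 2)
      (volume.restrict (PP v)) := by
    rw [IntegrableOn, ← Measure.prod_restrict] at i2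
    exact i2.integral_prod_left
  refine integral_mono j1 (j2.const_mul _) (fun x => ?_)
  refine weight_bound (h := fun w => F w (cr w x) ^ 2) ?_ (fun w => sq_nonneg _)
    (fun w => hb _ _) (fun w => ?_)
  · exact hmF.comp (measurable_const.prodMk measurable_id)
  · have e : (2 : ℝ) • w = ((2 : ℝ) : ℂ) * w := real_smul
    rw [e, cr_smul_left, hhom 2 (by norm_num)]

/-- The line function of the difference of two bounded invariant functions. -/
noncomputable def Fd (v : Fin n → ℂ) (f g : ℂ × ℂ → ℝ) (w : ℂ) (Q : ℝ) : ℝ :=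
  1 / 2 * (Fl v f w Q - Fl v g w Q)

theorem Fd_LF {f g : ℂ × ℂ → ℝ} (hf : Measurable f) (hg : Measurable g) : LF (Fd v f g) := by
  have h1 := LF_Fl (v := v) hf
  have h2 := LF_Fl (v := v) hg
  constructor
  · exact (h1.meas.sub h2.meas).const_mul _
  · intro w Q
    unfold Fd
    have k1 := h1.bd w Q
    have k2 := h2.bd w Q
    rw [abs_mul]
    have k3 := abs_sub (Fl v f w Q) (Fl v g w Q)
    have k4 : |(1 / 2 : ℝ)| = 1 / 2 := abs_of_pos (by norm_num)
    rw [k4]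
    linarith

theorem Fd_hom {f g : ℂ × ℂ → ℝ} (hf : ∀ c : ℝ, IA v {p | c < f p})
    (hg : ∀ c : ℝ, IA v {p | c < g p}) : HomF (Fd v f g) := by
  intro r hr w Q
  unfold Fd
  rw [Fl_hom hf r hr w Q, Fl_hom hg r hr w Q]

theorem Fd_sym (hn : 3 ≤ n) (hv : ConvexIndependent ℝ v) {f g : ℂ × ℂ → ℝ}
    (hf : ∀ c : ℝ, IA v {p | c < f p}) (hg : ∀ c : ℝ, IA v {p | c < g p}) (i : Fin n) :
    SymAt (Fd v f g) (v i) (v (nxt hn hv i) - v i) := by
  have h1 := Fl_sym hn hv hf (nxt_side hn hv i)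
  have h2 := Fl_sym hn hv hg (nxt_side hn hv i)
  unfold SymAt at h1 h2 ⊢
  filter_upwards [h1, h2] with w k1 k2
  filter_upwards [k1, k2] with τ k3 k4 hτ
  unfold Fd
  rw [k3 hτ, k4 hτ]

theorem sl_Fl {f : ℂ × ℂ → ℝ} (hb : ∀ p, |f p| ≤ 1)
    (hf : ∀ c : ℝ, IA v {p | c < f p}) (o : Fin n) :
    ∀ᵐ w : ℂ, ∀ j, sl v (Fl v f) o j w = ∫ x in cut v o j, f (x, w) := by
  filter_upwards [Fl_ae hb hf] with w hw j
  unfold sl
  apply setIntegral_congr_ae (measurableSet_cut v o j)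
  filter_upwards [hw] with x hx hxc
  exact hx hxc.1

theorem sl_Fd {f g : ℂ × ℂ → ℝ} (hfm : Measurable f) (hgm : Measurable g)
    (hfb : ∀ p, |f p| ≤ 1) (hgb : ∀ p, |g p| ≤ 1) (hf : ∀ c : ℝ, IA v {p | c < f p})
    (hg : ∀ c : ℝ, IA v {p | c < g p}) (o : Fin n) :
    ∀ᵐ w : ℂ, ∀ j, sl v (Fd v f g) o j w =
      1 / 2 * ((∫ x in cut v o j, f (x, w)) - ∫ x in cut v o j, g (x, w)) := by
  filter_upwards [sl_Fl hfb hf o, sl_Fl hgb hg o] with w k1 k2 j
  rw [← k1 j, ← k2 j, ← sl_sub (LF_Fl hfm) (LF_Fl hgm)]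
  unfold sl Fd
  rw [integral_const_mul]

/-- The square distance of two bounded invariant functions in terms of the correlation at zero. -/
theorem dist_le_cr0 {f g : ℂ × ℂ → ℝ} (hfm : Measurable f) (hgm : Measurable g)
    (hfb : ∀ p, |f p| ≤ 1) (hgb : ∀ p, |g p| ≤ 1) (hf : ∀ c : ℝ, IA v {p | c < f p})
    (hg : ∀ c : ℝ, IA v {p | c < g p}) :
    ∫ p in PP v ×ˢ Metric.ball (0 : ℂ) 1, (f p - g p) ^ 2 ≤
      64 / 3 * Cr v (Fd v f g) ((0 : ℝ) : TT) := by
  have h1 := sq_le_cr0 (v := v) (Fd_LF (v := v) hfm hgm) (Fd_hom hf hg)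
  have hPm : MeasurableSet (PP v) := isOpen_PP.measurableSet
  have hsw : MeasurePreserving (Prod.swap : ℂ × ℂ → ℂ × ℂ)
      (volume : Measure (ℂ × ℂ)) (volume : Measure (ℂ × ℂ)) := Measure.measurePreserving_swap
  have hae : ∀ {f : ℂ × ℂ → ℝ}, Measurable f → (∀ p, |f p| ≤ 1) →
      (∀ c : ℝ, IA v {p | c < f p}) →
      ∀ᵐ p : ℂ × ℂ, p.1 ∈ PP v → Fl v f p.2 (cr p.2 p.1) = f p := by
    intro f hfm hfb hf
    have g1 := Fl_ae hfb hf
    have m1 := meas_F_comp1 (LF_Fl (v := v) hfm)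
    have m2 : Measurable (fun p : ℂ × ℂ => f (p.2, p.1)) :=
      hfm.comp (measurable_snd.prodMk measurable_fst)
    have hPm2 : MeasurableSet {p : ℂ × ℂ | p.2 ∈ PP v} := hPm.preimage measurable_snd
    have hm : MeasurableSet {p : ℂ × ℂ | p.2 ∈ PP v → Fl v f p.1 (cr p.1 p.2) = f (p.2, p.1)} :=
      hPm2.imp (measurableSet_eq_fun m1 m2)
    have g2 : ∀ᵐ p ∂((volume : Measure ℂ).prod (volume : Measure ℂ)), p.2 ∈ PP v →
        Fl v f p.1 (cr p.1 p.2) = f (p.2, p.1) := by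
      rw [Measure.ae_prod_iff_ae_ae hm]
      exact g1
    exact hsw.quasiMeasurePreserving.ae g2
  have h2 : ∫ p in PP v ×ˢ Metric.ball (0 : ℂ) 1, (f p - g p) ^ 2 =
      4 * ∫ p in PP v ×ˢ Metric.ball (0 : ℂ) 1, Fd v f g p.2 (cr p.2 p.1) ^ 2 := by
    rw [← integral_const_mul]
    apply setIntegral_congr_ae (hPm.prod measurableSet_ball)
    filter_upwards [hae hfm hfb hf, hae hgm hgb hg] with p k1 k2 hp
    unfold Fd
    rw [k1 hp.1, k2 hp.1]
    ring
  rw [h2]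
  linarith

/-- Stability for bounded invariant functions. -/
theorem stab_fn (hArea : StArea) (hInj : StInj) (hSep : StSep) (hn : 3 ≤ n)
    (hv : ConvexIndependent ℝ v) (o : Fin n) :
    ∃ C : ℝ, 0 ≤ C ∧ ∀ f g : ℂ × ℂ → ℝ, Measurable f → Measurable g →
      (∀ p, |f p| ≤ 1) → (∀ p, |g p| ≤ 1) → (∀ c : ℝ, IA v {p | c < f p}) →
      (∀ c : ℝ, IA v {p | c < g p}) → ∀ (φ : Fin n → ℝ → ℝ) (K : ℝ),
      (∀ j, j ≠ o → Function.Periodic (φ j) (2 * Real.pi) ∧ (∀ x, |φ j x| ≤ K) ∧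
        (∀ x y, |φ j x - φ j y| ≤ K * |x - y|) ∧
        ∀ᵐ w : ℂ, (∫ x in cut v o j, f (x, w)) - ∫ x in cut v o j, g (x, w) =
          φ j (Complex.arg w)) →
      ∫ p in PP v ×ˢ Metric.ball (0 : ℂ) 1, (f p - g p) ^ 2 ≤ C * K := by
  obtain ⟨C, hC, h⟩ := stab_F hArea hInj hSep hn hv o
  refine ⟨32 / 3 * C, by positivity, fun f g hfm hgm hfb hgb hf hg φ K hφ => ?_⟩
  have h1 := h (Fd v f g) (Fd_LF hfm hgm) (Fd_hom hf hg) (Fd_sym hn hv hf hg)
    (fun j x => 1 / 2 * φ j x) (1 / 2 * K) (fun j hj => by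
      obtain ⟨k1, k2, k3, k4⟩ := hφ j hj
      refine ⟨fun x => by beta_reduce; rw [k1 x], fun x => ?_, fun x y => ?_, ?_⟩
      · rw [abs_mul, abs_of_pos (by norm_num : (0 : ℝ) < 1 / 2)]
        have := k2 x
        linarith
      · rw [← mul_sub, abs_mul, abs_of_pos (by norm_num : (0 : ℝ) < 1 / 2)]
        have := k3 x y
        linarith
      · filter_upwards [sl_Fd hfm hgm hfb hgb hf hg o, k4] with w k5 k6
        rw [k5 j, k6])
  have h2 := dist_le_cr0 (v := v) hfm hgm hfb hgb hf hg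
  calc _ ≤ _ := h2
    _ ≤ 64 / 3 * (C * (1 / 2 * K)) := by gcongr
    _ = _ := by ring

/-- Linear stability for bounded invariant functions. -/
theorem stab_fn2 (hArea : StArea) (hInj : StInj) (hSep : StSep) (hR : StR) (hn : 3 ≤ n)
    (hv : ConvexIndependent ℝ v) (o : Fin n) :
    ∃ C : ℝ, 0 ≤ C ∧ ∀ f g : ℂ × ℂ → ℝ, Measurable f → Measurable g →
      (∀ p, |f p| ≤ 1) → (∀ p, |g p| ≤ 1) → (∀ c : ℝ, IA v {p | c < f p}) →
      (∀ c : ℝ, IA v {p | c < g p}) → ∀ (φ : Fin n → ℝ → ℝ) (K : ℝ),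
      (∀ j, j ≠ o → Function.Periodic (φ j) (2 * Real.pi) ∧ (∀ x, |φ j x| ≤ K) ∧
        (∀ x y, |φ j x - φ j y| ≤ K * |x - y|) ∧
        ∀ᵐ w : ℂ, (∫ x in cut v o j, f (x, w)) - ∫ x in cut v o j, g (x, w) =
          φ j (Complex.arg w)) →
      ∫ p in PP v ×ˢ Metric.ball (0 : ℂ) 1, (f p - g p) ^ 2 ≤ C * K ^ 2 := by
  obtain ⟨C, hC, h⟩ := stab_F2 hArea hInj hSep hR hn hv o
  refine ⟨16 / 3 * C, by positivity, fun f g hfm hgm hfb hgb hf hg φ K hφ => ?_⟩
  have h1 := h (Fd v f g) (Fd_LF hfm hgm) (Fd_hom hf hg) (Fd_sym hn hv hf hg)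
    (fun j x => 1 / 2 * φ j x) (1 / 2 * K) (fun j hj => by
      obtain ⟨k1, k2, k3, k4⟩ := hφ j hj
      refine ⟨fun x => by beta_reduce; rw [k1 x], fun x => ?_, fun x y => ?_, ?_⟩
      · rw [abs_mul, abs_of_pos (by norm_num : (0 : ℝ) < 1 / 2)]
        have := k2 x
        linarith
      · rw [← mul_sub, abs_mul, abs_of_pos (by norm_num : (0 : ℝ) < 1 / 2)]
        have := k3 x y
        linarith
      · filter_upwards [sl_Fd hfm hgm hfb hgb hf hg o, k4] with w k5 k6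
        rw [k5 j, k6])
  have h2 := dist_le_cr0 (v := v) hfm hgm hfb hgb hf hg
  calc _ ≤ _ := h2
    _ ≤ 64 / 3 * (C * (1 / 2 * K) ^ 2) := by gcongr
    _ = _ := by ring

/-- Bounded invariant functions with the same slice integrals coincide. -/
theorem uniq_fn (hArea : StArea) (hInj : StInj) (hSep : StSep) (hn : 3 ≤ n)
    (hv : ConvexIndependent ℝ v) (o : Fin n) {f g : ℂ × ℂ → ℝ} (hfm : Measurable f)
    (hgm : Measurable g) (hfb : ∀ p, |f p| ≤ 1) (hgb : ∀ p, |g p| ≤ 1)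
    (hf : ∀ c : ℝ, IA v {p | c < f p}) (hg : ∀ c : ℝ, IA v {p | c < g p})
    (h : ∀ j, j ≠ o → ∀ᵐ w : ℂ, ∫ x in cut v o j, f (x, w) = ∫ x in cut v o j, g (x, w)) :
    ∀ᵐ p : ℂ × ℂ, p ∈ PP v ×ˢ Metric.ball (0 : ℂ) 1 → f p = g p := by
  obtain ⟨C, hC, h1⟩ := stab_fn hArea hInj hSep hn hv o
  have h2 := h1 f g hfm hgm hfb hgb hf hg (fun _ _ => 0) 0 (fun j hj => by
    refine ⟨fun x => rfl, fun x => by simp, fun x y => by simp, ?_⟩
    filter_upwards [h j hj] with w hw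
    rw [hw, sub_self])
  rw [mul_zero] at h2
  have hPm : MeasurableSet (PP v) := isOpen_PP.measurableSet
  have hms : MeasurableSet (PP v ×ˢ Metric.ball (0 : ℂ) 1) := hPm.prod measurableSet_ball
  have hfin : (volume : Measure (ℂ × ℂ)) (PP v ×ˢ Metric.ball (0 : ℂ) 1) ≠ ⊤ := by
    rw [Measure.volume_eq_prod, Measure.prod_prod]
    exact ENNReal.mul_ne_top isBounded_PP.measure_lt_top.ne measure_ball_lt_top.ne
  have h3 : ∫ p in PP v ×ˢ Metric.ball (0 : ℂ) 1, (f p - g p) ^ 2 = 0 :=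
    le_antisymm h2 (integral_nonneg (fun p => sq_nonneg _))
  have hi : IntegrableOn (fun p : ℂ × ℂ => (f p - g p) ^ 2)
      (PP v ×ˢ Metric.ball (0 : ℂ) 1) := by
    refine Integrable.mono' (integrableOn_const (C := (4 : ℝ)) hfin)
      ((hfm.sub hgm).pow_const 2).aestronglyMeasurable (Eventually.of_forall (fun p => ?_))
    rw [Real.norm_eq_abs, abs_of_nonneg (sq_nonneg _)]
    have k1 := abs_le.1 (hfb p)
    have k2 := abs_le.1 (hgb p)
    nlinarith
  rw [setIntegral_eq_zero_iff_of_nonneg_ae (Eventually.of_forall (fun p => sq_nonneg _)) hi,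
    EventuallyEq, ae_restrict_iff' hms] at h3
  filter_upwards [h3] with p hp hpm
  have h4 := hp hpm
  simp only [Pi.zero_apply] at h4
  have h5 := pow_eq_zero_iff two_ne_zero |>.1 h4
  linarith

end Pool.Agent.Lib.BilU
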