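import Pool.Agent.Lib.MP_7bc51d_an_slice.StabF
import Pool.Agent.Lib.MP_7bc51d_an_slice.Fin

set_option autoImplicit false

/-!
Stability for sets: the measure of the symmetric difference of two invariant sets is bounded by
the size of the slice area differences.
-/

namespace Pool.Agent.Lib.BilU

open Complex MeasureTheory Set Filter AddCircle
open scoped ComplexConjugate Topology ENNReal NNReal
open Pool.Agent.Lib.Bil Pool.Agent.Lib.BilM Pool.Agent.Lib.BilS

variable {n : ℕ} {v : Fin n → ℂ}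

/-- The half of a cone: the velocities of norm less than one half carry a quarter of the measure. -/
theorem cone_half {T : Set (ℂ × ℂ)} (hT : MeasurableSet T) (hPm : MeasurableSet (PP v))
    (hcone : ∀ x w : ℂ, ((x, w) ∈ T ↔ (x, (2 : ℂ) * w) ∈ T)) :
    volume (T ∩ (PP v ×ˢ Metric.ball (0 : ℂ) (1 / 2))) =
      ENNReal.ofReal (1 / 4) * volume (T ∩ (PP v ×ˢ Metric.ball (0 : ℂ) 1)) := by
  have hm : ∀ r : ℝ, MeasurableSet (T ∩ (PP v ×ˢ Metric.ball (0 : ℂ) r)) := fun r =>
    hT.inter (hPm.prod measurableSet_ball)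
  rw [Measure.volume_eq_prod, Measure.prod_apply (hm _), Measure.prod_apply (hm _),
    ← lintegral_const_mul' _ _ ENNReal.ofReal_ne_top]
  apply lintegral_congr
  intro x
  have e : Prod.mk x ⁻¹' (T ∩ (PP v ×ˢ Metric.ball (0 : ℂ) (1 / 2))) =
      (fun w : ℂ => (2 : ℝ) • w) ⁻¹' (Prod.mk x ⁻¹' (T ∩ (PP v ×ˢ Metric.ball (0 : ℂ) 1))) := by
    ext w
    have e2 : (2 : ℝ) • w = (2 : ℂ) * w := by rw [real_smul]; push_cast; rfl
    simp only [mem_preimage, mem_inter_iff, mem_prod, Metric.mem_ball, dist_zero_right]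
    rw [e2, ← hcone x w, norm_mul]
    have e3 : ‖(2 : ℂ)‖ = 2 := by simp
    rw [e3]
    constructor
    · rintro ⟨h1, h2, h3⟩
      exact ⟨h1, h2, by linarith⟩
    · rintro ⟨h1, h2, h3⟩
      exact ⟨h1, h2, by linarith⟩
  rw [e, Measure.addHaar_preimage_smul _ (by norm_num : (2 : ℝ) ≠ 0)]
  congr 1
  rw [Complex.finrank_real_complex]
  norm_num

/-- The measure of the set where a line function of modulus one is at most a multiple of the
correlation at zero. -/
theorem vol_le_cr0 {F : ℂ → ℝ → ℝ} (hF : LF F) {T : Set (ℂ × ℂ)} (hT : MeasurableSet T)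
    (hcone : ∀ x w : ℂ, ((x, w) ∈ T ↔ (x, (2 : ℂ) * w) ∈ T))
    (hae : ∀ᵐ p : ℂ × ℂ, p.1 ∈ PP v → p ∈ T → F p.2 (cr p.2 p.1) ^ 2 = 1) :
    (volume (T ∩ (PP v ×ˢ Metric.ball (0 : ℂ) 1))).toReal ≤
      16 / 3 * Cr v F ((0 : ℝ) : TT) := by
  have hPm : MeasurableSet (PP v) := isOpen_PP.measurableSet
  set s1 : Set (ℂ × ℂ) := T ∩ (PP v ×ˢ Metric.ball (0 : ℂ) 1) with hs1
  set s2 : Set (ℂ × ℂ) := T ∩ (PP v ×ˢ Metric.ball (0 : ℂ) (1 / 2)) with hs2
  have hm1 : MeasurableSet s1 := hT.inter (hPm.prod measurableSet_ball)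
  have hm2 : MeasurableSet s2 := hT.inter (hPm.prod measurableSet_ball)
  have hsub : s2 ⊆ s1 := by
    rintro p ⟨h1, h2, h3⟩
    refine ⟨h1, h2, Metric.ball_subset_ball (by norm_num) h3⟩
  have hfin : volume (PP v ×ˢ Metric.ball (0 : ℂ) 1) ≠ ⊤ := by
    rw [Measure.volume_eq_prod, Measure.prod_prod]
    exact ENNReal.mul_ne_top isBounded_PP.measure_lt_top.ne measure_ball_lt_top.ne
  have hfin1 : volume s1 ≠ ⊤ := ne_top_of_le_ne_top hfin (measure_mono inter_subset_right)
  have hfin2 : volume s2 ≠ ⊤ := ne_top_of_le_ne_top hfin1 (measure_mono hsub)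
  have hq : (volume s2).toReal = 1 / 4 * (volume s1).toReal := by
    rw [hs2, cone_half hT hPm hcone, ENNReal.toReal_mul, ENNReal.toReal_ofReal (by norm_num)]
  have hd : (volume (s1 \ s2)).toReal = 3 / 4 * (volume s1).toReal := by
    rw [measure_sdiff hsub hm2.nullMeasurableSet hfin2,
      ENNReal.toReal_sub_of_le (measure_mono hsub) hfin1, hq]
    ring
  -- swap the coordinates
  have hsw : MeasurePreserving (Prod.swap : ℂ × ℂ → ℂ × ℂ)
      (volume : Measure (ℂ × ℂ)) (volume : Measure (ℂ × ℂ)) := Measure.measurePreserving_swap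
  set U : Set (ℂ × ℂ) := Prod.swap ⁻¹' (s1 \ s2) with hU
  have hUm : MeasurableSet U := measurable_swap (hm1.diff hm2)
  have hUv : (volume U).toReal = 3 / 4 * (volume s1).toReal := by
    rw [hU, hsw.measure_preimage (hm1.diff hm2).nullMeasurableSet, hd]
  have hUfin : volume U ≠ ⊤ := by
    rw [hU, hsw.measure_preimage (hm1.diff hm2).nullMeasurableSet]
    exact ne_top_of_le_ne_top hfin1 (measure_mono sdiff_subset)
  have hae2 : ∀ᵐ p : ℂ × ℂ, p ∈ U → F p.1 (cr p.1 p.2) ^ 2 = 1 := by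
    have h1 := hsw.quasiMeasurePreserving.ae hae
    filter_upwards [h1] with p hp hpU
    exact hp hpU.1.2.1 hpU.1.1
  rw [Cr_zero]
  have hG := Gw_memLp (v := v) hF
  have h2 : ∫ p : ℂ × ℂ, U.indicator (fun _ => (1 / 4 : ℝ)) p ≤
      ∫ p : ℂ × ℂ, Gw v F p * Gw v F p := by
    apply integral_mono_ae
    · rw [integrable_indicator_iff hUm]
      exact integrableOn_const hUfin
    · exact hG.integrable_mul hG
    · filter_upwards [hae2] with p hp
      by_cases hpU : p ∈ U
      · rw [indicator_of_mem hpU]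
        have h3 := hp hpU
        have h4 : p ∈ BV ×ˢ PP v := ⟨hpU.1.2.2, hpU.1.2.1⟩
        have h5 : 1 / 2 ≤ ‖p.1‖ := by
          by_contra hcon
          push Not at hcon
          apply hpU.2
          refine ⟨hpU.1.1, hpU.1.2.1, ?_⟩
          rw [Metric.mem_ball, dist_zero_right]
          exact hcon
        unfold Gw
        rw [indicator_of_mem h4]
        calc (1 / 4 : ℝ) ≤ ‖p.1‖ ^ 2 := by nlinarith
          _ = ‖p.1‖ * F p.1 (cr p.1 p.2) * (‖p.1‖ * F p.1 (cr p.1 p.2)) := by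
              calc _ = ‖p.1‖ ^ 2 * 1 := by ring
                _ = _ := by rw [← h3]; ring
      · rw [indicator_of_notMem hpU]
        exact mul_self_nonneg _
  rw [integral_indicator_const _ hUm, measureReal_def, smul_eq_mul, hUv] at h2
  linarith

/-- Stability: if the differences of the slice areas are small Lipschitz functions of the
direction, then the two invariant sets almost coincide. -/
theorem stab_sets (hArea : StArea) (hInj : StInj) (hSep : StSep) (hn : 3 ≤ n)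
    (hv : ConvexIndependent ℝ v) (o : Fin n) :
    ∃ C : ℝ, 0 ≤ C ∧ ∀ A B : Set (ℂ × ℂ), MeasurableSet A → MeasurableSet B →
      (∀ x w : ℂ, ∀ c : ℝ, 0 < c → ((x, w) ∈ A ↔ (x, (c : ℂ) * w) ∈ A)) →
      (∀ x w : ℂ, ∀ c : ℝ, 0 < c → ((x, w) ∈ B ↔ (x, (c : ℂ) * w) ∈ B)) →
      (∀ᵐ p ∂(volume : Measure (ℂ × ℂ)), HypAt v A p) →
      (∀ᵐ p ∂(volume : Measure (ℂ × ℂ)), HypAt v B p) → ∀ (φ : Fin n → ℝ → ℝ) (K : ℝ),
      (∀ j, j ≠ o → Function.Periodic (φ j) (2 * Real.pi) ∧ (∀ x, |φ j x| ≤ K) ∧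
        (∀ x y, |φ j x - φ j y| ≤ K * |x - y|) ∧ ArDiff v A B o j (φ j)) →
      (volume ({p : ℂ × ℂ | ¬ (p ∈ A ↔ p ∈ B)} ∩
        (PP v ×ˢ Metric.ball (0 : ℂ) 1))).toReal ≤ C * K := by
  obtain ⟨C, hC, h⟩ := stab_F hArea hInj hSep hn hv o
  refine ⟨16 / 3 * C, by positivity, fun A B hA hB hconeA hconeB HA HB φ K hφ => ?_⟩
  have hIA : Inv v A := inv_of_hyp hv HA
  have hIB : Inv v B := inv_of_hyp hv HB
  have hchA := chord_of_hyp (v := v) HA
  have hchB := chord_of_hyp (v := v) HB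
  have hFA := LF_FA (v := v) hA
  have hFB := LF_FA (v := v) hB
  have hsA : ∀ i, SymAt (FA v A) (v i) (v (nxt hn hv i) - v i) := fun i =>
    symAt_FA hn hv hIA hchA (nxt_side hn hv i)
  have hsB : ∀ i, SymAt (FA v B) (v i) (v (nxt hn hv i) - v i) := fun i =>
    symAt_FA hn hv hIB hchB (nxt_side hn hv i)
  set F : ℂ → ℝ → ℝ := fun w Q => FA v A w Q - FA v B w Q with hFdef
  have hF01 : ∀ (D : Set (ℂ × ℂ)) w Q, FA v D w Q = 0 ∨ FA v D w Q = 1 := by
    intro D w Q
    unfold FA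
    by_cases h : (w, Q) ∈ Lset v D
    · rw [indicator_of_mem h]; right; rfl
    · rw [indicator_of_notMem h]; left; rfl
  have hF : LF F := by
    constructor
    · exact hFA.meas.sub hFB.meas
    · intro w Q
      rw [hFdef]
      simp only
      rcases hF01 A w Q with h | h <;> rcases hF01 B w Q with h' | h' <;> rw [h, h'] <;> norm_num
  have hhom : HomF F := by
    intro r hr w Q
    rw [hFdef]
    simp only
    rw [FA_hom hconeA r hr, FA_hom hconeB r hr]
  have hs : ∀ i, SymAt F (v i) (v (nxt hn hv i) - v i) := by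
    intro i
    filter_upwards [hsA i, hsB i] with w k1 k2
    filter_upwards [k1, k2] with τ k3 k4 hτ
    rw [hFdef]
    simp only
    rw [k3 hτ, k4 hτ]
  have hsl : ∀ᵐ w, ∀ j, sl v F o j w = arV v A o j w - arV v B o j w := by
    filter_upwards [sl_FA hA hchA o, sl_FA hB hchB o] with w k1 k2 j
    rw [hFdef, sl_sub hFA hFB, k1 j, k2 j]
  have h1 := h F hF hhom hs φ K (fun j hj => by
    obtain ⟨k1, k2, k3, k4⟩ := hφ j hj
    refine ⟨k1, k2, k3, ?_⟩
    filter_upwards [hsl, k4] with w k5 k6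
    rw [k5 j, k6])
  have hT : MeasurableSet {p : ℂ × ℂ | ¬ (p ∈ A ↔ p ∈ B)} := by
    have e : {p : ℂ × ℂ | ¬ (p ∈ A ↔ p ∈ B)} = (A \ B) ∪ (B \ A) := by
      ext p
      simp only [mem_union, Set.mem_sdiff, mem_ofPred_eq]
      tauto
    rw [e]
    exact (hA.diff hB).union (hB.diff hA)
  have h2 := vol_le_cr0 (v := v) hF hT (fun x w => by
    have k1 := hconeA x w 2 (by norm_num)
    have k2 := hconeB x w 2 (by norm_num)
    push_cast at k1 k2
    simp only [mem_ofPred_eq]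
    rw [← k1, ← k2]) (by
    have s2 := ae_prod_FA (v := v) hA hchA
    have s3 := ae_prod_FA (v := v) hB hchB
    change ∀ᵐ p ∂((volume : Measure ℂ).prod (volume : Measure ℂ)), _
    filter_upwards [s2, s3] with p k2 k3 hp hpT
    rw [hFdef]
    simp only
    rw [k2 hp, k3 hp]
    by_cases hpA : p ∈ A
    · by_cases hpB : p ∈ B
      · exact absurd ⟨fun _ => hpB, fun _ => hpA⟩ hpT
      · rw [indicator_of_mem hpA, indicator_of_notMem hpB]
        simp
    · by_cases hpB : p ∈ B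
      · rw [indicator_of_notMem hpA, indicator_of_mem hpB]
        simp
      · exact absurd ⟨fun h => absurd h hpA, fun h => absurd h hpB⟩ hpT)
  calc _ ≤ _ := h2
    _ ≤ 16 / 3 * (C * K) := by gcongr
    _ = _ := by ring

end Pool.Agent.Lib.BilU
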