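import Pool.Agent.Lib.MP_7bc51d_an_slice.OrbFin

set_option autoImplicit false

namespace Pool.Agent.Lib.BilU

open Complex MeasureTheory Set Filter AddCircle
open scoped ComplexConjugate Topology ENNReal NNReal
open Pool.Agent.Lib.Bil Pool.Agent.Lib.BilM Pool.Agent.Lib.BilS

variable {n : ℕ} {v : Fin n → ℂ}

theorem prv_side (hn : 3 ≤ n) (hv : ConvexIndependent ℝ v) (o : Fin n) :
    IsSide v (prv hn hv o) o := by
  have h := nxt_side hn hv (prv hn hv o)
  rwa [nxt_prv] at h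

theorem cut_prv (hn : 3 ≤ n) (hv : ConvexIndependent ℝ v) (o : Fin n) :
    cut v o (prv hn hv o) = ∅ := by
  ext x
  simp only [mem_empty_iff_false, iff_false]
  rintro ⟨hx, h⟩
  have h1 := (prv_side hn hv o).cr_pos hv hx
  have h2 : cr (v (prv hn hv o) - v o) (x - v o) =
      - cr (v o - v (prv hn hv o)) (x - v (prv hn hv o)) := by
    unfold cr
    simp only [sub_re, sub_im]
    ring
  rw [h2] at h
  linarith

theorem tri_cases {v : Fin 3 → ℂ} (hv : ConvexIndependent ℝ v) (o j : Fin 3) (hj : j ≠ o) :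
    j = nxt (le_refl 3) hv o ∨ j = prv (le_refl 3) hv o := by
  have h1 := (nxt_side (le_refl 3) hv o).ne
  have h2 := (prv_side (le_refl 3) hv o).ne
  have h3 : nxt (le_refl 3) hv o ≠ prv (le_refl 3) hv o := by
    intro h
    have h4 := nxt_side (le_refl 3) hv o
    have h5 := prv_side (le_refl 3) hv o
    rw [h] at h4
    exact not_both_sides (le_refl 3) h4 h5
  generalize nxt (le_refl 3) hv o = a at *
  generalize prv (le_refl 3) hv o = b at *
  rw [Ne, Fin.ext_iff] at hj h1 h2 h3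
  rw [Fin.ext_iff, Fin.ext_iff]
  omega

/-- Along a trajectory the position is in the polygon except at the collision times. -/
theorem Trj.avg_congr {p : ℂ × ℂ} (Tr : Trj v p) {g g' : ℂ × ℂ → ℝ}
    (h : ∀ q : ℂ × ℂ, q.1 ∈ PP v → g q = g' q) (N : ℕ) : Tr.avg g N = Tr.avg g' N := by
  unfold Trj.avg
  congr 1
  apply Finset.sum_congr rfl
  intro k _
  apply intervalIntegral.integral_congr_ae
  have h1 : ∀ᵐ t : ℝ, t ≠ Tr.T (k + 1) := by simp [ae_iff, measure_singleton]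
  filter_upwards [h1] with t ht hmem
  rw [uIoc_of_le (Tr.mono (Nat.lt_succ_self k)).le] at hmem
  exact h _ (Tr.inside k t hmem.1 (lt_of_le_of_ne hmem.2 ht))

/-- The orbit form for triangles. -/
theorem orb_tri (hOrb : StOrb3) (hOrb4 : StOrb4) (hU : StUniq) {v : Fin 3 → ℂ}
    (hv : ConvexIndependent ℝ v) {A : Set (ℂ × ℂ)} (hA : IA v A)
    (h : ∀ ψ : ℂ → ℝ, Continuous ψ → (∀ z, 0 ≤ ψ z ∧ ψ z ≤ 1) → ∃ c : ℝ,
      ∀ᵐ p : ℂ × ℂ, p ∈ DD v → ∃ Tr : Trj v p,
        Tendsto (Tr.avg (fun q => ψ (q.2 / (‖q.2‖ : ℂ)))) atTop (𝓝 c)) :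
    volume (A ∩ DD v) = 0 ∨ volume (DD v \ A) = 0 := by
  have hn : 3 ≤ 3 := le_refl 3
  refine orb_case hOrb hOrb4 hU hn hv hA 0 (fun j hj ψ hψ h01 => ?_)
  rcases tri_cases hv 0 j hj with rfl | rfl
  · obtain ⟨c, hc⟩ := h ψ hψ h01
    refine ⟨c, ?_⟩
    filter_upwards [hc] with p hp hpD
    obtain ⟨Tr, hTr⟩ := hp hpD
    refine ⟨Tr, ?_⟩
    refine hTr.congr (fun N => Tr.avg_congr (fun q hq => ?_) N)
    unfold ob
    rw [if_pos ((nxt_side hn hv 0).cr_pos hv hq), one_mul]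
  · obtain ⟨c, hc⟩ := h ψ hψ h01
    refine ⟨0, ?_⟩
    filter_upwards [hc] with p hp hpD
    obtain ⟨Tr, -⟩ := hp hpD
    refine ⟨Tr, ?_⟩
    have : ∀ N, Tr.avg (ob v 0 (prv hn hv 0) ψ) N = 0 := by
      intro N
      rw [Tr.avg_congr (g' := fun _ => 0) (fun q hq => ?_) N]
      · unfold Trj.avg; simp
      · unfold ob
        rw [if_neg, zero_mul]
        intro h1
        have h2 : q.1 ∈ cut v 0 (prv hn hv 0) := ⟨hq, h1⟩
        rw [cut_prv] at h2
        exact h2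
    exact tendsto_const_nhds.congr (fun N => (this N).symm)

end Pool.Agent.Lib.BilU
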