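import Pool.Agent.Lib.MP_7bc51d_an_slice.Coef

set_option autoImplicit false

/-!
A virial identity: the square integral of a line function is a sum of nonnegative contributions
of the sides.
-/

namespace Pool.Agent.Lib.BilU

open Complex MeasureTheory Set Filter AddCircle
open scoped ComplexConjugate Topology ENNReal NNReal
open Pool.Agent.Lib.Bil Pool.Agent.Lib.BilM Pool.Agent.Lib.BilS

variable {n : ℕ} {v : Fin n → ℂ}

theorem lf_sq {F : ℂ → ℝ → ℝ} (hF : LF F) : LF (fun w Q => F w Q ^ 2) := by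
  refine ⟨hF.meas.pow_const 2, fun w Q => ?_⟩
  rw [abs_pow]
  exact pow_le_one₀ (abs_nonneg _) (hF.bd w Q)

theorem symAt_sq {F : ℂ → ℝ → ℝ} {a e : ℂ} (hs : SymAt F a e) :
    SymAt (fun w Q => F w Q ^ 2) a e := by
  unfold SymAt at hs ⊢
  filter_upwards [hs] with w hw
  filter_upwards [hw] with τ h hτ
  rw [h hτ]

/-- The contribution of a side. -/
noncomputable def Vr (G : ℂ → ℝ → ℝ) (z a e w : ℂ) : ℝ :=
  ∫ τ in (0 : ℝ)..1, G w (cr w (a + (τ : ℂ) * e)) * (dt w (a + (τ : ℂ) * e - z) * cr w e)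

theorem Vr_meas {G : ℂ → ℝ → ℝ} (hG : LF G) (z a e : ℂ) : Measurable (Vr G z a e) := by
  refine meas_ii (h := fun w τ =>
    G w (cr w (a + (τ : ℂ) * e)) * (dt w (a + (τ : ℂ) * e - z) * cr w e)) ?_ 1 zero_le_one
  refine (meas_F_pt1 hG a e).mul (Measurable.mul ?_ ?_)
  · apply Continuous.measurable; unfold dt; fun_prop
  · apply Continuous.measurable; unfold cr; fun_prop

theorem Vr_abs {G : ℂ → ℝ → ℝ} (hG : LF G) (z a e : ℂ) {w : ℂ} (hw : w ∈ BV) :
    |Vr G z a e w| ≤ (‖a - z‖ + ‖e‖) * ‖e‖ := by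
  unfold Vr
  apply bdd_ii
  intro τ hτ
  rw [abs_mul, abs_mul]
  have h1 := hG.bd w (cr w (a + (τ : ℂ) * e))
  have h2 := abs_dt_le w (a + (τ : ℂ) * e - z)
  have h3 := abs_cr_BV hw e
  have hw1 := (norm_lt_of_BV hw).le
  have h4 : ‖a + (τ : ℂ) * e - z‖ ≤ ‖a - z‖ + ‖e‖ := by
    have e1 : a + (τ : ℂ) * e - z = (a - z) + (τ : ℂ) * e := by ring
    rw [e1]
    refine (norm_add_le _ _).trans ?_
    rw [norm_mul, norm_real, Real.norm_eq_abs, abs_of_pos hτ.1]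
    have : τ * ‖e‖ ≤ 1 * ‖e‖ := by gcongr; exact hτ.2
    linarith
  have h5 : |dt w (a + (τ : ℂ) * e - z)| ≤ ‖a - z‖ + ‖e‖ := by
    refine h2.trans ?_
    calc ‖w‖ * ‖a + (τ : ℂ) * e - z‖ ≤ 1 * (‖a - z‖ + ‖e‖) := by gcongr
      _ = _ := one_mul _
  calc _ ≤ 1 * ((‖a - z‖ + ‖e‖) * ‖e‖) := by gcongr
    _ = _ := one_mul _

theorem Vr_intOn {G : ℂ → ℝ → ℝ} (hG : LF G) (z a e : ℂ) : IntegrableOn (Vr G z a e) BV :=
  intOn_ball (Vr_meas hG z a e) (fun _ hw => Vr_abs hG z a e hw)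

theorem dt_cr (e w u : ℂ) : ‖e‖ ^ 2 * dt w u = dt e w * dt e u + cr e w * cr e u := by
  rw [← Complex.normSq_eq_norm_sq, Complex.normSq_apply]
  simp only [dt, cr]
  ring

theorem dt_diff {e : ℂ} (he : e ≠ 0) (w u : ℂ) :
    dt w u - dt (rl e w) u = 2 * (cr w e * (- cr e u)) / ‖e‖ ^ 2 := by
  have hn0 : ‖e‖ ^ 2 ≠ 0 := by
    have := norm_pos_iff.2 he
    positivity
  rw [eq_div_iff hn0]
  have h1 := dt_cr e w u
  have h2 := dt_cr e (rl e w) u
  rw [dt_rl he] at h2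
  have h3 := cr_rl_left he w
  rw [cr_swap] at h3
  have h4 : cr e (rl e w) = cr w e := by linarith
  rw [h4] at h2
  rw [cr_swap e w] at h1
  linarith

/-- The symmetric part of the contribution of a side. -/
theorem Vr_symm {G : ℂ → ℝ → ℝ} (hG : LF G) (z : ℂ) {a e : ℂ} (he : e ≠ 0) (hs : SymAt G a e) :
    ∀ᵐ w : ℂ, Vr G z a e w + Vr G z a e (rl e w) =
      2 * (cr e (z - a) / ‖e‖ ^ 2) *
        ((cr w e) ^ 2 * ∫ τ in (0 : ℝ)..1, G w (cr w (a + (τ : ℂ) * e))) := by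
  filter_upwards [hs] with w hw
  have h1 : Vr G z a e (rl e w) =
      ∫ τ in (0 : ℝ)..1, G w (cr w (a + (τ : ℂ) * e)) *
        (dt (rl e w) (a + (τ : ℂ) * e - z) * cr (rl e w) e) := by
    unfold Vr
    apply intervalIntegral.integral_congr_ae
    have h2 : ∀ᵐ τ : ℝ, τ ≠ 1 := by simp [ae_iff, measure_singleton]
    filter_upwards [hw, h2] with τ h3 h4 hτ
    rw [uIoc_of_le zero_le_one] at hτ
    rw [h3 ⟨hτ.1, lt_of_le_of_ne hτ.2 h4⟩]
  rw [h1]
  unfold Vr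
  have c1 : ∀ u : ℂ, Continuous (fun τ : ℝ => dt u (a + (τ : ℂ) * e - z) * cr u e) := by
    intro u
    unfold dt
    fun_prop
  rw [← intervalIntegral.integral_add (ii_mul hG a e w (c1 w)) (ii_mul hG a e w (c1 (rl e w))),
    ← mul_assoc, ← intervalIntegral.integral_const_mul]
  apply intervalIntegral.integral_congr
  intro τ _
  simp only
  rw [cr_rl_left he, ← mul_add]
  have h5 : dt w (a + (τ : ℂ) * e - z) * cr w e + dt (rl e w) (a + (τ : ℂ) * e - z) * -cr w e =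
      (dt w (a + (τ : ℂ) * e - z) - dt (rl e w) (a + (τ : ℂ) * e - z)) * cr w e := by ring
  rw [h5, dt_diff he]
  have h6 : cr e (a + (τ : ℂ) * e - z) = - cr e (z - a) := by
    simp only [cr_sub_right, cr_add_right, cr_smul_right, cr_self]
    ring
  rw [h6]
  ring

theorem Vr_integral {G : ℂ → ℝ → ℝ} (hG : LF G) (z : ℂ) {a e : ℂ} (he : e ≠ 0)
    (hs : SymAt G a e) :
    ∫ w in BV, Vr G z a e w = (cr e (z - a) / ‖e‖ ^ 2) *
      ∫ w in BV, (cr w e) ^ 2 * ∫ τ in (0 : ℝ)..1, G w (cr w (a + (τ : ℂ) * e)) := by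
  have i1 := Vr_intOn hG z a e
  have i2 : IntegrableOn (fun w => Vr G z a e (rl e w)) BV :=
    (mp_rl_BV he).integrable_comp_of_integrable i1
  have h1 := rl_integral he (Vr G z a e)
  have h2 : ∫ w in BV, (Vr G z a e w + Vr G z a e (rl e w)) =
      ∫ w in BV, 2 * (cr e (z - a) / ‖e‖ ^ 2) *
        ((cr w e) ^ 2 * ∫ τ in (0 : ℝ)..1, G w (cr w (a + (τ : ℂ) * e))) := by
    apply integral_congr_ae
    exact ae_restrict_of_ae (Vr_symm hG z he hs)
  rw [integral_add i1 i2, h1, integral_const_mul] at h2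
  linarith

/-- The virial identity. -/
theorem virial (hn : 3 ≤ n) (hv : ConvexIndependent ℝ v) {F : ℂ → ℝ → ℝ} (hF : LF F)
    (hs : ∀ i, SymAt F (v i) (v (nxt hn hv i) - v i)) (z : ℂ) :
    Cr v F ((0 : ℝ) : TT) = ∑ i, (cr (ed hn hv i) (z - v i) / ‖ed hn hv i‖ ^ 2) *
      ∫ w in BV, (cr w (ed hn hv i)) ^ 2 *
        ∫ τ in (0 : ℝ)..1, (F w (cr w (v i + (τ : ℂ) * ed hn hv i))) ^ 2 := by
  have hG := lf_sq hF
  set G : ℂ → ℝ → ℝ := fun w Q => F w Q ^ 2 with hGd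
  have hne : ∀ i, ed hn hv i ≠ 0 := fun i => v_sub_ne hv (nxt_side hn hv i).ne
  have hsum : ∀ i, (cr (ed hn hv i) (z - v i) / ‖ed hn hv i‖ ^ 2) *
      ∫ w in BV, (cr w (ed hn hv i)) ^ 2 *
        ∫ τ in (0 : ℝ)..1, (F w (cr w (v i + (τ : ℂ) * ed hn hv i))) ^ 2 =
      ∫ w in BV, Vr G z (v i) (ed hn hv i) w := fun i =>
    (Vr_integral hG z (hne i) (symAt_sq (hs i))).symm
  simp_rw [hsum]
  rw [← integral_finsetSum _ (fun i _ => Vr_intOn hG z (v i) (ed hn hv i))]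
  have h0 : Cr v F ((0 : ℝ) : TT) =
      ∫ w in BV, ∫ x in PP v, ‖w‖ ^ 2 * (F w (cr w x) * F w (cr w x)) := by
    have h1 := Gw_corr (v := v) hF 1
    simp only [Circle.coe_one, one_mul] at h1
    rw [Cr_zero]
    exact h1
  rw [h0]
  apply integral_congr_ae
  apply ae_restrict_of_ae
  filter_upwards [ae_generic hn hv] with w hw
  have h2 := green hn hv hw.1 hw.2 (F := G w) (hG.meas2 w) (fun Q => hG.bd w Q)
    (K := fun y => dt w (y - z)) (k := fun _ => ‖w‖ ^ 2) (by unfold dt; fun_prop)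
    measurable_const (C := ‖w‖ ^ 2) (fun y _ => by rw [abs_of_nonneg (by positivity)])
    (fun y s => by
      rw [intervalIntegral.integral_const, smul_eq_mul, sub_zero,
        ← Complex.normSq_eq_norm_sq, Complex.normSq_apply]
      simp only [dt, sub_re, sub_im, add_re, add_im, mul_re, mul_im, ofReal_re, ofReal_im]
      ring)
  have h3 : ∫ x in PP v, ‖w‖ ^ 2 * (F w (cr w x) * F w (cr w x)) =
      ∫ x in PP v, G w (cr w x) * ‖w‖ ^ 2 := by
    apply integral_congr_ae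
    refine Eventually.of_forall (fun x => ?_)
    simp only [hGd]
    ring
  rw [h3, h2]
  apply Finset.sum_congr rfl
  intro i _
  unfold Vr
  apply intervalIntegral.integral_congr
  intro τ _
  simp only
  ring

/-- The weighted mass of a side is controlled by the total mass. -/
theorem stVir (hn : 3 ≤ n) (hv : ConvexIndependent ℝ v) {F : ℂ → ℝ → ℝ} (hF : LF F)
    (hs : ∀ i, SymAt F (v i) (v (nxt hn hv i) - v i)) {z : ℂ} (hz : z ∈ PP v) (i : Fin n) :
    ∫ w in BV, (cr w (ed hn hv i)) ^ 2 *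
        ∫ τ in (0 : ℝ)..1, (F w (cr w (v i + (τ : ℂ) * ed hn hv i))) ^ 2 ≤
      (‖ed hn hv i‖ ^ 2 / cr (ed hn hv i) (z - v i)) * Cr v F ((0 : ℝ) : TT) := by
  have hne : ed hn hv i ≠ 0 := v_sub_ne hv (nxt_side hn hv i).ne
  have hpos : ∀ j, 0 < cr (ed hn hv j) (z - v j) := fun j => (nxt_side hn hv j).cr_pos hv hz
  have hn0 : 0 < ‖ed hn hv i‖ ^ 2 := by
    have := norm_pos_iff.2 hne
    positivity
  have hnn : ∀ j, 0 ≤ ∫ w in BV, (cr w (ed hn hv j)) ^ 2 *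
        ∫ τ in (0 : ℝ)..1, (F w (cr w (v j + (τ : ℂ) * ed hn hv j))) ^ 2 := by
    intro j
    apply integral_nonneg
    intro w
    simp only [Pi.zero_apply]
    refine mul_nonneg (sq_nonneg _) ?_
    apply intervalIntegral.integral_nonneg zero_le_one
    intro τ _
    exact sq_nonneg _
  have h1 := virial hn hv hF hs z
  have h2 := Finset.single_le_sum (f := fun i =>
    (cr (ed hn hv i) (z - v i) / ‖ed hn hv i‖ ^ 2) *
      ∫ w in BV, (cr w (ed hn hv i)) ^ 2 *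
        ∫ τ in (0 : ℝ)..1, (F w (cr w (v i + (τ : ℂ) * ed hn hv i))) ^ 2)
    (s := Finset.univ)
    (fun j _ => mul_nonneg (div_nonneg (hpos j).le (by positivity)) (hnn j)) (Finset.mem_univ i)
  rw [← h1] at h2
  rw [div_mul_eq_mul_div, le_div_iff₀ (hpos i)]
  rw [div_mul_eq_mul_div, div_le_iff₀ hn0] at h2
  linarith

end Pool.Agent.Lib.BilU
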